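import Pool.Agent.Helper647_PT.Defs
import Pool.Agent.W557.SDSPhi

set_option autoImplicit false

/-! Elementary arithmetic. -/

namespace Pool.Agent.Helper647.PT

open Finset

/-- comparison of nonnegative multiplicative functions -/
theorem mult_le (f g : ℕ → ℝ) (hf1 : f 1 = 1) (hg1 : g 1 = 1)
    (hfm : ∀ m n : ℕ, m.Coprime n → f (m * n) = f m * f n)
    (hgm : ∀ m n : ℕ, m.Coprime n → g (m * n) = g m * g n)
    (h : ∀ p k : ℕ, p.Prime → 1 ≤ k → 0 ≤ f (p ^ k) ∧ f (p ^ k) ≤ g (p ^ k)) :
    ∀ n : ℕ, 1 ≤ n → 0 ≤ f n ∧ f n ≤ g n := by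
  intro n
  induction n using Nat.recOnPosPrimePosCoprime with
  | prime_pow p k hp hk => exact fun _ => h p k hp hk
  | zero => intro h0; omega
  | one => intro _; rw [hf1, hg1]; norm_num
  | coprime a b ha hb hab iha ihb =>
    intro _
    obtain ⟨h1, h2⟩ := iha (by omega)
    obtain ⟨h3, h4⟩ := ihb (by omega)
    rw [hfm a b hab, hgm a b hab]
    exact ⟨mul_nonneg h1 h3, mul_le_mul h2 h4 h3 (h1.trans h2)⟩

/-- the power function -/
noncomputable def pw (s : ℝ) : ArithmeticFunction ℝ :=
  ⟨fun n => if n = 0 then 0 else (n : ℝ) ^ s, by simp⟩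

lemma pw_apply (s : ℝ) {n : ℕ} (hn : n ≠ 0) : pw s n = (n : ℝ) ^ s := if_neg hn

lemma pw_mult (s : ℝ) : (pw s).IsMultiplicative := by
  refine ⟨?_, ?_⟩
  · rw [pw_apply s one_ne_zero]; simp
  · intro m n _
    rcases Nat.eq_zero_or_pos m with rfl | hm
    · simp
    rcases Nat.eq_zero_or_pos n with rfl | hn
    · simp
    rw [pw_apply s (by positivity), pw_apply s (by omega), pw_apply s (by omega), Nat.cast_mul,
      Real.mul_rpow (Nat.cast_nonneg _) (Nat.cast_nonneg _)]

/-- the sum of the reciprocals of the divisors -/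
noncomputable def sig (k : ℕ) : ℝ := ∑ e ∈ k.divisors, (1 : ℝ) / e

lemma sig_eq (k : ℕ) : sig k = (pw (-1) * ((ArithmeticFunction.zeta : ArithmeticFunction ℕ) :
    ArithmeticFunction ℝ)) k := by
  rw [ArithmeticFunction.coe_mul_zeta_apply]
  unfold sig
  refine Finset.sum_congr rfl fun e he => ?_
  rw [pw_apply _ (Nat.pos_of_mem_divisors he).ne', Real.rpow_neg_one, one_div]

lemma sig_mul (m n : ℕ) (h : m.Coprime n) : sig (m * n) = sig m * sig n := by
  rw [sig_eq, sig_eq, sig_eq]
  exact ((pw_mult (-1)).mul ArithmeticFunction.isMultiplicative_zeta.natCast).2 h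

lemma sig_nonneg (k : ℕ) : 0 ≤ sig k := Finset.sum_nonneg fun e _ => by positivity

/-- `∑_{e ∣ k} 1 / e ≤ k / φ(k)` -/
theorem sig_le {k : ℕ} (hk : 1 ≤ k) : sig k ≤ k / (Nat.totient k : ℝ) := by
  refine (mult_le sig (fun k => (k : ℝ) / (Nat.totient k : ℝ)) ?_ ?_ sig_mul ?_ ?_ k hk).2
  · unfold sig; simp
  · simp
  · intro m n h
    rw [Nat.totient_mul h]
    push_cast
    rw [mul_div_mul_comm]
  · intro p k hp hk
    refine ⟨sig_nonneg _, ?_⟩
    have hp1 : (1 : ℝ) < p := by exact_mod_cast hp.one_lt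
    have hp0 : (0 : ℝ) < p := by linarith
    unfold sig
    rw [Nat.sum_divisors_prime_pow hp, Nat.totient_prime_pow hp hk]
    have h1 : ∀ n : ℕ, ∑ i ∈ Finset.range n, (1 : ℝ) / ((p ^ i : ℕ) : ℝ) =
        (1 - (1 / p) ^ n) * (p / (p - 1)) := by
      intro n
      have hr : (1 / p : ℝ) ≠ 1 := by
        intro h
        rw [div_eq_one_iff_eq hp0.ne'] at h
        linarith
      have h2 := geom_sum_eq hr n
      have h3 : ∑ i ∈ Finset.range n, (1 : ℝ) / ((p ^ i : ℕ) : ℝ) =
          ∑ i ∈ Finset.range n, (1 / p : ℝ) ^ i := by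
        refine Finset.sum_congr rfl fun i _ => ?_
        push_cast
        rw [div_pow, one_pow]
      rw [h3, h2]
      have h4 : (p : ℝ) - 1 ≠ 0 := by linarith
      have h4' : (1 : ℝ) - p ≠ 0 := by linarith
      have e1 : (1 / p - 1 : ℝ) = -((p - 1) / p) := by field_simp; ring
      rw [e1, div_neg, div_div_eq_mul_div]
      rw [show (1 - (1 / p : ℝ) ^ n) * (p / (p - 1)) = (1 - (1 / p : ℝ) ^ n) * p / (p - 1) by ring,
        ← neg_div]
      congr 1
      ring
    rw [h1]
    have h5 : (((p ^ k : ℕ)) : ℝ) / ((p ^ (k - 1) * (p - 1) : ℕ) : ℝ) = p / (p - 1) := by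
      have e : p ^ k = p ^ (k - 1) * p := by
        rw [← pow_succ]; congr 1; omega
      rw [e]
      push_cast [Nat.cast_sub hp.one_lt.le]
      have h6 : ((p : ℝ) ^ (k - 1)) ≠ 0 := by positivity
      rw [mul_div_mul_left _ _ h6]
    rw [h5]
    have h7 : 0 ≤ (1 / p : ℝ) ^ (k + 1) := by positivity
    have h8 : 0 < (p : ℝ) / (p - 1) := div_pos hp0 (by linarith)
    nlinarith

/-- the number of squarefree divisors -/
lemma card_sqf {k : ℕ} (hk : 1 ≤ k) :
    ((k.divisors.filter Squarefree).card : ℝ) = 2 ^ k.primeFactors.card := by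
  have h := Nat.sum_divisors_filter_squarefree (n := k) (by omega) (f := fun _ => (1 : ℕ))
  rw [Finset.sum_const, Finset.sum_const, Finset.card_powerset] at h
  simp only [smul_eq_mul, mul_one] at h
  rw [h]
  have : (UniqueFactorizationMonoid.normalizedFactors k).toFinset = k.primeFactors := by
    rw [Nat.factors_eq]
    rfl
  rw [this]
  push_cast
  rfl

/-- the finite sum over the divisors -/
noncomputable def TT (k : ℕ) : ℝ := ∑ d₁ ∈ k.divisors, ∑ d₂ ∈ k.divisors,
  if k ∣ d₁ * d₂ then (|al d₁| / d₁) * (|al d₂| / d₂) else 0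

lemma al_prod_le (a b e k : ℕ) (hab : a * b = k) (hk : 1 ≤ k) :
    |al a| * |al (b * e)| ≤ (1 / 2) ^ k.primeFactors.card := by
  by_cases h1 : Squarefree a
  · by_cases h2 : Squarefree (b * e)
    · have hbe : b.Coprime e := Nat.coprime_of_squarefree_mul h2
      have h3 := (Nat.squarefree_mul hbe).1 h2
      have ha : |al a| = (1 / 2) ^ a.primeFactors.card := by
        unfold al
        rw [if_pos h1, abs_pow]
        norm_num [abs_of_neg]
      have hb : |al b| = (1 / 2) ^ b.primeFactors.card := by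
        unfold al
        rw [if_pos h3.1, abs_pow]
        norm_num [abs_of_neg]
      have ha0 : a ≠ 0 := h1.ne_zero
      have hb0 : b ≠ 0 := h3.1.ne_zero
      rw [al_mul hbe, abs_mul, ha, hb]
      have h4 : |al e| ≤ 1 := al_abs e
      have h5 : k.primeFactors.card ≤ a.primeFactors.card + b.primeFactors.card := by
        rw [← hab, Nat.primeFactors_mul ha0 hb0]
        exact Finset.card_union_le _ _
      calc (1 / 2 : ℝ) ^ a.primeFactors.card * ((1 / 2) ^ b.primeFactors.card * |al e|)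
          ≤ (1 / 2 : ℝ) ^ a.primeFactors.card * ((1 / 2) ^ b.primeFactors.card * 1) := by gcongr
        _ = (1 / 2) ^ (a.primeFactors.card + b.primeFactors.card) := by rw [mul_one, pow_add]
        _ ≤ _ := pow_le_pow_of_le_one (by norm_num) (by norm_num) h5
    · have : al (b * e) = 0 := if_neg h2
      rw [this, abs_zero, mul_zero]
      positivity
  · have : al a = 0 := if_neg h1
    rw [this, abs_zero, zero_mul]
    positivity

theorem TT_le {k : ℕ} (hk : 1 ≤ k) : TT k ≤ 1 / (Nat.totient k : ℝ) := by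
  have hk0 : (0 : ℝ) < k := by exact_mod_cast hk
  unfold TT
  have h1 : ∀ d₁ ∈ k.divisors, ∑ d₂ ∈ k.divisors,
      (if k ∣ d₁ * d₂ then (|al d₁| / d₁) * (|al d₂| / d₂) else 0) ≤
      if Squarefree d₁ then (1 / 2) ^ k.primeFactors.card * (1 / k) * sig k else 0 := by
    intro d₁ hd₁
    have hd0 : 0 < d₁ := Nat.pos_of_mem_divisors hd₁
    obtain ⟨b, hb⟩ := Nat.dvd_of_mem_divisors hd₁
    have hb0 : 0 < b := by
      rcases Nat.eq_zero_or_pos b with h | h
      · rw [h, mul_zero] at hb; omega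
      · exact h
    split_ifs with hsq
    · rw [← Finset.sum_filter]
      have h2 : k.divisors.filter (fun d₂ => k ∣ d₁ * d₂) = d₁.divisors.image (fun e => b * e) := by
        ext d
        simp only [Finset.mem_filter, Finset.mem_image, Nat.mem_divisors]
        constructor
        · rintro ⟨⟨h3, h4⟩, h5⟩
          have h6 : b ∣ d := by
            rw [hb] at h5
            exact Nat.dvd_of_mul_dvd_mul_left hd0 h5
          obtain ⟨e, rfl⟩ := h6
          refine ⟨e, ⟨?_, by omega⟩, rfl⟩
          rw [hb, mul_comm d₁ b] at h3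
          exact Nat.dvd_of_mul_dvd_mul_left hb0 h3
        · rintro ⟨e, ⟨h3, h4⟩, rfl⟩
          refine ⟨⟨?_, by omega⟩, ?_⟩
          · rw [hb, mul_comm d₁ b]
            exact Nat.mul_dvd_mul_left b h3
          · rw [hb, ← mul_assoc]
            exact Dvd.intro _ rfl
      rw [h2, Finset.sum_image (fun x _ y _ hxy => Nat.eq_of_mul_eq_mul_left hb0 hxy)]
      have h3 : ∀ e ∈ d₁.divisors, |al d₁| / (d₁ : ℝ) * (|al (b * e)| / ((b * e : ℕ) : ℝ)) ≤
          (1 / 2) ^ k.primeFactors.card * (1 / k) * (1 / e) := by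
        intro e he
        have he0 : 0 < e := Nat.pos_of_mem_divisors he
        have he' : (0 : ℝ) < e := by exact_mod_cast he0
        have hd' : (0 : ℝ) < d₁ := by exact_mod_cast hd0
        have hb' : (0 : ℝ) < b := by exact_mod_cast hb0
        have h4 := al_prod_le d₁ b e k hb.symm hk
        have hkr : (k : ℝ) = d₁ * b := by exact_mod_cast hb
        calc |al d₁| / (d₁ : ℝ) * (|al (b * e)| / ((b * e : ℕ) : ℝ))
            = (|al d₁| * |al (b * e)|) * ((1 / k) * (1 / e)) := by
              push_cast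
              rw [hkr]
              field_simp
          _ ≤ (1 / 2) ^ k.primeFactors.card * ((1 / k) * (1 / e)) :=
              mul_le_mul_of_nonneg_right h4 (by positivity)
          _ = _ := by ring
      refine (Finset.sum_le_sum h3).trans ?_
      rw [← Finset.mul_sum]
      refine mul_le_mul_of_nonneg_left ?_ (by positivity)
      unfold sig
      exact Finset.sum_le_sum_of_subset_of_nonneg
        (Nat.divisors_subset_of_dvd (by omega) ⟨b, hb⟩) fun e _ _ => by positivity
    · have : al d₁ = 0 := if_neg hsq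
      refine (Finset.sum_eq_zero fun d₂ _ => ?_).le
      rw [this, abs_zero, zero_div, zero_mul, ite_self]
  refine (Finset.sum_le_sum h1).trans ?_
  rw [← Finset.sum_filter, Finset.sum_const, nsmul_eq_mul, card_sqf hk]
  have h2 := sig_le hk
  have hφ : (0 : ℝ) < (Nat.totient k : ℝ) := by exact_mod_cast Nat.totient_pos.2 hk
  have e : (2 : ℝ) ^ k.primeFactors.card * ((1 / 2) ^ k.primeFactors.card * (1 / k) * sig k) =
      (1 / k) * sig k := by
    rw [← mul_assoc, ← mul_assoc, ← mul_pow]
    norm_num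
  rw [e]
  calc (1 / k : ℝ) * sig k ≤ (1 / k) * (k / (Nat.totient k : ℝ)) :=
        mul_le_mul_of_nonneg_left h2 (by positivity)
    _ = _ := by field_simp

lemma TT_nonneg (k : ℕ) : 0 ≤ TT k := by
  unfold TT
  refine Finset.sum_nonneg fun d₁ _ => Finset.sum_nonneg fun d₂ _ => ?_
  split_ifs
  · positivity
  · exact le_rfl

end Pool.Agent.Helper647.PT
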