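import Pool.Agent.Helper647_PT.Ar1

set_option autoImplicit false

/-! The sum of `k³ / φ(k)⁴` and Jordan's totient. -/

namespace Pool.Agent.Helper647.PT

open Finset

theorem local_le4 (p : ℕ) (hp : p.Prime) :
    (1 - (p : ℝ)⁻¹)⁻¹ ^ 4 ≤ (if p < 400 then 16 else 1) * (1 + (p : ℝ) ^ (-(1/2) : ℝ)) := by
  have h2 : (2 : ℝ) ≤ p := by exact_mod_cast hp.two_le
  have hp0 : (0 : ℝ) < p := by linarith
  have hs : 0 < (p : ℝ) ^ (-(1/2) : ℝ) := Real.rpow_pos_of_pos hp0 _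
  have h3 : (p : ℝ)⁻¹ ≤ 1/2 := by
    rw [one_div]
    exact inv_anti₀ (by norm_num) h2
  have h4 : (1 - (p : ℝ)⁻¹)⁻¹ ≤ 2 := by
    rw [inv_le_comm₀ (by linarith) (by norm_num)]; linarith
  have h5 : 0 < (1 - (p : ℝ)⁻¹)⁻¹ := inv_pos.mpr (by linarith)
  split_ifs with h
  · have : (1 - (p : ℝ)⁻¹)⁻¹ ^ 4 ≤ 2 ^ 4 := pow_le_pow_left₀ h5.le h4 4
    have e4 : (2 : ℝ) ^ 4 = 16 := by norm_num
    rw [e4] at this
    nlinarith
  · push Not at h
    have h6 : (400 : ℝ) ≤ p := by exact_mod_cast h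
    have h7 : (20 : ℝ) * (p : ℝ)⁻¹ ≤ (p : ℝ) ^ (-(1/2) : ℝ) := by
      have h8 : (p : ℝ)⁻¹ = (p : ℝ) ^ (-(1/2) : ℝ) * (p : ℝ) ^ (-(1/2) : ℝ) := by
        rw [← Real.rpow_add hp0]; norm_num [Real.rpow_neg_one]
      have h9 : (p : ℝ) ^ (-(1/2) : ℝ) ≤ 20⁻¹ := by
        rw [Real.rpow_neg hp0.le, ← Real.sqrt_eq_rpow]
        apply inv_anti₀ (by norm_num)
        rw [show (20:ℝ) = Real.sqrt 400 by
          rw [show (400:ℝ) = 20 ^ 2 by norm_num, Real.sqrt_sq (by norm_num)]]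
        exact Real.sqrt_le_sqrt h6
      rw [h8]
      nlinarith
    have h10 : (1 - (p : ℝ)⁻¹)⁻¹ ^ 4 ≤ 1 + 20 * (p : ℝ)⁻¹ := by
      have hx0 : 0 < (p : ℝ)⁻¹ := inv_pos.mpr hp0
      have hx1 : (p : ℝ)⁻¹ ≤ 1 / 400 := by
        rw [one_div]; exact inv_anti₀ (by norm_num) h6
      generalize (p : ℝ)⁻¹ = x at hx0 hx1
      have h11 : (1 - x)⁻¹ ≤ 1 + 2 * x := by
        rw [inv_le_iff_one_le_mul₀ (by linarith)]
        nlinarith
      have h12 : 0 ≤ (1 - x)⁻¹ := inv_nonneg.2 (by linarith)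
      have h13 : (1 - x)⁻¹ ^ 4 ≤ (1 + 2 * x) ^ 4 := pow_le_pow_left₀ h12 h11 4
      refine h13.trans ?_
      have h14 : (1 + 2 * x) ^ 2 ≤ 1 + 5 * x := by nlinarith
      have h15 : (1 + 2 * x) ^ 4 ≤ (1 + 5 * x) ^ 2 := by
        have : (1 + 2 * x) ^ 4 = ((1 + 2 * x) ^ 2) ^ 2 := by ring
        rw [this]
        exact pow_le_pow_left₀ (by positivity) h14 2
      nlinarith
    linarith

theorem ratio_pow4 (k : ℕ) (hk : 1 ≤ k) :
    ((k : ℝ) / (Nat.totient k : ℝ)) ^ 4 = ∏ p ∈ k.primeFactors, (1 - (p : ℝ)⁻¹)⁻¹ ^ 4 := by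
  have h := Nat.totient_eq_mul_prod_factors k
  have h' : (Nat.totient k : ℝ) = k * ∏ p ∈ k.primeFactors, (1 - (p : ℝ)⁻¹) := by
    have := congrArg (fun q : ℚ => (q : ℝ)) h
    push_cast at this
    exact this
  have hk0 : (k : ℝ) ≠ 0 := by
    have : (1 : ℝ) ≤ k := by exact_mod_cast hk
    linarith
  rw [h', div_mul_cancel_left₀ hk0, prod_pow, prod_inv_distrib]

theorem ratio4_le (k : ℕ) (hk : 1 ≤ k) :
    ((k : ℝ) / (Nat.totient k : ℝ)) ^ 4 ≤ 16 ^ 400 * ∑ d ∈ k.divisors, (d : ℝ) ^ (-(1/2) : ℝ) := by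
  rw [ratio_pow4 k hk]
  have hpr : ∀ p ∈ k.primeFactors, p.Prime := fun p hp => Nat.prime_of_mem_primeFactors hp
  calc ∏ p ∈ k.primeFactors, (1 - (p : ℝ)⁻¹)⁻¹ ^ 4
      ≤ ∏ p ∈ k.primeFactors, ((if p < 400 then (16:ℝ) else 1) * (1 + (p : ℝ) ^ (-(1/2) : ℝ))) :=
        prod_le_prod (fun p _ => by positivity) (fun p hp => local_le4 p (hpr p hp))
    _ = (∏ p ∈ k.primeFactors, (if p < 400 then (16:ℝ) else 1)) *
          ∏ p ∈ k.primeFactors, (1 + (p : ℝ) ^ (-(1/2) : ℝ)) := prod_mul_distrib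
    _ ≤ 16 ^ 400 * ∑ d ∈ k.divisors, (d : ℝ) ^ (-(1/2) : ℝ) := by
        apply mul_le_mul
        · rw [← prod_filter]
          rw [prod_const]
          apply pow_le_pow_right₀ (by norm_num)
          calc (k.primeFactors.filter (fun p => p < 400)).card ≤ (range 400).card := by
                apply card_le_card
                intro p hp
                rw [mem_filter] at hp
                exact mem_range.mpr hp.2
            _ = 400 := card_range 400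
        · rw [prod_one_add]
          have h1 : ∀ s ∈ k.primeFactors.powerset, ∏ p ∈ s, (p : ℝ) ^ (-(1/2) : ℝ) =
              ((∏ p ∈ s, p : ℕ) : ℝ) ^ (-(1/2) : ℝ) := by
            intro s _
            rw [Real.finsetProd_rpow _ _ (fun p _ => by positivity)]
            push_cast
            rfl
          rw [sum_congr rfl h1]
          have hinj : Set.InjOn (fun s : Finset ℕ => ∏ p ∈ s, p)
              (k.primeFactors.powerset : Set (Finset ℕ)) := by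
            intro s hs t ht hst
            rw [mem_coe, mem_powerset] at hs ht
            have e1 := Nat.primeFactors_prod (s := s) (fun p hp => hpr p (hs hp))
            have e2 := Nat.primeFactors_prod (s := t) (fun p hp => hpr p (ht hp))
            simp only at hst
            rw [← e1, ← e2, hst]
          rw [← sum_image (f := fun d : ℕ => (d : ℝ) ^ (-(1/2) : ℝ)) hinj]
          apply sum_le_sum_of_subset_of_nonneg
          · intro d hd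
            rw [mem_image] at hd
            obtain ⟨s, hs, rfl⟩ := hd
            rw [mem_powerset] at hs
            rw [Nat.mem_divisors]
            refine ⟨?_, by omega⟩
            exact (prod_dvd_prod_of_subset _ _ _ hs).trans (Nat.prod_primeFactors_dvd k)
          · intro d _ _
            positivity
        · exact prod_nonneg fun p _ => by positivity
        · positivity

theorem term4_le (k : ℕ) (hk : 1 ≤ k) :
    (k : ℝ) ^ 3 / (Nat.totient k : ℝ) ^ 4 ≤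
      16 ^ 400 * ∑ x ∈ k.divisorsAntidiagonal, (x.1 : ℝ) ^ (-(3/2) : ℝ) * (x.2 : ℝ)⁻¹ := by
  have hk0 : (0 : ℝ) < k := by exact_mod_cast hk
  have h1 : (k : ℝ) ^ 3 / (Nat.totient k : ℝ) ^ 4 =
      (k : ℝ)⁻¹ * ((k : ℝ) / (Nat.totient k : ℝ)) ^ 4 := by
    field_simp
  rw [h1]
  calc (k : ℝ)⁻¹ * ((k : ℝ) / (Nat.totient k : ℝ)) ^ 4
      ≤ (k : ℝ)⁻¹ * (16 ^ 400 * ∑ d ∈ k.divisors, (d : ℝ) ^ (-(1/2) : ℝ)) := by
        apply mul_le_mul_of_nonneg_left (ratio4_le k hk) (by positivity)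
    _ = 16 ^ 400 * ∑ d ∈ k.divisors, (k : ℝ)⁻¹ * (d : ℝ) ^ (-(1/2) : ℝ) := by
        rw [← mul_sum]; ring
    _ = 16 ^ 400 * ∑ x ∈ k.divisorsAntidiagonal, (x.1 : ℝ) ^ (-(3/2) : ℝ) * (x.2 : ℝ)⁻¹ := by
        rw [Nat.sum_divisorsAntidiagonal
          (f := fun a b => (a : ℝ) ^ (-(3/2) : ℝ) * (b : ℝ)⁻¹)]
        congr 1
        apply sum_congr rfl
        intro d hd
        obtain ⟨⟨m, rfl⟩, _⟩ := Nat.mem_divisors.mp hd
        have hd0 : 0 < d := Nat.pos_of_mem_divisors hd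
        have hd' : (0 : ℝ) < d := by exact_mod_cast hd0
        rw [Nat.mul_div_cancel_left m hd0]
        push_cast
        have e : (d : ℝ) ^ (-(3/2) : ℝ) = (d : ℝ)⁻¹ * (d : ℝ) ^ (-(1/2) : ℝ) := by
          rw [← Real.rpow_neg_one, ← Real.rpow_add hd']; norm_num
        rw [e, mul_inv]
        ring

theorem phi4 : ∃ C : ℝ, 0 < C ∧ ∀ y : ℕ,
    ∑ k ∈ Icc 1 y, (k : ℝ) ^ 3 / (Nat.totient k : ℝ) ^ 4 ≤ C * (1 + Real.log y) := by
  have hsum : Summable (fun d : ℕ => (d : ℝ) ^ (-(3/2) : ℝ)) :=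
    Real.summable_nat_rpow.mpr (by norm_num)
  have hpos : 0 < ∑' d : ℕ, (d : ℝ) ^ (-(3/2) : ℝ) :=
    hsum.tsum_pos (fun d => by positivity) 1 (by norm_num)
  obtain ⟨A, hA⟩ : ∃ A : ℝ, A = 16 ^ 400 := ⟨_, rfl⟩
  have hA0 : 0 < A := by rw [hA]; positivity
  refine ⟨A * ∑' d : ℕ, (d : ℝ) ^ (-(3/2) : ℝ), by positivity, fun y => ?_⟩
  calc ∑ k ∈ Icc 1 y, (k : ℝ) ^ 3 / (Nat.totient k : ℝ) ^ 4
      ≤ ∑ k ∈ Icc 1 y, (A * ∑ x ∈ k.divisorsAntidiagonal,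
          (x.1 : ℝ) ^ (-(3/2) : ℝ) * (x.2 : ℝ)⁻¹) := by
        apply sum_le_sum
        intro k hk
        rw [mem_Icc] at hk
        rw [hA]
        exact term4_le k hk.1
    _ = A * (∑ k ∈ Icc 1 y, ∑ x ∈ k.divisorsAntidiagonal,
          (x.1 : ℝ) ^ (-(3/2) : ℝ) * (x.2 : ℝ)⁻¹) := by
        rw [← mul_sum]
    _ ≤ A * ((∑' d : ℕ, (d : ℝ) ^ (-(3/2) : ℝ)) * (1 + Real.log y)) := by
        apply mul_le_mul_of_nonneg_left (Pool.Agent.W557.SDSPhi.sum_le y) hA0.le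
    _ = _ := by ring

/-- Jordan's totient with a real exponent -/
noncomputable def Jt (s : ℝ) (n : ℕ) : ℝ :=
  (((ArithmeticFunction.moebius : ArithmeticFunction ℤ) : ArithmeticFunction ℝ) * pw s) n

lemma Jt_mul (s : ℝ) (m n : ℕ) (h : m.Coprime n) : Jt s (m * n) = Jt s m * Jt s n :=
  (ArithmeticFunction.isMultiplicative_moebius.intCast.mul (pw_mult s)).2 h

lemma Jt_one (s : ℝ) : Jt s 1 = 1 :=
  (ArithmeticFunction.isMultiplicative_moebius.intCast.mul (pw_mult s)).1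

lemma Jt_sum (s : ℝ) {n : ℕ} (hn : 1 ≤ n) : ∑ k ∈ n.divisors, Jt s k = (n : ℝ) ^ s := by
  have h1 : ((((ArithmeticFunction.moebius : ArithmeticFunction ℤ) : ArithmeticFunction ℝ) * pw s) *
      ((ArithmeticFunction.zeta : ArithmeticFunction ℕ) : ArithmeticFunction ℝ)) = pw s := by
    have h2 := ArithmeticFunction.coe_moebius_mul_coe_zeta (R := ℝ)
    rw [mul_comm _ (pw s), mul_assoc, h2, mul_one]
  have h3 := DFunLike.congr_fun h1 n
  rw [ArithmeticFunction.coe_mul_zeta_apply, pw_apply s (by omega)] at h3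
  exact h3

lemma Jt_prime_pow (s : ℝ) (hs : 0 ≤ s) {p k : ℕ} (hp : p.Prime) (hk : 1 ≤ k) :
    0 ≤ Jt s (p ^ k) ∧ Jt s (p ^ k) ≤ ((p ^ k : ℕ) : ℝ) ^ s := by
  have hp1 : 1 ≤ p := hp.one_lt.le
  have h1 := Jt_sum s (n := p ^ k) (Nat.one_le_pow _ _ hp1)
  have h2 := Jt_sum s (n := p ^ (k - 1)) (Nat.one_le_pow _ _ hp1)
  rw [Nat.sum_divisors_prime_pow hp] at h1 h2
  have e : k - 1 + 1 = k := by omega
  rw [e] at h2
  rw [Finset.sum_range_succ, h2] at h1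
  have h3 : ((p ^ (k - 1) : ℕ) : ℝ) ^ s ≤ ((p ^ k : ℕ) : ℝ) ^ s := by
    refine Real.rpow_le_rpow (Nat.cast_nonneg _) ?_ hs
    exact_mod_cast Nat.pow_le_pow_right hp1 (by omega)
  have h4 : 0 ≤ ((p ^ (k - 1) : ℕ) : ℝ) ^ s := Real.rpow_nonneg (Nat.cast_nonneg _) _
  constructor <;> linarith

theorem Jt_bd (s : ℝ) (hs : 0 ≤ s) {n : ℕ} (hn : 1 ≤ n) : 0 ≤ Jt s n ∧ Jt s n ≤ (n : ℝ) ^ s := by
  refine mult_le (Jt s) (fun n => (n : ℝ) ^ s) (Jt_one s) (by simp) (Jt_mul s) ?_ ?_ n hn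
  · intro m n _
    push_cast
    exact Real.mul_rpow (Nat.cast_nonneg _) (Nat.cast_nonneg _)
  · intro p k hp hk
    exact Jt_prime_pow s hs hp hk

end Pool.Agent.Helper647.PT
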