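import Pool.Agent.Helper647_PT.Ar2
import Pool.Agent.W368.SD.SMo

set_option autoImplicit false

/-! The bound for the sums `r_k`. -/

namespace Pool.Agent.Helper647.PT

open Complex Filter Topology MeasureTheory Set
open Pool.Agent.H24R2.DZ (ph MM cc rr SFour SInvZ SAN)
open Pool.Agent.W368.SD (ss ss_re rho rho_int rho_pos rho_mul FT cpow_cont cpow_norm cpow_norm_le
  cpow1_norm cpow1_cont)

open Classical in
/-- splitting of a sum over squarefree numbers according to the common divisor with `k` -/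
theorem split_sum {k : ℕ} (hk : 1 ≤ k) (Y : ℕ) (F : ℕ → ℂ) (hF : ∀ h, F h ≠ 0 → Squarefree h ∧ h ≤ Y) :
    ∑ h ∈ Finset.Icc 1 Y, F h =
      ∑ d ∈ k.divisors, ∑ m ∈ Finset.Icc 1 Y, if m.Coprime k then F (d * m) else 0 := by
  rw [← Finset.sum_product', ← Finset.sum_filter_ne_zero (s := Finset.Icc 1 Y),
    ← Finset.sum_filter_ne_zero (s := k.divisors ×ˢ Finset.Icc 1 Y)]
  refine Finset.sum_nbij' (fun h => (Nat.gcd h k, h / Nat.gcd h k)) (fun x => x.1 * x.2) ?_ ?_ ?_ ?_ ?_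
  · intro h hh
    rw [Finset.mem_filter, Finset.mem_Icc] at hh
    obtain ⟨⟨h1, h2⟩, h3⟩ := hh
    obtain ⟨hsq, -⟩ := hF h h3
    have hg : Nat.gcd h k ∣ h := Nat.gcd_dvd_left h k
    have hg0 : 0 < Nat.gcd h k := Nat.gcd_pos_of_pos_left k h1
    have hmul : Nat.gcd h k * (h / Nat.gcd h k) = h := Nat.mul_div_cancel' hg
    have hcop : (h / Nat.gcd h k).Coprime k := by
      have hsq' : Squarefree (Nat.gcd h k * (h / Nat.gcd h k)) := by rw [hmul]; exact hsq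
      have hc1 : (Nat.gcd h k).Coprime (h / Nat.gcd h k) := Nat.coprime_of_squarefree_mul hsq'
      have h4 : Nat.gcd (h / Nat.gcd h k) k ∣ Nat.gcd h k :=
        Nat.gcd_dvd_gcd_of_dvd_left k (Nat.div_dvd_of_dvd hg)
      have h5 : Nat.gcd (h / Nat.gcd h k) k ∣ h / Nat.gcd h k := Nat.gcd_dvd_left _ _
      exact Nat.eq_one_of_dvd_coprimes hc1 h4 h5
    rw [Finset.mem_filter, Finset.mem_product, Nat.mem_divisors, Finset.mem_Icc]
    refine ⟨⟨⟨Nat.gcd_dvd_right h k, by omega⟩, ?_, ?_⟩, ?_⟩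
    · exact Nat.div_pos (Nat.le_of_dvd h1 hg) hg0
    · exact (Nat.div_le_self _ _).trans h2
    · simp only
      rw [if_pos hcop, hmul]
      exact h3
  · intro x hx
    rw [Finset.mem_filter, Finset.mem_product, Nat.mem_divisors, Finset.mem_Icc] at hx
    obtain ⟨⟨⟨h1, h2⟩, h3, h4⟩, h5⟩ := hx
    rw [Finset.mem_filter, Finset.mem_Icc]
    have h6 : F (x.1 * x.2) ≠ 0 := by
      intro h6
      apply h5
      rw [h6, ite_self]
    refine ⟨⟨?_, (hF _ h6).2⟩, h6⟩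
    exact Nat.mul_pos (Nat.pos_of_dvd_of_pos h1 hk) h3
  · intro h hh
    exact Nat.mul_div_cancel' (Nat.gcd_dvd_left h k)
  · intro x hx
    rw [Finset.mem_filter, Finset.mem_product, Nat.mem_divisors, Finset.mem_Icc] at hx
    obtain ⟨⟨⟨h1, h2⟩, h3, h4⟩, h5⟩ := hx
    have hcop : x.2.Coprime k := by
      by_contra hc
      rw [if_neg hc] at h5
      exact h5 rfl
    have hx1 : 0 < x.1 := Nat.pos_of_dvd_of_pos h1 hk
    have h6 : Nat.gcd (x.1 * x.2) k = x.1 := by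
      rw [Nat.Coprime.gcd_mul_right_cancel _ hcop]
      exact Nat.gcd_eq_left h1
    ext
    · exact h6
    · simp only
      rw [h6]
      exact Nat.mul_div_cancel_left _ hx1
  · intro h hh
    rw [Finset.mem_filter, Finset.mem_Icc] at hh
    obtain ⟨⟨h1, h2⟩, h3⟩ := hh
    obtain ⟨hsq, -⟩ := hF h h3
    have hg : Nat.gcd h k ∣ h := Nat.gcd_dvd_left h k
    have hmul : Nat.gcd h k * (h / Nat.gcd h k) = h := Nat.mul_div_cancel' hg
    have hcop : (h / Nat.gcd h k).Coprime k := by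
      have hsq' : Squarefree (Nat.gcd h k * (h / Nat.gcd h k)) := by rw [hmul]; exact hsq
      have hc1 : (Nat.gcd h k).Coprime (h / Nat.gcd h k) := Nat.coprime_of_squarefree_mul hsq'
      have h4 : Nat.gcd (h / Nat.gcd h k) k ∣ Nat.gcd h k :=
        Nat.gcd_dvd_gcd_of_dvd_left k (Nat.div_dvd_of_dvd hg)
      have h5 : Nat.gcd (h / Nat.gcd h k) k ∣ h / Nat.gcd h k := Nat.gcd_dvd_left _ _
      exact Nat.eq_one_of_dvd_coprimes hc1 h4 h5
    simp only
    rw [if_pos hcop, hmul]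

/-- the inner sums -/
noncomputable def gi (L κ : ℝ) (Y k d : ℕ) : ℂ :=
  ∑ m ∈ Finset.Icc 1 Y, if m.Coprime k then be L κ (d * m) / ((d * m : ℕ) : ℂ) else 0

lemma be_ne {L κ : ℝ} {h : ℕ} (hb : be L κ h ≠ 0) : bR L h ≠ 0 := by
  intro h0
  apply hb
  unfold be
  rw [h0]
  simp

lemma be_supp {L κ : ℝ} (hL : 0 < L) {Y : ℕ} (hY : Real.exp (1 / 1000 * L) ≤ Y) (h : ℕ)
    (hb : be L κ h ≠ 0) : Squarefree h ∧ h ≤ Y :=
  ⟨bR_sq (be_ne hb), bR_supp hL hY (be_ne hb)⟩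

theorem RD_split {L κ : ℝ} (hL : 0 < L) {Y k : ℕ} (hY : Real.exp (1 / 1000 * L) ≤ Y) (hk : 1 ≤ k) :
    RD Y (be L κ) k = ∑ d₁ ∈ k.divisors, ∑ d₂ ∈ k.divisors,
      if k ∣ d₁ * d₂ then gi L κ Y k d₁ * gi L κ Y k d₂ else 0 := by
  have hdvd : ∀ d₁ m₁ d₂ m₂ : ℕ, m₁.Coprime k → m₂.Coprime k →
      (k ∣ (d₁ * m₁) * (d₂ * m₂) ↔ k ∣ d₁ * d₂) := by
    intro d₁ m₁ d₂ m₂ h1 h2
    have e : (d₁ * m₁) * (d₂ * m₂) = (d₁ * d₂) * (m₁ * m₂) := by ring
    rw [e]
    exact Nat.Coprime.dvd_mul_right (Nat.Coprime.mul_right h1.symm h2.symm)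
  unfold RD
  rw [split_sum hk Y (fun h₁ => ∑ h₂ ∈ Finset.Icc 1 Y,
    if k ∣ h₁ * h₂ then (be L κ h₁ / h₁) * (be L κ h₂ / h₂) else 0)]
  · refine Finset.sum_congr rfl fun d₁ hd₁ => ?_
    have h1 : ∀ m₁ ∈ Finset.Icc 1 Y, (if m₁.Coprime k then ∑ h₂ ∈ Finset.Icc 1 Y,
        (if k ∣ (d₁ * m₁) * h₂ then (be L κ (d₁ * m₁) / ((d₁ * m₁ : ℕ) : ℂ)) * (be L κ h₂ / h₂) else 0)
          else 0) =
        ∑ d₂ ∈ k.divisors, (if k ∣ d₁ * d₂ then
          (if m₁.Coprime k then be L κ (d₁ * m₁) / ((d₁ * m₁ : ℕ) : ℂ) else 0) * gi L κ Y k d₂ else 0) := by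
      intro m₁ _
      split_ifs with hc
      · rw [split_sum hk Y (fun h₂ => if k ∣ (d₁ * m₁) * h₂ then
          (be L κ (d₁ * m₁) / ((d₁ * m₁ : ℕ) : ℂ)) * (be L κ h₂ / h₂) else 0)]
        · refine Finset.sum_congr rfl fun d₂ hd₂ => ?_
          unfold gi
          split_ifs with hd
          · rw [Finset.mul_sum]
            refine Finset.sum_congr rfl fun m₂ _ => ?_
            split_ifs with hc2 h3
            · rfl
            · exact absurd ((hdvd d₁ m₁ d₂ m₂ hc hc2).2 hd) h3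
            · rw [mul_zero]
          · refine Finset.sum_eq_zero fun m₂ _ => ?_
            split_ifs with hc2 h3
            · exact absurd ((hdvd d₁ m₁ d₂ m₂ hc hc2).1 h3) hd
            · rfl
            · rfl
        · intro h hh
          apply be_supp (κ := κ) hL hY
          intro h0
          apply hh
          rw [h0, zero_div, mul_zero, ite_self]
      · simp
    rw [Finset.sum_congr rfl h1, Finset.sum_comm]
    refine Finset.sum_congr rfl fun d₂ hd₂ => ?_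
    split_ifs with hd
    · rw [← Finset.sum_mul]
      rfl
    · simp
  · intro h hh
    apply be_supp (κ := κ) hL hY
    intro h0
    apply hh
    refine Finset.sum_eq_zero fun h₂ _ => ?_
    rw [h0, zero_div, zero_mul, ite_self]

variable {W : ℝ} {w : ℝ → ℂ}

lemma be_eq {L κ : ℝ} (hL : 1 ≤ L) (hft : FT (1 / 1000) ((L : ℂ) * (κ : ℂ)) W w) (m : ℕ)
    (hm : 1 ≤ m) : be L κ m = ((al m : ℝ) : ℂ) * ∫ τ, w τ * (m : ℂ) ^ (-ss L τ) := by
  have hL0 : 0 < L := by linarith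
  have hLC : (L : ℂ) ≠ 0 := by exact_mod_cast hL0.ne'
  have hm0 : (m : ℂ) ≠ 0 := by exact_mod_cast (by omega : m ≠ 0)
  have hu : 0 ≤ Real.log m / L := div_nonneg (Real.log_natCast_nonneg m) hL0.le
  have h1 := hft.eq _ hu
  unfold be bR
  have e1 : Real.log m / (1 / 1000 * L) = Real.log m / L / (1 / 1000) := by
    field_simp
  have e2 : (m : ℂ) ^ (-(κ : ℂ)) = cexp (-(L * κ * ((Real.log m / L : ℝ) : ℂ))) := by
    rw [cpow_def_of_ne_zero hm0, Complex.natCast_log.symm]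
    congr 1
    push_cast
    field_simp
  have e3 : ∀ τ : ℝ, (m : ℂ) ^ (-ss L τ) = cexp (-((1 + I * τ) * ((Real.log m / L : ℝ) : ℂ))) := by
    intro τ
    rw [cpow_def_of_ne_zero hm0, Complex.natCast_log.symm]
    congr 1
    unfold ss
    push_cast
    field_simp
  simp only [e3]
  rw [← h1, e1, e2]
  push_cast
  ring

/-- the terms of the Dirichlet series -/
noncomputable def Hm (L : ℝ) (k m : ℕ) (τ : ℝ) : ℂ :=
  if m.Coprime k then ((al m : ℝ) : ℂ) * (m : ℂ) ^ (-(1 + (1 + I * τ) / L)) else 0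

lemma al_norm (m : ℕ) : ‖((al m : ℝ) : ℂ)‖ ≤ 1 := by
  rw [Complex.norm_real]
  exact al_abs m

lemma Hm_norm (L : ℝ) (k m : ℕ) (τ : ℝ) : ‖Hm L k m τ‖ ≤ (m : ℝ) ^ (-(1 + 1 / L)) := by
  unfold Hm
  rcases Nat.eq_zero_or_pos m with rfl | hm
  · rw [al_zero]
    simp only [Complex.ofReal_zero, zero_mul, ite_self, norm_zero]
    exact Real.rpow_nonneg (Nat.cast_nonneg _) _
  split_ifs
  · rw [norm_mul, cpow1_norm L τ m hm]
    exact mul_le_of_le_one_left (Real.rpow_nonneg (Nat.cast_nonneg _) _) (al_norm m)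
  · rw [norm_zero]
    exact Real.rpow_nonneg (Nat.cast_nonneg _) _

lemma Hm_cont (L : ℝ) (k m : ℕ) : Continuous (Hm L k m) := by
  unfold Hm
  rcases Nat.eq_zero_or_pos m with rfl | hm
  · rw [al_zero]
    simp only [Complex.ofReal_zero, zero_mul, ite_self]
    exact continuous_const
  split_ifs
  · exact continuous_const.mul (cpow1_cont L m hm)
  · exact continuous_const

/-- the factor of `d` -/
noncomputable def kf (L : ℝ) (d : ℕ) (τ : ℝ) : ℂ :=
  ((al d : ℝ) : ℂ) * (d : ℂ) ^ (-(1 + (1 + I * τ) / L))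

lemma kf_cont (L : ℝ) (d : ℕ) (hd : 1 ≤ d) : Continuous (kf L d) :=
  continuous_const.mul (cpow1_cont L d hd)

lemma kf_norm {L : ℝ} (hL : 1 ≤ L) (d : ℕ) (hd : 1 ≤ d) (τ : ℝ) : ‖kf L d τ‖ ≤ |al d| / d := by
  unfold kf
  rw [norm_mul, cpow1_norm L τ d hd, Complex.norm_real, Real.norm_eq_abs]
  have hk1 : (1 : ℝ) ≤ d := by exact_mod_cast hd
  have h1 : (d : ℝ) ^ (-(1 + 1 / L)) ≤ (d : ℝ)⁻¹ := by
    rw [← Real.rpow_neg_one]
    refine Real.rpow_le_rpow_of_exponent_le hk1 ?_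
    have : 0 < 1 / L := by positivity
    linarith
  rw [div_eq_mul_inv]
  exact mul_le_mul_of_nonneg_left h1 (abs_nonneg _)

lemma term_eq (L : ℝ) (k d m : ℕ) (hk : 1 ≤ k) (hd : d ∣ k) (τ : ℝ) (hc : m.Coprime k) (hm : 1 ≤ m) :
    ((al (d * m) : ℝ) : ℂ) * ((d * m : ℕ) : ℂ) ^ (-ss L τ) / ((d * m : ℕ) : ℂ) =
      kf L d τ * Hm L k m τ := by
  have hd1 : 0 < d := Nat.pos_of_dvd_of_pos hd hk
  have hd0 : (d : ℂ) ≠ 0 := by exact_mod_cast (by omega : d ≠ 0)
  have hm0 : (m : ℂ) ≠ 0 := by exact_mod_cast (by omega : m ≠ 0)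
  have hkm0 : ((d * m : ℕ) : ℂ) ≠ 0 := by push_cast; exact mul_ne_zero hd0 hm0
  have h1 : ((d * m : ℕ) : ℂ) ^ (-ss L τ) / ((d * m : ℕ) : ℂ) =
      (d : ℂ) ^ (-(1 + (1 + I * τ) / L)) * (m : ℂ) ^ (-(1 + (1 + I * τ) / L)) := by
    rw [← Complex.natCast_mul_natCast_cpow, ← Nat.cast_mul]
    rw [show -(1 + (1 + I * (τ : ℂ)) / (L : ℂ)) = -ss L τ - 1 by unfold ss; ring,
      cpow_sub _ _ hkm0, cpow_one]
  have hdm : d.Coprime m := (Nat.Coprime.coprime_dvd_right hd hc).symm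
  rw [mul_div_assoc, h1]
  unfold kf Hm
  rw [if_pos hc, al_mul hdm]
  push_cast
  ring

theorem gi_bound {C : ℝ} (hC : 0 < C) (hQ : ∀ (L τ : ℝ) (k : ℕ), 1 ≤ L → 1 ≤ k →
    ‖∑' m : ℕ, if m.Coprime k then ((al m : ℝ) : ℂ) * (m : ℂ) ^ (-(1 + (1 + I * τ) / L)) else 0‖ ≤
      C * Real.sqrt (k / (Nat.totient k : ℝ)) * (1 + |τ|) / Real.sqrt L)
    {L κ : ℝ} (hL : 1 ≤ L) (hft : FT (1 / 1000) ((L : ℂ) * (κ : ℂ)) W w)
    {Y k d : ℕ} (hY : Real.exp (1 / 1000 * L) ≤ Y) (hk : 1 ≤ k) (hd : d ∣ k) :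
    ‖gi L κ Y k d‖ ≤ |al d| / d * (W * C * (∫ τ, rho 9 τ) *
      (Real.sqrt (k / (Nat.totient k : ℝ)) / Real.sqrt L)) := by
  have hL0 : 0 < L := by linarith
  have hd1 : 1 ≤ d := Nat.pos_of_dvd_of_pos hd hk
  -- the terms
  set f : ℕ → ℝ → ℂ := fun m τ => w τ * (kf L d τ * Hm L k m τ) with hf
  have hkf1 : ∀ τ, ‖kf L d τ‖ ≤ 1 := by
    intro τ
    refine (kf_norm hL d hd1 τ).trans ?_
    have : (1 : ℝ) ≤ d := by exact_mod_cast hd1
    rw [div_le_one (by linarith)]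
    exact (al_abs d).trans this
  have hbd : ∀ m τ, ‖kf L d τ * Hm L k m τ‖ ≤ (m : ℝ) ^ (-(1 + 1 / L)) := by
    intro m τ
    rw [norm_mul]
    calc ‖kf L d τ‖ * ‖Hm L k m τ‖ ≤ 1 * (m : ℝ) ^ (-(1 + 1 / L)) :=
          mul_le_mul (hkf1 τ) (Hm_norm L k m τ) (norm_nonneg _) zero_le_one
      _ = _ := one_mul _
  have hfi : ∀ m, Integrable (f m) := fun m =>
    hft.int_mul _ ((kf_cont L d hd1).mul (Hm_cont L k m)) _ (hbd m)
  have hterm : ∀ m : ℕ, (if m.Coprime k then be L κ (d * m) / ((d * m : ℕ) : ℂ) else 0) =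
      ∫ τ, f m τ := by
    intro m
    rcases Nat.eq_zero_or_pos m with rfl | hm
    · simp [hf, Hm, al_zero]
    · split_ifs with hc
      · rw [be_eq hL hft (d * m) (Nat.mul_pos hd1 hm), mul_div_assoc, ← integral_div,
          ← integral_const_mul]
        refine integral_congr_ae (Eventually.of_forall fun τ => ?_)
        show _ = w τ * (kf L d τ * Hm L k m τ)
        rw [← term_eq L k d m hk hd τ hc hm]
        ring
      · have : f m = fun _ => 0 := by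
          funext τ
          show w τ * (kf L d τ * Hm L k m τ) = 0
          unfold Hm
          rw [if_neg hc, mul_zero, mul_zero]
        rw [this, integral_zero]
  have hsum : Summable fun m : ℕ => ∫ τ, ‖f m τ‖ := by
    refine Summable.of_nonneg_of_le (fun m => integral_nonneg fun τ => norm_nonneg _)
      (fun m => ?_) ((Real.summable_nat_rpow (p := -(1 + 1 / L)).2 (by
        have : 0 < 1 / L := by positivity
        linarith)).mul_left (∫ τ, ‖w τ‖))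
    rw [← integral_mul_const]
    refine integral_mono (hfi m).norm (hft.int_norm.mul_const _) fun τ => ?_
    show ‖w τ * (kf L d τ * Hm L k m τ)‖ ≤ ‖w τ‖ * (m : ℝ) ^ (-(1 + 1 / L))
    rw [norm_mul]
    exact mul_le_mul_of_nonneg_left (hbd m τ) (norm_nonneg _)
  have hHS := hasSum_integral_of_summable_integral_norm hfi hsum
  have hgi : gi L κ Y k d = ∑' m : ℕ, (if m.Coprime k then be L κ (d * m) / ((d * m : ℕ) : ℂ) else 0) := by
    unfold gi
    rw [tsum_eq_sum (s := Finset.Icc 1 Y)]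
    intro m hm
    rw [Finset.mem_Icc] at hm
    rcases Nat.eq_zero_or_pos m with rfl | hm0
    · simp
    · have h0 : be L κ (d * m) = 0 := by
        by_contra hne
        have h1 := (be_supp hL0 hY (d * m) hne).2
        have h2 : m ≤ d * m := Nat.le_mul_of_pos_left m hd1
        omega
      rw [h0, zero_div, ite_self]
  rw [hgi, tsum_congr hterm, hHS.tsum_eq]
  have hts : ∀ τ, ∑' m, f m τ = w τ * (kf L d τ * ∑' m, Hm L k m τ) := by
    intro τ
    rw [hf]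
    simp only
    rw [tsum_mul_left, tsum_mul_left]
  simp only [hts]
  have e : |al d| / d * (W * C * (∫ τ, rho 9 τ) *
      (Real.sqrt (k / (Nat.totient k : ℝ)) / Real.sqrt L)) =
      ∫ τ, (|al d| / d * (W * C * (Real.sqrt (k / (Nat.totient k : ℝ)) / Real.sqrt L))) * rho 9 τ := by
    rw [integral_const_mul]; ring
  rw [e]
  refine norm_integral_le_of_norm_le ((rho_int 9 (by norm_num)).const_mul _)
    (Eventually.of_forall fun τ => ?_)
  rw [norm_mul, norm_mul]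
  have h1 : ‖∑' m, Hm L k m τ‖ ≤ C * Real.sqrt (k / (Nat.totient k : ℝ)) * (1 + |τ|) / Real.sqrt L :=
    hQ L τ k hL hk
  have h2 : 0 ≤ C * Real.sqrt (k / (Nat.totient k : ℝ)) * (1 + |τ|) / Real.sqrt L :=
    (norm_nonneg _).trans h1
  calc ‖w τ‖ * (‖kf L d τ‖ * ‖∑' m, Hm L k m τ‖)
      ≤ (W * rho 10 τ) * (|al d| / d *
          (C * Real.sqrt (k / (Nat.totient k : ℝ)) * (1 + |τ|) / Real.sqrt L)) := by
        refine mul_le_mul (hft.bd τ) (mul_le_mul (kf_norm hL d hd1 τ) h1 (norm_nonneg _)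
          (by positivity)) (by positivity) ((norm_nonneg _).trans (hft.bd τ))
    _ = (|al d| / d * (W * C * (Real.sqrt (k / (Nat.totient k : ℝ)) / Real.sqrt L))) *
          (rho 10 τ * (1 + |τ|) ^ 1) := by
        rw [pow_one]; ring
    _ = _ := by
        rw [rho_mul 10 1]
        norm_num

/-- **the bound for the double sums** -/
theorem RD_bound (h1 : SFour) (h2 : SQ) : ∃ C : ℝ, 0 < C ∧ ∀ (L κ : ℝ) (Y k : ℕ), 1 ≤ L → 0 ≤ κ →
    κ ≤ 1 / L → Real.exp (1 / 1000 * L) ≤ Y → 1 ≤ k →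
    ‖RD Y (be L κ) k‖ ≤ C * k / (L * (Nat.totient k : ℝ) ^ 2) := by
  obtain ⟨C1, hC1, hF⟩ := h1 (1 / 1000) (by norm_num) (by norm_num)
  obtain ⟨C, hC, hQ⟩ := h2
  set K9 := ∫ τ, rho 9 τ with hK9
  have hK9' : 0 ≤ K9 := integral_nonneg fun τ => (rho_pos _ τ).le
  set W0 := C1 * 2 ^ 10 * Real.exp 1 with hW0
  have hW00 : 0 < W0 := by positivity
  refine ⟨(W0 * C * K9) ^ 2 + 1, by positivity, fun L κ Y k hL hκ0 hκ1 hY hk => ?_⟩
  have hL0 : 0 < L := by linarith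
  obtain ⟨w, hwc, hwb, hwe⟩ := hF ((L : ℂ) * (κ : ℂ))
  have hnz : ‖(L : ℂ) * (κ : ℂ)‖ = L * κ := by
    rw [norm_mul, Complex.norm_real, Complex.norm_real, Real.norm_of_nonneg hL0.le,
      Real.norm_of_nonneg hκ0]
  have hLκ0 : 0 ≤ L * κ := mul_nonneg hL0.le hκ0
  have hLκ : L * κ ≤ 1 := by
    calc L * κ ≤ L * (1 / L) := mul_le_mul_of_nonneg_left hκ1 hL0.le
      _ = 1 := by field_simp
  have hft : FT (1 / 1000) ((L : ℂ) * (κ : ℂ)) W0 w := by
    refine ⟨hwc, fun τ => ?_, hwe⟩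
    have := hwb τ
    rw [hnz] at this
    refine this.trans ?_
    have h3 : (1 + L * κ) ^ 10 ≤ 2 ^ 10 := pow_le_pow_left₀ (by linarith) (by linarith) 10
    have h4 : Real.exp (1 / 1000 * (L * κ)) ≤ Real.exp 1 := Real.exp_le_exp.2 (by linarith)
    have h5 : C1 * (1 + L * κ) ^ 10 * Real.exp (1 / 1000 * (L * κ)) ≤ W0 := by
      rw [hW0]
      have h6 : 0 ≤ (1 + L * κ) ^ 10 := by positivity
      gcongr
    exact mul_le_mul_of_nonneg_right h5 (rho_pos 10 τ).le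
  set q := Real.sqrt (k / (Nat.totient k : ℝ)) / Real.sqrt L with hq
  have hq0 : 0 ≤ q := by positivity
  have hφ : (0 : ℝ) < (Nat.totient k : ℝ) := by exact_mod_cast Nat.totient_pos.2 hk
  have hk0 : (0 : ℝ) < k := by exact_mod_cast hk
  have hq2 : q ^ 2 = k / (Nat.totient k : ℝ) / L := by
    rw [hq, div_pow, Real.sq_sqrt (by positivity), Real.sq_sqrt hL0.le]
  rw [RD_split hL0 hY hk]
  have hg : ∀ d ∈ k.divisors, ‖gi L κ Y k d‖ ≤ |al d| / d * (W0 * C * K9 * q) := fun d hd =>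
    gi_bound hC hQ hL hft hY hk (Nat.dvd_of_mem_divisors hd)
  calc ‖∑ d₁ ∈ k.divisors, ∑ d₂ ∈ k.divisors,
        if k ∣ d₁ * d₂ then gi L κ Y k d₁ * gi L κ Y k d₂ else 0‖
      ≤ ∑ d₁ ∈ k.divisors, ∑ d₂ ∈ k.divisors,
        if k ∣ d₁ * d₂ then (|al d₁| / d₁ * (W0 * C * K9 * q)) * (|al d₂| / d₂ * (W0 * C * K9 * q))
          else 0 := by
        refine (norm_sum_le _ _).trans (Finset.sum_le_sum fun d₁ hd₁ => ?_)
        refine (norm_sum_le _ _).trans (Finset.sum_le_sum fun d₂ hd₂ => ?_)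
        split_ifs
        · rw [norm_mul]
          exact mul_le_mul (hg d₁ hd₁) (hg d₂ hd₂) (norm_nonneg _) ((norm_nonneg _).trans (hg d₁ hd₁))
        · rw [norm_zero]
    _ = (W0 * C * K9) ^ 2 * q ^ 2 * TT k := by
        unfold TT
        rw [Finset.mul_sum]
        refine Finset.sum_congr rfl fun d₁ _ => ?_
        rw [Finset.mul_sum]
        refine Finset.sum_congr rfl fun d₂ _ => ?_
        split_ifs
        · ring
        · rw [mul_zero]
    _ ≤ (W0 * C * K9) ^ 2 * q ^ 2 * (1 / (Nat.totient k : ℝ)) :=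
        mul_le_mul_of_nonneg_left (TT_le hk) (by positivity)
    _ = (W0 * C * K9) ^ 2 * (k / (L * (Nat.totient k : ℝ) ^ 2)) := by
        rw [hq2]; field_simp
    _ ≤ ((W0 * C * K9) ^ 2 + 1) * (k / (L * (Nat.totient k : ℝ) ^ 2)) := by
        refine mul_le_mul_of_nonneg_right (by linarith) (by positivity)
    _ = _ := by ring

end Pool.Agent.Helper647.PT
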