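import Pool.Agent.H24R2.DZ.Spec

set_option autoImplicit false

/-! Definitions for the parity theorem. -/

namespace Pool.Agent.Helper647.PT

open Complex Filter Topology MeasureTheory Set
open Pool.Agent.H24R2.DZ (ph MM cc rr SFour SInvZ SAN)

/-- Selberg's coefficients on squarefree numbers -/
noncomputable def al (n : ℕ) : ℝ := if Squarefree n then (-1 / 2 : ℝ) ^ n.primeFactors.card else 0

/-- the coefficients `β_h` -/
noncomputable def bR (L : ℝ) (h : ℕ) : ℝ := al h * ph (Real.log h / (1 / 1000 * L))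

/-- `β_h h^{-κ}` -/
noncomputable def be (L κ : ℝ) (h : ℕ) : ℂ := ((bR L h : ℝ) : ℂ) * (h : ℂ) ^ (-(κ : ℂ))

/-- the double sum `∑_{k ∣ h₁ h₂} β_{h₁} β_{h₂} / (h₁ h₂)` -/
noncomputable def RD (Y : ℕ) (β : ℕ → ℂ) (k : ℕ) : ℂ :=
  ∑ h₁ ∈ Finset.Icc 1 Y, ∑ h₂ ∈ Finset.Icc 1 Y,
    if k ∣ h₁ * h₂ then (β h₁ / h₁) * (β h₂ / h₂) else 0

/-- the partial sum of zeta -/
noncomputable def Pz (N : ℕ) (t : ℝ) : ℂ := ∑ n ∈ Finset.Icc 1 N, (n : ℂ) ^ (-(1 / 2 + I * t))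

/-- the mollifier -/
noncomputable def Bz (Y : ℕ) (β : ℕ → ℝ) (t : ℝ) : ℂ :=
  ∑ h ∈ Finset.Icc 1 Y, ((β h : ℝ) : ℂ) * (h : ℂ) ^ (-(1 / 2 + I * t))

/-- the part of `∑_{n ≤ N} n^{-1/2-it} |∑_{h ≤ Y} β_h h^{-1/2-it}|²` with frequencies near `(log T) / 2` -/
noncomputable def DW (T K C' : ℝ) (N Y : ℕ) (β : ℕ → ℝ) (t : ℝ) : ℂ :=
  ∑ n ∈ Finset.Icc 1 N, ∑ μ ∈ Finset.Icc 1 Y, ∑ ν ∈ Finset.Icc 1 Y,
    if |Real.log (n * μ / ν) - Real.log T / 2| ≤ Real.log T / K + C' then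
      ((β μ * β ν / Real.sqrt (n * μ * ν) : ℝ) : ℂ) * cexp (-(I * Real.log (n * μ / ν) * t)) else 0

/-- the quadratic form -/
noncomputable def QF (Y : ℕ) (β : ℕ → ℝ) : ℝ :=
  ∑ μ ∈ Finset.Icc 1 Y, ∑ ν ∈ Finset.Icc 1 Y, ∑ μ' ∈ Finset.Icc 1 Y, ∑ ν' ∈ Finset.Icc 1 Y,
    β μ * β ν * β μ' * β ν' * (Nat.gcd (μ * ν') (μ' * ν) : ℝ) / (μ * ν * μ' * ν')

/-- the length of the mollifier -/
noncomputable def Yn (T : ℝ) : ℕ := ⌈T ^ (1 / 1000 : ℝ)⌉₊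

/-- the length of the partial sum -/
noncomputable def Nn (T : ℝ) : ℕ := ⌈8 * T⌉₊

/-- the Dirichlet series of `al` -/
def SQ : Prop := ∃ C : ℝ, 0 < C ∧ ∀ (L τ : ℝ) (k : ℕ), 1 ≤ L → 1 ≤ k →
    ‖∑' m : ℕ, if m.Coprime k then ((al m : ℝ) : ℂ) * (m : ℂ) ^ (-(1 + (1 + I * τ) / L)) else 0‖ ≤
      C * Real.sqrt (k / (Nat.totient k : ℝ)) * (1 + |τ|) / Real.sqrt L

lemma al_zero : al 0 = 0 := by
  unfold al
  rw [if_neg not_squarefree_zero]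

lemma al_one : al 1 = 1 := by
  unfold al
  simp

lemma al_abs (n : ℕ) : |al n| ≤ 1 := by
  unfold al
  split_ifs
  · rw [abs_pow]
    refine pow_le_one₀ (abs_nonneg _) ?_
    norm_num [abs_of_neg]
  · simp

lemma al_mul {m n : ℕ} (h : m.Coprime n) : al (m * n) = al m * al n := by
  unfold al
  by_cases h1 : Squarefree (m * n)
  · have h2 := (Nat.squarefree_mul h).1 h1
    rw [if_pos h1, if_pos h2.1, if_pos h2.2, ← pow_add, Nat.Coprime.primeFactors_mul h,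
      Finset.card_union_of_disjoint (Nat.Coprime.disjoint_primeFactors h)]
  · rw [if_neg h1]
    rw [Nat.squarefree_mul h] at h1
    by_cases h2 : Squarefree m
    · have h3 : ¬ Squarefree n := fun h3 => h1 ⟨h2, h3⟩
      rw [if_neg h3, mul_zero]
    · rw [if_neg h2, zero_mul]

lemma ph_nonneg (u : ℝ) : 0 ≤ ph u := Real.smoothTransition.nonneg _

lemma ph_le_one (u : ℝ) : ph u ≤ 1 := Real.smoothTransition.le_one _

lemma bR_abs (L : ℝ) (h : ℕ) : |bR L h| ≤ 1 := by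
  unfold bR
  rw [abs_mul, abs_of_nonneg (ph_nonneg _)]
  exact mul_le_one₀ (al_abs h) (ph_nonneg _) (ph_le_one _)

lemma bR_one (L : ℝ) : bR L 1 = 1 := by
  unfold bR ph
  rw [al_one, Nat.cast_one, Real.log_one, zero_div, Real.smoothTransition.one_of_one_le (by norm_num)]
  norm_num

lemma bR_zero (L : ℝ) : bR L 0 = 0 := by
  unfold bR
  rw [al_zero, zero_mul]

lemma bR_sq {L : ℝ} {h : ℕ} (hb : bR L h ≠ 0) : Squarefree h := by
  by_contra hc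
  apply hb
  unfold bR al
  rw [if_neg hc, zero_mul]

lemma bR_supp {L : ℝ} (hL : 0 < L) {Y h : ℕ} (hY : Real.exp (1 / 1000 * L) ≤ Y) (hb : bR L h ≠ 0) :
    h ≤ Y := by
  by_contra hc
  push Not at hc
  apply hb
  unfold bR ph
  have h1 : 1 ≤ Real.log h / (1 / 1000 * L) := by
    rw [le_div_iff₀ (by positivity), one_mul]
    have h2 : Real.exp (1 / 1000 * L) ≤ (h : ℝ) := hY.trans (by exact_mod_cast hc.le)
    rw [Real.le_log_iff_exp_le (by linarith [Real.exp_pos (1 / 1000 * L)])]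
    exact h2
  rw [Real.smoothTransition.zero_of_nonpos (by linarith), mul_zero]

lemma exp_le_Yn {T : ℝ} (hT : 0 < T) : Real.exp (1 / 1000 * Real.log T) ≤ Yn T := by
  have : Real.exp (1 / 1000 * Real.log T) = T ^ (1 / 1000 : ℝ) := by
    rw [Real.rpow_def_of_pos hT, mul_comm]
  rw [this]
  exact Nat.le_ceil _

lemma Yn_pos {T : ℝ} (hT : 0 < T) : 1 ≤ Yn T :=
  Nat.ceil_pos.2 (Real.rpow_pos_of_pos hT _)

/-- `Yn T ≤ T^(1/500)` -/
lemma Yn_le : ∃ T0 : ℝ, 2 ≤ T0 ∧ ∀ T : ℝ, T0 ≤ T → (Yn T : ℝ) ≤ T ^ (1 / 500 : ℝ) := by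
  have h1 : Tendsto (fun T : ℝ => T ^ (1 / 1000 : ℝ)) atTop atTop :=
    tendsto_rpow_atTop (by norm_num)
  obtain ⟨A, hA⟩ := (h1.eventually_ge_atTop 2).exists_forall_of_atTop
  refine ⟨max A 2, le_max_right _ _, fun T hT => ?_⟩
  have h2 := hA T ((le_max_left _ _).trans hT)
  have hT0 : 0 < T := by linarith [(le_max_right A 2).trans hT]
  have h3 : (Yn T : ℝ) < T ^ (1 / 1000 : ℝ) + 1 :=
    Nat.ceil_lt_add_one (Real.rpow_nonneg hT0.le _)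
  have h4 : T ^ (1 / 500 : ℝ) = T ^ (1 / 1000 : ℝ) * T ^ (1 / 1000 : ℝ) := by
    rw [← Real.rpow_add hT0]; norm_num
  rw [h4]
  nlinarith

lemma Nn_ge (T : ℝ) : 8 * T ≤ Nn T := Nat.le_ceil _

lemma Nn_le {T : ℝ} (hT : 1 ≤ T) : (Nn T : ℝ) ≤ 16 * T := by
  have h3 : (Nn T : ℝ) < 8 * T + 1 := Nat.ceil_lt_add_one (by linarith)
  linarith

end Pool.Agent.Helper647.PT
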