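import Mathlib
import Pool.Agent.Helper647_PT.Defs

set_option autoImplicit false


namespace Pool.Agent.Helper647.PT

open Complex Filter Topology Set

theorem qbd_prod (a : ℕ → ℂ) (c : ℂ) (ha1 : a 1 = 1) (ha0 : a 0 = 0)
    (hamul : ∀ m n : ℕ, m.Coprime n → a (m * n) = a m * a n)
    (hap : ∀ p : ℕ, p.Prime → a p = c)
    (hape : ∀ p : ℕ, p.Prime → ∀ e : ℕ, 2 ≤ e → a (p ^ e) = 0)
    (hab : ∀ n, ‖a n‖ ≤ 1) (s : ℂ) (hs : 1 < s.re) (k : ℕ) :
    HasProd (fun p : Nat.Primes => 1 + c * (if (p : ℕ).Coprime k then ((p : ℕ) : ℂ) ^ (-s) else 0))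
      (∑' n : ℕ, if n.Coprime k then a n * (n : ℂ) ^ (-s) else 0) := by
  set f : ℕ → ℂ := fun n => if n.Coprime k then a n * (n : ℂ) ^ (-s) else 0 with hf
  have h1 : f 1 = 1 := by simp [hf, ha1]
  have h0 : f 0 = 0 := by simp [hf, ha0]
  have hmul : ∀ {m n : ℕ}, Nat.Coprime m n → f (m * n) = f m * f n := by
    intro m n hmn
    simp only [hf]
    by_cases hm : m.Coprime k
    · by_cases hn : n.Coprime k
      · rw [if_pos (Nat.coprime_mul_iff_left.2 ⟨hm, hn⟩), if_pos hm, if_pos hn, hamul m n hmn]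
        rw [Nat.cast_mul, Complex.natCast_mul_natCast_cpow]
        ring
      · rw [if_neg (fun h => hn (Nat.coprime_mul_iff_left.1 h).2), if_neg hn, mul_zero]
    · rw [if_neg (fun h => hm (Nat.coprime_mul_iff_left.1 h).1), if_neg hm, zero_mul]
  have hsum : Summable (fun n => ‖f n‖) := by
    apply Summable.of_nonneg_of_le (fun _ => norm_nonneg _) (f := fun n : ℕ => 1 / (n : ℝ) ^ s.re)
    · intro n
      rcases Nat.eq_zero_or_pos n with rfl | hn
      · rw [h0, norm_zero]; positivity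
      · simp only [hf]
        split_ifs
        · rw [norm_mul, Complex.norm_natCast_cpow_of_pos hn, Complex.neg_re,
            Real.rpow_neg (by positivity), one_div]
          have : (0:ℝ) ≤ ((n : ℝ) ^ s.re)⁻¹ := by positivity
          nlinarith [hab n]
        · rw [norm_zero]; positivity
    · exact Real.summable_one_div_nat_rpow.2 hs
  have key := EulerProduct.eulerProduct_hasProd h1 hmul hsum h0
  convert key using 2 with p
  have hp := p.2
  have hz : ∀ e ∉ Finset.range 2, f ((p : ℕ) ^ e) = 0 := by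
    intro e he
    have he2 : 2 ≤ e := by
      rw [Finset.mem_range] at he
      omega
    simp only [hf]
    rw [hape p hp e he2]
    simp
  rw [tsum_eq_sum hz]
  rw [Finset.sum_range_succ, Finset.sum_range_succ, Finset.sum_range_zero, zero_add, pow_zero, h1,
    pow_one]
  simp only [hf]
  rw [hap p hp]
  split_ifs
  · rfl
  · simp

theorem qbd_loc (x : ℂ) (hx : ‖x‖ ≤ 1 / 2) :
    ‖1 + (-1 / 2) * x‖ ^ 2 ≤ ‖1 + (-1) * x‖ * Real.exp (‖x‖ ^ 2 / 2) := by
  have e1 : ‖1 + (-1 / 2) * x‖ ^ 2 = ‖(1 + (-1) * x) + x ^ 2 / 4‖ := by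
    rw [← norm_pow]
    congr 1
    ring
  have e2 : ‖(1 + (-1) * x) + x ^ 2 / 4‖ ≤ ‖1 + (-1) * x‖ + ‖x‖ ^ 2 / 4 := by
    refine (norm_add_le _ _).trans ?_
    rw [norm_div, norm_pow]
    simp
  have e3 : 1 / 2 ≤ ‖1 + (-1) * x‖ := by
    have h := norm_sub_norm_le (1 : ℂ) x
    have h2 : (1 : ℂ) - x = 1 + (-1) * x := by ring
    rw [h2, norm_one] at h
    linarith
  have e4 := Real.add_one_le_exp (‖x‖ ^ 2 / 2)
  rw [e1]
  refine e2.trans ?_
  have e5 : 0 ≤ ‖x‖ ^ 2 := by positivity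
  nlinarith

theorem qbd_al_one : al 1 = 1 := by simp [al]

theorem qbd_al_zero : al 0 = 0 := by simp [al]

theorem qbd_al_mul (m n : ℕ) (h : m.Coprime n) : al (m * n) = al m * al n := by
  simp only [al]
  by_cases hm : Squarefree m
  · by_cases hn : Squarefree n
    · rw [if_pos ((Nat.squarefree_mul h).2 ⟨hm, hn⟩), if_pos hm, if_pos hn, h.primeFactors_mul,
        Finset.card_union_of_disjoint h.disjoint_primeFactors, pow_add]
    · rw [if_neg (fun h' => hn ((Nat.squarefree_mul h).1 h').2), if_neg hn, mul_zero]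
  · rw [if_neg (fun h' => hm ((Nat.squarefree_mul h).1 h').1), if_neg hm, zero_mul]

theorem qbd_al_prime (p : ℕ) (hp : p.Prime) : al p = -1 / 2 := by
  simp only [al]
  rw [if_pos hp.squarefree, hp.primeFactors]
  simp

theorem qbd_al_pow (p : ℕ) (hp : p.Prime) (e : ℕ) (he : 2 ≤ e) : al (p ^ e) = 0 := by
  simp only [al]
  rw [if_neg]
  rw [Nat.squarefree_pow_iff hp.ne_one (by omega)]
  omega

theorem qbd_al_le (n : ℕ) : ‖((al n : ℝ) : ℂ)‖ ≤ 1 := by
  rw [Complex.norm_real]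
  simp only [al]
  split_ifs
  · rw [norm_pow]
    apply pow_le_one₀ (norm_nonneg _)
    norm_num
  · simp

theorem qbd (C0 : ℝ) (hC0 : 0 < C0) (hinv : ∀ (L τ : ℝ) (k : ℕ), 1 ≤ L → 1 ≤ k →
    ‖∑' m : ℕ, if m.Coprime k then (ArithmeticFunction.moebius m : ℂ) *
      (m : ℂ) ^ (-(1 + (1 + I * τ) / L)) else 0‖ ≤
      C0 * (k / (Nat.totient k : ℝ)) * (1 + |τ|) ^ 2 / L) :
    ∃ C : ℝ, 0 < C ∧ ∀ (L τ : ℝ) (k : ℕ), 1 ≤ L → 1 ≤ k →
    ‖∑' m : ℕ, if m.Coprime k then ((al m : ℝ) : ℂ) * (m : ℂ) ^ (-(1 + (1 + I * τ) / L)) else 0‖ ≤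
      C * Real.sqrt (k / (Nat.totient k : ℝ)) * (1 + |τ|) / Real.sqrt L := by
  have hsq : Summable (fun p : Nat.Primes => 1 / ((p : ℕ) : ℝ) ^ 2) := by
    have h : Summable (fun n : ℕ => 1 / (n : ℝ) ^ 2) := Real.summable_one_div_nat_pow.2 one_lt_two
    exact h.comp_injective Subtype.val_injective
  set C1 : ℝ := Real.exp ((∑' p : Nat.Primes, 1 / ((p : ℕ) : ℝ) ^ 2) / 2) with hC1
  have hC1pos : 0 < C1 := Real.exp_pos _
  refine ⟨Real.sqrt (C1 * C0), Real.sqrt_pos.2 (by positivity), ?_⟩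
  intro L τ k hL hk
  set s : ℂ := 1 + (1 + I * τ) / L with hs
  have hL0 : 0 < L := by linarith
  have hsre : s.re = 1 + 1 / L := by
    rw [hs]
    simp [Complex.div_ofReal_re]
  have hs1 : 1 < s.re := by
    rw [hsre]
    have : 0 < 1 / L := by positivity
    linarith
  have P1 := qbd_prod (fun n => ((al n : ℝ) : ℂ)) (-1 / 2) (by simp [qbd_al_one])
    (by simp [qbd_al_zero]) (fun m n h => by rw [qbd_al_mul m n h]; push_cast; rfl)
    (fun p hp => by rw [qbd_al_prime p hp]; push_cast; rfl)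
    (fun p hp e he => by rw [qbd_al_pow p hp e he]; simp) qbd_al_le s hs1 k
  have P2 := qbd_prod (fun n => (ArithmeticFunction.moebius n : ℂ)) (-1) (by simp)
    (by simp) (fun m n h => by
      rw [ArithmeticFunction.isMultiplicative_moebius.map_mul_of_coprime h]; push_cast; rfl)
    (fun p hp => by rw [ArithmeticFunction.moebius_apply_prime hp]; push_cast; rfl)
    (fun p hp e he => by
      rw [ArithmeticFunction.moebius_apply_prime_pow hp (by omega), if_neg (by omega)]; simp)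
    (fun n => by
      rw [Complex.norm_intCast]
      exact_mod_cast ArithmeticFunction.abs_moebius_le_one) s hs1 k
  set x : Nat.Primes → ℂ := fun p => if (p : ℕ).Coprime k then ((p : ℕ) : ℂ) ^ (-s) else 0 with hx
  have hxle : ∀ p : Nat.Primes, ‖x p‖ ≤ 1 / ((p : ℕ) : ℝ) := by
    intro p
    have hp : 0 < (p : ℕ) := p.2.pos
    have hp1 : (1:ℝ) ≤ (p : ℕ) := by exact_mod_cast hp
    simp only [hx]
    split_ifs
    · rw [Complex.norm_natCast_cpow_of_pos hp, Complex.neg_re, Real.rpow_neg (by positivity), one_div]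
      apply inv_anti₀ (by positivity)
      calc ((p : ℕ) : ℝ) = ((p : ℕ) : ℝ) ^ (1 : ℝ) := by rw [Real.rpow_one]
        _ ≤ ((p : ℕ) : ℝ) ^ s.re := Real.rpow_le_rpow_of_exponent_le hp1 hs1.le
    · rw [norm_zero]; positivity
  have hxh : ∀ p : Nat.Primes, ‖x p‖ ≤ 1 / 2 := by
    intro p
    refine (hxle p).trans ?_
    have : (2:ℝ) ≤ (p : ℕ) := by exact_mod_cast p.2.two_le
    exact one_div_le_one_div_of_le (by norm_num) this
  have hfin : ∀ A : Finset Nat.Primes, ‖∏ p ∈ A, (1 + (-1 / 2) * x p)‖ ^ 2 ≤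
      C1 * ‖∏ p ∈ A, (1 + (-1) * x p)‖ := by
    intro A
    rw [norm_prod, norm_prod, ← Finset.prod_pow]
    calc ∏ p ∈ A, ‖1 + (-1 / 2) * x p‖ ^ 2
        ≤ ∏ p ∈ A, (‖1 + (-1) * x p‖ * Real.exp (‖x p‖ ^ 2 / 2)) :=
          Finset.prod_le_prod (fun p _ => by positivity) (fun p _ => qbd_loc _ (hxh p))
      _ = (∏ p ∈ A, ‖1 + (-1) * x p‖) * Real.exp (∑ p ∈ A, ‖x p‖ ^ 2 / 2) := by
          rw [Finset.prod_mul_distrib, Real.exp_sum]
      _ ≤ (∏ p ∈ A, ‖1 + (-1) * x p‖) * C1 := by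
          apply mul_le_mul_of_nonneg_left _ (Finset.prod_nonneg fun p _ => norm_nonneg _)
          rw [hC1]
          apply Real.exp_le_exp.2
          rw [← Finset.sum_div]
          apply div_le_div_of_nonneg_right _ (by norm_num)
          refine (Finset.sum_le_sum (fun p _ => ?_)).trans
            (hsq.sum_le_tsum A (fun p _ => by positivity))
          have h1 := hxle p
          have h2 := norm_nonneg (x p)
          calc ‖x p‖ ^ 2 ≤ (1 / ((p : ℕ) : ℝ)) ^ 2 := pow_le_pow_left₀ h2 h1 2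
            _ = 1 / ((p : ℕ) : ℝ) ^ 2 := by rw [div_pow, one_pow]
      _ = C1 * ∏ p ∈ A, ‖1 + (-1) * x p‖ := mul_comm _ _
  have hlim := le_of_tendsto_of_tendsto' (Tendsto.pow (Tendsto.norm P1) 2)
    (Tendsto.const_mul C1 (Tendsto.norm P2)) hfin
  have hb := hinv L τ k hL hk
  rw [← hs] at hb
  have htot : 0 < (Nat.totient k : ℝ) := by exact_mod_cast Nat.totient_pos.2 hk
  have hfinal := hlim.trans (mul_le_mul_of_nonneg_left hb hC1pos.le)
  have hR0 : 0 ≤ Real.sqrt (C1 * C0) * Real.sqrt (k / (Nat.totient k : ℝ)) * (1 + |τ|) /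
      Real.sqrt L := by positivity
  have hR2 : (Real.sqrt (C1 * C0) * Real.sqrt (k / (Nat.totient k : ℝ)) * (1 + |τ|) /
      Real.sqrt L) ^ 2 = C1 * (C0 * (k / (Nat.totient k : ℝ)) * (1 + |τ|) ^ 2 / L) := by
    rw [div_pow, mul_pow, mul_pow, Real.sq_sqrt (by positivity), Real.sq_sqrt (by positivity),
      Real.sq_sqrt (by positivity)]
    ring
  rw [← hR2] at hfinal
  exact le_of_sq_le_sq hfinal hR0 

end Pool.Agent.Helper647.PT
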