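import Pool.Agent.Helper647_PT.Ar3
import Pool.Agent.Helper647_PT.Qb
import Pool.Agent.W186.SD.MainD
import Pool.Agent.Y705.QT0

set_option autoImplicit false

/-! The quadratic form and the coefficient sums. -/

namespace Pool.Agent.Helper647.PT

open Complex Filter Topology MeasureTheory Set
open Pool.Agent.H24R2.DZ (ph MM cc rr SFour SInvZ SAN)

theorem sqq : SQ := by
  obtain ⟨C0, hC0, h⟩ := Pool.Agent.W186.SInvZ.sinvz
  exact qbd C0 hC0 h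

/-- the bound for the double sums, unconditionally -/
theorem rd : ∃ C : ℝ, 0 < C ∧ ∀ (L κ : ℝ) (Y k : ℕ), 1 ≤ L → 0 ≤ κ →
    κ ≤ 1 / L → Real.exp (1 / 1000 * L) ≤ Y → 1 ≤ k →
    ‖RD Y (be L κ) k‖ ≤ C * k / (L * (Nat.totient k : ℝ) ^ 2) :=
  RD_bound Pool.Agent.W688.SD.sfour sqq

/-- real version of the double sum -/
noncomputable def RR (Y : ℕ) (β : ℕ → ℝ) (k : ℕ) : ℝ :=
  ∑ h₁ ∈ Finset.Icc 1 Y, ∑ h₂ ∈ Finset.Icc 1 Y,
    if k ∣ h₁ * h₂ then (β h₁ / h₁) * (β h₂ / h₂) else 0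

lemma RR_eq (L : ℝ) (Y k : ℕ) : RD Y (be L 0) k = ((RR Y (bR L) k : ℝ) : ℂ) := by
  unfold RD RR
  rw [Complex.ofReal_sum]
  refine Finset.sum_congr rfl fun h₁ h1 => ?_
  rw [Complex.ofReal_sum]
  refine Finset.sum_congr rfl fun h₂ h2 => ?_
  have e1 : be L 0 h₁ = ((bR L h₁ : ℝ) : ℂ) := by unfold be; simp
  have e2 : be L 0 h₂ = ((bR L h₂ : ℝ) : ℂ) := by unfold be; simp
  rw [e1, e2]
  split_ifs
  · push_cast; ring
  · simp

/-- diagonalisation of the quadratic form -/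
theorem QF_diag (Y : ℕ) (β : ℕ → ℝ) :
    QF Y β = ∑ k ∈ Finset.Icc 1 (Y ^ 2), (Nat.totient k : ℝ) * RR Y β k ^ 2 := by
  have hg : ∀ μ ∈ Finset.Icc 1 Y, ∀ ν ∈ Finset.Icc 1 Y, ∀ μ' ∈ Finset.Icc 1 Y, ∀ ν' ∈ Finset.Icc 1 Y,
      (Nat.gcd (μ * ν') (μ' * ν) : ℝ) = ∑ k ∈ Finset.Icc 1 (Y ^ 2),
        (Nat.totient k : ℝ) * ((if k ∣ μ * ν' then 1 else 0) * (if k ∣ μ' * ν then 1 else 0)) := by
    intro μ hμ ν hν μ' hμ' ν' hν'
    rw [Finset.mem_Icc] at hμ hν hμ' hν'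
    have h1 : 0 < μ * ν' := Nat.mul_pos hμ.1 hν'.1
    have h2 : μ * ν' ≤ Y ^ 2 := by rw [pow_two]; exact Nat.mul_le_mul hμ.2 hν'.2
    conv_lhs => rw [← Nat.sum_totient (Nat.gcd (μ * ν') (μ' * ν))]
    push_cast
    have h3 : ∀ k : ℕ, (Nat.totient k : ℝ) * ((if k ∣ μ * ν' then 1 else 0) *
        (if k ∣ μ' * ν then 1 else 0)) = if k ∣ Nat.gcd (μ * ν') (μ' * ν) then (Nat.totient k : ℝ) else 0 := by
      intro k
      by_cases ha : k ∣ μ * ν'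
      · by_cases hb : k ∣ μ' * ν
        · rw [if_pos ha, if_pos hb, if_pos (Nat.dvd_gcd ha hb)]; ring
        · have hn : ¬ k ∣ Nat.gcd (μ * ν') (μ' * ν) := fun h => hb (h.trans (Nat.gcd_dvd_right _ _))
          rw [if_pos ha, if_neg hb, if_neg hn]; ring
      · have hn : ¬ k ∣ Nat.gcd (μ * ν') (μ' * ν) := fun h => ha (h.trans (Nat.gcd_dvd_left _ _))
        rw [if_neg ha, if_neg hn]; ring
    rw [Finset.sum_congr rfl fun k _ => h3 k, ← Finset.sum_filter]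
    refine Finset.sum_congr ?_ fun _ _ => rfl
    ext k
    rw [Nat.mem_divisors, Finset.mem_filter, Finset.mem_Icc]
    have hgpos : 0 < Nat.gcd (μ * ν') (μ' * ν) := Nat.gcd_pos_of_pos_left _ h1
    constructor
    · rintro ⟨ha, hb⟩
      refine ⟨⟨Nat.pos_of_dvd_of_pos ha hgpos, ?_⟩, ha⟩
      exact (Nat.le_of_dvd hgpos ha).trans ((Nat.gcd_le_left _ h1).trans h2)
    · rintro ⟨_, ha⟩
      exact ⟨ha, hgpos.ne'⟩
  have h1 : QF Y β = ∑ μ ∈ Finset.Icc 1 Y, ∑ ν ∈ Finset.Icc 1 Y, ∑ μ' ∈ Finset.Icc 1 Y,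
      ∑ ν' ∈ Finset.Icc 1 Y, ∑ k ∈ Finset.Icc 1 (Y ^ 2), (Nat.totient k : ℝ) *
        ((if k ∣ μ * ν' then (β μ / μ) * (β ν' / ν') else 0) *
          (if k ∣ μ' * ν then (β μ' / μ') * (β ν / ν) else 0)) := by
    unfold QF
    refine Finset.sum_congr rfl fun μ hμ => Finset.sum_congr rfl fun ν hν =>
      Finset.sum_congr rfl fun μ' hμ' => Finset.sum_congr rfl fun ν' hν' => ?_
    rw [hg μ hμ ν hν μ' hμ' ν' hν', Finset.mul_sum, Finset.sum_div]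
    refine Finset.sum_congr rfl fun k _ => ?_
    have e1 : (μ : ℝ) ≠ 0 := by have := (Finset.mem_Icc.1 hμ).1; positivity
    have e2 : (ν : ℝ) ≠ 0 := by have := (Finset.mem_Icc.1 hν).1; positivity
    have e3 : (μ' : ℝ) ≠ 0 := by have := (Finset.mem_Icc.1 hμ').1; positivity
    have e4 : (ν' : ℝ) ≠ 0 := by have := (Finset.mem_Icc.1 hν').1; positivity
    split_ifs
    · field_simp
    · ring
    · ring
    · ring
  rw [h1]
  -- move the sum over k outside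
  have h2 : ∀ k : ℕ, (Nat.totient k : ℝ) * RR Y β k ^ 2 = ∑ μ ∈ Finset.Icc 1 Y, ∑ ν ∈ Finset.Icc 1 Y,
      ∑ μ' ∈ Finset.Icc 1 Y, ∑ ν' ∈ Finset.Icc 1 Y, (Nat.totient k : ℝ) *
        ((if k ∣ μ * ν' then (β μ / μ) * (β ν' / ν') else 0) *
          (if k ∣ μ' * ν then (β μ' / μ') * (β ν / ν) else 0)) := by
    intro k
    rw [pow_two]
    have h3 : RR Y β k * RR Y β k = ∑ μ ∈ Finset.Icc 1 Y, ∑ ν' ∈ Finset.Icc 1 Y,
        ∑ μ' ∈ Finset.Icc 1 Y, ∑ ν ∈ Finset.Icc 1 Y,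
        ((if k ∣ μ * ν' then (β μ / μ) * (β ν' / ν') else 0) *
          (if k ∣ μ' * ν then (β μ' / μ') * (β ν / ν) else 0)) := by
      conv_lhs => unfold RR
      rw [Finset.sum_mul]
      refine Finset.sum_congr rfl fun μ _ => ?_
      rw [Finset.sum_mul]
      refine Finset.sum_congr rfl fun ν' _ => ?_
      rw [Finset.mul_sum]
      refine Finset.sum_congr rfl fun μ' _ => ?_
      rw [Finset.mul_sum]
    rw [h3, Finset.mul_sum]
    refine Finset.sum_congr rfl fun μ _ => ?_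
    rw [Finset.mul_sum]
    have h4 : ∀ ν' ∈ Finset.Icc 1 Y, (Nat.totient k : ℝ) * ∑ μ' ∈ Finset.Icc 1 Y, ∑ ν ∈ Finset.Icc 1 Y,
        ((if k ∣ μ * ν' then (β μ / μ) * (β ν' / ν') else 0) *
          (if k ∣ μ' * ν then (β μ' / μ') * (β ν / ν) else 0)) =
        ∑ ν ∈ Finset.Icc 1 Y, ∑ μ' ∈ Finset.Icc 1 Y, (Nat.totient k : ℝ) *
        ((if k ∣ μ * ν' then (β μ / μ) * (β ν' / ν') else 0) *
          (if k ∣ μ' * ν then (β μ' / μ') * (β ν / ν) else 0)) := by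
      intro ν' _
      rw [Finset.mul_sum, Finset.sum_comm]
      refine Finset.sum_congr rfl fun μ' _ => ?_
      rw [Finset.mul_sum]
    rw [Finset.sum_congr rfl h4, Finset.sum_comm]
    refine Finset.sum_congr rfl fun ν _ => ?_
    rw [Finset.sum_comm]
  rw [Finset.sum_congr rfl fun k _ => h2 k]
  symm
  rw [Finset.sum_comm]
  refine Finset.sum_congr rfl fun μ _ => ?_
  rw [Finset.sum_comm]
  refine Finset.sum_congr rfl fun ν _ => ?_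
  rw [Finset.sum_comm]
  refine Finset.sum_congr rfl fun μ' _ => ?_
  rw [Finset.sum_comm]

lemma totient_le_real {k : ℕ} (hk : 1 ≤ k) : (0 : ℝ) < (Nat.totient k : ℝ) ∧
    (Nat.totient k : ℝ) ≤ k :=
  ⟨by exact_mod_cast Nat.totient_pos.2 hk, by exact_mod_cast Nat.totient_le k⟩

/-- **the quadratic form is `O(1/L)`** -/
theorem QF_bound : ∃ C : ℝ, 0 < C ∧ ∀ (L : ℝ) (Y : ℕ), 1 ≤ L → Real.exp (1 / 1000 * L) ≤ Y →
    (Y : ℝ) ≤ Real.exp (L / 2) → |QF Y (bR L)| ≤ C / L := by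
  obtain ⟨C, hC, h⟩ := rd
  obtain ⟨C4, hC4, h4⟩ := phi4
  refine ⟨2 * C ^ 2 * C4, by positivity, fun L Y hL hY1 hY2 => ?_⟩
  have hL0 : 0 < L := by linarith
  have hY0 : (0 : ℝ) < Y := (Real.exp_pos _).trans_le hY1
  rw [QF_diag, abs_of_nonneg (Finset.sum_nonneg fun k _ => by positivity)]
  have h1 : ∀ k ∈ Finset.Icc 1 (Y ^ 2), (Nat.totient k : ℝ) * RR Y (bR L) k ^ 2 ≤
      C ^ 2 / L ^ 2 * ((k : ℝ) ^ 3 / (Nat.totient k : ℝ) ^ 4) := by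
    intro k hk
    rw [Finset.mem_Icc] at hk
    have h2 := h L 0 Y k hL le_rfl (by positivity) hY1 hk.1
    rw [RR_eq, Complex.norm_real, Real.norm_eq_abs] at h2
    obtain ⟨hφ0, hφ1⟩ := totient_le_real hk.1
    have hk0 : (0 : ℝ) < k := by exact_mod_cast hk.1
    have h3 : RR Y (bR L) k ^ 2 ≤ (C * k / (L * (Nat.totient k : ℝ) ^ 2)) ^ 2 := by
      rw [← sq_abs]
      exact pow_le_pow_left₀ (abs_nonneg _) h2 2
    calc (Nat.totient k : ℝ) * RR Y (bR L) k ^ 2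
        ≤ (Nat.totient k : ℝ) * (C * k / (L * (Nat.totient k : ℝ) ^ 2)) ^ 2 :=
          mul_le_mul_of_nonneg_left h3 hφ0.le
      _ = C ^ 2 / L ^ 2 * ((k : ℝ) ^ 2 * (Nat.totient k : ℝ) / (Nat.totient k : ℝ) ^ 4) := by
          field_simp
      _ ≤ C ^ 2 / L ^ 2 * ((k : ℝ) ^ 2 * k / (Nat.totient k : ℝ) ^ 4) := by gcongr
      _ = _ := by ring
  refine (Finset.sum_le_sum h1).trans ?_
  rw [← Finset.mul_sum]
  have h2 : Real.log ((Y ^ 2 : ℕ) : ℝ) ≤ L := by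
    push_cast
    rw [Real.log_pow]
    have : Real.log Y ≤ L / 2 := by
      rw [Real.log_le_iff_le_exp hY0]
      exact hY2
    push_cast
    linarith
  calc C ^ 2 / L ^ 2 * ∑ k ∈ Finset.Icc 1 (Y ^ 2), (k : ℝ) ^ 3 / (Nat.totient k : ℝ) ^ 4
      ≤ C ^ 2 / L ^ 2 * (C4 * (1 + Real.log ((Y ^ 2 : ℕ) : ℝ))) :=
        mul_le_mul_of_nonneg_left (h4 (Y ^ 2)) (by positivity)
    _ ≤ C ^ 2 / L ^ 2 * (C4 * (L + L)) := by gcongr
    _ = _ := by field_simp; ring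

/-- the sum `r_1` -/
theorem r1_bound : ∃ C : ℝ, 0 < C ∧ ∀ (L : ℝ) (Y : ℕ), 1 ≤ L → Real.exp (1 / 1000 * L) ≤ Y →
    |∑ μ ∈ Finset.Icc 1 Y, ∑ ν ∈ Finset.Icc 1 Y, bR L μ * bR L ν / (μ * ν)| ≤ C / L := by
  obtain ⟨C, hC, h⟩ := rd
  refine ⟨C, hC, fun L Y hL hY1 => ?_⟩
  have h2 := h L 0 Y 1 hL le_rfl (by positivity) hY1 le_rfl
  rw [RR_eq, Complex.norm_real, Real.norm_eq_abs, Nat.totient_one] at h2
  norm_num at h2
  have e : RR Y (bR L) 1 = ∑ μ ∈ Finset.Icc 1 Y, ∑ ν ∈ Finset.Icc 1 Y, bR L μ * bR L ν / (μ * ν) := by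
    unfold RR
    refine Finset.sum_congr rfl fun μ _ => Finset.sum_congr rfl fun ν _ => ?_
    rw [if_pos (one_dvd _), div_mul_div_comm]
  rw [← e]
  exact h2

/-! ### Convolutions -/

/-- sums of the convolution square -/
theorem conv_sum (Y y : ℕ) (hy : Y * Y ≤ y) (β : ℕ → ℂ) (hβ : ∀ h, Y < h → β h = 0) (F : ℕ → ℂ) :
    ∑ h ∈ Finset.Icc 1 y, (∑ x ∈ h.divisorsAntidiagonal, β x.1 * β x.2) * F h =
      ∑ h₁ ∈ Finset.Icc 1 Y, ∑ h₂ ∈ Finset.Icc 1 Y, β h₁ * β h₂ * F (h₁ * h₂) := by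
  rw [← Finset.sum_product']
  have h1 : ∀ x ∈ Finset.Icc 1 Y ×ˢ Finset.Icc 1 Y, x.1 * x.2 ∈ Finset.Icc 1 y := by
    intro x hx
    rw [Finset.mem_product, Finset.mem_Icc, Finset.mem_Icc] at hx
    rw [Finset.mem_Icc]
    exact ⟨Nat.mul_pos hx.1.1 hx.2.1, (Nat.mul_le_mul hx.1.2 hx.2.2).trans hy⟩
  rw [← Finset.sum_fiberwise_of_maps_to h1]
  refine Finset.sum_congr rfl fun h hh => ?_
  rw [Finset.mem_Icc] at hh
  rw [Finset.sum_mul]
  symm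
  have h2 : ∀ x ∈ (Finset.Icc 1 Y ×ˢ Finset.Icc 1 Y).filter (fun x => x.1 * x.2 = h),
      β x.1 * β x.2 * F (x.1 * x.2) = β x.1 * β x.2 * F h := by
    intro x hx
    rw [(Finset.mem_filter.1 hx).2]
  rw [Finset.sum_congr rfl h2]
  refine Finset.sum_subset ?_ ?_
  · intro x hx
    rw [Finset.mem_filter] at hx
    rw [Nat.mem_divisorsAntidiagonal]
    exact ⟨hx.2, by omega⟩
  · intro x hx hx'
    rw [Nat.mem_divisorsAntidiagonal] at hx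
    have hx1 : 0 < x.1 := Nat.pos_of_ne_zero (by rintro h0; rw [h0, zero_mul] at hx; omega)
    have hx2 : 0 < x.2 := Nat.pos_of_ne_zero (by rintro h0; rw [h0, mul_zero] at hx; omega)
    rw [Finset.mem_filter, Finset.mem_product, Finset.mem_Icc, Finset.mem_Icc] at hx'
    by_cases h3 : x.1 ≤ Y
    · have h4 : ¬ x.2 ≤ Y := fun h4 => hx' ⟨⟨⟨hx1, h3⟩, ⟨hx2, h4⟩⟩, hx.1⟩
      rw [hβ x.2 (by omega), mul_zero, zero_mul]
    · rw [hβ x.1 (by omega), zero_mul, zero_mul]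

/-- the coefficients `b = β * β` (times `h^{-κ}`) -/
noncomputable def b2 (L κ : ℝ) (h : ℕ) : ℂ := ∑ x ∈ h.divisorsAntidiagonal, be L κ x.1 * be L κ x.2

lemma be_zero_of {L κ : ℝ} (hL : 0 < L) {Y : ℕ} (hY : Real.exp (1 / 1000 * L) ≤ Y) (h : ℕ)
    (hh : Y < h) : be L κ h = 0 := by
  by_contra hc
  have := (be_supp hL hY h hc).2
  omega

lemma rr_b2 {L κ : ℝ} (hL : 0 < L) {Y y : ℕ} (hY : Real.exp (1 / 1000 * L) ≤ Y) (hy : Y * Y ≤ y) (k : ℕ) :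
    rr y (b2 L κ) k = RD Y (be L κ) k := by
  unfold rr RD
  rw [Finset.sum_filter]
  have h1 : ∀ h ∈ Finset.Icc 1 y, (if k ∣ h then b2 L κ h / (h : ℂ) else 0) =
      (∑ x ∈ h.divisorsAntidiagonal, be L κ x.1 * be L κ x.2) * (if k ∣ h then 1 / (h : ℂ) else 0) := by
    intro h _
    unfold b2
    split_ifs
    · ring
    · ring
  rw [Finset.sum_congr rfl h1, conv_sum Y y hy (be L κ) (be_zero_of hL hY)]
  refine Finset.sum_congr rfl fun h₁ _ => Finset.sum_congr rfl fun h₂ _ => ?_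
  split_ifs
  · push_cast
    rw [div_mul_div_comm, mul_one_div]
  · ring

lemma MM_b2 {L : ℝ} (hL : 0 < L) {Y y : ℕ} (hY : Real.exp (1 / 1000 * L) ≤ Y) (hy : Y * Y ≤ y) (s : ℂ) :
    MM y (b2 L 0) s = (∑ h ∈ Finset.Icc 1 Y, ((bR L h : ℝ) : ℂ) * (h : ℂ) ^ (-s)) ^ 2 := by
  unfold MM b2
  rw [conv_sum Y y hy (be L 0) (be_zero_of hL hY) (fun h => (h : ℂ) ^ (-s)), pow_two,
    Finset.sum_mul_sum]
  refine Finset.sum_congr rfl fun h₁ _ => Finset.sum_congr rfl fun h₂ _ => ?_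
  rw [Nat.cast_mul, Complex.natCast_mul_natCast_cpow]
  unfold be
  simp only [Complex.ofReal_zero, neg_zero, Complex.cpow_zero, mul_one]
  ring

lemma b2_one (L κ : ℝ) : b2 L κ 1 = 1 := by
  unfold b2 be
  simp [bR_one]

lemma b2_zero {L κ : ℝ} (hL : 0 < L) {Y y : ℕ} (hY : Real.exp (1 / 1000 * L) ≤ Y) (hy : Y * Y ≤ y)
    (h : ℕ) (hh : y < h) : b2 L κ h = 0 := by
  unfold b2
  refine Finset.sum_eq_zero fun x hx => ?_
  rw [Nat.mem_divisorsAntidiagonal] at hx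
  by_cases h3 : x.1 ≤ Y
  · have h4 : ¬ x.2 ≤ Y := by
      intro h4
      have := Nat.mul_le_mul h3 h4
      omega
    rw [be_zero_of hL hY x.2 (by omega), mul_zero]
  · rw [be_zero_of hL hY x.1 (by omega), zero_mul]

/-- the coefficients are real -/
noncomputable def b2R (L : ℝ) (h : ℕ) : ℝ := ∑ x ∈ h.divisorsAntidiagonal, bR L x.1 * bR L x.2

lemma b2_real (L : ℝ) (h : ℕ) : b2 L 0 h = ((b2R L h : ℝ) : ℂ) := by
  unfold b2 b2R be
  rw [Complex.ofReal_sum]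
  refine Finset.sum_congr rfl fun x _ => ?_
  simp only [Complex.ofReal_zero, neg_zero, Complex.cpow_zero, mul_one]
  push_cast
  ring

lemma b2R_abs (L : ℝ) (h : ℕ) : |b2R L h| ≤ h := by
  unfold b2R
  calc |∑ x ∈ h.divisorsAntidiagonal, bR L x.1 * bR L x.2|
      ≤ ∑ x ∈ h.divisorsAntidiagonal, (1 : ℝ) := by
        refine (Finset.abs_sum_le_sum_abs _ _).trans (Finset.sum_le_sum fun x _ => ?_)
        rw [abs_mul]
        exact mul_le_one₀ (bR_abs L _) (abs_nonneg _) (bR_abs L _)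
    _ = (h.divisors.card : ℝ) := by
        rw [Finset.sum_const, nsmul_eq_mul, mul_one, ← Nat.map_div_right_divisors, Finset.card_map]
    _ ≤ h := by exact_mod_cast Nat.card_divisors_le_self h

end Pool.Agent.Helper647.PT
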