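import Pool.Agent.Helper647_PT.Ar4

set_option autoImplicit false

/-! The mean square of `ζ B²`. -/

namespace Pool.Agent.Helper647.PT

open Complex Filter Topology MeasureTheory Set
open Pool.Agent.H24R2.DZ (ph MM cc rr SFour SInvZ SAN)

/-- `c_n = ∑_{h ∣ n} b_h` -/
noncomputable def cR (L : ℝ) (y n : ℕ) : ℝ := ∑ h ∈ Finset.Icc 1 y, if h ∣ n then b2R L h else 0

lemma cc_eq {L : ℝ} (hL : 0 < L) {Y y : ℕ} (hY : Real.exp (1 / 1000 * L) ≤ Y) (hy : Y * Y ≤ y) {n : ℕ}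
    (hn : 1 ≤ n) : cc (b2 L 0) n = ((cR L y n : ℝ) : ℂ) := by
  unfold cc cR
  rw [Complex.ofReal_sum]
  have h1 : ∀ h ∈ Finset.Icc 1 y, (((if h ∣ n then b2R L h else 0 : ℝ)) : ℂ) =
      if h ∣ n then b2 L 0 h else 0 := by
    intro h _
    split_ifs
    · rw [b2_real]
    · simp
  rw [Finset.sum_congr rfl h1, ← Finset.sum_filter]
  symm
  refine Finset.sum_subset ?_ ?_
  · intro h hh
    rw [Finset.mem_filter, Finset.mem_Icc] at hh
    rw [Nat.mem_divisors]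
    exact ⟨hh.2, by omega⟩
  · intro h hh hh'
    rw [Nat.mem_divisors] at hh
    have h0 : 0 < h := Nat.pos_of_dvd_of_pos hh.1 hn
    rw [Finset.mem_filter, Finset.mem_Icc] at hh'
    refine b2_zero hL hY hy h ?_
    by_contra hc
    exact hh' ⟨⟨h0, by omega⟩, hh.1⟩

lemma cR_abs (L : ℝ) (y n : ℕ) : |cR L y n| ≤ (y : ℝ) ^ 2 := by
  unfold cR
  calc |∑ h ∈ Finset.Icc 1 y, if h ∣ n then b2R L h else 0| ≤ ∑ h ∈ Finset.Icc 1 y, (y : ℝ) := by
        refine (Finset.abs_sum_le_sum_abs _ _).trans (Finset.sum_le_sum fun h hh => ?_)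
        rw [Finset.mem_Icc] at hh
        split_ifs
        · exact (b2R_abs L h).trans (by exact_mod_cast hh.2)
        · rw [abs_zero]; exact Nat.cast_nonneg _
    _ = (y : ℝ) ^ 2 := by
        rw [Finset.sum_const, Nat.card_Icc, nsmul_eq_mul]
        simp
        ring

/-- the multiples of `a` -/
lemma tsum_mult {s : ℝ} (hs : 1 < s) {a : ℕ} (ha : 1 ≤ a) :
    Summable (fun n : ℕ => if a ∣ n then (n : ℝ) ^ (-s) else 0) ∧
    ∑' n : ℕ, (if a ∣ n then (n : ℝ) ^ (-s) else 0) = (a : ℝ) ^ (-s) * ∑' n : ℕ, (n : ℝ) ^ (-s) := by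
  have hsum : Summable (fun n : ℕ => (n : ℝ) ^ (-s)) := Real.summable_nat_rpow.mpr (by linarith)
  have hinj : Function.Injective (fun m : ℕ => a * m) := fun x y h =>
    Nat.eq_of_mul_eq_mul_left (by omega) h
  refine ⟨?_, ?_⟩
  · refine Summable.of_nonneg_of_le (fun n => ?_) (fun n => ?_) hsum
    · split_ifs
      · exact Real.rpow_nonneg (Nat.cast_nonneg _) _
      · exact le_rfl
    · split_ifs
      · exact le_rfl
      · exact Real.rpow_nonneg (Nat.cast_nonneg _) _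
  · have h1 : Function.support (fun n : ℕ => if a ∣ n then (n : ℝ) ^ (-s) else 0) ⊆
        Set.range (fun m : ℕ => a * m) := by
      intro n hn
      rw [Function.mem_support] at hn
      by_cases hd : a ∣ n
      · obtain ⟨m, rfl⟩ := hd
        exact ⟨m, rfl⟩
      · rw [if_neg hd] at hn
        exact absurd rfl hn
    rw [← hinj.tsum_eq h1, ← tsum_mul_left]
    refine tsum_congr fun m => ?_
    rw [if_pos (Dvd.intro _ rfl), Nat.cast_mul, Real.mul_rpow (Nat.cast_nonneg _) (Nat.cast_nonneg _)]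

/-- the sums `∑_{k ∣ h} b_h h^{-s}` -/
noncomputable def XR (L s : ℝ) (y k : ℕ) : ℝ :=
  ∑ h ∈ Finset.Icc 1 y, if k ∣ h then b2R L h * (h : ℝ) ^ (-s) else 0

lemma XR_eq {L κ : ℝ} (hL : 0 < L) {Y y : ℕ} (hY : Real.exp (1 / 1000 * L) ≤ Y) (hy : Y * Y ≤ y) (k : ℕ) :
    ((XR L (1 + κ) y k : ℝ) : ℂ) = RD Y (be L κ) k := by
  unfold XR
  rw [Complex.ofReal_sum]
  have h1 : ∀ h ∈ Finset.Icc 1 y, ((if k ∣ h then b2R L h * (h : ℝ) ^ (-(1 + κ)) else 0 : ℝ) : ℂ) =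
      (∑ x ∈ h.divisorsAntidiagonal, be L 0 x.1 * be L 0 x.2) *
        (if k ∣ h then (((h : ℝ) ^ (-(1 + κ)) : ℝ) : ℂ) else 0) := by
    intro h _
    have e : (∑ x ∈ h.divisorsAntidiagonal, be L 0 x.1 * be L 0 x.2) = ((b2R L h : ℝ) : ℂ) := b2_real L h
    rw [e]
    split_ifs
    · push_cast; ring
    · simp
  rw [Finset.sum_congr rfl h1, conv_sum Y y hy (be L 0) (be_zero_of hL hY)]
  unfold RD
  refine Finset.sum_congr rfl fun h₁ hh₁ => Finset.sum_congr rfl fun h₂ hh₂ => ?_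
  split_ifs
  · rw [Finset.mem_Icc] at hh₁ hh₂
    have e1 : (0 : ℝ) < h₁ := by exact_mod_cast hh₁.1
    have e2 : (0 : ℝ) < h₂ := by exact_mod_cast hh₂.1
    have e3 : (h₁ : ℂ) ≠ 0 := by exact_mod_cast (by omega : h₁ ≠ 0)
    have e4 : (h₂ : ℂ) ≠ 0 := by exact_mod_cast (by omega : h₂ ≠ 0)
    have e5 : ∀ x : ℕ, 0 < x → (((x : ℝ) ^ (-(1 + κ)) : ℝ) : ℂ) = (x : ℂ) ^ (-(κ : ℂ)) / x := by
      intro x hx
      have hx0 : (x : ℂ) ≠ 0 := by exact_mod_cast (by omega : x ≠ 0)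
      rw [Complex.ofReal_cpow (Nat.cast_nonneg _)]
      push_cast
      rw [show (-(1 + (κ : ℂ))) = -(κ : ℂ) - 1 by ring, Complex.cpow_sub _ _ hx0, Complex.cpow_one]
    rw [Nat.cast_mul, Real.mul_rpow e1.le e2.le]
    push_cast only [Complex.ofReal_mul]
    rw [e5 h₁ hh₁.1, e5 h₂ hh₂.1]
    unfold be
    simp only [Complex.ofReal_zero, neg_zero, Complex.cpow_zero, mul_one]
    ring
  · ring

/-- **the identity for the sum of squares** -/
theorem csum_eq (L : ℝ) {s : ℝ} (hs : 1 < s) (y : ℕ) :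
    Summable (fun n : ℕ => (n : ℝ) ^ (-s) * cR L y n ^ 2) ∧
    ∑' n : ℕ, (n : ℝ) ^ (-s) * cR L y n ^ 2 =
      (∑' n : ℕ, (n : ℝ) ^ (-s)) * ∑ k ∈ Finset.Icc 1 y, Jt s k * XR L s y k ^ 2 := by
  have hsum : Summable (fun n : ℕ => (n : ℝ) ^ (-s)) := Real.summable_nat_rpow.mpr (by linarith)
  have hS : Summable (fun n : ℕ => (n : ℝ) ^ (-s) * cR L y n ^ 2) := by
    refine Summable.of_nonneg_of_le (fun n => by positivity) (fun n => ?_)
      (hsum.mul_right (((y : ℝ) ^ 2) ^ 2))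
    have h1 : cR L y n ^ 2 ≤ ((y : ℝ) ^ 2) ^ 2 := by
      rw [← sq_abs]
      exact pow_le_pow_left₀ (abs_nonneg _) (cR_abs L y n) 2
    exact mul_le_mul_of_nonneg_left h1 (Real.rpow_nonneg (Nat.cast_nonneg _) _)
  refine ⟨hS, ?_⟩
  set Z := ∑' n : ℕ, (n : ℝ) ^ (-s) with hZ
  have h1 : ∀ n : ℕ, (n : ℝ) ^ (-s) * cR L y n ^ 2 = ∑ h ∈ Finset.Icc 1 y, ∑ h' ∈ Finset.Icc 1 y,
      b2R L h * b2R L h' * (if Nat.lcm h h' ∣ n then (n : ℝ) ^ (-s) else 0) := by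
    intro n
    unfold cR
    rw [pow_two, Finset.sum_mul_sum, Finset.mul_sum]
    refine Finset.sum_congr rfl fun h _ => ?_
    rw [Finset.mul_sum]
    refine Finset.sum_congr rfl fun h' _ => ?_
    by_cases ha : h ∣ n
    · by_cases hb : h' ∣ n
      · rw [if_pos ha, if_pos hb, if_pos (Nat.lcm_dvd ha hb)]; ring
      · have : ¬ Nat.lcm h h' ∣ n := fun hc => hb ((Nat.dvd_lcm_right h h').trans hc)
        rw [if_neg hb, if_neg this]; ring
    · have : ¬ Nat.lcm h h' ∣ n := fun hc => ha ((Nat.dvd_lcm_left h h').trans hc)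
      rw [if_neg ha, if_neg this]; ring
  have hlc : ∀ h ∈ Finset.Icc 1 y, ∀ h' ∈ Finset.Icc 1 y, 1 ≤ Nat.lcm h h' := by
    intro h hh h' hh'
    rw [Finset.mem_Icc] at hh hh'
    exact Nat.lcm_pos hh.1 hh'.1
  have h2 : ∑' n : ℕ, (n : ℝ) ^ (-s) * cR L y n ^ 2 = ∑ h ∈ Finset.Icc 1 y, ∑ h' ∈ Finset.Icc 1 y,
      b2R L h * b2R L h' * ((Nat.lcm h h' : ℝ) ^ (-s) * Z) := by
    rw [tsum_congr h1, Summable.tsum_finsetSum]
    · refine Finset.sum_congr rfl fun h hh => ?_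
      rw [Summable.tsum_finsetSum]
      · refine Finset.sum_congr rfl fun h' hh' => ?_
        rw [tsum_mul_left, (tsum_mult hs (hlc h hh h' hh')).2]
      · intro h' hh'
        exact (tsum_mult hs (hlc h hh h' hh')).1.mul_left _
    · intro h hh
      refine summable_sum fun h' hh' => ?_
      exact (tsum_mult hs (hlc h hh h' hh')).1.mul_left _
  rw [h2]
  -- diagonalise
  have h3 : ∀ h ∈ Finset.Icc 1 y, ∀ h' ∈ Finset.Icc 1 y,
      b2R L h * b2R L h' * ((Nat.lcm h h' : ℝ) ^ (-s) * Z) =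
      ∑ k ∈ Finset.Icc 1 y, Z * (Jt s k * ((if k ∣ h then b2R L h * (h : ℝ) ^ (-s) else 0) *
        (if k ∣ h' then b2R L h' * (h' : ℝ) ^ (-s) else 0))) := by
    intro h hh h' hh'
    have hh1 := Finset.mem_Icc.1 hh
    have hh2 := Finset.mem_Icc.1 hh'
    have g0 : 0 < Nat.gcd h h' := Nat.gcd_pos_of_pos_left _ hh1.1
    have e1 : (0 : ℝ) < h := by exact_mod_cast hh1.1
    have e2 : (0 : ℝ) < h' := by exact_mod_cast hh2.1
    have e3 : (0 : ℝ) < (Nat.gcd h h' : ℝ) := by exact_mod_cast g0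
    have e4 : (0 : ℝ) < (Nat.lcm h h' : ℝ) := by exact_mod_cast hlc h hh h' hh'
    have e5 : (Nat.gcd h h' : ℝ) * (Nat.lcm h h' : ℝ) = h * h' := by
      exact_mod_cast Nat.gcd_mul_lcm h h'
    have e6 : (Nat.lcm h h' : ℝ) ^ (-s) = (Nat.gcd h h' : ℝ) ^ s * ((h : ℝ) ^ (-s) * (h' : ℝ) ^ (-s)) := by
      rw [← Real.mul_rpow e1.le e2.le, ← e5, Real.mul_rpow e3.le e4.le, ← mul_assoc,
        ← Real.rpow_add e3, add_neg_cancel, Real.rpow_zero, one_mul]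
    have e7 : (Nat.gcd h h' : ℝ) ^ s = ∑ k ∈ Finset.Icc 1 y,
        Jt s k * ((if k ∣ h then 1 else 0) * (if k ∣ h' then 1 else 0)) := by
      rw [← Jt_sum s g0]
      have h4 : ∀ k : ℕ, Jt s k * ((if k ∣ h then 1 else 0) * (if k ∣ h' then 1 else 0)) =
          if k ∣ Nat.gcd h h' then Jt s k else 0 := by
        intro k
        by_cases ha : k ∣ h
        · by_cases hb : k ∣ h'
          · rw [if_pos ha, if_pos hb, if_pos (Nat.dvd_gcd ha hb)]; ring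
          · have hn : ¬ k ∣ Nat.gcd h h' := fun hc => hb (hc.trans (Nat.gcd_dvd_right _ _))
            rw [if_neg hb, if_neg hn]; ring
        · have hn : ¬ k ∣ Nat.gcd h h' := fun hc => ha (hc.trans (Nat.gcd_dvd_left _ _))
          rw [if_neg ha, if_neg hn]; ring
      rw [Finset.sum_congr rfl fun k _ => h4 k, ← Finset.sum_filter]
      refine Finset.sum_congr ?_ fun _ _ => rfl
      ext k
      rw [Nat.mem_divisors, Finset.mem_filter, Finset.mem_Icc]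
      constructor
      · rintro ⟨ha, hb⟩
        exact ⟨⟨Nat.pos_of_dvd_of_pos ha g0, (Nat.le_of_dvd g0 ha).trans
          ((Nat.gcd_le_left _ hh1.1).trans hh1.2)⟩, ha⟩
      · rintro ⟨_, ha⟩
        exact ⟨ha, g0.ne'⟩
    rw [e6, e7, Finset.sum_mul, Finset.sum_mul, Finset.mul_sum]
    refine Finset.sum_congr rfl fun k _ => ?_
    split_ifs <;> ring
  rw [Finset.sum_congr rfl fun h hh => Finset.sum_congr rfl fun h' hh' => h3 h hh h' hh']
  have h4 : ∀ k : ℕ, Jt s k * XR L s y k ^ 2 = ∑ h ∈ Finset.Icc 1 y, ∑ h' ∈ Finset.Icc 1 y,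
      Jt s k * ((if k ∣ h then b2R L h * (h : ℝ) ^ (-s) else 0) *
        (if k ∣ h' then b2R L h' * (h' : ℝ) ^ (-s) else 0)) := by
    intro k
    unfold XR
    rw [pow_two, Finset.sum_mul_sum, Finset.mul_sum]
    refine Finset.sum_congr rfl fun h _ => ?_
    rw [Finset.mul_sum]
  rw [Finset.mul_sum]
  have h5 : ∀ h ∈ Finset.Icc 1 y, ∑ h' ∈ Finset.Icc 1 y, ∑ k ∈ Finset.Icc 1 y,
      Z * (Jt s k * ((if k ∣ h then b2R L h * (h : ℝ) ^ (-s) else 0) *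
        (if k ∣ h' then b2R L h' * (h' : ℝ) ^ (-s) else 0))) =
      ∑ k ∈ Finset.Icc 1 y, ∑ h' ∈ Finset.Icc 1 y,
      Z * (Jt s k * ((if k ∣ h then b2R L h * (h : ℝ) ^ (-s) else 0) *
        (if k ∣ h' then b2R L h' * (h' : ℝ) ^ (-s) else 0))) := by
    intro h _
    exact Finset.sum_comm
  rw [Finset.sum_congr rfl h5, Finset.sum_comm]
  refine Finset.sum_congr rfl fun k _ => ?_
  rw [h4 k, Finset.mul_sum]
  refine Finset.sum_congr rfl fun h _ => ?_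
  rw [Finset.mul_sum]

/-- the sum of the squares is bounded -/
theorem csum_bound : ∃ C : ℝ, 0 < C ∧ ∀ (L : ℝ) (Y y : ℕ), 1 ≤ L → Real.exp (1 / 1000 * L) ≤ Y →
    Y * Y ≤ y → (y : ℝ) ≤ Real.exp L →
    ∑' n : ℕ, (n : ℝ) ^ (-(1 + 1 / L)) * cR L y n ^ 2 ≤ C := by
  obtain ⟨C, hC, h⟩ := rd
  obtain ⟨C4, hC4, h4⟩ := phi4
  refine ⟨4 * Real.exp 1 * C ^ 2 * C4, by positivity, fun L Y y hL hY1 hY2 hy => ?_⟩
  have hL0 : 0 < L := by linarith
  have hi : 0 < 1 / L := by positivity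
  have hY0 : (0 : ℝ) < Y := (Real.exp_pos _).trans_le hY1
  have hYn : 1 ≤ Y := by exact_mod_cast hY0
  have hyn : 1 ≤ y := (Nat.mul_le_mul hYn hYn).trans hY2
  have hy0 : (0 : ℝ) < y := by exact_mod_cast hyn
  rw [(csum_eq L (by linarith) y).2]
  have hz : ∑' n : ℕ, (n : ℝ) ^ (-(1 + 1 / L)) ≤ 1 + L := by
    have := Pool.Agent.Y705.QT0.zeta_le (s := 1 + 1 / L) (by linarith)
    rw [add_sub_cancel_left, one_div_one_div] at this
    exact this
  have hly : Real.log y ≤ L := by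
    rw [Real.log_le_iff_le_exp hy0]
    exact hy
  have h1 : ∀ k ∈ Finset.Icc 1 y, Jt (1 + 1 / L) k * XR L (1 + 1 / L) y k ^ 2 ≤
      Real.exp 1 * (C ^ 2 / L ^ 2) * ((k : ℝ) ^ 3 / (Nat.totient k : ℝ) ^ 4) := by
    intro k hk
    rw [Finset.mem_Icc] at hk
    have h2 := h L (1 / L) Y k hL hi.le le_rfl hY1 hk.1
    rw [← XR_eq hL0 hY1 hY2, Complex.norm_real, Real.norm_eq_abs] at h2
    obtain ⟨hφ0, hφ1⟩ := totient_le_real hk.1
    have hk0 : (0 : ℝ) < k := by exact_mod_cast hk.1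
    have h3 : XR L (1 + 1 / L) y k ^ 2 ≤ (C * k / (L * (Nat.totient k : ℝ) ^ 2)) ^ 2 := by
      rw [← sq_abs]
      exact pow_le_pow_left₀ (abs_nonneg _) h2 2
    obtain ⟨hJ0, hJ1⟩ := Jt_bd (1 + 1 / L) (by linarith) hk.1
    have h5 : (k : ℝ) ^ (1 + 1 / L) ≤ k * Real.exp 1 := by
      rw [Real.rpow_add hk0, Real.rpow_one]
      refine mul_le_mul_of_nonneg_left ?_ hk0.le
      rw [Real.rpow_def_of_pos hk0]
      refine Real.exp_le_exp.2 ?_
      rw [mul_one_div, div_le_one hL0]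
      refine le_trans (Real.log_le_log hk0 ?_) hly
      exact_mod_cast hk.2
    calc Jt (1 + 1 / L) k * XR L (1 + 1 / L) y k ^ 2
        ≤ (k * Real.exp 1) * (C * k / (L * (Nat.totient k : ℝ) ^ 2)) ^ 2 :=
          mul_le_mul (hJ1.trans h5) h3 (sq_nonneg _) (by positivity)
      _ = _ := by field_simp
  have h6 := h4 y
  calc (∑' n : ℕ, (n : ℝ) ^ (-(1 + 1 / L))) *
        ∑ k ∈ Finset.Icc 1 y, Jt (1 + 1 / L) k * XR L (1 + 1 / L) y k ^ 2
      ≤ (1 + L) * (Real.exp 1 * (C ^ 2 / L ^ 2) * (C4 * (1 + Real.log y))) := by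
        refine mul_le_mul hz ?_ ?_ (by linarith)
        · refine (Finset.sum_le_sum h1).trans ?_
          rw [← Finset.mul_sum]
          exact mul_le_mul_of_nonneg_left h6 (by positivity)
        · refine Finset.sum_nonneg fun k hk => ?_
          exact mul_nonneg (Jt_bd _ (by linarith) (Finset.mem_Icc.1 hk).1).1 (sq_nonneg _)
    _ ≤ (L + L) * (Real.exp 1 * (C ^ 2 / L ^ 2) * (C4 * (L + L))) := by gcongr
    _ = _ := by field_simp; ring

/-- the second sum -/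
theorem rsum_bound : ∃ C : ℝ, 0 < C ∧ ∀ (L : ℝ) (Y y : ℕ), 1 ≤ L → Real.exp (1 / 1000 * L) ≤ Y →
    Y * Y ≤ y → (y : ℝ) ≤ Real.exp L →
    ∑ k ∈ Finset.Icc 1 y, (k : ℝ) * (1 + Real.log k) * ‖rr y (b2 L 0) k‖ ^ 2 ≤ C := by
  obtain ⟨C, hC, h⟩ := rd
  obtain ⟨C4, hC4, h4⟩ := phi4
  refine ⟨4 * C ^ 2 * C4, by positivity, fun L Y y hL hY1 hY2 hy => ?_⟩
  have hL0 : 0 < L := by linarith
  have hY0 : (0 : ℝ) < Y := (Real.exp_pos _).trans_le hY1
  have hYn : 1 ≤ Y := by exact_mod_cast hY0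
  have hyn : 1 ≤ y := (Nat.mul_le_mul hYn hYn).trans hY2
  have hy0 : (0 : ℝ) < y := by exact_mod_cast hyn
  have hly : Real.log y ≤ L := by
    rw [Real.log_le_iff_le_exp hy0]
    exact hy
  have h1 : ∀ k ∈ Finset.Icc 1 y, (k : ℝ) * (1 + Real.log k) * ‖rr y (b2 L 0) k‖ ^ 2 ≤
      (L + L) * (C ^ 2 / L ^ 2) * ((k : ℝ) ^ 3 / (Nat.totient k : ℝ) ^ 4) := by
    intro k hk
    rw [Finset.mem_Icc] at hk
    have h2 := h L 0 Y k hL le_rfl (by positivity) hY1 hk.1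
    obtain ⟨hφ0, hφ1⟩ := totient_le_real hk.1
    have hk0 : (0 : ℝ) < k := by exact_mod_cast hk.1
    have hk1 : (1 : ℝ) ≤ k := by exact_mod_cast hk.1
    have hlk0 : 0 ≤ Real.log k := Real.log_nonneg hk1
    have hlk : Real.log k ≤ L := le_trans (Real.log_le_log hk0 (by exact_mod_cast hk.2)) hly
    rw [rr_b2 hL0 hY1 hY2]
    have h3 : ‖RD Y (be L 0) k‖ ^ 2 ≤ (C * k / (L * (Nat.totient k : ℝ) ^ 2)) ^ 2 :=
      pow_le_pow_left₀ (norm_nonneg _) h2 2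
    calc (k : ℝ) * (1 + Real.log k) * ‖RD Y (be L 0) k‖ ^ 2
        ≤ (k * (L + L)) * (C * k / (L * (Nat.totient k : ℝ) ^ 2)) ^ 2 := by
          refine mul_le_mul ?_ h3 (sq_nonneg _) (by positivity)
          exact mul_le_mul_of_nonneg_left (by linarith) hk0.le
      _ = _ := by field_simp
  refine (Finset.sum_le_sum h1).trans ?_
  rw [← Finset.mul_sum]
  calc (L + L) * (C ^ 2 / L ^ 2) * ∑ k ∈ Finset.Icc 1 y, (k : ℝ) ^ 3 / (Nat.totient k : ℝ) ^ 4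
      ≤ (L + L) * (C ^ 2 / L ^ 2) * (C4 * (1 + Real.log y)) :=
        mul_le_mul_of_nonneg_left (h4 y) (by positivity)
    _ ≤ (L + L) * (C ^ 2 / L ^ 2) * (C4 * (L + L)) := by gcongr
    _ = _ := by field_simp; ring

end Pool.Agent.Helper647.PT
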