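import Pool.Agent.Helper647_PT.Ar5

set_option autoImplicit false

/-! The mean square of `ζ B²`. -/

namespace Pool.Agent.Helper647.PT

open Complex Filter Topology MeasureTheory Set
open Pool.Agent.H24R2.DZ (ph MM cc rr SFour SInvZ SAN)

lemma weight_le {T : ℝ} (hT : Real.exp 1 ≤ T) {n : ℕ} (hn : 1 ≤ n) :
    (n : ℝ) ^ (-(2 * (1 / 2)) : ℝ) * Real.exp (-(n / T)) ≤
      Real.exp 1 * (n : ℝ) ^ (-(1 + 1 / Real.log T)) := by
  have hT0 : 0 < T := (Real.exp_pos _).trans_le hT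
  have hL1 : 1 ≤ Real.log T := by
    rw [Real.le_log_iff_exp_le hT0]; exact hT
  have hL0 : 0 < Real.log T := by linarith
  have hn0 : (0 : ℝ) < n := by exact_mod_cast hn
  have e1 : (n : ℝ) ^ (-(2 * (1 / 2)) : ℝ) = Real.exp (-(Real.log n)) := by
    rw [Real.rpow_def_of_pos hn0]; congr 1; ring
  have e2 : (n : ℝ) ^ (-(1 + 1 / Real.log T)) = Real.exp (-(Real.log n) - Real.log n / Real.log T) := by
    rw [Real.rpow_def_of_pos hn0]; congr 1; field_simp; ring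
  rw [e1, e2, ← Real.exp_add, ← Real.exp_add]
  refine Real.exp_le_exp.2 ?_
  have h1 : Real.log n = Real.log T + Real.log (n / T) := by
    rw [Real.log_div hn0.ne' hT0.ne']; ring
  have h2 : Real.log (n / T) ≤ n / T := by
    have := Real.log_le_sub_one_of_pos (div_pos hn0 hT0)
    linarith
  have h3 : Real.log n / Real.log T ≤ 1 + n / T := by
    rw [div_le_iff₀ hL0]
    have h4 : (0 : ℝ) < n / T := div_pos hn0 hT0
    nlinarith
  linarith

theorem first_sum : ∃ C T0 : ℝ, 0 < C ∧ Real.exp 1 ≤ T0 ∧ ∀ T : ℝ, T0 ≤ T → ∀ y : ℕ,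
    Yn T * Yn T ≤ y → (y : ℝ) ≤ T →
    ∑' n : ℕ, (if n ≤ 1 then 0 else ‖cc (b2 (Real.log T) 0) n‖ ^ 2 * (n : ℝ) ^ (-(2 * (1 / 2)) : ℝ) *
      Real.exp (-(n / T))) ≤ C := by
  obtain ⟨C, hC, h⟩ := csum_bound
  refine ⟨Real.exp 1 * C, Real.exp 1, by positivity, le_rfl, fun T hT y hy1 hy2 => ?_⟩
  have hT0 : 0 < T := (Real.exp_pos _).trans_le hT
  have hL1 : 1 ≤ Real.log T := by
    rw [Real.le_log_iff_exp_le hT0]; exact hT
  have hL0 : 0 < Real.log T := by linarith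
  have hi : 0 < 1 / Real.log T := by positivity
  have hY := exp_le_Yn hT0
  have h1 := h (Real.log T) (Yn T) y hL1 hY hy1 (by rw [Real.exp_log hT0]; exact hy2)
  have hs := (csum_eq (Real.log T) (s := 1 + 1 / Real.log T) (by linarith) y).1
  have hterm : ∀ n : ℕ, (if n ≤ 1 then 0 else ‖cc (b2 (Real.log T) 0) n‖ ^ 2 *
      (n : ℝ) ^ (-(2 * (1 / 2)) : ℝ) * Real.exp (-(n / T))) ≤
      Real.exp 1 * ((n : ℝ) ^ (-(1 + 1 / Real.log T)) * cR (Real.log T) y n ^ 2) := by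
    intro n
    split_ifs with hn
    · positivity
    · push Not at hn
      rw [cc_eq hL0 hY hy1 hn.le, Complex.norm_real, Real.norm_eq_abs, sq_abs]
      have := weight_le hT (n := n) hn.le
      calc cR (Real.log T) y n ^ 2 * (n : ℝ) ^ (-(2 * (1 / 2)) : ℝ) * Real.exp (-(n / T))
          = cR (Real.log T) y n ^ 2 * ((n : ℝ) ^ (-(2 * (1 / 2)) : ℝ) * Real.exp (-(n / T))) := by ring
        _ ≤ cR (Real.log T) y n ^ 2 * (Real.exp 1 * (n : ℝ) ^ (-(1 + 1 / Real.log T))) :=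
            mul_le_mul_of_nonneg_left this (sq_nonneg _)
        _ = _ := by ring
  have hnn : ∀ n : ℕ, 0 ≤ (if n ≤ 1 then 0 else ‖cc (b2 (Real.log T) 0) n‖ ^ 2 *
      (n : ℝ) ^ (-(2 * (1 / 2)) : ℝ) * Real.exp (-(n / T))) := by
    intro n
    split_ifs
    · exact le_rfl
    · positivity
  have hS1 := Summable.of_nonneg_of_le hnn hterm (hs.mul_left (Real.exp 1))
  calc _ ≤ ∑' n : ℕ, Real.exp 1 * ((n : ℝ) ^ (-(1 + 1 / Real.log T)) * cR (Real.log T) y n ^ 2) :=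
        hS1.tsum_le_tsum hterm (hs.mul_left (Real.exp 1))
    _ = Real.exp 1 * ∑' n : ℕ, (n : ℝ) ^ (-(1 + 1 / Real.log T)) * cR (Real.log T) y n ^ 2 :=
        tsum_mul_left
    _ ≤ _ := mul_le_mul_of_nonneg_left h1 (Real.exp_pos _).le

lemma zeta_half_cont : Continuous fun t : ℝ => riemannZeta (((1 / 2 : ℝ) : ℂ) + t * I) := by
  rw [continuous_iff_continuousAt]
  intro t
  have h1 : (((1 / 2 : ℝ) : ℂ) + t * I) ≠ 1 := by
    intro h
    have := congrArg Complex.re h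
    norm_num at this
  exact ContinuousAt.comp (f := fun t : ℝ => (((1 / 2 : ℝ) : ℂ) + t * I))
    (differentiableAt_riemannZeta h1).continuousAt (by fun_prop)

lemma cpow_line_cont (n : ℕ) (hn : 1 ≤ n) : Continuous fun t : ℝ => (n : ℂ) ^ (-(1 / 2 + I * (t : ℂ))) := by
  refine Continuous.const_cpow (by fun_prop) (Or.inl (by exact_mod_cast (by omega : n ≠ 0)))

lemma Bz_cont (Y : ℕ) (β : ℕ → ℝ) : Continuous (Bz Y β) := by
  unfold Bz
  refine continuous_finsetSum _ fun h hh => continuous_const.mul (cpow_line_cont h ?_)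
  exact (Finset.mem_Icc.1 hh).1

lemma Pz_cont (N : ℕ) : Continuous (Pz N) := by
  unfold Pz
  exact continuous_finsetSum _ fun h hh => cpow_line_cont h (Finset.mem_Icc.1 hh).1

/-- **the mean square** -/
theorem mean_sq : ∃ C T0 : ℝ, 0 < C ∧ 2 ≤ T0 ∧ ∀ T : ℝ, T0 ≤ T →
    ∫ t in (T / 4)..(4 * T), ‖riemannZeta (1 / 2 + I * t) * Bz (Yn T) (bR (Real.log T)) t ^ 2‖ ^ 2 ≤
      C * T := by
  obtain ⟨C1, T1, hC1, hT1, h1⟩ := Pool.Agent.W186.SD.san
  obtain ⟨C2, T2, hC2, hT2, h2⟩ := first_sum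
  obtain ⟨C3, hC3, h3⟩ := rsum_bound
  obtain ⟨T3, hT3, h4⟩ := Yn_le
  refine ⟨2 * (C1 * (C2 + C3 + 1)) + 8, max (max T1 T2) (max T3 2), by positivity, ?_, fun T hT => ?_⟩
  · exact (le_max_right _ _).trans (le_max_right _ _)
  have hTT1 : T1 ≤ T := (le_max_left _ _).trans ((le_max_left _ _).trans hT)
  have hTT2 : T2 ≤ T := (le_max_right _ _).trans ((le_max_left _ _).trans hT)
  have hTT3 : T3 ≤ T := (le_max_left _ _).trans ((le_max_right _ _).trans hT)
  have hT2' : 2 ≤ T := (le_max_right _ _).trans ((le_max_right _ _).trans hT)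
  have hT0 : 0 < T := by linarith
  have hT1' : 1 ≤ T := by linarith
  have hTe : Real.exp 1 ≤ T := hT2.trans hTT2
  have hL1 : 1 ≤ Real.log T := by
    rw [Real.le_log_iff_exp_le hT0]; exact hTe
  have hL0 : 0 < Real.log T := by linarith
  have hY := exp_le_Yn hT0
  have hYn := Yn_pos hT0
  set Y := Yn T with hYdef
  set y := Y * Y with hy
  set b := b2 (Real.log T) 0 with hb
  have hYle : (Y : ℝ) ≤ T ^ (1 / 500 : ℝ) := h4 T hTT3
  have hyle : (y : ℝ) ≤ T ^ (1 / 250 : ℝ) := by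
    rw [hy]
    push_cast
    calc (Y : ℝ) * Y ≤ T ^ (1 / 500 : ℝ) * T ^ (1 / 500 : ℝ) :=
          mul_le_mul hYle hYle (Nat.cast_nonneg _) (Real.rpow_nonneg hT0.le _)
      _ = T ^ (1 / 250 : ℝ) := by rw [← Real.rpow_add hT0]; norm_num
  have hyn : 1 ≤ y := Nat.mul_pos hYn hYn
  have hpow : ∀ m : ℕ, (y : ℝ) ^ m ≤ T ^ ((m : ℝ) / 250) := by
    intro m
    calc (y : ℝ) ^ m ≤ (T ^ (1 / 250 : ℝ)) ^ m := pow_le_pow_left₀ (Nat.cast_nonneg _) hyle m
      _ = T ^ ((m : ℝ) / 250) := by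
        rw [← Real.rpow_natCast, ← Real.rpow_mul hT0.le]; congr 1; ring
  have hyT : (y : ℝ) ≤ T := by
    refine hyle.trans ?_
    calc T ^ (1 / 250 : ℝ) ≤ T ^ (1 : ℝ) := Real.rpow_le_rpow_of_exponent_le hT1' (by norm_num)
      _ = T := Real.rpow_one T
  have hy100 : (y : ℝ) ^ 100 ≤ T := by
    refine (hpow 100).trans ?_
    calc T ^ (((100 : ℕ) : ℝ) / 250) ≤ T ^ (1 : ℝ) :=
          Real.rpow_le_rpow_of_exponent_le hT1' (by norm_num)
      _ = T := Real.rpow_one T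
  have hmain := h1 T (1 / 2) y b hTT1 hyn hy100 le_rfl (by norm_num)
    (fun h hh => b2_zero hL0 hY le_rfl h hh)
  have hb1 : b 1 = 1 := b2_one _ _
  have hA := h2 T hTT2 y le_rfl hyT
  have hB := h3 (Real.log T) Y y hL1 hY le_rfl (by rw [Real.exp_log hT0]; exact hyT)
  have hCC : T ^ (-(1 / 2) : ℝ) * ∑ h ∈ Finset.Icc 1 y, ‖b h‖ ^ 2 ≤ 1 := by
    have h5 : ∑ h ∈ Finset.Icc 1 y, ‖b h‖ ^ 2 ≤ (y : ℝ) ^ 3 := by
      calc ∑ h ∈ Finset.Icc 1 y, ‖b h‖ ^ 2 ≤ ∑ h ∈ Finset.Icc 1 y, (y : ℝ) ^ 2 := by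
            refine Finset.sum_le_sum fun h hh => ?_
            rw [Finset.mem_Icc] at hh
            rw [hb, b2_real, Complex.norm_real, Real.norm_eq_abs]
            exact pow_le_pow_left₀ (abs_nonneg _) ((b2R_abs _ h).trans (by exact_mod_cast hh.2)) 2
        _ = (y : ℝ) ^ 3 := by
            rw [Finset.sum_const, Nat.card_Icc, nsmul_eq_mul]
            simp
            ring
    calc T ^ (-(1 / 2) : ℝ) * ∑ h ∈ Finset.Icc 1 y, ‖b h‖ ^ 2
        ≤ T ^ (-(1 / 2) : ℝ) * T ^ (((3 : ℕ) : ℝ) / 250) :=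
          mul_le_mul_of_nonneg_left (h5.trans (hpow 3)) (Real.rpow_nonneg hT0.le _)
      _ = T ^ (-(1 / 2) + ((3 : ℕ) : ℝ) / 250 : ℝ) := by rw [← Real.rpow_add hT0]
      _ ≤ 1 := Real.rpow_le_one_of_one_le_of_nonpos hT1' (by norm_num)
  have hone : T ^ (1 - 2 * (1 / 2) : ℝ) = 1 := by norm_num
  rw [hone, one_mul] at hmain
  have hmain2 : ∫ t in (T / 4)..(4 * T), ‖riemannZeta (((1 / 2 : ℝ) : ℂ) + t * I) *
      MM y b (((1 / 2 : ℝ) : ℂ) + t * I) - b 1‖ ^ 2 ≤ C1 * T * (C2 + C3 + 1) := by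
    refine hmain.trans (mul_le_mul_of_nonneg_left ?_ (by positivity))
    linarith
  -- the polynomial is the square
  have hMM : ∀ t : ℝ, MM y b (((1 / 2 : ℝ) : ℂ) + t * I) = Bz Y (bR (Real.log T)) t ^ 2 := by
    intro t
    rw [hb, MM_b2 hL0 hY le_rfl]
    unfold Bz
    have e : (((1 / 2 : ℝ) : ℂ) + t * I) = 1 / 2 + I * t := by push_cast; ring
    rw [e]
  have hz : ∀ t : ℝ, riemannZeta (1 / 2 + I * t) = riemannZeta (((1 / 2 : ℝ) : ℂ) + t * I) := by
    intro t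
    congr 1
    push_cast
    ring
  have hcF : Continuous fun t : ℝ => riemannZeta (1 / 2 + I * t) * Bz Y (bR (Real.log T)) t ^ 2 := by
    have : (fun t : ℝ => riemannZeta (1 / 2 + I * t)) =
        fun t : ℝ => riemannZeta (((1 / 2 : ℝ) : ℂ) + t * I) := funext hz
    exact (this ▸ zeta_half_cont).mul ((Bz_cont _ _).pow 2)
  have hcG : Continuous fun t : ℝ => ‖riemannZeta (((1 / 2 : ℝ) : ℂ) + t * I) *
      MM y b (((1 / 2 : ℝ) : ℂ) + t * I) - b 1‖ ^ 2 := by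
    have h6 : (fun t : ℝ => ‖riemannZeta (((1 / 2 : ℝ) : ℂ) + t * I) *
      MM y b (((1 / 2 : ℝ) : ℂ) + t * I) - b 1‖ ^ 2) =
      fun t : ℝ => ‖riemannZeta (1 / 2 + I * t) * Bz Y (bR (Real.log T)) t ^ 2 - b 1‖ ^ 2 := by
      funext t
      rw [hMM, hz]
    rw [h6]
    exact (hcF.sub continuous_const).norm.pow 2
  have hle : T / 4 ≤ 4 * T := by linarith
  calc ∫ t in (T / 4)..(4 * T), ‖riemannZeta (1 / 2 + I * t) * Bz Y (bR (Real.log T)) t ^ 2‖ ^ 2
      ≤ ∫ t in (T / 4)..(4 * T), (2 * ‖riemannZeta (((1 / 2 : ℝ) : ℂ) + t * I) *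
      MM y b (((1 / 2 : ℝ) : ℂ) + t * I) - b 1‖ ^ 2 + 2) := by
        refine intervalIntegral.integral_mono_on hle ?_ ?_ ?_
        · exact (hcF.norm.pow 2).intervalIntegrable _ _
        · exact ((continuous_const.mul hcG).add continuous_const).intervalIntegrable _ _
        · intro t _
          rw [hMM, ← hz, hb1]
          have h7 : ‖riemannZeta (1 / 2 + I * t) * Bz Y (bR (Real.log T)) t ^ 2‖ ≤
              ‖riemannZeta (1 / 2 + I * t) * Bz Y (bR (Real.log T)) t ^ 2 - 1‖ + 1 := by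
            calc _ = ‖(riemannZeta (1 / 2 + I * t) * Bz Y (bR (Real.log T)) t ^ 2 - 1) + 1‖ := by
                  congr 1; ring
              _ ≤ _ := by
                  refine (norm_add_le _ _).trans ?_
                  rw [norm_one]
          have h8 := norm_nonneg (riemannZeta (1 / 2 + I * t) * Bz Y (bR (Real.log T)) t ^ 2)
          have h9 := norm_nonneg (riemannZeta (1 / 2 + I * t) * Bz Y (bR (Real.log T)) t ^ 2 - 1)
          nlinarith [sq_nonneg (‖riemannZeta (1 / 2 + I * t) * Bz Y (bR (Real.log T)) t ^ 2 - 1‖ - 1)]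
    _ = 2 * (∫ t in (T / 4)..(4 * T), ‖riemannZeta (((1 / 2 : ℝ) : ℂ) + t * I) *
      MM y b (((1 / 2 : ℝ) : ℂ) + t * I) - b 1‖ ^ 2) + 2 * (4 * T - T / 4) := by
        rw [intervalIntegral.integral_add, intervalIntegral.integral_const_mul,
          intervalIntegral.integral_const, smul_eq_mul]
        · ring
        · exact (continuous_const.mul hcG).intervalIntegrable _ _
        · exact continuous_const.intervalIntegrable _ _
    _ ≤ 2 * (C1 * T * (C2 + C3 + 1)) + 2 * (4 * T - T / 4) := by linarith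
    _ ≤ _ := by
        have : 0 ≤ C1 * T := by positivity
        nlinarith

end Pool.Agent.Helper647.PT
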