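import Mathlib

set_option autoImplicit false
set_option maxHeartbeats 1000000


namespace Pool.Agent.Helper647.PT

open MeasureTheory Complex Filter Topology Set

/-- integral of the Cauchy kernel over an interval -/
lemma asm_int_q (h g a b : ℝ) (hh : 0 < h) :
    ∫ u in a..b, 1 / (1 + ((g - u) / h) ^ 2) ≤ h * Real.pi := by
  have h1 : (fun u : ℝ => 1 / (1 + ((g - u) / h) ^ 2)) =
      fun u : ℝ => (fun x : ℝ => 1 / (1 + x ^ 2)) (g / h - u / h) := by
    funext u; simp only; rw [sub_div]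
  rw [h1, intervalIntegral.integral_comp_sub_div (fun x : ℝ => 1 / (1 + x ^ 2)) hh.ne' (g / h),
    integral_one_div_one_add_sq, smul_eq_mul]
  refine mul_le_mul_of_nonneg_left ?_ hh.le
  have := Real.arctan_lt_pi_div_two (g / h - a / h)
  have := Real.neg_pi_div_two_lt_arctan (g / h - b / h)
  linarith

lemma asm_int_add {f g : ℝ → ℝ} (hf : Continuous f) (hg : Continuous g) (a b : ℝ) :
    ∫ u in a..b, (f u + g u) = (∫ u in a..b, f u) + ∫ u in a..b, g u :=
  intervalIntegral.integral_add (hf.intervalIntegrable _ _) (hg.intervalIntegrable _ _)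

lemma asm_int_five {f0 f1 f2 f3 f4 : ℝ → ℝ} (h0 : Continuous f0) (h1 : Continuous f1)
    (h2 : Continuous f2) (h3 : Continuous f3) (h4 : Continuous f4) (a b : ℝ) :
    ∫ u in a..b, (f0 u + f1 u + f2 u + f3 u + f4 u) = (∫ u in a..b, f0 u) +
      (∫ u in a..b, f1 u) + (∫ u in a..b, f2 u) + (∫ u in a..b, f3 u) + ∫ u in a..b, f4 u := by
  have k1 : Continuous fun u => f0 u + f1 u := h0.add h1
  have k2 : Continuous fun u => f0 u + f1 u + f2 u := k1.add h2
  have k3 : Continuous fun u => f0 u + f1 u + f2 u + f3 u := k2.add h3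
  rw [asm_int_add k3 h4, asm_int_add k2 h3, asm_int_add k1 h2, asm_int_add h0 h1]

lemma asm_int_sum (J : Finset ℕ) {f : ℕ → ℝ → ℝ} (hf : ∀ j, Continuous (f j)) (a b : ℝ) :
    ∫ u in a..b, ∑ j ∈ J, f j u = ∑ j ∈ J, ∫ u in a..b, f j u :=
  intervalIntegral.integral_finsetSum fun j _ => (hf j).intervalIntegrable _ _

theorem asm (φ : ℝ → ℝ) (C : ℝ) (hc : Continuous φ) (h0 : ∀ v : ℝ, 0 ≤ φ v)
    (hd : ∀ v : ℝ, φ v ≤ C / (1 + v ^ 2) ^ 2) (c1 C2 C3 C4 : ℝ) (hc1 : 0 < c1) (hC2 : 0 < C2)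
    (hC3 : 0 < C3) (hC4 : 0 < C4) :
    ∃ K η : ℝ, 8 ≤ K ∧ 0 < η ∧ ∀ (T : ℝ) (J O : Finset ℕ) (g X : ℕ → ℝ), 1 ≤ T → K ≤ Real.log T →
      c1 * K * T ≤ ∫ u in T..(2 * T), ∑ j ∈ J, |X j| * φ ((g j - u) / (K / Real.log T)) →
      ∫ u in T..(2 * T), (∑ j ∈ J, X j * φ ((g j - u) / (K / Real.log T))) ^ 2 ≤ C2 * K * T →
      ∑ j ∈ J, X j ^ 2 ≤ C3 * T * Real.log T →
      (J.card : ℝ) ≤ C3 * T * Real.log T →
      (∀ u : ℝ, ∑ j ∈ J, 1 / (1 + ((g j - u) / (K / Real.log T)) ^ 2) ≤ C4 * K) →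
      (∀ i ∈ J, ∀ k ∈ J, g i ≤ g k → (∀ j ∈ O, ¬ (g i ≤ g j ∧ g j < g k)) → 0 ≤ X i * X k) →
      η * T * Real.log T ≤ (O.card : ℝ) := by
  have hC : 0 ≤ C := by
    have := hd 0; have h00 := h0 0
    norm_num at this; linarith
  have hpi : 0 < Real.pi := Real.pi_pos
  have hq1 : ∀ v : ℝ, φ v ≤ C * (1 / (1 + v ^ 2)) := by
    intro v
    refine (hd v).trans ?_
    have hv : 1 ≤ 1 + v ^ 2 := by nlinarith [sq_nonneg v]
    rw [mul_one_div]
    apply div_le_div_of_nonneg_left hC (by linarith)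
    nlinarith
  -- constants
  obtain ⟨R, hR1, hR2⟩ : ∃ R : ℝ, 1 ≤ R ∧ 8 * C * Real.pi * C3 ≤ c1 * (1 + R ^ 2) := by
    refine ⟨1 + 8 * C * Real.pi * C3 / c1, ?_, ?_⟩
    · have : 0 ≤ 8 * C * Real.pi * C3 / c1 := by positivity
      linarith
    · have h2 : 0 ≤ 8 * C * Real.pi * C3 / c1 := by positivity
      have h3 : 8 * C * Real.pi * C3 = c1 * (8 * C * Real.pi * C3 / c1) := by field_simp
      calc 8 * C * Real.pi * C3 = c1 * (8 * C * Real.pi * C3 / c1) := h3
        _ ≤ c1 * (1 + (1 + 8 * C * Real.pi * C3 / c1) ^ 2) := by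
            apply mul_le_mul_of_nonneg_left _ hc1.le
            nlinarith
  obtain ⟨K, hK8, hK⟩ : ∃ K : ℝ, 8 ≤ K ∧ 16 * C2 ≤ c1 ^ 2 * K := by
    refine ⟨max 8 (16 * C2 / c1 ^ 2), le_max_left _ _, ?_⟩
    have : 16 * C2 = c1 ^ 2 * (16 * C2 / c1 ^ 2) := by field_simp
    rw [this]
    exact mul_le_mul_of_nonneg_left (by rw [← this]; exact le_max_right _ _) (by positivity)
  have hKp : 0 < K := by linarith
  obtain ⟨L, hL, hL2⟩ : ∃ L : ℝ, 0 < L ∧ 4 * (C * C4 * K * (C * Real.pi) * C3) ≤ c1 * L := by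
    refine ⟨1 + 4 * (C * C4 * K * (C * Real.pi) * C3) / c1, by positivity, ?_⟩
    have h3 : c1 * (1 + 4 * (C * C4 * K * (C * Real.pi) * C3) / c1) =
      c1 + 4 * (C * C4 * K * (C * Real.pi) * C3) := by field_simp
    rw [h3]; linarith
  set D : ℝ := 4 * L * (1 + R ^ 2) * Real.pi with hD
  have hDp : 0 < D := by positivity
  refine ⟨K, c1 / D, hK8, by positivity, ?_⟩
  intro T J O g X hT hKT H1 H2 H3 H4 H5 H6
  by_contra hcon
  rw [not_le] at hcon
  have hlog : 0 < Real.log T := by linarith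
  set h : ℝ := K / Real.log T with hh
  have hhp : 0 < h := by positivity
  have hhl : h * Real.log T = K := by rw [hh]; field_simp
  have hTp : 0 < T := by linarith
  -- pointwise bound
  have hpt : ∀ u : ℝ, ∑ j ∈ J, |X j| * φ ((g j - u) / h) ≤
      (c1 * K / 8 + (2 / (c1 * K)) * (∑ j ∈ J, X j * φ ((g j - u) / h)) ^ 2) +
      (2 * C / (1 + R ^ 2)) * (∑ j ∈ J, |X j| * (1 / (1 + ((g j - u) / h) ^ 2))) +
      (L / 2 * (1 + R ^ 2)) * (∑ j ∈ O, 1 / (1 + ((g j - u) / h) ^ 2)) +
      (C * C4 * K / (2 * L)) * (∑ j ∈ J, X j ^ 2 * φ ((g j - u) / h)) := by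
    intro u
    set S := ∑ j ∈ J, |X j| * φ ((g j - u) / h) with hS
    set I := ∑ j ∈ J, X j * φ ((g j - u) / h) with hI
    set Q := ∑ j ∈ J, |X j| * (1 / (1 + ((g j - u) / h) ^ 2)) with hQ
    set B := ∑ j ∈ O, 1 / (1 + ((g j - u) / h) ^ 2) with hB
    set V := ∑ j ∈ J, X j ^ 2 * φ ((g j - u) / h) with hV
    have hQ0 : 0 ≤ Q := Finset.sum_nonneg fun j _ => by positivity
    have hB0 : 0 ≤ B := Finset.sum_nonneg fun j _ => by positivity
    have hV0 : 0 ≤ V := Finset.sum_nonneg fun j _ => mul_nonneg (sq_nonneg _) (h0 _)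
    have hS0 : 0 ≤ S := Finset.sum_nonneg fun j _ => mul_nonneg (abs_nonneg _) (h0 _)
    have hIabs : |I| ≤ c1 * K / 8 + (2 / (c1 * K)) * I ^ 2 := by
      have hck : 0 < c1 * K := by positivity
      have : c1 * K / 8 + (2 / (c1 * K)) * I ^ 2 - |I| =
          (2 / (c1 * K)) * (|I| - c1 * K / 4) ^ 2 := by
        have : I ^ 2 = |I| ^ 2 := (sq_abs I).symm
        rw [this]; field_simp; ring
      have h2 : 0 ≤ (2 / (c1 * K)) * (|I| - c1 * K / 4) ^ 2 := by positivity
      linarith
    have e1 : 0 ≤ (2 * C / (1 + R ^ 2)) * Q := by positivity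
    have e2 : 0 ≤ (L / 2 * (1 + R ^ 2)) * B := by positivity
    have e3 : 0 ≤ (C * C4 * K / (2 * L)) * V := by positivity
    have e4 : 0 ≤ c1 * K / 8 + (2 / (c1 * K)) * I ^ 2 := by positivity
    by_cases hbad : ∃ j ∈ O, |g j - u| ≤ R * h
    · obtain ⟨j, hj, hju⟩ := hbad
      -- B (1+R^2) ≥ 1
      have hB1 : 1 ≤ (1 + R ^ 2) * B := by
        have hvv : ((g j - u) / h) ^ 2 ≤ R ^ 2 := by
          rw [← sq_abs ((g j - u) / h), abs_div, abs_of_pos hhp]
          apply pow_le_pow_left₀ (by positivity)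
          rw [div_le_iff₀ hhp]; exact hju
        have h1 : 1 / (1 + ((g j - u) / h) ^ 2) ≤ B :=
          Finset.single_le_sum (f := fun j => 1 / (1 + ((g j - u) / h) ^ 2))
            (fun i _ => by positivity) hj
        have h2 : 1 / (1 + R ^ 2) ≤ 1 / (1 + ((g j - u) / h) ^ 2) := by
          apply one_div_le_one_div_of_le (by positivity); linarith
        have h3 : (1 + R ^ 2) * (1 / (1 + R ^ 2)) = 1 := by field_simp
        calc (1:ℝ) = (1 + R ^ 2) * (1 / (1 + R ^ 2)) := h3.symm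
          _ ≤ (1 + R ^ 2) * B := mul_le_mul_of_nonneg_left (h2.trans h1) (by positivity)
      have hCS : S ^ 2 ≤ C * C4 * K * V := by
        have h1 : S ^ 2 ≤ (∑ j ∈ J, φ ((g j - u) / h)) * V := by
          apply Finset.sum_sq_le_sum_mul_sum_of_sq_le_mul
          · intro i _; exact h0 _
          · intro i _; exact mul_nonneg (sq_nonneg _) (h0 _)
          · intro i _; rw [mul_pow, sq_abs]; apply le_of_eq; ring
        have h2 : (∑ j ∈ J, φ ((g j - u) / h)) ≤ C * C4 * K := by
          calc (∑ j ∈ J, φ ((g j - u) / h)) ≤ ∑ j ∈ J, C * (1 / (1 + ((g j - u) / h) ^ 2)) :=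
                Finset.sum_le_sum fun j _ => hq1 _
            _ = C * ∑ j ∈ J, (1 / (1 + ((g j - u) / h) ^ 2)) := by rw [Finset.mul_sum]
            _ ≤ C * (C4 * K) := mul_le_mul_of_nonneg_left (H5 u) hC
            _ = C * C4 * K := by ring
        exact h1.trans (mul_le_mul_of_nonneg_right h2 hV0)
      have hSL : S ≤ L / 2 + S ^ 2 / (2 * L) := by
        have : L / 2 + S ^ 2 / (2 * L) - S = (S - L) ^ 2 / (2 * L) := by field_simp; ring
        have h2 : 0 ≤ (S - L) ^ 2 / (2 * L) := by positivity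
        linarith
      have h5 : S ^ 2 / (2 * L) ≤ (C * C4 * K / (2 * L)) * V := by
        rw [div_mul_eq_mul_div]
        exact div_le_div_of_nonneg_right hCS (by positivity)
      have h6 : L / 2 ≤ (L / 2 * (1 + R ^ 2)) * B := by
        calc L / 2 = L / 2 * 1 := (mul_one _).symm
          _ ≤ L / 2 * ((1 + R ^ 2) * B) := mul_le_mul_of_nonneg_left hB1 (by positivity)
          _ = _ := by ring
      linarith
    · simp only [not_exists, not_and, not_le] at hbad
      -- near/far splitting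
      have hsplit : ∀ f : ℕ → ℝ, ∑ j ∈ J, f j =
          ∑ j ∈ J.filter (fun j => |g j - u| ≤ R * h), f j +
          ∑ j ∈ J.filter (fun j => ¬ |g j - u| ≤ R * h), f j := by
        intro f; exact (Finset.sum_filter_add_sum_filter_not _ _ _).symm
      set N := J.filter (fun j => |g j - u| ≤ R * h) with hN
      set F := J.filter (fun j => ¬ |g j - u| ≤ R * h) with hF
      have hsign : ∀ i ∈ N, ∀ k ∈ N, 0 ≤ X i * X k := by
        have key : ∀ i ∈ N, ∀ k ∈ N, g i ≤ g k → 0 ≤ X i * X k := by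
          intro i hi k hk hik
          rw [hN, Finset.mem_filter] at hi hk
          apply H6 i hi.1 k hk.1 hik
          intro j hj ⟨h1, h2⟩
          have := hbad j hj
          have h3 := abs_le.1 hi.2
          have h4 := abs_le.1 hk.2
          have : |g j - u| ≤ R * h := abs_le.2 ⟨by linarith, by linarith⟩
          linarith
        intro i hi k hk
        rcases le_total (g i) (g k) with hik | hik
        · exact key i hi k hk hik
        · rw [mul_comm]; exact key k hk i hi hik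
      have hnear : ∑ j ∈ N, |X j| * φ ((g j - u) / h) = |∑ j ∈ N, X j * φ ((g j - u) / h)| := by
        have hsq : (∑ j ∈ N, |X j| * φ ((g j - u) / h)) ^ 2 =
            (∑ j ∈ N, X j * φ ((g j - u) / h)) ^ 2 := by
          rw [sq, sq, Finset.sum_mul_sum, Finset.sum_mul_sum]
          apply Finset.sum_congr rfl; intro i hi
          apply Finset.sum_congr rfl; intro k hk
          have := abs_of_nonneg (hsign i hi k hk)
          rw [abs_mul] at this
          calc |X i| * φ ((g i - u) / h) * (|X k| * φ ((g k - u) / h)) =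
              (|X i| * |X k|) * (φ ((g i - u) / h) * φ ((g k - u) / h)) := by ring
            _ = (X i * X k) * (φ ((g i - u) / h) * φ ((g k - u) / h)) := by rw [this]
            _ = _ := by ring
        have h1 : 0 ≤ ∑ j ∈ N, |X j| * φ ((g j - u) / h) :=
          Finset.sum_nonneg fun j _ => mul_nonneg (abs_nonneg _) (h0 _)
        have h2 := (sq_eq_sq_iff_abs_eq_abs _ _).1 hsq
        rw [abs_of_nonneg h1] at h2
        exact h2
      have hfar : ∑ j ∈ F, |X j| * φ ((g j - u) / h) ≤ (C / (1 + R ^ 2)) * Q := by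
        have h1 : ∑ j ∈ F, |X j| * φ ((g j - u) / h) ≤
            ∑ j ∈ F, (C / (1 + R ^ 2)) * (|X j| * (1 / (1 + ((g j - u) / h) ^ 2))) := by
          apply Finset.sum_le_sum
          intro j hj
          rw [hF, Finset.mem_filter] at hj
          have hj2 := not_le.1 hj.2
          have hvv : R ^ 2 ≤ ((g j - u) / h) ^ 2 := by
            rw [← sq_abs ((g j - u) / h), abs_div, abs_of_pos hhp]
            apply pow_le_pow_left₀ (by linarith)
            rw [le_div_iff₀ hhp]; exact hj2.le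
          have h2 : φ ((g j - u) / h) ≤ (C / (1 + R ^ 2)) * (1 / (1 + ((g j - u) / h) ^ 2)) := by
            refine (hd _).trans ?_
            rw [div_mul_div_comm, mul_one]
            apply div_le_div_of_nonneg_left hC (by positivity)
            rw [sq (1 + ((g j - u) / h) ^ 2)]
            apply mul_le_mul_of_nonneg_right _ (by positivity)
            linarith
          calc |X j| * φ ((g j - u) / h) ≤
              |X j| * ((C / (1 + R ^ 2)) * (1 / (1 + ((g j - u) / h) ^ 2))) :=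
                mul_le_mul_of_nonneg_left h2 (abs_nonneg _)
            _ = _ := by ring
        rw [← Finset.mul_sum] at h1
        refine h1.trans (mul_le_mul_of_nonneg_left ?_ (by positivity))
        exact Finset.sum_le_sum_of_subset_of_nonneg (Finset.filter_subset _ _)
          (fun j _ _ => by positivity)
      have hfar2 : |∑ j ∈ F, X j * φ ((g j - u) / h)| ≤ ∑ j ∈ F, |X j| * φ ((g j - u) / h) := by
        refine (Finset.abs_sum_le_sum_abs _ _).trans (le_of_eq ?_)
        apply Finset.sum_congr rfl; intro j _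
        rw [abs_mul, abs_of_nonneg (h0 _)]
      have hSe : S = ∑ j ∈ N, |X j| * φ ((g j - u) / h) + ∑ j ∈ F, |X j| * φ ((g j - u) / h) :=
        hsplit _
      have hIe : I = ∑ j ∈ N, X j * φ ((g j - u) / h) + ∑ j ∈ F, X j * φ ((g j - u) / h) :=
        hsplit _
      have h7 : |∑ j ∈ N, X j * φ ((g j - u) / h)| ≤
          |I| + |∑ j ∈ F, X j * φ ((g j - u) / h)| := by
        have : ∑ j ∈ N, X j * φ ((g j - u) / h) = I - ∑ j ∈ F, X j * φ ((g j - u) / h) := by
          rw [hIe]; ring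
        rw [this]
        exact abs_sub _ _
      have h8 : S ≤ |I| + (2 * C / (1 + R ^ 2)) * Q := by
        have : (2 * C / (1 + R ^ 2)) * Q = 2 * ((C / (1 + R ^ 2)) * Q) := by ring
        rw [this, hSe, hnear]
        linarith
      linarith
  -- continuity
  have cq : ∀ j : ℕ, Continuous fun u : ℝ => 1 / (1 + ((g j - u) / h) ^ 2) := by
    intro j
    apply Continuous.div continuous_const (by fun_prop)
    intro u; positivity
  have cφ : ∀ j : ℕ, Continuous fun u : ℝ => φ ((g j - u) / h) := by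
    intro j; exact hc.comp (by fun_prop)
  have cS : Continuous fun u : ℝ => ∑ j ∈ J, |X j| * φ ((g j - u) / h) :=
    continuous_finsetSum _ fun j _ => continuous_const.mul (cφ j)
  have cI : Continuous fun u : ℝ => (∑ j ∈ J, X j * φ ((g j - u) / h)) ^ 2 :=
    (continuous_finsetSum _ fun j _ => continuous_const.mul (cφ j)).pow 2
  have cQ : Continuous fun u : ℝ => ∑ j ∈ J, |X j| * (1 / (1 + ((g j - u) / h) ^ 2)) :=
    continuous_finsetSum _ fun j _ => continuous_const.mul (cq j)
  have cB : Continuous fun u : ℝ => ∑ j ∈ O, 1 / (1 + ((g j - u) / h) ^ 2) :=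
    continuous_finsetSum _ fun j _ => cq j
  have cV : Continuous fun u : ℝ => ∑ j ∈ J, X j ^ 2 * φ ((g j - u) / h) :=
    continuous_finsetSum _ fun j _ => continuous_const.mul (cφ j)
  have hTT : T ≤ 2 * T := by linarith
  -- integrate
  have hint : ∫ u in T..(2 * T), ∑ j ∈ J, |X j| * φ ((g j - u) / h) ≤
      (c1 * K / 8 * T + (2 / (c1 * K)) *
        ∫ u in T..(2 * T), (∑ j ∈ J, X j * φ ((g j - u) / h)) ^ 2) +
      (2 * C / (1 + R ^ 2)) *
        (∫ u in T..(2 * T), ∑ j ∈ J, |X j| * (1 / (1 + ((g j - u) / h) ^ 2))) +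
      (L / 2 * (1 + R ^ 2)) * (∫ u in T..(2 * T), ∑ j ∈ O, 1 / (1 + ((g j - u) / h) ^ 2)) +
      (C * C4 * K / (2 * L)) * (∫ u in T..(2 * T), ∑ j ∈ J, X j ^ 2 * φ ((g j - u) / h)) := by
    have cR : Continuous fun u : ℝ => (c1 * K / 8 + (2 / (c1 * K)) *
        (∑ j ∈ J, X j * φ ((g j - u) / h)) ^ 2) +
      (2 * C / (1 + R ^ 2)) * (∑ j ∈ J, |X j| * (1 / (1 + ((g j - u) / h) ^ 2))) +
      (L / 2 * (1 + R ^ 2)) * (∑ j ∈ O, 1 / (1 + ((g j - u) / h) ^ 2)) +
      (C * C4 * K / (2 * L)) * (∑ j ∈ J, X j ^ 2 * φ ((g j - u) / h)) :=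
      (((continuous_const.add (continuous_const.mul cI)).add (continuous_const.mul cQ)).add
        (continuous_const.mul cB)).add (continuous_const.mul cV)
    have h1 := intervalIntegral.integral_mono_on (μ := volume) hTT (cS.intervalIntegrable T (2 * T))
      (cR.intervalIntegrable T (2 * T)) (fun u _ => hpt u)
    refine h1.trans (le_of_eq ?_)
    have c1' : Continuous fun u : ℝ => (2 / (c1 * K)) * (∑ j ∈ J, X j * φ ((g j - u) / h)) ^ 2 :=
      continuous_const.mul cI
    have c2' : Continuous fun u : ℝ => (2 * C / (1 + R ^ 2)) *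
        (∑ j ∈ J, |X j| * (1 / (1 + ((g j - u) / h) ^ 2))) := continuous_const.mul cQ
    have c3' : Continuous fun u : ℝ => (L / 2 * (1 + R ^ 2)) *
        (∑ j ∈ O, 1 / (1 + ((g j - u) / h) ^ 2)) := continuous_const.mul cB
    have c4' : Continuous fun u : ℝ => (C * C4 * K / (2 * L)) *
        (∑ j ∈ J, X j ^ 2 * φ ((g j - u) / h)) := continuous_const.mul cV
    have c0' : Continuous fun _ : ℝ => c1 * K / 8 := continuous_const
    rw [asm_int_five c0' c1' c2' c3' c4',
      intervalIntegral.integral_const, intervalIntegral.integral_const_mul,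
      intervalIntegral.integral_const_mul, intervalIntegral.integral_const_mul,
      intervalIntegral.integral_const_mul, smul_eq_mul]
    ring
  -- bounds on the four integrals
  have hX1 : ∑ j ∈ J, |X j| ≤ C3 * T * Real.log T := by
    have h1 : ∀ j ∈ J, |X j| ≤ (1 + X j ^ 2) / 2 := by
      intro j _
      have : X j ^ 2 = |X j| ^ 2 := (sq_abs _).symm
      rw [this]; nlinarith [sq_nonneg (|X j| - 1)]
    refine (Finset.sum_le_sum h1).trans ?_
    rw [← Finset.sum_div, Finset.sum_add_distrib, Finset.sum_const, nsmul_eq_mul, mul_one]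
    linarith
  have bQ : ∫ u in T..(2 * T), ∑ j ∈ J, |X j| * (1 / (1 + ((g j - u) / h) ^ 2)) ≤
      Real.pi * K * C3 * T := by
    have cXq : ∀ j : ℕ, Continuous fun u : ℝ => |X j| * (1 / (1 + ((g j - u) / h) ^ 2)) :=
      fun j => continuous_const.mul (cq j)
    rw [asm_int_sum J cXq]
    calc ∑ j ∈ J, ∫ u in T..(2 * T), |X j| * (1 / (1 + ((g j - u) / h) ^ 2)) ≤
        ∑ j ∈ J, |X j| * (h * Real.pi) := by
          apply Finset.sum_le_sum; intro j _
          rw [intervalIntegral.integral_const_mul]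
          exact mul_le_mul_of_nonneg_left (asm_int_q h (g j) _ _ hhp) (abs_nonneg _)
      _ = (∑ j ∈ J, |X j|) * (h * Real.pi) := by rw [Finset.sum_mul]
      _ ≤ (C3 * T * Real.log T) * (h * Real.pi) :=
          mul_le_mul_of_nonneg_right hX1 (by positivity)
      _ = Real.pi * (h * Real.log T) * C3 * T := by ring
      _ = Real.pi * K * C3 * T := by rw [hhl]
  have bB : ∫ u in T..(2 * T), ∑ j ∈ O, 1 / (1 + ((g j - u) / h) ^ 2) ≤
      (O.card : ℝ) * (h * Real.pi) := by
    rw [asm_int_sum O cq]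
    calc ∑ j ∈ O, ∫ u in T..(2 * T), 1 / (1 + ((g j - u) / h) ^ 2) ≤
        ∑ j ∈ O, (h * Real.pi) := Finset.sum_le_sum fun j _ => asm_int_q h (g j) _ _ hhp
      _ = _ := by rw [Finset.sum_const, nsmul_eq_mul]
  have bV : ∫ u in T..(2 * T), ∑ j ∈ J, X j ^ 2 * φ ((g j - u) / h) ≤
      K * (C * Real.pi) * C3 * T := by
    have cXφ : ∀ j : ℕ, Continuous fun u : ℝ => X j ^ 2 * φ ((g j - u) / h) :=
      fun j => continuous_const.mul (cφ j)
    have cCq : ∀ j : ℕ, Continuous fun u : ℝ => C * (1 / (1 + ((g j - u) / h) ^ 2)) :=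
      fun j => continuous_const.mul (cq j)
    rw [asm_int_sum J cXφ]
    calc ∑ j ∈ J, ∫ u in T..(2 * T), X j ^ 2 * φ ((g j - u) / h) ≤
        ∑ j ∈ J, X j ^ 2 * (C * (h * Real.pi)) := by
          apply Finset.sum_le_sum; intro j _
          rw [intervalIntegral.integral_const_mul]
          apply mul_le_mul_of_nonneg_left _ (sq_nonneg _)
          calc ∫ u in T..(2 * T), φ ((g j - u) / h) ≤
              ∫ u in T..(2 * T), C * (1 / (1 + ((g j - u) / h) ^ 2)) :=
                intervalIntegral.integral_mono_on (μ := volume) hTT ((cφ j).intervalIntegrable _ _)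
                  ((cCq j).intervalIntegrable _ _) (fun u _ => hq1 _)
            _ = C * ∫ u in T..(2 * T), 1 / (1 + ((g j - u) / h) ^ 2) :=
                intervalIntegral.integral_const_mul _ _
            _ ≤ C * (h * Real.pi) :=
                mul_le_mul_of_nonneg_left (asm_int_q h (g j) _ _ hhp) hC
      _ = (∑ j ∈ J, X j ^ 2) * (C * (h * Real.pi)) := by rw [Finset.sum_mul]
      _ ≤ (C3 * T * Real.log T) * (C * (h * Real.pi)) :=
          mul_le_mul_of_nonneg_right H3 (by positivity)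
      _ = (h * Real.log T) * (C * Real.pi) * C3 * T := by ring
      _ = K * (C * Real.pi) * C3 * T := by rw [hhl]
  -- final numerics
  have f1 : (2 / (c1 * K)) * ∫ u in T..(2 * T), (∑ j ∈ J, X j * φ ((g j - u) / h)) ^ 2 ≤
      c1 * K * T / 8 := by
    calc (2 / (c1 * K)) * ∫ u in T..(2 * T), (∑ j ∈ J, X j * φ ((g j - u) / h)) ^ 2 ≤
        (2 / (c1 * K)) * (C2 * K * T) := mul_le_mul_of_nonneg_left H2 (by positivity)
      _ = (2 * C2 * T) / c1 := by field_simp
      _ ≤ c1 * K * T / 8 := by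
          rw [div_le_iff₀ hc1]
          have := mul_le_mul_of_nonneg_right hK hTp.le
          nlinarith
  have f2 : (2 * C / (1 + R ^ 2)) *
      (∫ u in T..(2 * T), ∑ j ∈ J, |X j| * (1 / (1 + ((g j - u) / h) ^ 2))) ≤ c1 * K * T / 4 := by
    have hR3 : 0 < 1 + R ^ 2 := by positivity
    calc _ ≤ (2 * C / (1 + R ^ 2)) * (Real.pi * K * C3 * T) :=
          mul_le_mul_of_nonneg_left bQ (by positivity)
      _ = (8 * C * Real.pi * C3) * (K * T) / (4 * (1 + R ^ 2)) := by field_simp; ring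
      _ ≤ (c1 * (1 + R ^ 2)) * (K * T) / (4 * (1 + R ^ 2)) := by
          apply div_le_div_of_nonneg_right _ (by positivity)
          exact mul_le_mul_of_nonneg_right hR2 (by positivity)
      _ = c1 * K * T / 4 := by field_simp
  have f3 : (L / 2 * (1 + R ^ 2)) * (∫ u in T..(2 * T), ∑ j ∈ O, 1 / (1 + ((g j - u) / h) ^ 2)) ≤
      c1 * K * T / 8 := by
    calc _ ≤ (L / 2 * (1 + R ^ 2)) * ((O.card : ℝ) * (h * Real.pi)) :=
          mul_le_mul_of_nonneg_left bB (by positivity)
      _ ≤ (L / 2 * (1 + R ^ 2)) * ((c1 / D * T * Real.log T) * (h * Real.pi)) := by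
          apply mul_le_mul_of_nonneg_left _ (by positivity)
          exact mul_le_mul_of_nonneg_right hcon.le (by positivity)
      _ = (L / 2 * (1 + R ^ 2)) * ((c1 / D * T) * ((h * Real.log T) * Real.pi)) := by ring
      _ = (L / 2 * (1 + R ^ 2)) * ((c1 / D * T) * (K * Real.pi)) := by rw [hhl]
      _ = c1 * K * T / 8 := by rw [hD]; field_simp; ring
  have f4 : (C * C4 * K / (2 * L)) * (∫ u in T..(2 * T), ∑ j ∈ J, X j ^ 2 * φ ((g j - u) / h)) ≤
      c1 * K * T / 8 := by
    calc _ ≤ (C * C4 * K / (2 * L)) * (K * (C * Real.pi) * C3 * T) :=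
          mul_le_mul_of_nonneg_left bV (by positivity)
      _ = (4 * (C * C4 * K * (C * Real.pi) * C3)) * (K * T) / (8 * L) := by field_simp; ring
      _ ≤ (c1 * L) * (K * T) / (8 * L) := by
          apply div_le_div_of_nonneg_right _ (by positivity)
          exact mul_le_mul_of_nonneg_right hL2 (by positivity)
      _ = c1 * K * T / 8 := by field_simp
  have hpos : 0 < c1 * K * T := by positivity
  have := H1.trans hint
  linarith

end Pool.Agent.Helper647.PT
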