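import Mathlib

set_option autoImplicit false


namespace Pool.Agent.Helper647.PT

open Filter Topology Set

/-
TARGET `par`: a continuous real function with zeros of total order even does not change sign.

Plain-words proof.  Let `P t = ∏_{u∈S} (t - u)^(m u)` and let `F t = f t / P t` for `t ∉ S`, and for `u ∈ S` let
`F u = c_u / ∏_{u'∈S, u'≠u} (u - u')^(m u')`, the limit of `f t / P t` at `u`.  Then `F` is continuous on `[a, b]` (at `u ∈ S` by
the hypothesis `hm`), and it has no zero on `[a, b]` (zeros of `f` in `[a, b]` are the points of `S`, since `f a, f b ≠ 0`).  By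
connectedness `F a * F b > 0`.  Now `P b > 0` and `P a = (-1)^(∑ m) * ∏ (u - a)^(m u)` is positive since `∑ m` is even.
-/
theorem par (f : ℝ → ℝ) (hf : Continuous f) (a b : ℝ) (hab : a < b) (ha : f a ≠ 0) (hb : f b ≠ 0)
    (S : Finset ℝ) (hS : ∀ u, u ∈ S ↔ a < u ∧ u < b ∧ f u = 0) (m : ℝ → ℕ)
    (hm : ∀ u ∈ S, ∃ c : ℝ, c ≠ 0 ∧ Tendsto (fun t => f t / (t - u) ^ (m u)) (𝓝[≠] u) (𝓝 c))
    (hev : Even (∑ u ∈ S, m u)) : 0 < f a * f b := by
  classical
  choose! c hc0 hc using hm
  set P : ℝ → ℝ := fun t => ∏ v ∈ S, (t - v) ^ (m v) with hP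
  set G : ℝ → ℝ → ℝ := fun u t => ∏ v ∈ S.erase u, (t - v) ^ (m v) with hG
  set F : ℝ → ℝ := fun t => if t ∈ S then c t / G t t else f t / P t with hF
  have hPc : Continuous P := by
    rw [hP]
    exact continuous_finset_prod _ (fun v _ => (continuous_id.sub continuous_const).pow _)
  have hGc : ∀ u, Continuous (G u) := by
    intro u
    rw [hG]
    exact continuous_finset_prod _ (fun v _ => (continuous_id.sub continuous_const).pow _)
  have hP0 : ∀ t, t ∉ S → P t ≠ 0 := by
    intro t ht
    rw [hP]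
    refine Finset.prod_ne_zero_iff.mpr (fun v hv => pow_ne_zero _ (sub_ne_zero.mpr ?_))
    rintro rfl
    exact ht hv
  have hG0 : ∀ u, G u u ≠ 0 := by
    intro u
    rw [hG]
    refine Finset.prod_ne_zero_iff.mpr (fun v hv => pow_ne_zero _ (sub_ne_zero.mpr ?_))
    exact (Finset.ne_of_mem_erase hv).symm
  have hFc : Continuous F := by
    rw [continuous_iff_continuousAt]
    intro t
    by_cases ht : t ∈ S
    · rw [continuousAt_iff_punctured_nhds]
      have h1 : F t = c t / G t t := by rw [hF]; simp [ht]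
      rw [h1]
      have h2 : Tendsto (fun s => (f s / (s - t) ^ (m t)) / G t s) (𝓝[≠] t) (𝓝 (c t / G t t)) := by
        refine Tendsto.div (hc t ht) ?_ (hG0 t)
        exact ((hGc t).tendsto t).mono_left nhdsWithin_le_nhds
      refine h2.congr' ?_
      have h3 : ((S.erase t : Finset ℝ) : Set ℝ)ᶜ ∈ 𝓝 t := by
        refine (S.erase t).finite_toSet.isClosed.isOpen_compl.mem_nhds ?_
        simp
      filter_upwards [mem_nhdsWithin_of_mem_nhds h3, self_mem_nhdsWithin] with s hs1 hs2
      have hsS : s ∉ S := by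
        intro h
        apply hs1
        rw [Finset.mem_coe, Finset.mem_erase]
        exact ⟨hs2, h⟩
      have h4 : F s = f s / P s := by rw [hF]; simp [hsS]
      rw [h4]
      have h5 : P s = (s - t) ^ (m t) * G t s := by
        rw [hP, hG]
        exact (Finset.mul_prod_erase S (fun v => (s - v) ^ (m v)) ht).symm
      rw [h5, div_div]
    · have h1 : ContinuousAt (fun s => f s / P s) t :=
        hf.continuousAt.div hPc.continuousAt (hP0 t ht)
      refine h1.congr ?_
      have h3 : ((S : Finset ℝ) : Set ℝ)ᶜ ∈ 𝓝 t := by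
        refine S.finite_toSet.isClosed.isOpen_compl.mem_nhds ?_
        simpa using ht
      filter_upwards [h3] with s hs
      have hsS : s ∉ S := by simpa using hs
      rw [hF]; simp [hsS]
  have haS : a ∉ S := by
    intro h; exact lt_irrefl _ ((hS a).1 h).1
  have hbS : b ∉ S := by
    intro h; exact lt_irrefl _ ((hS b).1 h).2.1
  have hF0 : ∀ t ∈ Icc a b, F t ≠ 0 := by
    intro t ht
    by_cases htS : t ∈ S
    · have h1 : F t = c t / G t t := by rw [hF]; simp [htS]
      rw [h1]
      exact div_ne_zero (hc0 t htS) (hG0 t)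
    · have h1 : F t = f t / P t := by rw [hF]; simp [htS]
      rw [h1]
      refine div_ne_zero ?_ (hP0 t htS)
      intro h0
      have hta : t ≠ a := by rintro rfl; exact ha h0
      have htb : t ≠ b := by rintro rfl; exact hb h0
      exact htS ((hS t).2 ⟨lt_of_le_of_ne ht.1 hta.symm, lt_of_le_of_ne ht.2 htb, h0⟩)
  have hFab : 0 < F a * F b := by
    have h1 := hF0 a (left_mem_Icc.2 hab.le)
    have h2 := hF0 b (right_mem_Icc.2 hab.le)
    rcases lt_or_gt_of_ne h1 with h1 | h1 <;> rcases lt_or_gt_of_ne h2 with h2 | h2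
    · exact mul_pos_of_neg_of_neg h1 h2
    · obtain ⟨t, ht, ht0⟩ := intermediate_value_Icc hab.le hFc.continuousOn (⟨h1.le, h2.le⟩ : (0:ℝ) ∈ Icc (F a) (F b))
      exact absurd ht0 (hF0 t ht)
    · obtain ⟨t, ht, ht0⟩ := intermediate_value_Icc' hab.le hFc.continuousOn (⟨h2.le, h1.le⟩ : (0:ℝ) ∈ Icc (F b) (F a))
      exact absurd ht0 (hF0 t ht)
    · exact mul_pos h1 h2
  have hPb : 0 < P b := by
    rw [hP]
    exact Finset.prod_pos (fun v hv => pow_pos (sub_pos.mpr ((hS v).1 hv).2.1) _)
  have hPa : 0 < P a := by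
    have h1 : P a = (-1) ^ (∑ u ∈ S, m u) * ∏ v ∈ S, (v - a) ^ (m v) := by
      rw [hP, ← Finset.prod_pow_eq_pow_sum, ← Finset.prod_mul_distrib]
      refine Finset.prod_congr rfl (fun v _ => ?_)
      rw [← mul_pow]
      congr 1
      ring
    rw [h1, hev.neg_one_pow, one_mul]
    exact Finset.prod_pos (fun v hv => pow_pos (sub_pos.mpr ((hS v).1 hv).1) _)
  have hfa : f a = F a * P a := by
    have h1 : F a = f a / P a := by rw [hF]; simp [haS]
    rw [h1, div_mul_cancel₀ _ hPa.ne']
  have hfb : f b = F b * P b := by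
    have h1 : F b = f b / P b := by rw [hF]; simp [hbS]
    rw [h1, div_mul_cancel₀ _ hPb.ne']
  rw [hfa, hfb]
  have : F a * P a * (F b * P b) = (F a * F b) * (P a * P b) := by ring
  rw [this]
  exact mul_pos hFab (mul_pos hPa hPb)

end Pool.Agent.Helper647.PT
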