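import Pool.Agent.Helper647_PT.Sz
import Pool.Agent.Helper647_PT.Par
import Pool.Agent.H370R2.Local
import Pool.Agent.Helper647_GL.Mean

set_option autoImplicit false

/-! Even numbers of zeros between Gram points and the signs of Hardy's function. -/

namespace Pool.Agent.Helper647.PT

open Complex Filter Topology MeasureTheory Set
open Pool.Agent.R304.GR (vt psi exp_vt vt_grow)
open Pool.Agent.Helper647.GL (gp gp_spec cz mo)

lemma order_fin (t : ℝ) : analyticOrderAt riemannZeta (1 / 2 + I * t) ≠ ⊤ := by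
  have hK : IsPreconnected ({1}ᶜ : Set ℂ) :=
    (isConnected_compl_singleton_of_one_lt_rank (by
      rw [Complex.rank_real_complex]; exact Cardinal.one_lt_two) 1).isPreconnected
  refine H370.Loc.order_ne_top (K := ({1}ᶜ : Set ℂ)) (c := 2) hK ?_ ?_ ?_ ?_
  · have : DifferentiableOn ℂ riemannZeta ({1}ᶜ : Set ℂ) := fun z hz =>
      (differentiableAt_riemannZeta hz).differentiableWithinAt
    exact fun s hs => this.analyticAt (isOpen_compl_singleton.mem_nhds hs)
  · simp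
  · exact riemannZeta_ne_zero_of_one_le_re (by simp)
  · exact Pool.Agent.R304.SG.half_ne_one t

/-- the number of critical zeros in `[a, b)` -/
noncomputable def cr (a b : ℝ) : ℕ :=
  ∑ᶠ t ∈ {t : ℝ | a ≤ t ∧ t < b ∧ riemannZeta (1 / 2 + I * t) = 0}, mo riemannZeta t

lemma fz (a b : ℝ) : {t : ℝ | a ≤ t ∧ t < b ∧ riemannZeta (1 / 2 + I * t) = 0}.Finite := by
  have h1 := H370.finite_zeros_compact (F := riemannZeta)
    (fun s hs => by
      have : DifferentiableOn ℂ riemannZeta ({1}ᶜ : Set ℂ) := fun z hz =>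
        (differentiableAt_riemannZeta hz).differentiableWithinAt
      exact this.analyticAt (isOpen_compl_singleton.mem_nhds hs))
    (riemannZeta_ne_zero_of_one_le_re (by simp)) (by
      have h := riemannZeta_residue_one
      have h3 := h.eventually_ne (one_ne_zero : (1 : ℂ) ≠ 0)
      filter_upwards [h3] with s hs h0
      rw [h0, mul_zero] at hs
      exact hs rfl)
    (isCompact_Icc (a := a) (b := b) |>.image (f := fun t : ℝ => (1 / 2 + I * t : ℂ))
      (by fun_prop))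
  refine Set.Finite.of_finite_image (f := fun t : ℝ => (1 / 2 + I * t : ℂ)) (h1.subset ?_) ?_
  · rintro s ⟨t, ⟨h2, h3, h4⟩, rfl⟩
    exact ⟨⟨t, ⟨h2, h3.le⟩, rfl⟩, h4⟩
  · intro x _ y _ h
    have := congrArg Complex.im h
    simpa using this

lemma cr_add {a b c : ℝ} (h1 : a ≤ b) (h2 : b ≤ c) : cr a c = cr a b + cr b c := by
  have hset : {t : ℝ | a ≤ t ∧ t < c ∧ riemannZeta (1 / 2 + I * t) = 0} =
      {t : ℝ | a ≤ t ∧ t < b ∧ riemannZeta (1 / 2 + I * t) = 0} ∪
      {t : ℝ | b ≤ t ∧ t < c ∧ riemannZeta (1 / 2 + I * t) = 0} := by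
    ext t
    simp only [Set.mem_ofPred_eq, Set.mem_union]
    constructor
    · rintro ⟨x1, x2, x3⟩
      rcases lt_or_ge t b with h | h
      · exact Or.inl ⟨x1, h, x3⟩
      · exact Or.inr ⟨h, x2, x3⟩
    · rintro (⟨x1, x2, x3⟩ | ⟨x1, x2, x3⟩)
      · exact ⟨x1, by linarith, x3⟩
      · exact ⟨by linarith, x2, x3⟩
  unfold cr
  rw [hset]
  refine finsum_mem_union ?_ (fz a b) (fz b c)
  rw [Set.disjoint_left]
  rintro t ⟨x1, x2, x3⟩ ⟨y1, y2, y3⟩
  linarith

lemma cz_cr (j : ℕ) : cz riemannZeta j = cr (gp j) (gp (j + 1)) := rfl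

lemma cr_gp {n0 : ℕ} (hm : ∀ n, n0 ≤ n → gp n ≤ gp (n + 1)) {i : ℕ} (hi : n0 ≤ i) (k : ℕ) (hk : i ≤ k) :
    gp i ≤ gp k ∧ cr (gp i) (gp k) = ∑ j ∈ Finset.Ico i k, cz riemannZeta j := by
  induction k, hk using Nat.le_induction with
  | base =>
    refine ⟨le_rfl, ?_⟩
    rw [Finset.Ico_self, Finset.sum_empty]
    unfold cr
    have : {t : ℝ | gp i ≤ t ∧ t < gp i ∧ riemannZeta (1 / 2 + I * t) = 0} = ∅ := by
      ext t
      simp only [Set.mem_ofPred_eq, Set.mem_empty_iff_false, iff_false]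
      rintro ⟨x1, x2, x3⟩
      linarith
    rw [this, finsum_mem_empty]
  | succ k hk ih =>
    have h1 := hm k (hi.trans hk)
    refine ⟨ih.1.trans h1, ?_⟩
    rw [cr_add ih.1 h1, ih.2, Finset.sum_Ico_succ_top hk, cz_cr]

/-- an even number of zeros between two points where Hardy's function does not vanish -/
lemma par_cr {a b : ℝ} (hab : a ≤ b) (ha : (Pool.Agent.R304.SG.Z a).re ≠ 0)
    (hb : (Pool.Agent.R304.SG.Z b).re ≠ 0) (hev : Even (cr a b)) :
    0 < (Pool.Agent.R304.SG.Z a).re * (Pool.Agent.R304.SG.Z b).re := by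
  rcases eq_or_lt_of_le hab with rfl | hlt
  · exact mul_self_pos.2 ha
  have hz : ∀ t : ℝ, (Pool.Agent.R304.SG.Z t).re = 0 ↔ riemannZeta (1 / 2 + I * t) = 0 := by
    intro t
    rw [← Pool.Agent.R304.SG.Z_zero_iff, ← Pool.Agent.R304.SG.Z_re t]
    simp
  refine par (fun t => (Pool.Agent.R304.SG.Z t).re)
    (Complex.continuous_re.comp Pool.Agent.R304.SG.Z_cont) a b hlt ha hb (fz a b).toFinset ?_
    (mo riemannZeta) ?_ ?_
  · intro u
    rw [Set.Finite.mem_toFinset, Set.mem_ofPred_eq]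
    constructor
    · rintro ⟨x1, x2, x3⟩
      refine ⟨lt_of_le_of_ne x1 ?_, x2, (hz u).2 x3⟩
      rintro rfl
      exact ha ((hz a).2 x3)
    · rintro ⟨x1, x2, x3⟩
      exact ⟨x1.le, x2, (hz u).1 x3⟩
  · intro u _
    exact Pool.Agent.R304.SG.local_behaviour u (mo riemannZeta u)
      (Nat.cast_analyticOrderNatAt (order_fin u)).symm
  · unfold cr at hev
    rw [finsum_mem_eq_finite_toFinset_sum _ (fz a b)] at hev
    exact hev

/-- the Gram points with an odd number of zeros in the next interval -/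
noncomputable def OT (T : ℝ) : Finset ℕ := by
  classical
  exact (JT T).filter (fun j => Odd (cz riemannZeta j))

/-- the sign condition -/
theorem chain : ∃ T0 : ℝ, ∀ T : ℝ, T0 ≤ T → ∀ i ∈ JT T, ∀ k ∈ JT T, gp i ≤ gp k →
    (∀ j ∈ OT T, ¬ (gp i ≤ gp j ∧ gp j < gp k)) → 0 ≤ XX T i * XX T k := by
  classical
  obtain ⟨T1, hT1, hgr⟩ := vt_grow
  obtain ⟨n0, hn0⟩ := gp_spec T1
  obtain ⟨B, hB⟩ : ∃ B : ℝ, ∀ j < n0, gp j ≤ B := by
    refine ⟨∑ j ∈ Finset.range n0, |gp j|, fun j hj => ?_⟩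
    exact (le_abs_self _).trans (Finset.single_le_sum (f := fun j => |gp j|)
      (fun i _ => abs_nonneg _) (Finset.mem_range.mpr hj))
  have hpi := Real.pi_gt_three
  -- strict monotonicity
  have hmono : ∀ m n : ℕ, n0 ≤ m → n0 ≤ n → gp m ≤ gp n → m ≤ n := by
    intro m n hm hn h
    have h1 := hgr (gp m) (gp n) (hn0 m hm).1 h
    rw [(hn0 m hm).2.2.1, (hn0 n hn).2.2.1] at h1
    have h2 : (m : ℝ) * Real.pi ≤ n * Real.pi := by linarith
    exact_mod_cast le_of_mul_le_mul_right h2 (by linarith)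
  have hsucc : ∀ n, n0 ≤ n → gp n ≤ gp (n + 1) := by
    intro n hn
    by_contra hc
    have := hmono (n + 1) n (by omega) hn (not_le.1 hc).le
    omega
  refine ⟨2 * |B| + 2, fun T hT i hi k hk hik hO => ?_⟩
  have hmem : ∀ j ∈ JT T, n0 ≤ j ∧ j < ⌊T ^ 2⌋₊ ∧ T / 2 ≤ gp j ∧ gp j ≤ 3 * T := by
    intro j hj
    unfold JT at hj
    rw [Finset.mem_filter, Finset.mem_range] at hj
    refine ⟨?_, hj.1, hj.2.1, hj.2.2⟩
    by_contra hc
    have := hB j (not_le.mp hc)
    linarith [hj.2.1, le_abs_self B]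
  obtain ⟨i1, i2, i3, i4⟩ := hmem i hi
  obtain ⟨k1, k2, k3, k4⟩ := hmem k hk
  have hikn : i ≤ k := hmono i k i1 k1 hik
  -- all the counts in between are even
  have hevj : ∀ j ∈ Finset.Ico i k, Even (cz riemannZeta j) := by
    intro j hj
    rw [Finset.mem_Ico] at hj
    by_contra hodd
    rw [Nat.not_even_iff_odd] at hodd
    have h1 : gp i ≤ gp j := (cr_gp hsucc i1 j hj.1).1
    have h2 : gp j ≤ gp k := (cr_gp hsucc (i1.trans hj.1) k hj.2.le).1
    have h3 : gp j < gp k := by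
      refine lt_of_le_of_ne h2 fun h => ?_
      have := hmono k j k1 (i1.trans hj.1) h.ge
      omega
    refine hO j ?_ ⟨h1, h3⟩
    unfold OT JT
    rw [Finset.mem_filter, Finset.mem_filter, Finset.mem_range]
    exact ⟨⟨by omega, by linarith, by linarith⟩, hodd⟩
  have hcr := (cr_gp hsucc i1 k hikn).2
  have hev : Even (cr (gp i) (gp k)) := by
    rw [hcr]
    exact Finset.even_sum _ hevj
  have hXi : XX T i = (Pool.Agent.R304.SG.Z (gp i)).re * ‖Bz (Yn T) (bR (Real.log T)) (gp i)‖ ^ 2 := by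
    unfold XX
    rw [(gram_real (hn0 i i1).2.2.1).2]
  have hXk : XX T k = (Pool.Agent.R304.SG.Z (gp k)).re * ‖Bz (Yn T) (bR (Real.log T)) (gp k)‖ ^ 2 := by
    unfold XX
    rw [(gram_real (hn0 k k1).2.2.1).2]
  by_cases ha : (Pool.Agent.R304.SG.Z (gp i)).re = 0
  · rw [hXi, ha]; simp
  by_cases hb : (Pool.Agent.R304.SG.Z (gp k)).re = 0
  · rw [hXk, hb]; simp
  have h5 := par_cr hik ha hb hev
  rw [hXi, hXk]
  have : (Pool.Agent.R304.SG.Z (gp i)).re * ‖Bz (Yn T) (bR (Real.log T)) (gp i)‖ ^ 2 *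
      ((Pool.Agent.R304.SG.Z (gp k)).re * ‖Bz (Yn T) (bR (Real.log T)) (gp k)‖ ^ 2) =
      ((Pool.Agent.R304.SG.Z (gp i)).re * (Pool.Agent.R304.SG.Z (gp k)).re) *
      (‖Bz (Yn T) (bR (Real.log T)) (gp i)‖ ^ 2 * ‖Bz (Yn T) (bR (Real.log T)) (gp k)‖ ^ 2) := by ring
  rw [this]
  positivity

end Pool.Agent.Helper647.PT
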