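import Mathlib

set_option autoImplicit false


namespace Pool.Agent.Helper647.PT

open MeasureTheory Complex Filter Topology Set

/-
TARGET `cmp2`: the quadratic version, an upper bound.
-/

namespace Cmp2Aux

/-- Summability of the comparison series. -/
theorem summ (α β : ℝ) (hα : α ≠ 0) : Summable (fun j : ℤ => 1 / (1 + (α * j + β) ^ 2)) := by
  have hs : Summable (fun j : ℤ => (1 + 2 * β ^ 2 / α ^ 2 + 2 / α ^ 2) * (1 / (j : ℝ) ^ 2)) :=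
    (Real.summable_one_div_int_pow.2 one_lt_two).mul_left _
  refine Summable.of_norm_bounded_eventually hs ?_
  have hfin : {j : ℤ | ¬ ‖1 / (1 + (α * (j : ℝ) + β) ^ 2)‖ ≤
      (1 + 2 * β ^ 2 / α ^ 2 + 2 / α ^ 2) * (1 / (j : ℝ) ^ 2)}.Finite := by
    apply (Set.finite_singleton (0 : ℤ)).subset
    intro j hj
    by_contra hj0
    apply hj
    have hj0' : (j : ℝ) ≠ 0 := by exact_mod_cast hj0
    have hjp : (0 : ℝ) < (j : ℝ) ^ 2 := by positivity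
    have hαp : (0 : ℝ) < α ^ 2 := by positivity
    rw [Real.norm_of_nonneg (by positivity), mul_one_div, div_le_div_iff₀ (by positivity) hjp, one_mul]
    have h1 : (j : ℝ) ^ 2 ≤ (2 / α ^ 2) * ((α * j + β) ^ 2 + β ^ 2) := by
      rw [div_mul_eq_mul_div, le_div_iff₀ hαp]
      nlinarith [sq_nonneg (α * j + 2 * β)]
    have h2 : (0 : ℝ) ≤ (α * j + β) ^ 2 := sq_nonneg _
    have h3 : (0 : ℝ) ≤ β ^ 2 / α ^ 2 := by positivity
    have h4 : (0 : ℝ) ≤ 1 / α ^ 2 := by positivity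
    have e : (1 + 2 * β ^ 2 / α ^ 2 + 2 / α ^ 2) * (1 + (α * j + β) ^ 2) =
        (2 / α ^ 2) * ((α * j + β) ^ 2 + β ^ 2) + 1 + 2 * (1 / α ^ 2) + (α * j + β) ^ 2 +
          2 * (β ^ 2 / α ^ 2) * (α * j + β) ^ 2 := by
      ring
    rw [e]
    nlinarith [mul_nonneg h3 h2]
  exact hfin

/-- Number of points of a progression in an interval. -/
theorem count (S : Finset ℕ) (a u δ r : ℝ) (hδ : 0 < δ) (hr : 0 ≤ r) (h : ∀ j ∈ S, |a + δ * j - u| ≤ r) :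
    (S.card : ℝ) ≤ 2 * r / δ + 1 := by
  have h1 : S.card ≤ (Finset.Icc ⌈(u - a - r) / δ⌉ ⌊(u - a + r) / δ⌋).card := by
    refine Finset.card_le_card_of_injOn (fun j : ℕ => (j : ℤ)) ?_ (Nat.cast_injective (R := ℤ)).injOn
    intro j hj
    have h2 := abs_le.1 (h j (Finset.mem_coe.1 hj))
    refine Finset.mem_coe.2 (Finset.mem_Icc.2 ⟨Int.ceil_le.2 ?_, Int.le_floor.2 ?_⟩)
    · rw [div_le_iff₀ hδ]
      have : ((j : ℤ) : ℝ) = (j : ℝ) := by simp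
      rw [this]
      linarith [h2.1]
    · rw [le_div_iff₀ hδ]
      have : ((j : ℤ) : ℝ) = (j : ℝ) := by simp
      rw [this]
      linarith [h2.2]
  rw [Int.card_Icc] at h1
  have h3 : (S.card : ℝ) ≤ (((⌊(u - a + r) / δ⌋ + 1 - ⌈(u - a - r) / δ⌉).toNat : ℕ) : ℝ) := by exact_mod_cast h1
  refine h3.trans ?_
  have h4 : (((⌊(u - a + r) / δ⌋ + 1 - ⌈(u - a - r) / δ⌉).toNat : ℕ) : ℝ) =
      ((max (⌊(u - a + r) / δ⌋ + 1 - ⌈(u - a - r) / δ⌉) 0 : ℤ) : ℝ) := by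
    rw [← Int.toNat_eq_max, Int.cast_natCast]
  rw [h4, Int.cast_max]
  apply max_le
  · push_cast
    have h5 := Int.floor_le ((u - a + r) / δ)
    have h6 := Int.le_ceil ((u - a - r) / δ)
    have h7 : (u - a + r) / δ - (u - a - r) / δ = 2 * r / δ := by ring
    linarith
  · have : (0 : ℝ) ≤ 2 * r / δ := by positivity
    simp only [Int.cast_zero]
    linarith

/-- Far bound. -/
theorem far (E : ℝ → ℝ) (C : ℝ) (hC : 0 ≤ C) (hd : ∀ v : ℝ, |E v| ≤ C / (1 + v ^ 2) ^ 40) {T ρ v : ℝ}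
    (hT : 0 < T) (hρ : ρ = T ^ (1 / 20 : ℝ)) (hρ0 : 0 ≤ ρ) (hv : ρ ≤ |v|) : E v ^ 2 ≤ C ^ 2 * T ^ (-8 : ℝ) := by
  have h4 : ρ ^ 2 ≤ 1 + v ^ 2 := by
    have := pow_le_pow_left₀ hρ0 hv 2
    rw [sq_abs] at this
    linarith
  have h6 : (ρ ^ 2) ^ 40 ≤ (1 + v ^ 2) ^ 40 := pow_le_pow_left₀ (by positivity) h4 40
  have h7 : (ρ ^ 2) ^ 40 = T ^ (4 : ℝ) := by
    rw [hρ, ← pow_mul, ← Real.rpow_natCast, ← Real.rpow_mul hT.le]; norm_num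
  rw [h7] at h6
  have h5 : |E v| ≤ C * T ^ (-4 : ℝ) := by
    refine (hd _).trans ?_
    have h8 : C / (1 + v ^ 2) ^ 40 ≤ C / T ^ (4 : ℝ) :=
      div_le_div_of_nonneg_left hC (by positivity) h6
    refine h8.trans (le_of_eq ?_)
    rw [Real.rpow_neg hT.le, div_eq_mul_inv]
  rw [← sq_abs]
  refine (pow_le_pow_left₀ (abs_nonneg _) h5 2).trans (le_of_eq ?_)
  rw [mul_pow, ← Real.rpow_natCast (T ^ (-4 : ℝ)), ← Real.rpow_mul hT.le]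
  norm_num

/-- Near bound. -/
theorem near (C L M ρ η c : ℝ) (T : ℝ) (hT : 0 < T) (hL1 : 1 ≤ L) (hρ1 : 1 ≤ ρ)
    (hη0 : 0 < η) (hρη : ρ * η ^ 2 = T ^ (-(173 / 100) : ℝ)) (hA1 : 80 * C ^ 2 * L ^ 3 ≤ T ^ (13 / 100 : ℝ))
    (hcard : c ≤ 5 * ρ * L) :
    c * (2 * (C * M * (1 + L) * η) ^ 2) ≤ M ^ 2 * T ^ (-(16 / 10) : ℝ) / 2 := by
  have h1 : (1 + L) ^ 2 ≤ 4 * L ^ 2 := by nlinarith
  have h2 : c * (2 * (C * M * (1 + L) * η) ^ 2) ≤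
      (5 * ρ * L) * (2 * (C * M) ^ 2 * (4 * L ^ 2) * η ^ 2) := by
    have e : 2 * (C * M * (1 + L) * η) ^ 2 = 2 * (C * M) ^ 2 * (1 + L) ^ 2 * η ^ 2 := by ring
    rw [e]
    refine mul_le_mul hcard ?_ (by positivity) (by positivity)
    refine mul_le_mul_of_nonneg_right ?_ (by positivity)
    exact mul_le_mul_of_nonneg_left h1 (by positivity)
  refine h2.trans ?_
  have e2 : (5 * ρ * L) * (2 * (C * M) ^ 2 * (4 * L ^ 2) * η ^ 2) =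
      (M ^ 2 / 2) * ((80 * C ^ 2 * L ^ 3) * (ρ * η ^ 2)) := by ring
  rw [e2, hρη]
  have h3 : (80 * C ^ 2 * L ^ 3) * T ^ (-(173 / 100) : ℝ) ≤ T ^ (13 / 100 : ℝ) * T ^ (-(173 / 100) : ℝ) :=
    mul_le_mul_of_nonneg_right hA1 (by positivity)
  rw [← Real.rpow_add hT] at h3
  have e3 : (13 / 100 : ℝ) + -(173 / 100) = -(16 / 10) := by norm_num
  rw [e3] at h3
  have h4 := mul_le_mul_of_nonneg_left h3 (by positivity : 0 ≤ M ^ 2 / 2)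
  refine h4.trans (le_of_eq ?_)
  ring

/-- The asymptotic inequalities. -/
theorem asym (C : ℝ) : ∃ T0 : ℝ, 3 ≤ T0 ∧ ∀ T, T0 ≤ T →
    80 * C ^ 2 * Real.log T ^ 3 ≤ T ^ (13 / 100 : ℝ) ∧ 2 * C ^ 2 ≤ T ^ (44 / 10 : ℝ) := by
  have h1 := (isLittleO_log_rpow_rpow_atTop 3 (by norm_num : (0 : ℝ) < 13 / 100)).bound
    (show (0 : ℝ) < 1 / (80 * C ^ 2 + 1) by positivity)
  have h2 := (tendsto_rpow_atTop (by norm_num : (0 : ℝ) < 44 / 10)).eventually_ge_atTop (2 * C ^ 2)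
  obtain ⟨T0, hT0⟩ := eventually_atTop.1 (h1.and h2)
  refine ⟨max T0 3, le_max_right _ _, fun T hT => ?_⟩
  obtain ⟨h3, h4⟩ := hT0 T ((le_max_left _ _).trans hT)
  have hT3 : 3 ≤ T := (le_max_right _ _).trans hT
  have hlog : 0 ≤ Real.log T := Real.log_nonneg (by linarith)
  refine ⟨?_, h4⟩
  have e1 : Real.log T ^ (3 : ℝ) = Real.log T ^ 3 := by
    rw [← Real.rpow_natCast]; norm_num
  rw [e1, Real.norm_of_nonneg (by positivity), Real.norm_of_nonneg (by positivity), one_div_mul_eq_div,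
    le_div_iff₀ (by positivity)] at h3
  have h5 : 0 ≤ Real.log T ^ 3 := by positivity
  nlinarith

/-- Lipschitz bound for the product. -/
theorem lip (E : ℝ → ℝ) (F : ℝ → ℂ) (C M L h u : ℝ) (hC : 0 ≤ C) (hM : 0 ≤ M) (hhpos : 0 < h)
    (hhi : 1 / h ≤ L) (hl : ∀ v w : ℝ, |E v - E w| ≤ C * |v - w|) (hEC : ∀ v, |E v| ≤ C)
    (hF : ∀ t, ‖F t‖ ≤ M) (hF' : ∀ t t', ‖F t - F t'‖ ≤ M * |t - t'|) (t t' : ℝ) :
    ‖F t * (E ((t - u) / h) : ℂ) - F t' * (E ((t' - u) / h) : ℂ)‖ ≤ C * M * (1 + L) * |t - t'| := by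
  have e : F t * (E ((t - u) / h) : ℂ) - F t' * (E ((t' - u) / h) : ℂ) =
      (F t - F t') * (E ((t - u) / h) : ℂ) + F t' * ((E ((t - u) / h) - E ((t' - u) / h) : ℝ) : ℂ) := by
    push_cast; ring
  rw [e]
  refine (norm_add_le _ _).trans ?_
  rw [norm_mul, norm_mul, Complex.norm_real, Complex.norm_real, Real.norm_eq_abs, Real.norm_eq_abs]
  have h1 : ‖F t - F t'‖ * |E ((t - u) / h)| ≤ (M * |t - t'|) * C :=
    mul_le_mul (hF' t t') (hEC _) (abs_nonneg _) (by positivity)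
  have h2 : |E ((t - u) / h) - E ((t' - u) / h)| ≤ C * (L * |t - t'|) := by
    refine (hl _ _).trans (mul_le_mul_of_nonneg_left ?_ hC)
    have e2 : (t - u) / h - (t' - u) / h = (1 / h) * (t - t') := by ring
    rw [e2, abs_mul, abs_of_pos (by positivity)]
    exact mul_le_mul_of_nonneg_right hhi (abs_nonneg _)
  have h3 : ‖F t'‖ * |E ((t - u) / h) - E ((t' - u) / h)| ≤ M * (C * (L * |t - t'|)) :=
    mul_le_mul (hF t') h2 (abs_nonneg _) hM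
  have e3 : C * M * (1 + L) * |t - t'| = (M * |t - t'|) * C + M * (C * (L * |t - t'|)) := by ring
  rw [e3]
  exact add_le_add h1 h3

/-- Summability. -/
theorem ser (E : ℝ → ℝ) (F : ℝ → ℂ) (C M h δ a u : ℝ) (hC : 0 ≤ C) (hhpos : 0 < h) (hδpos : 0 < δ)
    (hd : ∀ v : ℝ, |E v| ≤ C / (1 + v ^ 2) ^ 40) (hF : ∀ t, ‖F t‖ ≤ M) :
    Summable (fun j : ℤ => ‖F (a + δ * j)‖ ^ 2 * E ((a + δ * j - u) / h) ^ 2) := by
  have hs := (summ (δ / h) ((a - u) / h) (by positivity)).mul_left (M ^ 2 * C ^ 2)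
  refine Summable.of_nonneg_of_le (fun j => by positivity) (fun j => ?_) hs
  have h2 : ‖F (a + δ * j)‖ ^ 2 ≤ M ^ 2 := pow_le_pow_left₀ (norm_nonneg _) (hF _) 2
  have e : (a + δ * j - u) / h = δ / h * j + (a - u) / h := by ring
  rw [e]
  obtain ⟨v, hv⟩ : ∃ v, v = δ / h * j + (a - u) / h := ⟨_, rfl⟩
  rw [← hv]
  have h3 : |E v| ≤ C / (1 + v ^ 2) := by
    refine (hd v).trans (div_le_div_of_nonneg_left hC (by positivity) ?_)
    exact le_self_pow₀ (by nlinarith [sq_nonneg v]) (by norm_num)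
  have h4 : E v ^ 2 ≤ C ^ 2 * (1 / (1 + v ^ 2)) := by
    rw [← sq_abs]
    refine (pow_le_pow_left₀ (abs_nonneg _) h3 2).trans ?_
    rw [div_pow, mul_one_div]
    refine div_le_div_of_nonneg_left (by positivity) (by positivity) ?_
    nlinarith [sq_nonneg v]
  calc ‖F (a + δ * j)‖ ^ 2 * E v ^ 2 ≤ M ^ 2 * (C ^ 2 * (1 / (1 + v ^ 2))) :=
        mul_le_mul h2 h4 (sq_nonneg _) (by positivity)
    _ = M ^ 2 * C ^ 2 * (1 / (1 + v ^ 2)) := by ring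

/-- The far sum. -/
theorem farsum (C M T c : ℝ) (hT : 0 < T) (hc : c ≤ T ^ 2) (hA2 : 2 * C ^ 2 ≤ T ^ (44 / 10 : ℝ)) :
    c * (M ^ 2 * (C ^ 2 * T ^ (-8 : ℝ))) ≤ M ^ 2 * T ^ (-(16 / 10) : ℝ) / 2 := by
  have h4 : c * (M ^ 2 * (C ^ 2 * T ^ (-8 : ℝ))) ≤
      T ^ 2 * (M ^ 2 * (C ^ 2 * T ^ (-8 : ℝ))) := mul_le_mul_of_nonneg_right hc (by positivity)
  refine h4.trans ?_
  have e2 : (T ^ 2 : ℝ) * T ^ (-8 : ℝ) = T ^ (-6 : ℝ) := by
    rw [← Real.rpow_natCast T 2, ← Real.rpow_add hT]; norm_num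
  have e1 : T ^ 2 * (M ^ 2 * (C ^ 2 * T ^ (-8 : ℝ))) = (M ^ 2 / 2) * ((2 * C ^ 2) * T ^ (-6 : ℝ)) := by
    rw [← e2]; ring
  rw [e1]
  have h5 : (2 * C ^ 2) * T ^ (-6 : ℝ) ≤ T ^ (44 / 10 : ℝ) * T ^ (-6 : ℝ) :=
    mul_le_mul_of_nonneg_right hA2 (by positivity)
  rw [← Real.rpow_add hT] at h5
  have e3 : (44 / 10 : ℝ) + -6 = -(16 / 10) := by norm_num
  rw [e3] at h5
  have h6 := mul_le_mul_of_nonneg_left h5 (by positivity : 0 ≤ M ^ 2 / 2)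
  refine h6.trans (le_of_eq ?_)
  ring

end Cmp2Aux

theorem cmp2 (E : ℝ → ℝ) (C : ℝ) (hc : Continuous E)
    (hl : ∀ v w : ℝ, |E v - E w| ≤ C * |v - w|) (hd : ∀ v : ℝ, |E v| ≤ C / (1 + v ^ 2) ^ 40) :
    ∃ T0 : ℝ, 2 ≤ T0 ∧ ∀ (T h δ a u M : ℝ) (J : Finset ℕ) (g : ℕ → ℝ) (F : ℝ → ℂ),
      T0 ≤ T → 1 / Real.log T ≤ h → h ≤ 1 → 1 / Real.log T ≤ δ → δ ≤ 1 → 0 ≤ M →
      (∀ t, ‖F t‖ ≤ M) → (∀ t t', ‖F t - F t'‖ ≤ M * |t - t'|) →
      (J.card : ℝ) ≤ T ^ 2 →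
      (∀ j ∈ J, |g j - u| ≤ T ^ (1 / 20 : ℝ) → |a + δ * j - g j| ≤ T ^ (-(89 / 100) : ℝ)) →
      ∑ j ∈ J, ‖F (g j)‖ ^ 2 * E ((g j - u) / h) ^ 2 ≤
        2 * (∑' j : ℤ, ‖F (a + δ * j)‖ ^ 2 * E ((a + δ * j - u) / h) ^ 2) +
          M ^ 2 * T ^ (-(16 / 10) : ℝ) := by
  classical
  obtain ⟨T0, hT03, hT0⟩ := Cmp2Aux.asym C
  refine ⟨T0, by linarith, ?_⟩
  intro T h δ a u M J g F hT hh0 hh1 hδ0 hδ1 hM hF hF' hJ hg
  obtain ⟨hA1, hA2⟩ := hT0 T hT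
  have hT3 : 3 ≤ T := hT03.trans hT
  have hTpos : 0 < T := by linarith
  have hT1 : 1 ≤ T := by linarith
  have hC : 0 ≤ C := by
    have := (abs_nonneg _).trans (hd 0)
    simpa using this
  obtain ⟨L, hL⟩ : ∃ L, L = Real.log T := ⟨_, rfl⟩
  rw [← hL] at hh0 hδ0 hA1
  have hL1 : 1 ≤ L := by
    rw [hL, Real.le_log_iff_exp_le hTpos]
    have := Real.exp_one_lt_d9
    norm_num at this
    linarith
  have hLpos : 0 < L := by linarith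
  have hhpos : 0 < h := lt_of_lt_of_le (by positivity) hh0
  have hδpos : 0 < δ := lt_of_lt_of_le (by positivity) hδ0
  have hhi : 1 / h ≤ L := by
    rw [div_le_iff₀ hhpos]
    rw [div_le_iff₀ hLpos] at hh0
    linarith
  have hδi : 1 / δ ≤ L := by
    rw [div_le_iff₀ hδpos]
    rw [div_le_iff₀ hLpos] at hδ0
    linarith
  obtain ⟨ρ, hρ⟩ : ∃ ρ, ρ = T ^ (1 / 20 : ℝ) := ⟨_, rfl⟩
  obtain ⟨η, hη⟩ : ∃ η, η = T ^ (-(89 / 100) : ℝ) := ⟨_, rfl⟩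
  rw [← hρ, ← hη] at hg
  have hρ1 : 1 ≤ ρ := by rw [hρ]; exact Real.one_le_rpow hT1 (by norm_num)
  have hη0 : 0 < η := by rw [hη]; positivity
  have hη1 : η ≤ 1 := by rw [hη]; exact Real.rpow_le_one_of_one_le_of_nonpos hT1 (by norm_num)
  have hEC : ∀ v, |E v| ≤ C := by
    intro v
    refine (hd v).trans (div_le_self hC ?_)
    exact one_le_pow₀ (by nlinarith [sq_nonneg v])
  -- the product
  obtain ⟨G, hG⟩ : ∃ G : ℝ → ℂ, G = fun t => F t * (E ((t - u) / h) : ℂ) := ⟨_, rfl⟩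
  have hGn : ∀ t, ‖G t‖ ^ 2 = ‖F t‖ ^ 2 * E ((t - u) / h) ^ 2 := by
    intro t
    rw [hG]
    simp only
    rw [norm_mul, mul_pow, Complex.norm_real, Real.norm_eq_abs, sq_abs]
  have hGl : ∀ t t', ‖G t - G t'‖ ≤ C * M * (1 + L) * |t - t'| := by
    intro t t'
    rw [hG]
    simp only
    exact Cmp2Aux.lip E F C M L h u hC hM hhpos hhi hl hEC hF hF' t t'
  simp_rw [← hGn]
  -- splitting
  obtain ⟨Nr, hNr⟩ : ∃ Nr, Nr = J.filter (fun j => |g j - u| ≤ ρ) := ⟨_, rfl⟩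
  have hsplit : ∑ j ∈ J, ‖G (g j)‖ ^ 2 = ∑ j ∈ Nr, ‖G (g j)‖ ^ 2 +
      ∑ j ∈ J.filter (fun j => ¬ |g j - u| ≤ ρ), ‖G (g j)‖ ^ 2 := by
    rw [hNr]; exact (Finset.sum_filter_add_sum_filter_not J _ _).symm
  -- near part
  have hnear : ∀ j ∈ Nr, ‖G (g j)‖ ^ 2 ≤ 2 * ‖G (a + δ * j)‖ ^ 2 + 2 * (C * M * (1 + L) * η) ^ 2 := by
    intro j hj
    rw [hNr] at hj
    obtain ⟨hjJ, hju⟩ := Finset.mem_filter.1 hj
    have h1 := hg j hjJ hju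
    have h2 : ‖G (g j) - G (a + δ * j)‖ ≤ C * M * (1 + L) * η := by
      refine (hGl _ _).trans (mul_le_mul_of_nonneg_left ?_ (by positivity))
      rw [abs_sub_comm]; exact h1
    have h3 : ‖G (g j)‖ ≤ ‖G (a + δ * j)‖ + C * M * (1 + L) * η := by
      have := norm_sub_norm_le (G (g j)) (G (a + δ * j))
      linarith
    have h4 : 0 ≤ C * M * (1 + L) * η := by positivity
    calc ‖G (g j)‖ ^ 2 ≤ (‖G (a + δ * j)‖ + C * M * (1 + L) * η) ^ 2 :=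
          pow_le_pow_left₀ (norm_nonneg _) h3 2
      _ ≤ _ := by nlinarith [sq_nonneg (‖G (a + δ * j)‖ - C * M * (1 + L) * η)]
  have hcard : (Nr.card : ℝ) ≤ 5 * ρ * L := by
    have h1 := Cmp2Aux.count Nr a u δ (ρ + 1) hδpos (by linarith) (by
      intro j hj
      rw [hNr] at hj
      obtain ⟨hjJ, hju⟩ := Finset.mem_filter.1 hj
      have h1 := hg j hjJ hju
      have e : a + δ * j - u = (a + δ * j - g j) + (g j - u) := by ring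
      rw [e]
      refine (abs_add_le _ _).trans ?_
      linarith)
    refine h1.trans ?_
    have h2 : 2 * (ρ + 1) / δ ≤ 2 * (ρ + 1) * L := by
      have e : 2 * (ρ + 1) / δ = 2 * (ρ + 1) * (1 / δ) := by ring
      rw [e]
      exact mul_le_mul_of_nonneg_left hδi (by positivity)
    nlinarith
  have hρη : ρ * η ^ 2 = T ^ (-(173 / 100) : ℝ) := by
    rw [hρ, hη, ← Real.rpow_natCast, ← Real.rpow_mul hTpos.le, ← Real.rpow_add hTpos]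
    norm_num
  have hnear2 : (Nr.card : ℝ) * (2 * (C * M * (1 + L) * η) ^ 2) ≤ M ^ 2 * T ^ (-(16 / 10) : ℝ) / 2 :=
    Cmp2Aux.near C L M ρ η _ T hTpos hL1 hρ1 hη0 hρη hA1 hcard
  -- the far part
  have hfar : ∑ j ∈ J.filter (fun j => ¬ |g j - u| ≤ ρ), ‖G (g j)‖ ^ 2 ≤ M ^ 2 * T ^ (-(16 / 10) : ℝ) / 2 := by
    have h1 : ∀ j ∈ J.filter (fun j => ¬ |g j - u| ≤ ρ), ‖G (g j)‖ ^ 2 ≤ M ^ 2 * (C ^ 2 * T ^ (-8 : ℝ)) := by
      intro j hj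
      have hju := not_le.1 (Finset.mem_filter.1 hj).2
      rw [hGn]
      have h2 : ‖F (g j)‖ ^ 2 ≤ M ^ 2 := pow_le_pow_left₀ (norm_nonneg _) (hF _) 2
      have h3 : ρ ≤ |(g j - u) / h| := by
        rw [abs_div, abs_of_pos hhpos, le_div_iff₀ hhpos]
        nlinarith
      have h6 : E ((g j - u) / h) ^ 2 ≤ C ^ 2 * T ^ (-8 : ℝ) :=
        Cmp2Aux.far E C hC hd hTpos hρ (by linarith) h3
      exact mul_le_mul h2 h6 (sq_nonneg _) (by positivity)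
    have h2 : (∑ j ∈ J.filter (fun j => ¬ |g j - u| ≤ ρ), ‖G (g j)‖ ^ 2) ≤
        ((J.filter (fun j => ¬ |g j - u| ≤ ρ)).card : ℝ) * (M ^ 2 * (C ^ 2 * T ^ (-8 : ℝ))) := by
      have := Finset.sum_le_card_nsmul _ _ _ h1
      rwa [nsmul_eq_mul] at this
    have h3 : ((J.filter (fun j => ¬ |g j - u| ≤ ρ)).card : ℝ) ≤ T ^ 2 := by
      refine le_trans ?_ hJ
      exact_mod_cast Finset.card_filter_le _ _
    exact h2.trans (Cmp2Aux.farsum C M T _ hTpos h3 hA2)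
  -- the series
  have hsum : Summable (fun j : ℤ => ‖G (a + δ * j)‖ ^ 2) := by
    simp_rw [hGn]
    exact Cmp2Aux.ser E F C M h δ a u hC hhpos hδpos hd hF
  have hser : ∑ j ∈ Nr, ‖G (a + δ * j)‖ ^ 2 ≤ ∑' j : ℤ, ‖G (a + δ * j)‖ ^ 2 := by
    have h1 := hsum.sum_le_tsum (Nr.map ⟨fun j : ℕ => (j : ℤ), Nat.cast_injective (R := ℤ)⟩)
      (fun j _ => by positivity)
    rw [Finset.sum_map] at h1
    simpa using h1
  have hnear3 : ∑ j ∈ Nr, ‖G (g j)‖ ^ 2 ≤ 2 * (∑' j : ℤ, ‖G (a + δ * j)‖ ^ 2) +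
      M ^ 2 * T ^ (-(16 / 10) : ℝ) / 2 := by
    refine (Finset.sum_le_sum hnear).trans ?_
    rw [Finset.sum_add_distrib, ← Finset.mul_sum, Finset.sum_const, nsmul_eq_mul]
    linarith
  rw [hsplit]
  linarith

end Pool.Agent.Helper647.PT
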