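import Mathlib

set_option autoImplicit false


namespace Pool.Agent.Helper647.PT

open MeasureTheory Complex Filter Topology Set

/-- counting integers in an interval -/
theorem cmpA_count (S : Finset ℤ) (α β : ℝ) (hαβ : α ≤ β) (h : ∀ j ∈ S, α ≤ (j : ℝ) ∧ (j : ℝ) ≤ β) :
    (S.card : ℝ) ≤ β - α + 1 := by
  have h1 : S ⊆ Finset.Icc ⌈α⌉ ⌊β⌋ := by
    intro j hj
    rw [Finset.mem_Icc]
    exact ⟨Int.ceil_le.2 (h j hj).1, Int.le_floor.2 (h j hj).2⟩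
  have h2 := Finset.card_le_card h1
  rw [Int.card_Icc] at h2
  have h3 : (S.card : ℝ) ≤ (((⌊β⌋ + 1 - ⌈α⌉).toNat : ℕ) : ℝ) := by exact_mod_cast h2
  refine h3.trans ?_
  have h4 : (((⌊β⌋ + 1 - ⌈α⌉).toNat : ℕ) : ℝ) = ((max (⌊β⌋ + 1 - ⌈α⌉) 0 : ℤ) : ℝ) := by
    rw [← Int.toNat_eq_max]; rfl
  rw [h4]
  push_cast
  apply max_le
  · have := Int.floor_le β
    have := Int.le_ceil α
    linarith
  · linarith

theorem cmpA_summable : Summable (fun k : ℤ => 1 / (1 + (k : ℝ) ^ 2)) := by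
  have h1 : Summable (fun k : ℤ => 1 / (k : ℝ) ^ 2) :=
    Real.summable_one_div_int_pow.2 one_lt_two
  have h2 : Summable (fun k : ℤ => if k = 0 then (1 : ℝ) else 0) :=
    summable_of_ne_finset_zero (s := {0}) (by
      intro b hb
      rw [Finset.mem_singleton] at hb
      rw [if_neg hb])
  refine Summable.of_nonneg_of_le (fun k => by positivity) (fun k => ?_) (h1.add h2)
  by_cases hk : k = 0
  · subst hk; simp
  · rw [if_neg hk, add_zero]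
    have : (0 : ℝ) < (k : ℝ) ^ 2 := by
      have : (k : ℝ) ≠ 0 := by exact_mod_cast hk
      positivity
    exact one_div_le_one_div_of_le this (by linarith)

/-- the key bound for a progression -/
theorem cmpA_prog (b δ : ℝ) (h0 : 0 < δ) (h1 : δ ≤ 1) (j : ℤ) :
    1 / (1 + (b + δ * j) ^ 2) ≤ 3 / δ ^ 2 * (1 / (1 + ((j + ⌊b / δ⌋ : ℤ) : ℝ) ^ 2)) := by
  set k : ℤ := j + ⌊b / δ⌋ with hk
  set y : ℝ := b + δ * j with hy
  have e : y - δ * k = b - δ * ⌊b / δ⌋ := by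
    rw [hy, hk]; push_cast; ring
  have f1 := Int.floor_le (b / δ)
  have f2 := Int.lt_floor_add_one (b / δ)
  have g1 : 0 ≤ y - δ * k := by
    rw [e]
    have : δ * ⌊b / δ⌋ ≤ δ * (b / δ) := mul_le_mul_of_nonneg_left f1 h0.le
    rw [mul_div_cancel₀ _ h0.ne'] at this
    linarith
  have g2 : y - δ * k ≤ 1 := by
    rw [e]
    have : δ * (b / δ) ≤ δ * (⌊b / δ⌋ + 1) := mul_le_mul_of_nonneg_left f2.le h0.le
    rw [mul_div_cancel₀ _ h0.ne'] at this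
    linarith
  have key : δ ^ 2 * (1 + (k : ℝ) ^ 2) ≤ 3 * (1 + y ^ 2) := by
    set r := y - δ * k with hr
    have hr2 : δ * k = y - r := by rw [hr]; ring
    have h2 : (δ * k) ^ 2 ≤ 2 * y ^ 2 + 2 * r ^ 2 := by
      rw [hr2]; nlinarith [sq_nonneg (y + r)]
    have h3 : r ^ 2 ≤ 1 := by nlinarith
    have h4 : δ ^ 2 ≤ 1 := by nlinarith
    calc δ ^ 2 * (1 + (k : ℝ) ^ 2) = δ ^ 2 + (δ * k) ^ 2 := by ring
      _ ≤ 1 + (2 * y ^ 2 + 2 * r ^ 2) := by linarith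
      _ ≤ 3 * (1 + y ^ 2) := by nlinarith [sq_nonneg y]
  have p1 : (0 : ℝ) < 1 + y ^ 2 := by positivity
  have p2 : (0 : ℝ) < 1 + (k : ℝ) ^ 2 := by positivity
  rw [div_mul_div_comm, mul_one, div_le_div_iff₀ p1 (by positivity)]
  linarith

theorem cmpA_core (E : ℝ → ℝ) (C : ℝ) (hC : 0 ≤ C) (hE1 : ∀ v, |E v| ≤ C)
    (hE2 : ∀ v, E v ^ 2 ≤ C ^ 2 * (1 / (1 + v ^ 2) ^ 80))
    (hE3 : ∀ v w, |E v ^ 2 - E w ^ 2| ≤ 2 * C ^ 2 * |v - w|)
    (h δ a u M ρ ε η θ L N A0 : ℝ) (J : Finset ℕ) (g : ℕ → ℝ) (s : ℤ → ℂ) (F : ℝ → ℂ)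
    (hA0 : HasSum (fun k : ℤ => 1 / (1 + (k : ℝ) ^ 2)) A0)
    (hh : 0 < h) (hh1 : h ≤ 1) (hδ : 0 < δ) (hδ1 : δ ≤ 1) (hM : 0 ≤ M)
    (hρ : 1 ≤ ρ) (hε0 : 0 ≤ ε) (hε1 : ε ≤ 1) (hη : 0 ≤ η) (hθ : 0 ≤ θ) (hL1 : 1 ≤ L)
    (hhL : 1 / h ≤ L) (hδL : 1 / δ ≤ L)
    (hη' : ∀ y : ℝ, ρ ≤ |y| → 1 / (1 + y ^ 2) ^ 80 ≤ η)
    (hθ' : ∀ y : ℝ, ρ / 2 ≤ |y| → 1 / (1 + y ^ 2) ^ 80 ≤ θ * (1 / (1 + y ^ 2)))
    (hF : ∀ t, ‖F t‖ ≤ M) (hF' : ∀ t t', ‖F t - F t'‖ ≤ M * |t - t'|) (hs : ∀ j, ‖s j‖ ≤ 1)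
    (hJ : (J.card : ℝ) ≤ N)
    (hx1 : ∀ j ∈ J, |g j - u| ≤ ρ → |a + δ * j - g j| ≤ ε)
    (hx2 : ∀ j : ℤ, |a + δ * j - u| ≤ ρ / 2 → ∃ n ∈ J, (n : ℤ) = j ∧ |g n - u| ≤ ρ) :
    ‖(∑ j ∈ J, s j * F (g j) * ((E ((g j - u) / h) ^ 2 : ℝ) : ℂ)) -
        ∑' j : ℤ, s j * F (a + δ * j) * ((E ((a + δ * j - u) / h) ^ 2 : ℝ) : ℂ)‖ ≤
      M * (15 * C ^ 2 * ρ * ε * (L * L)) + M * (C ^ 2 * (N * η)) +
        M * (C ^ 2 * θ * (3 * A0 * (L * L))) := by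
  classical
  have hL0 : 0 < L := by linarith
  have hA0nn : 0 ≤ A0 := hA0.nonneg fun k => by positivity
  have hmono : ∀ y : ℝ, 1 / (1 + (y / h) ^ 2) ^ 80 ≤ 1 / (1 + y ^ 2) ^ 80 := by
    intro y
    apply one_div_le_one_div_of_le (by positivity)
    apply pow_le_pow_left₀ (by positivity)
    have : y ^ 2 ≤ (y / h) ^ 2 := by
      rw [div_pow, le_div_iff₀ (by positivity)]
      have : h ^ 2 ≤ 1 := by nlinarith
      nlinarith [sq_nonneg y]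
    linarith
  have hEy : ∀ y, E (y / h) ^ 2 ≤ C ^ 2 * (1 / (1 + y ^ 2) ^ 80) := fun y =>
    (hE2 _).trans (mul_le_mul_of_nonneg_left (hmono y) (sq_nonneg C))
  -- the function `φ`
  obtain ⟨φ, hφ⟩ : ∃ φ : ℝ → ℂ, ∀ x, φ x = F x * ((E ((x - u) / h) ^ 2 : ℝ) : ℂ) := ⟨_, fun _ => rfl⟩
  have hφn : ∀ x, ‖φ x‖ ≤ M * (E ((x - u) / h) ^ 2) := by
    intro x
    rw [hφ, norm_mul, Complex.norm_real, Real.norm_eq_abs, abs_of_nonneg (sq_nonneg _)]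
    exact mul_le_mul_of_nonneg_right (hF x) (sq_nonneg _)
  obtain ⟨Nr, hNr⟩ : ∃ Nr : Finset ℕ, Nr = J.filter (fun j => |g j - u| ≤ ρ) := ⟨_, rfl⟩
  obtain ⟨Z, hZ⟩ : ∃ Z : Finset ℤ, Z = Nr.map Nat.castEmbedding := ⟨_, rfl⟩
  obtain ⟨f, hf⟩ : ∃ f : ℤ → ℂ, ∀ j, f j = s j * φ (a + δ * j) := ⟨_, fun _ => rfl⟩
  have hfe : ∀ j : ℤ, s j * F (a + δ * j) * ((E ((a + δ * j - u) / h) ^ 2 : ℝ) : ℂ) = f j := by
    intro j
    rw [hf, hφ, mul_assoc]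
  -- summability
  obtain ⟨n0, hn0⟩ : ∃ n0 : ℤ, n0 = ⌊(a - u) / δ⌋ := ⟨_, rfl⟩
  have hyb : ∀ j : ℤ, 1 / (1 + (a + δ * j - u) ^ 2) ≤
      3 / δ ^ 2 * (1 / (1 + ((j + n0 : ℤ) : ℝ) ^ 2)) := by
    intro j
    have := cmpA_prog (a - u) δ hδ hδ1 j
    have e : a - u + δ * j = a + δ * j - u := by ring
    rw [e, ← hn0] at this
    exact this
  have hsumk : HasSum (fun j : ℤ => 1 / (1 + ((j + n0 : ℤ) : ℝ) ^ 2)) A0 := by
    have h2 := (Equiv.addRight n0).hasSum_iff (f := fun k : ℤ => 1 / (1 + (k : ℝ) ^ 2)) (a := A0)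
    exact h2.2 hA0
  have hfb : ∀ j : ℤ, ‖f j‖ ≤ M * (C ^ 2 * (1 / (1 + (a + δ * j - u) ^ 2) ^ 80)) := by
    intro j
    rw [hf, norm_mul]
    have h1 : ‖s j‖ * ‖φ (a + δ * j)‖ ≤ 1 * ‖φ (a + δ * j)‖ :=
      mul_le_mul_of_nonneg_right (hs j) (norm_nonneg _)
    rw [one_mul] at h1
    refine h1.trans ((hφn _).trans ?_)
    exact mul_le_mul_of_nonneg_left (hEy _) hM
  have hfs : Summable f := by
    have h1 : HasSum (fun j : ℤ => M * C ^ 2 * (3 / δ ^ 2 * (1 / (1 + ((j + n0 : ℤ) : ℝ) ^ 2))))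
        (M * C ^ 2 * (3 / δ ^ 2 * A0)) := (hsumk.mul_left _).mul_left _
    refine Summable.of_norm_bounded h1.summable fun j => (hfb j).trans ?_
    rw [mul_assoc]
    apply mul_le_mul_of_nonneg_left _ hM
    apply mul_le_mul_of_nonneg_left _ (sq_nonneg C)
    refine le_trans ?_ (hyb j)
    apply one_div_le_one_div_of_le (by positivity)
    apply le_self_pow₀ _ (by norm_num)
    nlinarith [sq_nonneg (a + δ * j - u)]
  -- splitting
  have hsplitJ : ∑ j ∈ J, s j * F (g j) * ((E ((g j - u) / h) ^ 2 : ℝ) : ℂ) =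
      (∑ j ∈ Nr, s j * φ (g j)) + ∑ j ∈ J \ Nr, s j * φ (g j) := by
    have h1 : ∑ j ∈ J, s j * F (g j) * ((E ((g j - u) / h) ^ 2 : ℝ) : ℂ) =
        ∑ j ∈ J, s j * φ (g j) := by
      apply Finset.sum_congr rfl
      intro j _
      rw [hφ, mul_assoc]
    rw [h1, add_comm]
    have hsub : Nr ⊆ J := by rw [hNr]; exact Finset.filter_subset _ _
    exact (Finset.sum_sdiff hsub).symm
  obtain ⟨f', hf'⟩ : ∃ f' : ℤ → ℂ, ∀ j, f' j = if j ∈ Z then 0 else f j := ⟨_, fun _ => rfl⟩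
  have hsplitZ : ∑' j : ℤ, f j = (∑ j ∈ Nr, s j * φ (a + δ * j)) + ∑' j : ℤ, f' j := by
    have h1 : ∑ j ∈ Nr, s j * φ (a + δ * j) = ∑ j ∈ Z, f j := by
      rw [hZ, Finset.sum_map]
      apply Finset.sum_congr rfl
      intro j _
      rw [hf]
      simp
    have h2 : HasSum (fun j : ℤ => if j ∈ Z then f j else 0) (∑ j ∈ Z, f j) := by
      have h3 : HasSum (fun j : ℤ => if j ∈ Z then f j else 0)
          (∑ b ∈ Z, (if b ∈ Z then f b else 0)) :=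
        hasSum_sum_of_ne_finset_zero (fun b hb => if_neg hb)
      have h4 : ∑ b ∈ Z, (if b ∈ Z then f b else 0) = ∑ j ∈ Z, f j :=
        Finset.sum_congr rfl fun j hj => if_pos hj
      rw [h4] at h3
      exact h3
    have h3 := hfs.hasSum.sub h2
    have h4 : (fun j : ℤ => f j - if j ∈ Z then f j else 0) = f' := by
      funext j
      rw [hf']
      by_cases hj : j ∈ Z
      · simp [hj]
      · simp [hj]
    rw [h4] at h3
    rw [h3.tsum_eq, h1]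
    ring
  have hgoal : (∑ j ∈ J, s j * F (g j) * ((E ((g j - u) / h) ^ 2 : ℝ) : ℂ)) -
        ∑' j : ℤ, s j * F (a + δ * j) * ((E ((a + δ * j - u) / h) ^ 2 : ℝ) : ℂ) =
      (∑ j ∈ Nr, s j * (φ (g j) - φ (a + δ * j))) + (∑ j ∈ J \ Nr, s j * φ (g j)) -
        ∑' j : ℤ, f' j := by
    rw [tsum_congr hfe, hsplitJ, hsplitZ]
    have : ∑ j ∈ Nr, (s j : ℂ) * (φ (g j) - φ (a + δ * j)) =
        (∑ j ∈ Nr, s j * φ (g j)) - ∑ j ∈ Nr, s j * φ (a + δ * j) := by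
      rw [← Finset.sum_sub_distrib]
      apply Finset.sum_congr rfl
      intro j _
      rw [mul_sub]
    rw [this]
    ring
  rw [hgoal]
  -- the near part
  have hnear : ‖∑ j ∈ Nr, s j * (φ (g j) - φ (a + δ * j))‖ ≤
      M * (15 * C ^ 2 * ρ * ε * (L * L)) := by
    have hterm : ∀ j ∈ Nr, ‖s j * (φ (g j) - φ (a + δ * j))‖ ≤
        M * (3 * C ^ 2 * L * ε) := by
      intro j hj
      rw [hNr, Finset.mem_filter] at hj
      have hxg := hx1 j hj.1 hj.2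
      rw [norm_mul]
      have h1 : ‖s j‖ * ‖φ (g j) - φ (a + δ * j)‖ ≤ 1 * ‖φ (g j) - φ (a + δ * j)‖ :=
        mul_le_mul_of_nonneg_right (hs j) (norm_nonneg _)
      rw [one_mul] at h1
      refine h1.trans ?_
      have e : φ (g j) - φ (a + δ * j) =
          (F (g j) - F (a + δ * j)) * ((E ((g j - u) / h) ^ 2 : ℝ) : ℂ) +
          F (a + δ * j) * (((E ((g j - u) / h) ^ 2 - E ((a + δ * j - u) / h) ^ 2 : ℝ)) : ℂ) := by
        rw [hφ, hφ, Complex.ofReal_sub]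
        ring
      rw [e]
      refine (norm_add_le _ _).trans ?_
      rw [norm_mul, norm_mul, Complex.norm_real, Complex.norm_real, Real.norm_eq_abs,
        Real.norm_eq_abs, abs_of_nonneg (sq_nonneg (E ((g j - u) / h)))]
      have h2 : ‖F (g j) - F (a + δ * j)‖ ≤ M * ε := by
        refine (hF' _ _).trans (mul_le_mul_of_nonneg_left ?_ hM)
        rw [abs_sub_comm]
        exact hxg
      have h3 : E ((g j - u) / h) ^ 2 ≤ C ^ 2 := by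
        rw [← sq_abs]
        exact pow_le_pow_left₀ (abs_nonneg _) (hE1 _) 2
      have h4 : |E ((g j - u) / h) ^ 2 - E ((a + δ * j - u) / h) ^ 2| ≤
          2 * C ^ 2 * (L * ε) := by
        refine (hE3 _ _).trans (mul_le_mul_of_nonneg_left ?_ (by positivity))
        have e2 : (g j - u) / h - (a + δ * j - u) / h = -(1 / h * (a + δ * j - g j)) := by
          ring
        rw [e2, abs_neg, abs_mul, abs_of_nonneg (by positivity : (0 : ℝ) ≤ 1 / h)]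
        exact mul_le_mul hhL hxg (abs_nonneg _) hL0.le
      have h5 : ‖F (g j) - F (a + δ * j)‖ * E ((g j - u) / h) ^ 2 ≤
          M * ε * C ^ 2 :=
        mul_le_mul h2 h3 (sq_nonneg _) (by positivity)
      have h6 : ‖F (a + δ * j)‖ * |E ((g j - u) / h) ^ 2 - E ((a + δ * j - u) / h) ^ 2| ≤
          M * (2 * C ^ 2 * (L * ε)) :=
        mul_le_mul (hF _) h4 (abs_nonneg _) hM
      have h7 : M * ε * C ^ 2 ≤ M * (C ^ 2 * L * ε) := by
        have : ε * C ^ 2 * 1 ≤ ε * C ^ 2 * L :=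
          mul_le_mul_of_nonneg_left hL1 (by positivity)
        have h8 := mul_le_mul_of_nonneg_left this hM
        linarith
      linarith
    have hcard : (Nr.card : ℝ) ≤ 5 * ρ * L := by
      have h1 := cmpA_count Z ((u - a - (ρ + 1)) / δ) ((u - a + (ρ + 1)) / δ)
        (by
          apply div_le_div_of_nonneg_right _ hδ.le
          linarith) (by
          intro j hj
          rw [hZ, Finset.mem_map] at hj
          obtain ⟨n, hn, rfl⟩ := hj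
          rw [hNr, Finset.mem_filter] at hn
          have h2 := (hx1 n hn.1 hn.2).trans hε1
          have h3 := hn.2
          rw [abs_le] at h2 h3
          have e : ((Nat.castEmbedding n : ℤ) : ℝ) = (n : ℝ) := by simp
          rw [e, div_le_iff₀ hδ, le_div_iff₀ hδ]
          constructor
          · linarith [h2.1, h2.2, h3.1, h3.2]
          · linarith [h2.1, h2.2, h3.1, h3.2])
      rw [hZ, Finset.card_map] at h1
      have e : (u - a + (ρ + 1)) / δ - (u - a - (ρ + 1)) / δ =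
          2 * (ρ + 1) * (1 / δ) := by
        ring
      rw [e] at h1
      have h2 : 2 * (ρ + 1) * (1 / δ) ≤ 2 * (ρ + 1) * L :=
        mul_le_mul_of_nonneg_left hδL (by positivity)
      have h3 : 1 ≤ ρ * L := by nlinarith
      have h4 : L ≤ ρ * L := by nlinarith
      linarith
    refine (norm_sum_le _ _).trans ((Finset.sum_le_sum hterm).trans ?_)
    rw [Finset.sum_const, nsmul_eq_mul]
    have h1 : (Nr.card : ℝ) * (M * (3 * C ^ 2 * L * ε)) ≤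
        (5 * ρ * L) * (M * (3 * C ^ 2 * L * ε)) :=
      mul_le_mul_of_nonneg_right hcard (by positivity)
    refine h1.trans (le_of_eq ?_)
    ring
  -- the far part of `J`
  have hfar : ‖∑ j ∈ J \ Nr, s j * φ (g j)‖ ≤ M * (C ^ 2 * (N * η)) := by
    have hterm : ∀ j ∈ J \ Nr, ‖s j * φ (g j)‖ ≤ M * (C ^ 2 * η) := by
      intro j hj
      rw [Finset.mem_sdiff, hNr, Finset.mem_filter, not_and] at hj
      have hj2 := hj.2 hj.1
      rw [not_le] at hj2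
      rw [norm_mul]
      have h1 : ‖s j‖ * ‖φ (g j)‖ ≤ 1 * ‖φ (g j)‖ :=
        mul_le_mul_of_nonneg_right (hs j) (norm_nonneg _)
      rw [one_mul] at h1
      refine h1.trans ((hφn _).trans (mul_le_mul_of_nonneg_left ?_ hM))
      refine (hEy _).trans ?_
      exact mul_le_mul_of_nonneg_left (hη' _ hj2.le) (sq_nonneg C)
    refine (norm_sum_le _ _).trans ((Finset.sum_le_sum hterm).trans ?_)
    rw [Finset.sum_const, nsmul_eq_mul]
    have hcard : ((J \ Nr).card : ℝ) ≤ N := by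
      have h1 : ((J \ Nr).card : ℝ) ≤ J.card := by
        exact_mod_cast Finset.card_le_card Finset.sdiff_subset
      exact h1.trans hJ
    have h1 := mul_le_mul_of_nonneg_right hcard
      (show 0 ≤ M * (C ^ 2 * η) by positivity)
    refine h1.trans (le_of_eq ?_)
    ring
  -- the far part of the progression
  have hrest : ‖∑' j : ℤ, f' j‖ ≤ M * (C ^ 2 * θ * (3 * A0 * (L * L))) := by
    have h1 : HasSum (fun j : ℤ => M * (C ^ 2 * θ) *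
        (3 / δ ^ 2 * (1 / (1 + ((j + n0 : ℤ) : ℝ) ^ 2))))
        (M * (C ^ 2 * θ) * (3 / δ ^ 2 * A0)) :=
      (hsumk.mul_left _).mul_left _
    refine (tsum_of_norm_bounded h1 fun j => ?_).trans ?_
    · rw [hf']
      by_cases hj : j ∈ Z
      · rw [if_pos hj, norm_zero]
        positivity
      · rw [if_neg hj]
        have hfarj : ρ / 2 < |a + δ * j - u| := by
          by_contra hcon
          rw [not_lt] at hcon
          obtain ⟨n, hn, hnj, hng⟩ := hx2 j hcon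
          apply hj
          rw [hZ, Finset.mem_map]
          refine ⟨n, ?_, ?_⟩
          · rw [hNr, Finset.mem_filter]; exact ⟨hn, hng⟩
          · simpa using hnj
        refine (hfb j).trans ?_
        rw [mul_assoc]
        apply mul_le_mul_of_nonneg_left _ hM
        have h7 := mul_le_mul_of_nonneg_left ((hθ' _ hfarj.le).trans
          (mul_le_mul_of_nonneg_left (hyb j) hθ)) (sq_nonneg C)
        refine h7.trans (le_of_eq ?_)
        ring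
    · have h2 : 1 / δ * (1 / δ) ≤ L * L :=
        mul_le_mul hδL hδL (by positivity) (by positivity)
      have e1 : M * (C ^ 2 * θ) * (3 / δ ^ 2 * A0) =
          M * (C ^ 2 * θ) * (3 * A0) * (1 / δ * (1 / δ)) := by
        field_simp
      rw [e1]
      refine (mul_le_mul_of_nonneg_left h2 (by positivity)).trans (le_of_eq ?_)
      ring
  refine (norm_sub_le _ _).trans (add_le_add ((norm_add_le _ _).trans ?_) hrest)
  exact add_le_add hnear hfar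

theorem cmpA_pw (τ : ℝ) (hτ : 1 ≤ τ) (m n k : ℕ) (h : m + k + 1 ≤ n) :
    τ ^ m * (τ ^ n)⁻¹ ≤ (τ ^ k)⁻¹ * τ⁻¹ := by
  have h0 : 0 < τ := by linarith
  rw [← mul_inv, ← pow_succ]
  have h1 : τ ^ m * τ ^ (k + 1) ≤ τ ^ n := by
    rw [← pow_add]
    exact pow_le_pow_right₀ hτ (by omega)
  have h2 : 0 < τ ^ n := by positivity
  have h3 : 0 < τ ^ (k + 1) := by positivity
  rw [mul_inv_le_iff₀ h2, ← div_eq_inv_mul, le_div_iff₀ h3]
  exact h1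

theorem cmpA_far (ρ : ℝ) (hρ : 1 ≤ ρ) (y : ℝ) (hy : ρ ≤ |y|) :
    1 / (1 + y ^ 2) ^ 80 ≤ 1 / (ρ ^ 2) ^ 80 := by
  apply one_div_le_one_div_of_le (by positivity)
  apply pow_le_pow_left₀ (by positivity)
  have h3 := pow_le_pow_left₀ (by linarith) hy 2
  rw [sq_abs] at h3
  linarith

theorem cmpA_far2 (ρ : ℝ) (hρ : 1 ≤ ρ) (y : ℝ) (hy : ρ / 2 ≤ |y|) :
    1 / (1 + y ^ 2) ^ 80 ≤ 1 / ((ρ / 2) ^ 2) ^ 10 * (1 / (1 + y ^ 2)) := by
  rw [div_mul_div_comm, mul_one]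
  apply one_div_le_one_div_of_le (by positivity)
  have h3 := pow_le_pow_left₀ (by linarith) hy 2
  rw [sq_abs] at h3
  have h4 : ((ρ / 2) ^ 2) ^ 10 ≤ (1 + y ^ 2) ^ 10 :=
    pow_le_pow_left₀ (by positivity) (by linarith) 10
  have h5 : (1 + y ^ 2) ^ 10 * (1 + y ^ 2) ≤ (1 + y ^ 2) ^ 80 := by
    rw [← pow_succ]
    exact pow_le_pow_right₀ (by nlinarith [sq_nonneg y]) (by norm_num)
  exact (mul_le_mul_of_nonneg_right h4 (by positivity)).trans h5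

theorem cmpA_root (T : ℝ) (hT : 0 < T) (m : ℕ) (x : ℝ) (hx : x = (m : ℝ) / 200) :
    T ^ x = (T ^ (1 / 200 : ℝ)) ^ m := by
  rw [← Real.rpow_natCast, ← Real.rpow_mul hT.le, hx]
  congr 1
  ring

theorem cmpA_rootneg (T : ℝ) (hT : 0 < T) (m : ℕ) (x : ℝ) (hx : x = -((m : ℝ) / 200)) :
    T ^ x = ((T ^ (1 / 200 : ℝ)) ^ m)⁻¹ := by
  rw [← cmpA_root T hT m _ rfl, ← Real.rpow_neg hT.le, hx]

theorem cmpA (E : ℝ → ℝ) (C : ℝ) (hc : Continuous E)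
    (hl : ∀ v w : ℝ, |E v - E w| ≤ C * |v - w|) (hd : ∀ v : ℝ, |E v| ≤ C / (1 + v ^ 2) ^ 40) :
    ∃ T0 : ℝ, 2 ≤ T0 ∧ ∀ (T h δ a u M : ℝ) (J : Finset ℕ) (g : ℕ → ℝ) (s : ℤ → ℂ) (F : ℝ → ℂ),
      T0 ≤ T → 1 / Real.log T ≤ h → h ≤ 1 → 1 / Real.log T ≤ δ → δ ≤ 1 → 0 ≤ M →
      (∀ t, ‖F t‖ ≤ M) → (∀ t t', ‖F t - F t'‖ ≤ M * |t - t'|) → (∀ j, ‖s j‖ ≤ 1) →
      (J.card : ℝ) ≤ T ^ 2 →
      (∀ j ∈ J, |g j - u| ≤ T ^ (1 / 20 : ℝ) → |a + δ * j - g j| ≤ T ^ (-(89 / 100) : ℝ)) →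
      (∀ j : ℤ, |a + δ * j - u| ≤ T ^ (1 / 20 : ℝ) / 2 →
        ∃ n ∈ J, (n : ℤ) = j ∧ |g n - u| ≤ T ^ (1 / 20 : ℝ)) →
      ‖(∑ j ∈ J, s j * F (g j) * ((E ((g j - u) / h) ^ 2 : ℝ) : ℂ)) -
        ∑' j : ℤ, s j * F (a + δ * j) * ((E ((a + δ * j - u) / h) ^ 2 : ℝ) : ℂ)‖ ≤
        M * T ^ (-(8 / 10) : ℝ) := by
  classical
  obtain ⟨A0, hA0⟩ : ∃ A0, HasSum (fun k : ℤ => 1 / (1 + (k : ℝ) ^ 2)) A0 := cmpA_summable
  have hA0nn : 0 ≤ A0 := hA0.nonneg fun k => by positivity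
  have hC : 0 ≤ C := by
    have := hd 0
    have h2 := abs_nonneg (E 0)
    norm_num at this
    linarith
  -- facts on `E`
  have hE1 : ∀ v, |E v| ≤ C := by
    intro v
    refine (hd v).trans (div_le_self hC ?_)
    exact one_le_pow₀ (by nlinarith [sq_nonneg v])
  have hE2 : ∀ v, E v ^ 2 ≤ C ^ 2 * (1 / (1 + v ^ 2) ^ 80) := by
    intro v
    have h1 := pow_le_pow_left₀ (abs_nonneg _) (hd v) 2
    rw [sq_abs, div_pow, ← pow_mul] at h1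
    rw [mul_one_div]
    exact h1
  have hE3 : ∀ v w, |E v ^ 2 - E w ^ 2| ≤ 2 * C ^ 2 * |v - w| := by
    intro v w
    have e : E v ^ 2 - E w ^ 2 = (E v - E w) * (E v + E w) := by ring
    rw [e, abs_mul]
    have h1 : |E v + E w| ≤ 2 * C := by
      have := abs_add_le (E v) (E w)
      linarith [hE1 v, hE1 w]
    calc |E v - E w| * |E v + E w| ≤ (C * |v - w|) * (2 * C) :=
          mul_le_mul (hl v w) h1 (abs_nonneg _) (mul_nonneg hC (abs_nonneg _))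
      _ = _ := by ring
  obtain ⟨c, hc0, hcc⟩ : ∃ c : ℝ, 0 ≤ c ∧ c = 4 ^ 10 := ⟨4 ^ 10, by positivity, rfl⟩
  obtain ⟨K, hK⟩ : ∃ K : ℝ, K = (600001 + 3 * A0 * 40000 * c) * C ^ 2 := ⟨_, rfl⟩
  have hKnn : 0 ≤ K := by rw [hK]; positivity
  obtain ⟨B, hB⟩ : ∃ B : ℝ, B = (K + 1) ^ 200 := ⟨_, rfl⟩
  refine ⟨max 2 B, le_max_left _ _, ?_⟩
  intro T h δ a u M J g s F hT hh0 hh1 hδ0 hδ1 hM hF hF' hs hJ hx1 hx2
  have hT2 : 2 ≤ T := (le_max_left _ _).trans hT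
  have hTK : B ≤ T := (le_max_right _ _).trans hT
  have hT0 : 0 < T := by linarith
  have eρ : T ^ (1 / 20 : ℝ) = (T ^ (1 / 200 : ℝ)) ^ 10 := cmpA_root T hT0 10 _ (by norm_num)
  have eT : T = (T ^ (1 / 200 : ℝ)) ^ 200 := by
    rw [← cmpA_root T hT0 200 1 (by norm_num), Real.rpow_one]
  have e89 : T ^ (-(89 / 100) : ℝ) = ((T ^ (1 / 200 : ℝ)) ^ 178)⁻¹ :=
    cmpA_rootneg T hT0 178 _ (by norm_num)
  have e8 : T ^ (-(8 / 10) : ℝ) = ((T ^ (1 / 200 : ℝ)) ^ 160)⁻¹ :=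
    cmpA_rootneg T hT0 160 _ (by norm_num)
  have hLτ' : Real.log T ≤ 200 * T ^ (1 / 200 : ℝ) := by
    have := Real.log_le_rpow_div hT0.le (by norm_num : (0 : ℝ) < 1 / 200)
    refine this.trans (le_of_eq ?_)
    ring
  have hτK' : K + 1 ≤ T ^ (1 / 200 : ℝ) := by
    have h1 : (K + 1) ^ 200 ≤ (T ^ (1 / 200 : ℝ)) ^ 200 := by
      rw [← eT, ← hB]; exact hTK
    exact le_of_pow_le_pow_left₀ (by norm_num) (by positivity) h1
  rw [eρ, e89] at hx1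
  rw [eρ] at hx2
  rw [e8]
  have hJ' : (J.card : ℝ) ≤ ((T ^ (1 / 200 : ℝ)) ^ 200) ^ 2 := by rw [← eT]; exact hJ
  generalize T ^ (1 / 200 : ℝ) = τ at hτK' hLτ' hx1 hx2 hJ' ⊢
  obtain ⟨L, hL⟩ : ∃ L : ℝ, L = Real.log T := ⟨_, rfl⟩
  have hL0 : 0 < L := by rw [hL]; exact Real.log_pos (by linarith)
  rw [← hL] at hh0 hδ0 hLτ'
  have hτ1 : 1 ≤ τ := by linarith
  have hτ0 : 0 < τ := by linarith
  have hL1 : 1 ≤ L := by
    have := hh0.trans hh1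
    rw [div_le_one hL0] at this
    exact this
  have hh : 0 < h := lt_of_lt_of_le (by positivity) hh0
  have hδ : 0 < δ := lt_of_lt_of_le (by positivity) hδ0
  have hhL : 1 / h ≤ L := by
    rw [div_le_iff₀ hh]
    rw [div_le_iff₀ hL0] at hh0
    linarith
  have hδL : 1 / δ ≤ L := by
    rw [div_le_iff₀ hδ]
    rw [div_le_iff₀ hL0] at hδ0
    linarith
  have hρ1 : 1 ≤ τ ^ 10 := one_le_pow₀ hτ1
  have main := cmpA_core E C hC hE1 hE2 hE3 h δ a u M (τ ^ 10) (τ ^ 178)⁻¹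
    (1 / ((τ ^ 10) ^ 2) ^ 80) (1 / ((τ ^ 10 / 2) ^ 2) ^ 10) L ((τ ^ 200) ^ 2) A0 J g s F hA0
    hh hh1 hδ hδ1 hM hρ1 (by positivity) (inv_le_one_of_one_le₀ (one_le_pow₀ hτ1))
    (by positivity) (by positivity) hL1 hhL hδL (fun y hy => cmpA_far _ hρ1 y hy)
    (fun y hy => cmpA_far2 _ hρ1 y hy) hF hF' hs hJ' hx1 hx2
  refine main.trans ?_
  rw [← mul_add, ← mul_add]
  apply mul_le_mul_of_nonneg_left _ hM
  clear main hx1 hx2 hF hF' hs hJ hJ' hd hl hE1 hE2 hE3 eρ eT e89 e8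
  have hLL : L * L ≤ (200 * τ) * (200 * τ) := mul_le_mul hLτ' hLτ' hL0.le (by positivity)
  have n1 := cmpA_pw τ hτ1 12 178 160 (by norm_num)
  have n2 := cmpA_pw τ hτ1 400 1600 160 (by norm_num)
  have n3 := cmpA_pw τ hτ1 2 200 160 (by norm_num)
  have hKτ : K * τ⁻¹ ≤ 1 := by
    rw [← div_eq_mul_inv, div_le_one hτ0]
    linarith
  obtain ⟨w, hw⟩ : ∃ w : ℝ, w = (τ ^ 160)⁻¹ := ⟨_, rfl⟩
  have hw0 : 0 ≤ w := by rw [hw]; positivity
  rw [← hw] at n1 n2 n3 ⊢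
  have s1 : 15 * C ^ 2 * τ ^ 10 * (τ ^ 178)⁻¹ * (L * L) ≤ 600000 * C ^ 2 * (w * τ⁻¹) := by
    have t1 := mul_le_mul_of_nonneg_left hLL
      (show 0 ≤ 15 * C ^ 2 * τ ^ 10 * (τ ^ 178)⁻¹ by positivity)
    refine t1.trans ?_
    have t2 : 15 * C ^ 2 * τ ^ 10 * (τ ^ 178)⁻¹ * (200 * τ * (200 * τ)) =
        600000 * C ^ 2 * (τ ^ 12 * (τ ^ 178)⁻¹) := by
      have : τ ^ 12 = τ ^ 10 * τ * τ := by ring
      rw [this]
      generalize (τ ^ 178)⁻¹ = q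
      ring
    rw [t2]
    exact mul_le_mul_of_nonneg_left n1 (by positivity)
  have s2 : C ^ 2 * ((τ ^ 200) ^ 2 * (1 / ((τ ^ 10) ^ 2) ^ 80)) ≤ C ^ 2 * (w * τ⁻¹) := by
    apply mul_le_mul_of_nonneg_left _ (sq_nonneg C)
    rw [one_div, ← pow_mul, ← pow_mul, ← pow_mul]
    exact n2
  have s3 : C ^ 2 * (1 / ((τ ^ 10 / 2) ^ 2) ^ 10) * (3 * A0 * (L * L)) ≤
      3 * A0 * 40000 * c * C ^ 2 * (w * τ⁻¹) := by
    have t1 := mul_le_mul_of_nonneg_left hLL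
      (show 0 ≤ C ^ 2 * (1 / ((τ ^ 10 / 2) ^ 2) ^ 10) * (3 * A0) by positivity)
    have t3 : 1 / ((τ ^ 10 / 2) ^ 2) ^ 10 = c * (τ ^ 200)⁻¹ := by
      rw [hcc, div_pow, div_pow, ← pow_mul, ← pow_mul, one_div, inv_div, div_eq_mul_inv]
      norm_num
    rw [t3] at t1 ⊢
    have t2 : C ^ 2 * (c * (τ ^ 200)⁻¹) * (3 * A0) * (200 * τ * (200 * τ)) =
        3 * A0 * 40000 * c * C ^ 2 * (τ ^ 2 * (τ ^ 200)⁻¹) := by
      generalize (τ ^ 200)⁻¹ = q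
      ring
    rw [t2] at t1
    refine le_trans (le_of_eq (by ring)) (t1.trans ?_)
    exact mul_le_mul_of_nonneg_left n3 (by positivity)
  have s4 : K * τ⁻¹ * w ≤ 1 * w := mul_le_mul_of_nonneg_right hKτ hw0
  have s5 : 600000 * C ^ 2 * (w * τ⁻¹) + C ^ 2 * (w * τ⁻¹) +
      3 * A0 * 40000 * c * C ^ 2 * (w * τ⁻¹) = K * τ⁻¹ * w := by
    rw [hK]; ring
  linarith

end Pool.Agent.Helper647.PT
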