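import Mathlib
import Pool.Agent.Helper647_PT.Defs

set_option autoImplicit false


namespace Pool.Agent.Helper647.PT

open MeasureTheory Complex Filter Topology Set

/-- the part of `∑_{n ≤ N} n^{-1/2-it} |∑_{h ≤ Y} β_h h^{-1/2-it}|²` with frequencies near `(log T) / 2` -/
theorem win_phi_int {φ : ℝ → ℝ} {C : ℝ} (hc : Continuous φ)
    (hd : ∀ v : ℝ, |φ v| ≤ C / (1 + v ^ 2) ^ 2) : Integrable φ := by
  have hC : 0 ≤ C := by
    have := hd 0
    simp at this
    exact (abs_nonneg _).trans this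
  have h1 : Integrable (fun v : ℝ => C * (1 + v ^ 2)⁻¹) := integrable_inv_one_add_sq.const_mul C
  refine h1.mono' hc.aestronglyMeasurable (Eventually.of_forall fun v => ?_)
  rw [Real.norm_eq_abs]
  refine (hd v).trans ?_
  rw [div_eq_mul_inv]
  gcongr
  nlinarith [sq_nonneg v]

/-- expansion of the weighted square -/
theorem win_expand {ι : Type} (s : Finset ι) (c lam : ι → ℝ) (φ : ℝ → ℝ) (v r d : ℝ) :
    (((φ v * ‖∑ i ∈ s, (c i : ℂ) * cexp (-(I * lam i * ((r * v + d : ℝ) : ℂ)))‖ ^ 2 : ℝ)) : ℂ) =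
      ∑ i ∈ s, ∑ j ∈ s, ((c i : ℂ) * c j * cexp (I * (lam j - lam i) * d)) *
        ((φ v : ℂ) * cexp (I * ((r * (lam j - lam i) : ℝ) : ℂ) * v)) := by
  rw [Complex.ofReal_mul, Complex.ofReal_pow, ← Complex.mul_conj', map_sum, Finset.sum_mul_sum,
    Finset.mul_sum]
  refine Finset.sum_congr rfl fun i _ => ?_
  rw [Finset.mul_sum]
  refine Finset.sum_congr rfl fun j _ => ?_
  rw [map_mul, Complex.conj_ofReal, ← Complex.exp_conj, map_neg, map_mul, map_mul, Complex.conj_I,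
    Complex.conj_ofReal, Complex.conj_ofReal]
  have h1 : cexp (-(I * lam i * ((r * v + d : ℝ) : ℂ))) * cexp (-(-I * lam j * ((r * v + d : ℝ) : ℂ)))
      = cexp (I * (lam j - lam i) * d) * cexp (I * ((r * (lam j - lam i) : ℝ) : ℂ) * v) := by
    rw [← Complex.exp_add, ← Complex.exp_add]
    congr 1
    push_cast
    ring
  calc (φ v : ℂ) * ((c i : ℂ) * cexp (-(I * lam i * ((r * v + d : ℝ) : ℂ))) *
      ((c j : ℂ) * cexp (-(-I * lam j * ((r * v + d : ℝ) : ℂ)))))
      = (φ v : ℂ) * (c i : ℂ) * (c j : ℂ) * (cexp (-(I * lam i * ((r * v + d : ℝ) : ℂ))) *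
        cexp (-(-I * lam j * ((r * v + d : ℝ) : ℂ)))) := by ring
    _ = _ := by rw [h1]; ring

theorem win_term_int {φ : ℝ → ℝ} (hφ : Integrable φ) (ξ : ℝ) :
    Integrable (fun v : ℝ => (φ v : ℂ) * cexp (I * (ξ : ℂ) * v)) := by
  refine (hφ.ofReal (𝕜 := ℂ)).mul_bdd (c := 1) ?_ ?_
  · exact (by fun_prop : Continuous fun v : ℝ => cexp (I * (ξ : ℂ) * v)).aestronglyMeasurable
  · refine Eventually.of_forall fun v => ?_
    rw [show I * (ξ : ℂ) * v = ((ξ * v : ℝ) : ℂ) * I by push_cast; ring, Complex.norm_exp_ofReal_mul_I]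

/-- mean squares of exponential sums whose frequencies are equal or well separated -/
theorem win_ls {ι : Type} (s : Finset ι) (c lam : ι → ℝ) (φ : ℝ → ℝ) (C c0 : ℝ) (hc0 : 0 < c0)
    (hc : Continuous φ) (h0 : ∀ v : ℝ, 0 ≤ φ v)
    (hd : ∀ v : ℝ, |φ v| ≤ C / (1 + v ^ 2) ^ 2) (h1 : ∀ v : ℝ, |v| ≤ 1 → c0 ≤ φ v)
    (hz : ∀ ξ : ℝ, 1 ≤ |ξ| → ∫ v : ℝ, ((φ v : ℝ) : ℂ) * cexp (I * ξ * v) = 0)
    (T a : ℝ) (hT : 0 < T)
    (hsep : ∀ i ∈ s, ∀ j ∈ s, c i ≠ 0 → c j ≠ 0 → lam i ≠ lam j → 1 ≤ |T / 2 * (lam j - lam i)|) :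
    ∫ t in a..(a + T), ‖∑ i ∈ s, (c i : ℂ) * cexp (-(I * lam i * t))‖ ^ 2 ≤
      (1 / c0) * (T / 2) * (∫ v, φ v) *
        ∑ i ∈ s, ∑ j ∈ s, (if lam i = lam j then c i * c j else 0) := by
  have hφ := win_phi_int hc hd
  set f : ℝ → ℝ := fun t => ‖∑ i ∈ s, (c i : ℂ) * cexp (-(I * lam i * t))‖ ^ 2 with hf
  have hfc : Continuous f := by
    rw [hf]
    fun_prop
  have hf0 : ∀ t, 0 ≤ f t := fun t => by positivity
  set d : ℝ := a + T / 2 with hdd
  -- the weighted integral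
  have hexp : ∀ v : ℝ, ((φ v * f (T / 2 * v + d) : ℝ) : ℂ) =
      ∑ i ∈ s, ∑ j ∈ s, ((c i : ℂ) * c j * cexp (I * (lam j - lam i) * d)) *
        ((φ v : ℂ) * cexp (I * ((T / 2 * (lam j - lam i) : ℝ) : ℂ) * v)) :=
    fun v => win_expand s c lam φ v (T / 2) d
  have hint : Integrable (fun v : ℝ => ((φ v * f (T / 2 * v + d) : ℝ) : ℂ)) := by
    simp_rw [hexp]
    refine integrable_finsetSum _ fun i _ => integrable_finsetSum _ fun j _ => ?_
    exact (win_term_int hφ _).const_mul _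
  have hint' : Integrable (fun v : ℝ => φ v * f (T / 2 * v + d)) := by
    have := hint.re
    simpa using this
  have hval : (∫ v, φ v * f (T / 2 * v + d)) = (∫ v, φ v) *
      ∑ i ∈ s, ∑ j ∈ s, (if lam i = lam j then c i * c j else 0) := by
    have h2 : (((∫ v, φ v * f (T / 2 * v + d)) : ℝ) : ℂ) = (((∫ v, φ v) *
      ∑ i ∈ s, ∑ j ∈ s, (if lam i = lam j then c i * c j else 0) : ℝ) : ℂ) := by
      have e0 : (((∫ v, φ v * f (T / 2 * v + d)) : ℝ) : ℂ) =
          ∫ v, ((φ v * f (T / 2 * v + d) : ℝ) : ℂ) := integral_ofReal.symm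
      rw [e0, integral_congr_ae (Eventually.of_forall hexp),
        integral_finsetSum _ fun i _ => integrable_finsetSum _ fun j _ =>
        (win_term_int hφ _).const_mul _]
      rw [Complex.ofReal_mul, Complex.ofReal_sum, Finset.mul_sum]
      refine Finset.sum_congr rfl fun i hi => ?_
      rw [integral_finsetSum _ fun j _ => (win_term_int hφ _).const_mul _, Complex.ofReal_sum,
        Finset.mul_sum]
      refine Finset.sum_congr rfl fun j hj => ?_
      rw [integral_const_mul]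
      by_cases hl : lam i = lam j
      · rw [if_pos hl, hl]
        simp only [sub_self, mul_zero, zero_mul, Complex.exp_zero, mul_one, Complex.ofReal_zero]
        rw [show (∫ v : ℝ, (φ v : ℂ)) = ((∫ v, φ v : ℝ) : ℂ) from integral_ofReal]
        push_cast
        ring
      · rw [if_neg hl]
        by_cases hci : c i = 0
        · simp [hci]
        by_cases hcj : c j = 0
        · simp [hcj]
        rw [hz _ (hsep i hi j hj hci hcj hl)]
        simp
    exact_mod_cast h2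
  -- change of variables
  have hcv : ∫ t in a..(a + T), f t = (T / 2) * ∫ v in (-1 : ℝ)..1, f (T / 2 * v + d) := by
    rw [intervalIntegral.integral_comp_mul_add f (by positivity : T / 2 ≠ 0) d]
    have e1 : T / 2 * (-1) + d = a := by rw [hdd]; ring
    have e2 : T / 2 * 1 + d = a + T := by rw [hdd]; ring
    rw [e1, e2, smul_eq_mul, ← mul_assoc, mul_inv_cancel₀ (by positivity), one_mul]
  have hle1 : ∫ v in (-1 : ℝ)..1, f (T / 2 * v + d) ≤
      ∫ v in (-1 : ℝ)..1, (1 / c0) * (φ v * f (T / 2 * v + d)) := by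
    refine intervalIntegral.integral_mono_on (by norm_num) ?_ ?_ ?_
    · exact (by fun_prop : Continuous fun v : ℝ => f (T / 2 * v + d)).intervalIntegrable _ _
    · exact (by fun_prop : Continuous fun v : ℝ => (1 / c0) * (φ v * f (T / 2 * v + d))).intervalIntegrable _ _
    · intro v hv
      have h2 : c0 ≤ φ v := h1 v (abs_le.2 ⟨hv.1, hv.2⟩)
      have h3 := hf0 (T / 2 * v + d)
      rw [← mul_assoc]
      have h4 : 1 ≤ 1 / c0 * φ v := by
        rw [one_div, ← div_eq_inv_mul, le_div_iff₀ hc0, one_mul]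
        exact h2
      nlinarith
  have hle2 : ∫ v in (-1 : ℝ)..1, (φ v * f (T / 2 * v + d)) ≤ ∫ v, φ v * f (T / 2 * v + d) := by
    rw [intervalIntegral.integral_of_le (by norm_num)]
    exact setIntegral_le_integral hint' (Eventually.of_forall fun v => mul_nonneg (h0 v) (hf0 _))
  rw [hcv]
  calc (T / 2) * ∫ v in (-1 : ℝ)..1, f (T / 2 * v + d)
      ≤ (T / 2) * ((1 / c0) * ∫ v, φ v * f (T / 2 * v + d)) := by
        gcongr
        refine hle1.trans ?_
        rw [intervalIntegral.integral_const_mul]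
        gcongr
    _ = _ := by rw [hval]; ring

theorem win_harm_lower (a k : ℕ) (ha : 1 ≤ a) :
    Real.log ((a + k : ℕ) / a) ≤ ∑ m ∈ Finset.Ico a (a + k), (1 / (m : ℝ)) := by
  have ha' : (0 : ℝ) < a := by exact_mod_cast ha
  induction k with
  | zero => simp [div_self ha'.ne']
  | succ k ih =>
    rw [← add_assoc, Finset.sum_Ico_succ_top (by omega)]
    have hk : (0 : ℝ) < ((a + k : ℕ) : ℝ) := by exact_mod_cast (by omega : 0 < a + k)
    have h1 : Real.log (((a + k + 1 : ℕ) : ℝ) / a) =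
        Real.log (((a + k : ℕ) : ℝ) / a) + Real.log (1 + 1 / ((a + k : ℕ) : ℝ)) := by
      rw [← Real.log_mul (by positivity) (by positivity)]
      congr 1
      field_simp
      push_cast
      ring
    rw [h1]
    refine add_le_add ih ?_
    have := Real.log_le_sub_one_of_pos (show 0 < 1 + 1 / ((a + k : ℕ) : ℝ) by positivity)
    linarith

theorem win_harm_upper (a k : ℕ) (ha : 1 ≤ a) :
    ∑ m ∈ Finset.Ico a (a + k + 1), (1 / (m : ℝ)) ≤ 1 / a + Real.log ((a + k : ℕ) / a) := by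
  have ha' : (0 : ℝ) < a := by exact_mod_cast ha
  induction k with
  | zero => simp [div_self ha'.ne']
  | succ k ih =>
    rw [← add_assoc, Finset.sum_Ico_succ_top (by omega)]
    have hk : (0 : ℝ) < ((a + k : ℕ) : ℝ) := by exact_mod_cast (by omega : 0 < a + k)
    have hk1 : (0 : ℝ) < ((a + k + 1 : ℕ) : ℝ) := by exact_mod_cast (by omega : 0 < a + k + 1)
    have h1 : Real.log (((a + k + 1 : ℕ) : ℝ) / a) =
        Real.log (((a + k : ℕ) : ℝ) / a) - Real.log (((a + k : ℕ) : ℝ) / ((a + k + 1 : ℕ) : ℝ)) := by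
      rw [← Real.log_div (by positivity) (by positivity)]
      congr 1
      field_simp
    rw [h1]
    have h2 := Real.log_le_sub_one_of_pos
      (show 0 < ((a + k : ℕ) : ℝ) / ((a + k + 1 : ℕ) : ℝ) by positivity)
    have h3 : ((a + k : ℕ) : ℝ) / ((a + k + 1 : ℕ) : ℝ) - 1 = -(1 / ((a + k + 1 : ℕ) : ℝ)) := by
      field_simp
      push_cast
      ring
    rw [h3] at h2
    linarith

theorem win_harm (x x' : ℝ) (hx : 0 < x) (hxx : x ≤ x') :
    |∑ m ∈ Finset.Icc ⌈x⌉₊ ⌊x'⌋₊, (1 / (m : ℝ)) - Real.log (x' / x)| ≤ 1 / x := by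
  have hx' : 0 < x' := hx.trans_le hxx
  set a := ⌈x⌉₊ with ha
  set b := ⌊x'⌋₊ with hb
  have ha1 : 1 ≤ a := Nat.one_le_iff_ne_zero.2 (Nat.ceil_pos.2 hx).ne'
  have hax : x ≤ a := Nat.le_ceil x
  have hax1 : (a : ℝ) < x + 1 := Nat.ceil_lt_add_one hx.le
  have hbx : (b : ℝ) ≤ x' := Nat.floor_le hx'.le
  have hbx1 : x' < b + 1 := Nat.lt_floor_add_one x'
  have hab : a ≤ b + 1 := by
    have : (a : ℝ) < b + 2 := by linarith
    have h2 : a < b + 2 := by exact_mod_cast this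
    omega
  have ha0 : (0 : ℝ) < a := by exact_mod_cast ha1
  have hIcc : Finset.Icc a b = Finset.Ico a (b + 1) := by
    ext m; simp [Finset.mem_Icc, Finset.mem_Ico]
  rw [hIcc, abs_le]
  obtain ⟨k, hk⟩ : ∃ k, b + 1 = a + k := ⟨b + 1 - a, by omega⟩
  constructor
  · have h1 := win_harm_lower a k ha1
    rw [hk]
    have h2 : Real.log (x' / x) ≤ Real.log ((a + k : ℕ) / a) + 1 / x := by
      have h3 : Real.log (x' / x) ≤ Real.log (((a + k : ℕ) / a) * (1 + 1 / x)) := by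
        refine Real.log_le_log (by positivity) ?_
        rw [← hk]
        push_cast
        rw [div_mul_eq_mul_div, div_le_div_iff₀ hx ha0]
        have h4 : (1 + 1 / x) * x = x + 1 := by field_simp
        have h5 : ((b : ℝ) + 1) * (1 + 1 / x) * x = ((b : ℝ) + 1) * (x + 1) := by
          rw [mul_assoc, h4]
        rw [h5]
        exact mul_le_mul hbx1.le hax1.le ha0.le (by positivity)
      have hak : (0 : ℝ) < ((a + k : ℕ) : ℝ) := by exact_mod_cast (by omega : 0 < a + k)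
      rw [Real.log_mul (by positivity) (by positivity)] at h3
      have := Real.log_le_sub_one_of_pos (show 0 < 1 + 1 / x by positivity)
      linarith
    linarith
  · rcases Nat.eq_zero_or_pos k with hk0 | hk0
    · subst hk0
      rw [hk]
      simp only [add_zero, Finset.Ico_self, Finset.sum_empty, zero_sub]
      have h1 : 0 ≤ Real.log (x' / x) := Real.log_nonneg (by rw [le_div_iff₀ hx]; linarith)
      have : 0 ≤ 1 / x := by positivity
      linarith
    · obtain ⟨j, rfl⟩ : ∃ j, k = j + 1 := ⟨k - 1, by omega⟩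
      have h1 := win_harm_upper a j ha1
      have hbj : b = a + j := by omega
      rw [hk, ← add_assoc]
      have h2 : Real.log ((a + j : ℕ) / a) ≤ Real.log (x' / x) := by
        rw [← hbj]
        have hb0 : (0 : ℝ) < b := by rw [hbj]; exact_mod_cast (by omega : 0 < a + j)
        refine Real.log_le_log (by positivity) ?_
        rw [div_le_div_iff₀ ha0 hx]
        exact mul_le_mul hbx hax hx.le hx'.le
      have h3 : 1 / (a : ℝ) ≤ 1 / x := one_div_le_one_div_of_le hx hax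
      linarith

theorem win_comm6 (s t : Finset ℕ) (F : ℕ → ℕ → ℕ → ℕ → ℕ → ℕ → ℝ) :
    ∑ n ∈ s, ∑ μ ∈ t, ∑ ν ∈ t, ∑ n' ∈ s, ∑ μ' ∈ t, ∑ ν' ∈ t, F n μ ν n' μ' ν' =
    ∑ μ ∈ t, ∑ ν ∈ t, ∑ μ' ∈ t, ∑ ν' ∈ t, ∑ n ∈ s, ∑ n' ∈ s, F n μ ν n' μ' ν' := by
  rw [Finset.sum_comm]
  refine Finset.sum_congr rfl fun μ _ => ?_
  rw [Finset.sum_comm]
  refine Finset.sum_congr rfl fun ν _ => ?_
  have h1 : ∀ n, ∑ n' ∈ s, ∑ μ' ∈ t, ∑ ν' ∈ t, F n μ ν n' μ' ν' =
      ∑ μ' ∈ t, ∑ ν' ∈ t, ∑ n' ∈ s, F n μ ν n' μ' ν' := by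
    intro n
    rw [Finset.sum_comm]
    exact Finset.sum_congr rfl fun μ' _ => Finset.sum_comm
  simp_rw [h1]
  rw [Finset.sum_comm]
  exact Finset.sum_congr rfl fun μ' _ => Finset.sum_comm

theorem win_R (μ ν μ' ν' N : ℕ) (hμ : 1 ≤ μ) (hν : 1 ≤ ν) (hμ' : 1 ≤ μ') (hν' : 1 ≤ ν')
    (A B : ℝ) (hN : Real.exp B * ν ≤ N) (hN' : Real.exp B * ν' ≤ N) :
    ∑ n ∈ Finset.Icc 1 N, ∑ n' ∈ Finset.Icc 1 N,
      (if n * (μ * ν') = n' * (μ' * ν) ∧ A ≤ Real.log (n * μ / ν) ∧ Real.log (n * μ / ν) ≤ B then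
        1 / (Real.sqrt (n * μ * ν) * Real.sqrt (n' * μ' * ν')) else 0) =
      (Nat.gcd (μ * ν') (μ' * ν) : ℝ) / (μ * ν * μ' * ν') *
        ∑ m ∈ Finset.Icc ⌈Real.exp A * (Nat.gcd (μ * ν') (μ' * ν)) / (μ * μ')⌉₊
          ⌊Real.exp B * (Nat.gcd (μ * ν') (μ' * ν)) / (μ * μ')⌋₊, 1 / (m : ℝ) := by
  set g := Nat.gcd (μ * ν') (μ' * ν) with hg
  have hgpos : 0 < g := Nat.gcd_pos_of_pos_left _ (by positivity)
  obtain ⟨h, h', hcop, hH, hH'⟩ := Nat.exists_coprime (μ * ν') (μ' * ν)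
  rw [← hg] at hH hH'
  have hh' : 0 < h' := by
    rcases Nat.eq_zero_or_pos h' with h0 | h0
    · rw [h0, zero_mul] at hH'
      have : 0 < μ' * ν := by positivity
      omega
    · exact h0
  have hh : 0 < h := by
    rcases Nat.eq_zero_or_pos h with h0 | h0
    · rw [h0, zero_mul] at hH
      have : 0 < μ * ν' := by positivity
      omega
    · exact h0
  have rμ : (0 : ℝ) < μ := by exact_mod_cast hμ
  have rν : (0 : ℝ) < ν := by exact_mod_cast hν
  have rμ' : (0 : ℝ) < μ' := by exact_mod_cast hμ'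
  have rν' : (0 : ℝ) < ν' := by exact_mod_cast hν'
  have rg : (0 : ℝ) < g := by exact_mod_cast hgpos
  have rh : (0 : ℝ) < h := by exact_mod_cast hh
  have rh' : (0 : ℝ) < h' := by exact_mod_cast hh'
  have rH : (μ : ℝ) * ν' = h * g := by exact_mod_cast hH
  have rH' : (μ' : ℝ) * ν = h' * g := by exact_mod_cast hH'
  -- the value of the ratio
  have hq : ∀ m : ℕ, ((m * h' : ℕ) : ℝ) * μ / ν = m * (μ * μ') / g := by
    intro m
    rw [div_eq_div_iff rν.ne' rg.ne']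
    push_cast
    have : (m : ℝ) * h' * μ * g = m * μ * (h' * g) := by ring
    rw [this, ← rH']
    ring
  have hkey : ∀ m : ℕ, 1 ≤ m → (Real.exp A * g / (μ * μ') ≤ m ↔
      A ≤ Real.log (((m * h' : ℕ) : ℝ) * μ / ν)) := by
    intro m hm
    have rm : (0 : ℝ) < m := by exact_mod_cast hm
    rw [hq, Real.le_log_iff_exp_le (by positivity), div_le_iff₀ (by positivity),
      le_div_iff₀ rg]
  have hkey' : ∀ m : ℕ, 1 ≤ m → ((m : ℝ) ≤ Real.exp B * g / (μ * μ') ↔
      Real.log (((m * h' : ℕ) : ℝ) * μ / ν) ≤ B) := by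
    intro m hm
    have rm : (0 : ℝ) < m := by exact_mod_cast hm
    rw [hq, Real.log_le_iff_le_exp (by positivity), le_div_iff₀ (by positivity),
      div_le_iff₀ rg]
  rw [← Finset.sum_product', ← Finset.sum_filter, Finset.mul_sum]
  refine Finset.sum_nbij' (fun p => p.1 / h') (fun m => (m * h', m * h)) ?_ ?_ ?_ ?_ ?_
  · rintro ⟨n, n'⟩ hp
    obtain ⟨hp1, hp2, hp3, hp4⟩ := Finset.mem_filter.1 hp
    obtain ⟨hn, hn'⟩ := Finset.mem_product.1 hp1
    simp only [Finset.mem_Icc] at hn hn' hp2 hp3 hp4 ⊢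
    have h1 : n * h = n' * h' := by
      rw [hH, hH'] at hp2
      have : (n * h) * g = (n' * h') * g := by rw [mul_assoc, hp2, mul_assoc]
      exact Nat.eq_of_mul_eq_mul_right hgpos this
    obtain ⟨m, rfl⟩ : h' ∣ n := by
      have : h' ∣ n * h := ⟨n', by rw [h1, mul_comm]⟩
      exact hcop.symm.dvd_of_dvd_mul_right this
    rw [Nat.mul_div_cancel_left m hh']
    have hm : 1 ≤ m := by
      rcases Nat.eq_zero_or_pos m with h0 | h0
      · rw [h0, mul_zero] at hn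
        omega
      · exact h0
    rw [mul_comm h' m] at hp3 hp4
    refine ⟨?_, ?_⟩
    · exact Nat.ceil_le.2 ((hkey m hm).2 hp3)
    · exact Nat.le_floor ((hkey' m hm).2 hp4)
  · intro m hm
    rw [Finset.mem_Icc] at hm
    have hm1 : 1 ≤ m := by
      have h1 : 0 < ⌈Real.exp A * g / (μ * μ')⌉₊ := Nat.ceil_pos.2 (by positivity)
      omega
    have h1 : A ≤ Real.log (((m * h' : ℕ) : ℝ) * μ / ν) := (hkey m hm1).1 (Nat.ceil_le.1 hm.1)
    have h2 : Real.log (((m * h' : ℕ) : ℝ) * μ / ν) ≤ B :=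
      (hkey' m hm1).1 ((Nat.le_floor_iff' (by omega)).1 hm.2)
    have rm : (0 : ℝ) < m := by exact_mod_cast hm1
    have h3 : ((m * h' : ℕ) : ℝ) * μ / ν ≤ Real.exp B := by
      have h4 : (0 : ℝ) < ((m * h' : ℕ) : ℝ) * μ / ν := by
        rw [hq]; positivity
      exact (Real.log_le_iff_le_exp h4).1 h2
    have h5 : ((m * h' : ℕ) : ℝ) ≤ N := by
      rw [div_le_iff₀ rν] at h3
      have h6 : (1 : ℝ) ≤ μ := by exact_mod_cast hμ
      have h7 : (0 : ℝ) ≤ ((m * h' : ℕ) : ℝ) := Nat.cast_nonneg _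
      nlinarith
    have h8 : ((m * h : ℕ) : ℝ) ≤ N := by
      have h9 : ((m * h : ℕ) : ℝ) * μ' / ν' ≤ Real.exp B := by
        have h10 : ((m * h : ℕ) : ℝ) * μ' / ν' = ((m * h' : ℕ) : ℝ) * μ / ν := by
          rw [div_eq_div_iff rν'.ne' rν.ne']
          push_cast
          have e1 : (m : ℝ) * h * μ' * ν = m * h * (μ' * ν) := by ring
          have e2 : (m : ℝ) * h' * μ * ν' = m * h' * (μ * ν') := by ring
          rw [e1, e2, rH, rH']
          ring
        rw [h10]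
        exact h3
      rw [div_le_iff₀ rν'] at h9
      have h6 : (1 : ℝ) ≤ μ' := by exact_mod_cast hμ'
      have h7 : (0 : ℝ) ≤ ((m * h : ℕ) : ℝ) := Nat.cast_nonneg _
      nlinarith
    rw [Finset.mem_filter, Finset.mem_product, Finset.mem_Icc, Finset.mem_Icc]
    refine ⟨⟨⟨?_, by exact_mod_cast h5⟩, ⟨?_, by exact_mod_cast h8⟩⟩, ?_, h1, h2⟩
    · exact Nat.one_le_iff_ne_zero.2 (by positivity)
    · exact Nat.one_le_iff_ne_zero.2 (by positivity)
    · show m * h' * (μ * ν') = m * h * (μ' * ν)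
      rw [hH, hH']
      ring
  · rintro ⟨n, n'⟩ hp
    obtain ⟨hp1, hp2, hp3, hp4⟩ := Finset.mem_filter.1 hp
    simp only at hp2 hp3 hp4 ⊢
    have h1 : n * h = n' * h' := by
      rw [hH, hH'] at hp2
      have : (n * h) * g = (n' * h') * g := by rw [mul_assoc, hp2, mul_assoc]
      exact Nat.eq_of_mul_eq_mul_right hgpos this
    obtain ⟨m, rfl⟩ : h' ∣ n := by
      have : h' ∣ n * h := ⟨n', by rw [h1, mul_comm]⟩
      exact hcop.symm.dvd_of_dvd_mul_right this
    rw [Nat.mul_div_cancel_left m hh']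
    have h2 : n' = m * h := by
      have : n' * h' = (m * h) * h' := by rw [← h1]; ring
      exact Nat.eq_of_mul_eq_mul_right hh' this
    rw [h2, mul_comm m h']
  · intro m _
    exact Nat.mul_div_cancel m hh'
  · rintro ⟨n, n'⟩ hp
    obtain ⟨hp1, hp2, hp3, hp4⟩ := Finset.mem_filter.1 hp
    obtain ⟨hn, hn'⟩ := Finset.mem_product.1 hp1
    simp only [Finset.mem_Icc] at hn hn' hp2 hp3 hp4 ⊢
    have h1 : n * h = n' * h' := by
      rw [hH, hH'] at hp2
      have : (n * h) * g = (n' * h') * g := by rw [mul_assoc, hp2, mul_assoc]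
      exact Nat.eq_of_mul_eq_mul_right hgpos this
    obtain ⟨m, rfl⟩ : h' ∣ n := by
      have : h' ∣ n * h := ⟨n', by rw [h1, mul_comm]⟩
      exact hcop.symm.dvd_of_dvd_mul_right this
    rw [Nat.mul_div_cancel_left m hh']
    have hm : 1 ≤ m := by
      rcases Nat.eq_zero_or_pos m with h0 | h0
      · rw [h0, mul_zero] at hn
        omega
      · exact h0
    have rm : (0 : ℝ) < m := by exact_mod_cast hm
    have e1 : Real.sqrt (((h' * m : ℕ) : ℝ) * μ * ν) * Real.sqrt ((n' : ℝ) * μ' * ν') =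
        (h' * m) * (μ * ν') := by
      rw [← Real.sqrt_mul (by positivity)]
      have e2 : (((h' * m : ℕ) : ℝ) * μ * ν) * ((n' : ℝ) * μ' * ν') =
          ((h' * m) * (μ * ν')) ^ 2 := by
        have e3 : ((h' * m : ℕ) : ℝ) * ((μ : ℝ) * ν') = (n' : ℝ) * ((μ' : ℝ) * ν) := by
          exact_mod_cast hp2
        push_cast at e3 ⊢
        calc ((h' : ℝ) * m * μ * ν) * ((n' : ℝ) * μ' * ν')
            = ((h' : ℝ) * m * (μ * ν')) * ((n' : ℝ) * (μ' * ν)) := by ring
          _ = _ := by rw [← e3]; ring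
      rw [e2, Real.sqrt_sq (by positivity)]
    rw [e1]
    have e4 : (μ : ℝ) * ν * μ' * ν' = (h' * g) * (μ * ν') := by rw [← rH']; ring
    rw [e4]
    field_simp

theorem win_abs_sum (Y : ℕ) (f : ℕ → ℝ) (δ : ℝ) (h : ∀ x ∈ Finset.Icc 1 Y, |f x| ≤ δ) :
    |∑ x ∈ Finset.Icc 1 Y, f x| ≤ Y * δ := by
  refine (Finset.abs_sum_le_sum_abs _ _).trans ?_
  refine (Finset.sum_le_card_nsmul _ _ _ h).trans (le_of_eq ?_)
  simp

theorem win_sep (q q' M : ℝ) (hq : 0 < q) (hq' : 0 < q') (h : q ≤ M) (h' : q' ≤ M) :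
    |q - q'| / M ≤ |Real.log q - Real.log q'| := by
  wlog hle : q' ≤ q generalizing q q'
  · rw [abs_sub_comm q, abs_sub_comm (Real.log q)]
    exact this q' q hq' hq h' h (le_of_not_ge hle)
  have hM : 0 < M := hq.trans_le h
  rw [abs_of_nonneg (sub_nonneg.2 hle), abs_of_nonneg (sub_nonneg.2 (Real.log_le_log hq' hle))]
  have h1 := Real.log_le_sub_one_of_pos (show 0 < q' / q by positivity)
  rw [Real.log_div hq'.ne' hq.ne'] at h1
  have h2 : (q - q') / M ≤ (q - q') / q := div_le_div_of_nonneg_left (by linarith) hq h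
  have h3 : (q - q') / q = 1 - q' / q := by field_simp
  linarith

/-- the diagonal sum -/
theorem win_diag (N Y : ℕ) (β : ℕ → ℝ) (A B : ℝ) (hβ : ∀ h, |β h| ≤ 1) (hAB : A ≤ B)
    (hN : Real.exp B * Y ≤ N) :
    ∑ n ∈ Finset.Icc 1 N, ∑ μ ∈ Finset.Icc 1 Y, ∑ ν ∈ Finset.Icc 1 Y,
      ∑ n' ∈ Finset.Icc 1 N, ∑ μ' ∈ Finset.Icc 1 Y, ∑ ν' ∈ Finset.Icc 1 Y,
        (if Real.log (n * μ / ν) = Real.log (n' * μ' / ν') then
          (if A ≤ Real.log (n * μ / ν) ∧ Real.log (n * μ / ν) ≤ B then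
            β μ * β ν / Real.sqrt (n * μ * ν) else 0) *
          (if A ≤ Real.log (n' * μ' / ν') ∧ Real.log (n' * μ' / ν') ≤ B then
            β μ' * β ν' / Real.sqrt (n' * μ' * ν') else 0) else 0) ≤
      (B - A) * |QF Y β| + (Y : ℝ) ^ 4 * Real.exp (-A) := by
  rw [win_comm6 (Finset.Icc 1 N) (Finset.Icc 1 Y) (fun n μ ν n' μ' ν' =>
        (if Real.log (n * μ / ν) = Real.log (n' * μ' / ν') then
          (if A ≤ Real.log (n * μ / ν) ∧ Real.log (n * μ / ν) ≤ B then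
            β μ * β ν / Real.sqrt (n * μ * ν) else 0) *
          (if A ≤ Real.log (n' * μ' / ν') ∧ Real.log (n' * μ' / ν') ≤ B then
            β μ' * β ν' / Real.sqrt (n' * μ' * ν') else 0) else 0))]
  -- compute the inner sums
  have hinner : ∀ μ ∈ Finset.Icc 1 Y, ∀ ν ∈ Finset.Icc 1 Y, ∀ μ' ∈ Finset.Icc 1 Y,
      ∀ ν' ∈ Finset.Icc 1 Y,
      |∑ n ∈ Finset.Icc 1 N, ∑ n' ∈ Finset.Icc 1 N,
        (if Real.log (n * μ / ν) = Real.log (n' * μ' / ν') then
          (if A ≤ Real.log (n * μ / ν) ∧ Real.log (n * μ / ν) ≤ B then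
            β μ * β ν / Real.sqrt (n * μ * ν) else 0) *
          (if A ≤ Real.log (n' * μ' / ν') ∧ Real.log (n' * μ' / ν') ≤ B then
            β μ' * β ν' / Real.sqrt (n' * μ' * ν') else 0) else 0) -
        (B - A) * (β μ * β ν * β μ' * β ν' * (Nat.gcd (μ * ν') (μ' * ν) : ℝ) /
          (μ * ν * μ' * ν'))| ≤ Real.exp (-A) := by
    intro μ hμ ν hν μ' hμ' ν' hν'
    rw [Finset.mem_Icc] at hμ hν hμ' hν'
    have rμ : (0 : ℝ) < μ := by exact_mod_cast hμ.1
    have rν : (0 : ℝ) < ν := by exact_mod_cast hν.1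
    have rμ' : (0 : ℝ) < μ' := by exact_mod_cast hμ'.1
    have rν' : (0 : ℝ) < ν' := by exact_mod_cast hν'.1
    have hgpos : 0 < Nat.gcd (μ * ν') (μ' * ν) :=
      Nat.gcd_pos_of_pos_left _ (Nat.mul_pos hμ.1 hν'.1)
    have rg : (0 : ℝ) < (Nat.gcd (μ * ν') (μ' * ν) : ℝ) := by exact_mod_cast hgpos
    have hR := win_R μ ν μ' ν' N hμ.1 hν.1 hμ'.1 hν'.1 A B
      (le_trans (by gcongr; exact_mod_cast hν.2) hN)
      (le_trans (by gcongr; exact_mod_cast hν'.2) hN)
    have e1 : ∑ n ∈ Finset.Icc 1 N, ∑ n' ∈ Finset.Icc 1 N,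
        (if Real.log (n * μ / ν) = Real.log (n' * μ' / ν') then
          (if A ≤ Real.log (n * μ / ν) ∧ Real.log (n * μ / ν) ≤ B then
            β μ * β ν / Real.sqrt (n * μ * ν) else 0) *
          (if A ≤ Real.log (n' * μ' / ν') ∧ Real.log (n' * μ' / ν') ≤ B then
            β μ' * β ν' / Real.sqrt (n' * μ' * ν') else 0) else 0) =
        (β μ * β ν * β μ' * β ν') * ∑ n ∈ Finset.Icc 1 N, ∑ n' ∈ Finset.Icc 1 N,
          (if n * (μ * ν') = n' * (μ' * ν) ∧ A ≤ Real.log (n * μ / ν) ∧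
            Real.log (n * μ / ν) ≤ B then
            1 / (Real.sqrt (n * μ * ν) * Real.sqrt (n' * μ' * ν')) else 0) := by
      rw [Finset.mul_sum]
      refine Finset.sum_congr rfl fun n hn => ?_
      rw [Finset.mul_sum]
      refine Finset.sum_congr rfl fun n' hn' => ?_
      rw [Finset.mem_Icc] at hn hn'
      have rn : (0 : ℝ) < n := by exact_mod_cast hn.1
      have rn' : (0 : ℝ) < n' := by exact_mod_cast hn'.1
      have hiff : Real.log (n * μ / ν) = Real.log (n' * μ' / ν') ↔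
          n * (μ * ν') = n' * (μ' * ν) := by
        constructor
        · intro h
          have h2 := Real.log_injOn_pos (show (0 : ℝ) < n * μ / ν by positivity)
            (show (0 : ℝ) < n' * μ' / ν' by positivity) h
          rw [div_eq_div_iff rν.ne' rν'.ne'] at h2
          have h3 : (n : ℝ) * (μ * ν') = n' * (μ' * ν) := by linarith
          exact_mod_cast h3
        · intro h
          have h3 : (n : ℝ) * (μ * ν') = n' * (μ' * ν) := by exact_mod_cast h
          congr 1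
          rw [div_eq_div_iff rν.ne' rν'.ne']
          linarith
      by_cases hl : Real.log (n * μ / ν) = Real.log (n' * μ' / ν')
      · rw [if_pos hl, ← hl]
        by_cases hw : A ≤ Real.log (n * μ / ν) ∧ Real.log (n * μ / ν) ≤ B
        · rw [if_pos hw, if_pos hw, if_pos ⟨hiff.1 hl, hw⟩]
          field_simp
        · rw [if_neg hw, if_neg hw, if_neg (fun h => hw h.2)]
          simp
      · rw [if_neg hl, if_neg (fun h => hl (hiff.2 h.1))]
        simp
    rw [e1, hR]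
    set g : ℝ := (Nat.gcd (μ * ν') (μ' * ν) : ℝ) with hg
    have hxx : Real.exp A * g / (μ * μ') ≤ Real.exp B * g / (μ * μ') := by
      gcongr
    have hH := win_harm (Real.exp A * g / (μ * μ')) (Real.exp B * g / (μ * μ')) (by positivity) hxx
    have hlog : Real.log (Real.exp B * g / (μ * μ') / (Real.exp A * g / (μ * μ'))) = B - A := by
      have : Real.exp B * g / (μ * μ') / (Real.exp A * g / (μ * μ')) = Real.exp (B - A) := by
        rw [Real.exp_sub]
        field_simp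
      rw [this, Real.log_exp]
    rw [hlog] at hH
    set Sm : ℝ := ∑ m ∈ Finset.Icc ⌈Real.exp A * g / (μ * μ')⌉₊ ⌊Real.exp B * g / (μ * μ')⌋₊,
      1 / (m : ℝ) with hSm
    have e2 : β μ * β ν * β μ' * β ν' * (g / (μ * ν * μ' * ν') * Sm) -
        (B - A) * (β μ * β ν * β μ' * β ν' * g / (μ * ν * μ' * ν')) =
        (β μ * β ν * β μ' * β ν') * (g / (μ * ν * μ' * ν') * (Sm - (B - A))) := by
      ring
    rw [e2, abs_mul (β μ * β ν * β μ' * β ν'), abs_mul (g / (μ * ν * μ' * ν'))]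
    have e3 : |β μ * β ν * β μ' * β ν'| ≤ 1 := by
      rw [abs_mul, abs_mul, abs_mul]
      have b1 := hβ μ
      have b2 := hβ ν
      have b3 := hβ μ'
      have b4 := hβ ν'
      calc |β μ| * |β ν| * |β μ'| * |β ν'| ≤ 1 * 1 * 1 * 1 := by gcongr
        _ = 1 := by norm_num
    have e4 : |g / (μ * ν * μ' * ν')| * |Sm - (B - A)| ≤ Real.exp (-A) := by
      rw [abs_of_pos (by positivity : 0 < g / (μ * ν * μ' * ν'))]
      calc g / (μ * ν * μ' * ν') * |Sm - (B - A)|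
          ≤ g / (μ * ν * μ' * ν') * (1 / (Real.exp A * g / (μ * μ'))) := by gcongr
        _ = Real.exp (-A) / (ν * ν') := by
            rw [Real.exp_neg]
            field_simp
        _ ≤ Real.exp (-A) / 1 := by
            have h1 : (1 : ℝ) ≤ ν := by exact_mod_cast hν.1
            have h2 : (1 : ℝ) ≤ ν' := by exact_mod_cast hν'.1
            gcongr
            nlinarith
        _ = Real.exp (-A) := div_one _
    calc |β μ * β ν * β μ' * β ν'| * (|g / (μ * ν * μ' * ν')| * |Sm - (B - A)|)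
        ≤ 1 * Real.exp (-A) := by gcongr
      _ = _ := one_mul _
  have hmain : |∑ μ ∈ Finset.Icc 1 Y, ∑ ν ∈ Finset.Icc 1 Y, ∑ μ' ∈ Finset.Icc 1 Y,
      ∑ ν' ∈ Finset.Icc 1 Y, (∑ n ∈ Finset.Icc 1 N, ∑ n' ∈ Finset.Icc 1 N,
        (if Real.log (n * μ / ν) = Real.log (n' * μ' / ν') then
          (if A ≤ Real.log (n * μ / ν) ∧ Real.log (n * μ / ν) ≤ B then
            β μ * β ν / Real.sqrt (n * μ * ν) else 0) *
          (if A ≤ Real.log (n' * μ' / ν') ∧ Real.log (n' * μ' / ν') ≤ B then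
            β μ' * β ν' / Real.sqrt (n' * μ' * ν') else 0) else 0) -
        (B - A) * (β μ * β ν * β μ' * β ν' * (Nat.gcd (μ * ν') (μ' * ν) : ℝ) /
          (μ * ν * μ' * ν')))| ≤ Y * (Y * (Y * (Y * Real.exp (-A)))) :=
    win_abs_sum Y _ _ fun μ hμ => win_abs_sum Y _ _ fun ν hν => win_abs_sum Y _ _ fun μ' hμ' =>
      win_abs_sum Y _ _ fun ν' hν' => hinner μ hμ ν hν μ' hμ' ν' hν'
  simp only [Finset.sum_sub_distrib, ← Finset.mul_sum] at hmain
  have h1 := (abs_le.1 hmain).2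
  have h2 : (B - A) * QF Y β ≤ (B - A) * |QF Y β| := by
    have := le_abs_self (QF Y β)
    have h3 : 0 ≤ B - A := by linarith
    gcongr
  rw [QF] at h2
  have h4 : (Y : ℝ) * (Y * (Y * (Y * Real.exp (-A)))) = (Y : ℝ) ^ 4 * Real.exp (-A) := by ring
  rw [h4] at h1
  rw [QF]
  linarith

theorem win (φ : ℝ → ℝ) (C c0 : ℝ) (hc0 : 0 < c0) (hc : Continuous φ) (h0 : ∀ v : ℝ, 0 ≤ φ v)
    (hd : ∀ v : ℝ, |φ v| ≤ C / (1 + v ^ 2) ^ 2) (h1 : ∀ v : ℝ, |v| ≤ 1 → c0 ≤ φ v)
    (hz : ∀ ξ : ℝ, 1 ≤ |ξ| → ∫ v : ℝ, ((φ v : ℝ) : ℂ) * cexp (I * ξ * v) = 0) :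
    ∃ C1 : ℝ, 0 < C1 ∧ ∀ C' K : ℝ, 0 ≤ C' → 8 ≤ K → ∃ T0 : ℝ, 2 ≤ T0 ∧ ∀ (T : ℝ) (N Y : ℕ) (β : ℕ → ℝ),
      T0 ≤ T → 4 * T ≤ N → (Y : ℝ) ≤ T ^ (1 / 500 : ℝ) → (∀ h, |β h| ≤ 1) → ∀ a : ℝ,
      ∫ t in a..(a + T), ‖DW T K C' N Y β t‖ ^ 2 ≤
        C1 * T * (Real.log T / K * |QF Y β| + T ^ (-(1 / 8) : ℝ)) := by
  have hΦ : 0 ≤ ∫ v, φ v := integral_nonneg h0
  refine ⟨(1 / c0) * (3 / 2) * (∫ v, φ v) + 1, by positivity, ?_⟩
  intro C' K hC' hK
  have hK0 : 0 < K := by linarith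
  refine ⟨Real.exp (1 + 5 * (Real.log 2 + C') + 2 * K * C'), ?_, ?_⟩
  · have h2 : Real.exp 1 ≤ Real.exp (1 + 5 * (Real.log 2 + C') + 2 * K * C') := by
      have h3 : 0 ≤ Real.log 2 := Real.log_nonneg (by norm_num)
      apply Real.exp_le_exp.2
      have : 0 ≤ K * C' := by positivity
      linarith
    have := Real.exp_one_gt_d9
    linarith
  intro T N Y β hT hTN hY hβ a
  have hT0 : 0 < T := (Real.exp_pos _).trans_le hT
  set L := Real.log T with hL
  have hLT : Real.exp L = T := Real.exp_log hT0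
  have hL1 : 1 + 5 * (Real.log 2 + C') + 2 * K * C' ≤ L := (Real.le_log_iff_exp_le hT0).2 hT
  have hl2 : 0 ≤ Real.log 2 := Real.log_nonneg (by norm_num)
  have hKC : 0 ≤ K * C' := by positivity
  have hL0 : 1 ≤ L := by linarith
  have hLC : C' ≤ L / 5 - Real.log 2 := by linarith
  have hLK : C' ≤ L / (2 * K) := by
    rw [le_div_iff₀ (by positivity)]
    linarith
  have hLK8 : L / K ≤ L / 8 := div_le_div_of_nonneg_left (by linarith) (by norm_num) hK
  have hLK0 : 0 ≤ L / K := by positivity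
  have hYL : (Y : ℝ) ≤ Real.exp (L / 500) := by
    rw [Real.rpow_def_of_pos hT0] at hY
    refine hY.trans (le_of_eq ?_)
    rw [← hL]
    congr 1
    ring
  set A := L / 2 - (L / K + C') with hA
  set B := L / 2 + (L / K + C') with hB
  have hAB : A ≤ B := by rw [hA, hB]; linarith
  have hBle : B ≤ (33 / 40) * L - Real.log 2 := by rw [hB]; linarith
  have hexp2 : Real.exp (-Real.log 2) = 1 / 2 := by
    rw [Real.exp_neg, Real.exp_log (by norm_num)]; norm_num
  have hNB : Real.exp B * Y ≤ N := by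
    have h2 : Real.exp B * Y ≤ Real.exp B * Real.exp (L / 500) := by gcongr
    have h3 : Real.exp B * Real.exp (L / 500) ≤ Real.exp L := by
      rw [← Real.exp_add]
      apply Real.exp_le_exp.2
      linarith
    rw [hLT] at h3
    linarith
  -- the sum over triples
  let s : Finset (ℕ × ℕ × ℕ) := Finset.Icc 1 N ×ˢ (Finset.Icc 1 Y ×ˢ Finset.Icc 1 Y)
  let lam : ℕ × ℕ × ℕ → ℝ := fun i => Real.log (i.1 * i.2.1 / i.2.2)
  let c : ℕ × ℕ × ℕ → ℝ := fun i =>
    if A ≤ Real.log (i.1 * i.2.1 / i.2.2) ∧ Real.log (i.1 * i.2.1 / i.2.2) ≤ B then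
      β i.2.1 * β i.2.2 / Real.sqrt (i.1 * i.2.1 * i.2.2) else 0
  have hwin : ∀ x : ℝ, |x - L / 2| ≤ L / K + C' ↔ A ≤ x ∧ x ≤ B := by
    intro x
    rw [abs_le, hA, hB]
    constructor
    · rintro ⟨h2, h3⟩
      exact ⟨by linarith, by linarith⟩
    · rintro ⟨h2, h3⟩
      exact ⟨by linarith, by linarith⟩
  have hDW : ∀ t : ℝ, DW T K C' N Y β t = ∑ i ∈ s, (c i : ℂ) * cexp (-(I * lam i * t)) := by
    intro t
    rw [DW, Finset.sum_product]
    refine Finset.sum_congr rfl fun n _ => ?_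
    rw [Finset.sum_product]
    refine Finset.sum_congr rfl fun μ _ => Finset.sum_congr rfl fun ν _ => ?_
    simp only [c, lam]
    by_cases hw : |Real.log (n * μ / ν) - L / 2| ≤ L / K + C'
    · rw [if_pos hw, if_pos ((hwin _).1 hw)]
    · rw [if_neg hw, if_neg (fun h => hw ((hwin _).2 h))]
      simp
  simp_rw [hDW]
  have hsep : ∀ i ∈ s, ∀ j ∈ s, c i ≠ 0 → c j ≠ 0 → lam i ≠ lam j →
      1 ≤ |T / 2 * (lam j - lam i)| := by
    rintro ⟨n, μ, ν⟩ hi ⟨n', μ', ν'⟩ hj hci hcj hl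
    simp only [s, Finset.mem_product, Finset.mem_Icc] at hi hj
    simp only [c, lam] at hci hcj hl ⊢
    have hwi : A ≤ Real.log (n * μ / ν) ∧ Real.log (n * μ / ν) ≤ B := by
      by_contra h
      exact hci (if_neg h)
    have hwj : A ≤ Real.log (n' * μ' / ν') ∧ Real.log (n' * μ' / ν') ≤ B := by
      by_contra h
      exact hcj (if_neg h)
    have rn : (0 : ℝ) < n := by exact_mod_cast hi.1.1
    have rμ : (0 : ℝ) < μ := by exact_mod_cast hi.2.1.1
    have rν : (0 : ℝ) < ν := by exact_mod_cast hi.2.2.1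
    have rn' : (0 : ℝ) < n' := by exact_mod_cast hj.1.1
    have rμ' : (0 : ℝ) < μ' := by exact_mod_cast hj.2.1.1
    have rν' : (0 : ℝ) < ν' := by exact_mod_cast hj.2.2.1
    have hq0 : (0 : ℝ) < n * μ / ν := by positivity
    have hq0' : (0 : ℝ) < n' * μ' / ν' := by positivity
    have hqM : (n : ℝ) * μ / ν ≤ Real.exp B := (Real.log_le_iff_le_exp hq0).1 hwi.2
    have hqM' : (n' : ℝ) * μ' / ν' ≤ Real.exp B := (Real.log_le_iff_le_exp hq0').1 hwj.2
    have h2 := win_sep _ _ _ hq0 hq0' hqM hqM'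
    have h3 : (1 : ℝ) / (ν * ν') ≤ |(n : ℝ) * μ / ν - n' * μ' / ν'| := by
      have e1 : (n : ℝ) * μ / ν - n' * μ' / ν' = ((n * μ * ν' - n' * μ' * ν : ℤ) : ℝ) / (ν * ν') := by
        push_cast
        field_simp
      rw [e1, abs_div, abs_of_pos (by positivity : (0 : ℝ) < ν * ν')]
      gcongr
      have h4 : (n * μ * ν' - n' * μ' * ν : ℤ) ≠ 0 := by
        intro h5
        apply hl
        have h6 : (n : ℝ) * μ / ν - n' * μ' / ν' = 0 := by rw [e1, h5]; simp
        rw [sub_eq_zero.1 h6]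
      have h7 := Int.one_le_abs h4
      exact_mod_cast h7
    have hνY : (ν : ℝ) ≤ Real.exp (L / 500) := le_trans (by exact_mod_cast hi.2.2.2) hYL
    have hνY' : (ν' : ℝ) ≤ Real.exp (L / 500) := le_trans (by exact_mod_cast hj.2.2.2) hYL
    have h5 : Real.exp (-(L / 250)) ≤ 1 / (ν * ν') := by
      rw [Real.exp_neg, ← one_div]
      apply one_div_le_one_div_of_le (by positivity)
      calc (ν : ℝ) * ν' ≤ Real.exp (L / 500) * Real.exp (L / 500) := by gcongr
        _ = Real.exp (L / 250) := by rw [← Real.exp_add]; congr 1; ring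
    have h6 : Real.exp (-(L / 250)) / Real.exp B ≤ |lam (n, μ, ν) - lam (n', μ', ν')| := by
      refine le_trans ?_ h2
      have := h5.trans h3
      gcongr
    rw [abs_mul, abs_sub_comm, abs_of_pos (by positivity : 0 < T / 2)]
    have h7 : 1 ≤ T / 2 * (Real.exp (-(L / 250)) / Real.exp B) := by
      rw [← hLT, ← Real.exp_sub]
      have e2 : Real.exp L / 2 * Real.exp (-(L / 250) - B) =
          Real.exp (L + -Real.log 2 + (-(L / 250) - B)) := by
        rw [Real.exp_add, Real.exp_add, hexp2]; ring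
      rw [e2]
      apply Real.one_le_exp
      linarith
    refine h7.trans ?_
    gcongr
  refine (win_ls s c lam φ C c0 hc0 hc h0 hd h1 hz T a hT0 hsep).trans ?_
  have hS : ∑ i ∈ s, ∑ j ∈ s, (if lam i = lam j then c i * c j else 0) ≤
      (B - A) * |QF Y β| + (Y : ℝ) ^ 4 * Real.exp (-A) := by
    have h2 := win_diag N Y β A B hβ hAB hNB
    refine le_trans (le_of_eq ?_) h2
    rw [Finset.sum_product]
    refine Finset.sum_congr rfl fun n _ => ?_
    rw [Finset.sum_product]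
    refine Finset.sum_congr rfl fun μ _ => Finset.sum_congr rfl fun ν _ => ?_
    rw [Finset.sum_product]
    refine Finset.sum_congr rfl fun n' _ => ?_
    rw [Finset.sum_product]
  have hBA : B - A ≤ 3 * (L / K) := by
    have e1 : B - A = 2 * (L / K) + 2 * C' := by rw [hA, hB]; ring
    have e2 : 2 * (L / (2 * K)) = L / K := by field_simp
    rw [e1]
    linarith
  have hY4 : (Y : ℝ) ^ 4 * Real.exp (-A) ≤ T ^ (-(1 / 8) : ℝ) := by
    have h2 : (Y : ℝ) ^ 4 ≤ Real.exp (L / 125) := by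
      calc (Y : ℝ) ^ 4 ≤ Real.exp (L / 500) ^ 4 := by gcongr
        _ = Real.exp (L / 125) := by rw [← Real.exp_nat_mul]; congr 1; push_cast; ring
    rw [Real.rpow_def_of_pos hT0, ← hL]
    calc (Y : ℝ) ^ 4 * Real.exp (-A) ≤ Real.exp (L / 125) * Real.exp (-A) := by gcongr
      _ = Real.exp (L / 125 + -A) := (Real.exp_add _ _).symm
      _ ≤ Real.exp (L * -(1 / 8)) := by
          apply Real.exp_le_exp.2
          rw [hA]
          linarith
  have hT8 : 0 ≤ T ^ (-(1 / 8) : ℝ) := by positivity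
  have hQ0 : 0 ≤ |QF Y β| := abs_nonneg _
  have hS' : ∑ i ∈ s, ∑ j ∈ s, (if lam i = lam j then c i * c j else 0) ≤
      3 * (L / K * |QF Y β| + T ^ (-(1 / 8) : ℝ)) := by
    refine hS.trans ?_
    have h2 : (B - A) * |QF Y β| ≤ 3 * (L / K) * |QF Y β| := by gcongr
    nlinarith
  have hX0 : 0 ≤ L / K * |QF Y β| + T ^ (-(1 / 8) : ℝ) := by positivity
  calc (1 / c0) * (T / 2) * (∫ v, φ v) *
        ∑ i ∈ s, ∑ j ∈ s, (if lam i = lam j then c i * c j else 0)
      ≤ (1 / c0) * (T / 2) * (∫ v, φ v) * (3 * (L / K * |QF Y β| + T ^ (-(1 / 8) : ℝ))) := by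
        gcongr
    _ = ((1 / c0) * (3 / 2) * (∫ v, φ v)) * T * (L / K * |QF Y β| + T ^ (-(1 / 8) : ℝ)) := by
        ring
    _ ≤ ((1 / c0) * (3 / 2) * (∫ v, φ v) + 1) * T * (L / K * |QF Y β| + T ^ (-(1 / 8) : ℝ)) := by
        gcongr
        linarith

end Pool.Agent.Helper647.PT
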