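import Pool.Agent.Helper647_PT.Sz
import Pool.Agent.Helper647_PT.CmpA
import Pool.Agent.Helper647_PT.Win
import Pool.Agent.Helper647_PT.Ar4

set_option autoImplicit false

/-! The first sum: the mean square of the alternating sums. -/

namespace Pool.Agent.Helper647.PT

open Complex Filter Topology MeasureTheory Set
open Pool.Agent.R304.GR (vt psi exp_vt)
open Pool.Agent.Helper647.GL (gp)

lemma expo_shift {δ a p : ℝ} (hp : p * δ = Real.pi) (j : ℤ) :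
    cexp (-(I * p * a)) * cexp (I * p * (a + δ * j)) = (-1) ^ j := by
  rw [← Complex.exp_add]
  have e : -(I * (p : ℂ) * a) + I * p * (a + δ * j) = j * (Real.pi * I) := by
    have : ((p * δ : ℝ) : ℂ) = Real.pi := by rw [hp]
    push_cast at this
    calc -(I * (p : ℂ) * a) + I * p * (a + δ * j) = j * ((p * δ) * I) := by ring
      _ = _ := by rw [this]
  rw [e, Complex.exp_int_mul, Complex.exp_pi_mul_I]

lemma norm_s (j : ℤ) : ‖((-1 : ℂ)) ^ j‖ ≤ 1 := by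
  rw [norm_zpow, norm_neg, norm_one, one_zpow]

/-- the alternating sum over the progression -/
lemma alt_sum {E : ℝ → ℝ} {C c0 : ℝ} (hE : KE E C c0) {T K C' u : ℝ} (hK : 8 ≤ K) (hC' : 0 ≤ C')
    (hT : 1 < T) (hL : 10 * C' + 1 ≤ Real.log T)
    (hF : TP (-(101 / 100 * Real.log T)) (1 / 100 * Real.log T) (T ^ (51 / 100 : ℝ) / (2 * Real.log T)) (F1 T))
    (hψ1 : |psi u - Real.log T / 2| ≤ C') (hψ2 : psi u ≤ Real.log T) :
    ‖∑' j : ℤ, ((-1 : ℂ)) ^ j * F1 T (ba u + dl u * j) *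
        ((E ((ba u + dl u * j - u) / (K / Real.log T)) ^ 2 : ℝ) : ℂ)‖ ≤
      K * ∫ v : ℝ, ‖DW T K C' (Nn T) (Yn T) (bR (Real.log T)) (u + K / Real.log T * v)‖ * E v ^ 2 := by
  set L := Real.log T with hLd
  have hL0 : 0 < L := by linarith
  have hψ3 : 2 / 5 * L ≤ psi u := by
    have := (abs_le.1 hψ1).1
    linarith
  have hψ0 : 0 < psi u := by linarith
  have hpi := Real.pi_gt_three
  have hδ : 0 < dl u := by unfold dl; positivity
  have hh : 0 < K / L := by positivity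
  have hpd : psi u * dl u = Real.pi := by unfold dl; field_simp
  set a := ba u with ha
  -- the twisted function
  have hG := hF.mul (TP.expo (psi u) (cexp (-(I * (psi u : ℂ) * a))))
  have hn1 : ‖cexp (-(I * (psi u : ℂ) * a))‖ = 1 := by
    have := norm_cexp_I (-(psi u * a))
    rw [← this]
    congr 2
    push_cast; ring
  have hS : ∀ l : ℤ, l ∉ ({0} : Finset ℤ) → ∀ ω : ℝ, -(101 / 100 * L) + psi u ≤ ω →
      ω ≤ 1 / 100 * L + psi u → 1 / (K / L) ≤ |ω - 2 * Real.pi * l / dl u| := by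
    intro l hl ω h1 h2
    rw [Finset.mem_singleton] at hl
    have e1 : 2 * Real.pi * l / dl u = 2 * psi u * l := by
      rw [← hpd]; field_simp
    rw [e1]
    have h3 : 1 / (K / L) ≤ L / 8 := by
      rw [one_div_div]
      exact div_le_div_of_nonneg_left hL0.le (by norm_num) hK
    refine h3.trans ?_
    rcases lt_or_gt_of_ne hl with h | h
    · have h4 : (l : ℝ) ≤ -1 := by exact_mod_cast (by omega : l ≤ -1)
      refine le_trans ?_ (le_abs_self _)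
      nlinarith
    · have h4 : (1 : ℝ) ≤ l := by exact_mod_cast (by omega : 1 ≤ l)
      refine le_trans ?_ (neg_le_abs _)
      nlinarith
  have hP := hG.poisson hE a u hh hδ {0} hS
  have e2 : ∀ j : ℤ, F1 T ((a + dl u * j : ℝ)) *
      (cexp (-(I * (psi u : ℂ) * a)) * cexp (I * (psi u : ℂ) * ((a + dl u * j : ℝ) : ℂ))) =
      ((-1 : ℂ)) ^ j * F1 T (a + dl u * j) := by
    intro j
    push_cast
    rw [expo_shift hpd j]
    ring
  simp only [e2] at hP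
  rw [hP, Finset.sum_singleton]
  -- the integral
  have e3 : ∫ t : ℝ, F1 T t * (cexp (-(I * (psi u : ℂ) * a)) * cexp (I * (psi u : ℂ) * t)) *
      cexp (-(I * (2 * Real.pi * ((0 : ℤ) : ℂ) / dl u) * (t - a))) * ((E ((t - u) / (K / L)) ^ 2 : ℝ) : ℂ) =
      cexp (I * ((psi u * (u - a) : ℝ) : ℂ)) * ∫ t : ℝ, cexp (I * (psi u : ℝ) * (t - u)) *
        (Pz (Nn T) t * ((‖Bz (Yn T) (bR L) t‖ ^ 2 : ℝ) : ℂ)) * ((E ((t - u) / (K / L)) ^ 2 : ℝ) : ℂ) := by
    rw [← integral_const_mul]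
    refine integral_congr_ae (ae_of_all _ fun t => ?_)
    simp only
    have e4 : cexp (-(I * (2 * Real.pi * ((0 : ℤ) : ℂ) / dl u) * (t - a))) = 1 := by
      rw [Int.cast_zero, mul_zero, zero_div, mul_zero, zero_mul, neg_zero, Complex.exp_zero]
    have e5 : cexp (-(I * (psi u : ℂ) * a)) * cexp (I * (psi u : ℂ) * t) =
        cexp (I * ((psi u * (u - a) : ℝ) : ℂ)) * cexp (I * (psi u : ℝ) * (t - u)) := by
      rw [← Complex.exp_add, ← Complex.exp_add]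
      congr 1
      push_cast; ring
    rw [e4, e5]
    unfold F1
    rw [← hLd]
    ring
  rw [e3, norm_mul, norm_mul, norm_cexp_I, one_mul]
  have h5 := onlyW (fun v => E v ^ 2) (C ^ 2) (hE.cont.pow 2) (fun v => sq_nonneg _)
    (fun v => hE.sq_pow (by norm_num) v) hE.ft T K C' (psi u) u (Nn T) (Yn T) (bR L) hT
    (by linarith) hψ1
  have h6 : ‖(1 : ℂ) / (dl u : ℂ)‖ = psi u / Real.pi := by
    rw [norm_div, norm_one, Complex.norm_real, Real.norm_eq_abs, abs_of_pos hδ]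
    unfold dl
    rw [one_div_div]
  rw [h6]
  set R := ∫ v : ℝ, ‖DW T K C' (Nn T) (Yn T) (bR L) (u + K / L * v)‖ * E v ^ 2 with hR
  have hR0 : 0 ≤ R := integral_nonneg fun v => by positivity
  calc psi u / Real.pi * _ ≤ psi u / Real.pi * (K / L * R) :=
        mul_le_mul_of_nonneg_left h5 (by positivity)
    _ = (psi u / L) * (1 / Real.pi) * (K * R) := by ring
    _ ≤ 1 * 1 * (K * R) := by
        refine mul_le_mul_of_nonneg_right ?_ (by positivity)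
        refine mul_le_mul ?_ ?_ (by positivity) (by norm_num)
        · rw [div_le_one hL0]; exact hψ2
        · rw [div_le_one Real.pi_pos]; linarith
    _ = _ := by ring

/-- the pointwise bound -/
theorem E1pt {E : ℝ → ℝ} {C c0 : ℝ} (hE : KE E C c0) : ∃ C' : ℝ, 0 ≤ C' ∧ ∀ K : ℝ, 8 ≤ K →
    ∃ T0 : ℝ, 8 ≤ T0 ∧ ∀ T : ℝ, T0 ≤ T → ∀ u : ℝ, T ≤ u → u ≤ 2 * T →
    |∑ j ∈ JT T, XX T j * E ((gp j - u) / (K / Real.log T)) ^ 2| ≤
      K * (∫ v : ℝ, ‖DW T K C' (Nn T) (Yn T) (bR (Real.log T)) (u + K / Real.log T * v)‖ * E v ^ 2) +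
        T ^ (-(1 / 4) : ℝ) := by
  obtain ⟨C1, T1, hC1, hT1, hps⟩ := psi_size
  obtain ⟨T2, hT2, hgf⟩ := gram_facts
  obtain ⟨T3, hT3, hsz⟩ := sizes
  obtain ⟨T4, hT4, hcmp⟩ := cmpA E C hE.cont hE.lip hE.dec
  refine ⟨C1, hC1.le, fun K hK => ?_⟩
  have hev : ∀ᶠ T : ℝ in atTop, 10 * C1 + 1 ≤ Real.log T ∧ K ≤ Real.log T ∧
      200 * C ^ 2 * K + 1 ≤ T ^ (4 / 100 : ℝ) := by
    have a1 : ∀ᶠ T : ℝ in atTop, 10 * C1 + 1 ≤ Real.log T :=
      Real.tendsto_log_atTop.eventually_ge_atTop _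
    have a2 : ∀ᶠ T : ℝ in atTop, K ≤ Real.log T := Real.tendsto_log_atTop.eventually_ge_atTop _
    have a3 : ∀ᶠ T : ℝ in atTop, 200 * C ^ 2 * K + 1 ≤ T ^ (4 / 100 : ℝ) :=
      (tendsto_rpow_atTop (by norm_num)).eventually_ge_atTop _
    filter_upwards [a1, a2, a3] with T b1 b2 b3
    exact ⟨b1, b2, b3⟩
  obtain ⟨T5, hT5⟩ := hev.exists_forall_of_atTop
  refine ⟨max (max (max T1 T2) (max T3 T4)) T5,
    hT1.trans ((le_max_left _ _).trans ((le_max_left _ _).trans (le_max_left _ _))), fun T hT u hu1 hu2 => ?_⟩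
  have hTT : max (max T1 T2) (max T3 T4) ≤ T := (le_max_left _ _).trans hT
  have hTT1 : T1 ≤ T := ((le_max_left _ _).trans (le_max_left _ _)).trans hTT
  have hTT2 : T2 ≤ T := ((le_max_right _ _).trans (le_max_left _ _)).trans hTT
  have hTT3 : T3 ≤ T := ((le_max_left _ _).trans (le_max_right _ _)).trans hTT
  have hTT4 : T4 ≤ T := ((le_max_right _ _).trans (le_max_right _ _)).trans hTT
  have hTT5 : T5 ≤ T := (le_max_right _ _).trans hT
  have hT8 : 8 ≤ T := hT1.trans hTT1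
  have hT0 : 0 < T := by linarith
  obtain ⟨g1, g2, g3⟩ := hT5 T hTT5
  obtain ⟨p1, p2, p3, p4⟩ := hps T u hTT1 (by linarith) (by linarith)
  obtain ⟨f1, f2, f3, f4, f5⟩ := hgf T hTT2
  obtain ⟨s1, s2, s3, s4, s5, s6⟩ := hsz T hTT3
  set L := Real.log T with hLd
  have hL0 : 0 < L := by linarith
  have hpi := Real.pi_gt_three
  have hpi4 := Real.pi_lt_four
  have hψ0 : 0 < psi u := by linarith
  -- step two
  have hM0 : 0 ≤ T ^ (51 / 100 : ℝ) := Real.rpow_nonneg hT0.le _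
  have hN : ∀ t, ‖F1 T t‖ ≤ T ^ (51 / 100 : ℝ) := by
    intro t
    refine (s1.norm_le t).trans ?_
    exact div_le_self hM0 (by linarith)
  have hLip : ∀ t t', ‖F1 T t - F1 T t'‖ ≤ T ^ (51 / 100 : ℝ) * |t - t'| := by
    intro t t'
    refine (s1.lip (R := 2 * L) (by linarith) (by linarith) (by linarith) t t').trans (le_of_eq ?_)
    field_simp
  have h2 := hcmp T (K / L) (dl u) (ba u) u (T ^ (51 / 100 : ℝ)) (JT T) gp (fun j => ((-1 : ℂ)) ^ j)
    (F1 T) hTT4 (div_le_div_of_nonneg_right (by linarith) hL0.le) (by rw [div_le_one hL0]; exact g2)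
    (by unfold dl; rw [div_le_div_iff₀ hL0 hψ0]; nlinarith) (by unfold dl; rw [div_le_one hψ0]; linarith)
    hM0 hN hLip norm_s JT_card (f4 u (by linarith) (by linarith)) (f5 u hu1 hu2)
  have h3 := alt_sum hE (u := u) hK hC1.le (by linarith) g1 s1 p1 p3
  -- step one
  have h1 : ‖((∑ j ∈ JT T, XX T j * E ((gp j - u) / (K / L)) ^ 2 : ℝ) : ℂ) -
      ∑ j ∈ JT T, ((-1 : ℂ)) ^ (j : ℤ) * F1 T (gp j) * ((E ((gp j - u) / (K / L)) ^ 2 : ℝ) : ℂ)‖ ≤
      50 / Real.sqrt T * T ^ (1 / 100 : ℝ) * (4 * C ^ 2 * K) := by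
    rw [Complex.ofReal_sum, ← Finset.sum_sub_distrib]
    refine (norm_sum_le _ _).trans ?_
    have hb : ∀ j ∈ JT T, ‖((XX T j * E ((gp j - u) / (K / L)) ^ 2 : ℝ) : ℂ) -
        ((-1 : ℂ)) ^ (j : ℤ) * F1 T (gp j) * ((E ((gp j - u) / (K / L)) ^ 2 : ℝ) : ℂ)‖ ≤
        50 / Real.sqrt T * T ^ (1 / 100 : ℝ) * E ((gp j - u) / (K / L)) ^ 2 := by
      intro j hj
      have hj' := hj
      unfold JT at hj'
      rw [Finset.mem_filter] at hj'
      have e : ((XX T j * E ((gp j - u) / (K / L)) ^ 2 : ℝ) : ℂ) -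
          ((-1 : ℂ)) ^ (j : ℤ) * F1 T (gp j) * ((E ((gp j - u) / (K / L)) ^ 2 : ℝ) : ℂ) =
          ((-1 : ℂ)) ^ j * ((riemannZeta (1 / 2 + I * gp j) - Pz (Nn T) (gp j)) *
            ((‖Bz (Yn T) (bR L) (gp j)‖ ^ 2 : ℝ) : ℂ) * ((E ((gp j - u) / (K / L)) ^ 2 : ℝ) : ℂ)) := by
        rw [Complex.ofReal_mul, XX_eq (f1 j hj), zpow_natCast]
        unfold F1
        rw [← hLd]
        ring
      rw [e, norm_mul, norm_pow, norm_neg, norm_one, one_pow, one_mul, norm_mul, norm_mul, Complex.norm_real,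
        Complex.norm_real, Real.norm_eq_abs, Real.norm_eq_abs, abs_of_nonneg (sq_nonneg _),
        abs_of_nonneg (sq_nonneg _)]
      refine mul_le_mul_of_nonneg_right ?_ (sq_nonneg _)
      exact mul_le_mul (zp hT8 (by linarith [hj'.2.1]) (by linarith [hj'.2.2])) (s3 _) (sq_nonneg _)
        (by positivity)
    refine (Finset.sum_le_sum hb).trans ?_
    rw [← Finset.mul_sum]
    exact mul_le_mul_of_nonneg_left (ker_sum hE hK s5 f3 u).2 (by positivity)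
  -- the sizes of the errors
  have e1 : 50 / Real.sqrt T * T ^ (1 / 100 : ℝ) * (4 * C ^ 2 * K) =
      200 * C ^ 2 * K * T ^ (-(49 / 100) : ℝ) := by
    have : T ^ (-(49 / 100) : ℝ) = T ^ (1 / 100 : ℝ) * (Real.sqrt T)⁻¹ := by
      rw [Real.sqrt_eq_rpow, ← Real.rpow_neg hT0.le, ← Real.rpow_add hT0]; norm_num
    rw [this]
    ring
  have e2 : T ^ (51 / 100 : ℝ) * T ^ (-(8 / 10) : ℝ) = T ^ (-(29 / 100) : ℝ) := by
    rw [← Real.rpow_add hT0]; norm_num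
  have e3 : 200 * C ^ 2 * K * T ^ (-(49 / 100) : ℝ) + T ^ (-(29 / 100) : ℝ) ≤ T ^ (-(1 / 4) : ℝ) := by
    have k1 : T ^ (-(49 / 100) : ℝ) ≤ T ^ (-(29 / 100) : ℝ) :=
      Real.rpow_le_rpow_of_exponent_le (by linarith) (by norm_num)
    have k2 : T ^ (-(1 / 4) : ℝ) = T ^ (4 / 100 : ℝ) * T ^ (-(29 / 100) : ℝ) := by
      rw [← Real.rpow_add hT0]; norm_num
    have k3 : 0 < T ^ (-(29 / 100) : ℝ) := Real.rpow_pos_of_pos hT0 _
    rw [k2]
    calc 200 * C ^ 2 * K * T ^ (-(49 / 100) : ℝ) + T ^ (-(29 / 100) : ℝ) ≤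
        200 * C ^ 2 * K * T ^ (-(29 / 100) : ℝ) + T ^ (-(29 / 100) : ℝ) := by
          have := mul_le_mul_of_nonneg_left k1 (by positivity : 0 ≤ 200 * C ^ 2 * K)
          linarith
      _ = (200 * C ^ 2 * K + 1) * T ^ (-(29 / 100) : ℝ) := by ring
      _ ≤ _ := mul_le_mul_of_nonneg_right g3 k3.le
  rw [e1] at h1
  rw [e2] at h2
  rw [← Real.norm_eq_abs, ← Complex.norm_real]
  set A0 : ℂ := ((∑ j ∈ JT T, XX T j * E ((gp j - u) / (K / L)) ^ 2 : ℝ) : ℂ)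
  set A1 : ℂ := ∑ j ∈ JT T, ((-1 : ℂ)) ^ (j : ℤ) * F1 T (gp j) * ((E ((gp j - u) / (K / L)) ^ 2 : ℝ) : ℂ)
  set A2 : ℂ := ∑' j : ℤ, ((-1 : ℂ)) ^ j * F1 T (ba u + dl u * j) *
        ((E ((ba u + dl u * j - u) / (K / L)) ^ 2 : ℝ) : ℂ)
  calc ‖A0‖ = ‖(A0 - A1) + (A1 - A2) + A2‖ := by congr 1; ring
    _ ≤ ‖A0 - A1‖ + ‖A1 - A2‖ + ‖A2‖ := norm_add₃_le
    _ ≤ 200 * C ^ 2 * K * T ^ (-(49 / 100) : ℝ) + T ^ (-(29 / 100) : ℝ) + _ :=
        add_le_add (add_le_add h1 h2) h3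
    _ ≤ _ := by linarith

end Pool.Agent.Helper647.PT
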