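import Pool.Agent.Helper647_PT.Eone

set_option autoImplicit false

/-! The mean square of the alternating sums. -/

namespace Pool.Agent.Helper647.PT

open Complex Filter Topology MeasureTheory Set
open Pool.Agent.R304.GR (vt psi exp_vt)
open Pool.Agent.Helper647.GL (gp)

/-- Cauchy-Schwarz against the kernel -/
lemma cs_avg {E : ℝ → ℝ} {C c0 : ℝ} (hE : KE E C c0) {f : ℝ → ℝ} (hf : Continuous f) {B : ℝ}
    (hB : ∀ v, |f v| ≤ B) :
    (∫ v, (E v ^ 2) • f v) ^ 2 ≤ (∫ v, E v ^ 2) * ∫ v, (E v ^ 2) • f v ^ 2 := by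
  have hB0 : 0 ≤ B := (abs_nonneg _).trans (hB 0)
  have hw : ∀ v : ℝ, 1 ≤ (1 + v ^ 2) ^ 40 := fun v => one_le_pow₀ (by nlinarith [sq_nonneg v])
  have i1 : Integrable fun v => (E v ^ 2) • f v :=
    hE.int_smul hf (B := B) fun v => by
      rw [Real.norm_eq_abs]
      nlinarith [hB v, hw v]
  have i2 : Integrable fun v => (E v ^ 2) • f v ^ 2 :=
    hE.int_smul (hf.pow 2) (B := B ^ 2) fun v => by
      rw [Real.norm_eq_abs, abs_of_nonneg (sq_nonneg _)]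
      have : f v ^ 2 ≤ B ^ 2 := by
        rw [← sq_abs]; exact pow_le_pow_left₀ (abs_nonneg _) (hB v) 2
      nlinarith [hw v, sq_nonneg B]
  set A := ∫ v, E v ^ 2 with hA
  set P := ∫ v, (E v ^ 2) • f v with hP
  set Q := ∫ v, (E v ^ 2) • f v ^ 2 with hQ
  have hA0 : 0 < A := by linarith [hE.int_sq_pos, hE.hc0]
  have h1 : 0 ≤ ∫ v, (A ^ 2 * ((E v ^ 2) • f v ^ 2) - 2 * A * P * ((E v ^ 2) • f v)) + P ^ 2 * E v ^ 2 := by
    refine integral_nonneg fun v => ?_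
    simp only [Pi.zero_apply, smul_eq_mul]
    have : A ^ 2 * (E v ^ 2 * f v ^ 2) - 2 * A * P * (E v ^ 2 * f v) + P ^ 2 * E v ^ 2 =
        E v ^ 2 * (A * f v - P) ^ 2 := by ring
    rw [this]
    positivity
  have j1 : Integrable fun v => A ^ 2 * ((E v ^ 2) • f v ^ 2) := i2.const_mul _
  have j2 : Integrable fun v => 2 * A * P * ((E v ^ 2) • f v) := i1.const_mul _
  have j3 : Integrable fun v => A ^ 2 * ((E v ^ 2) • f v ^ 2) - 2 * A * P * ((E v ^ 2) • f v) := j1.sub j2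
  have j4 : Integrable fun v => P ^ 2 * E v ^ 2 := hE.int_sq.const_mul _
  rw [integral_add j3 j4, integral_sub j1 j2, integral_const_mul, integral_const_mul,
    integral_const_mul] at h1
  rw [← hA, ← hP, ← hQ] at h1
  have h2 : 0 ≤ A * (A * Q - P ^ 2) := by nlinarith
  have h3 : 0 ≤ A * Q - P ^ 2 := by
    by_contra hc
    have := mul_neg_of_pos_of_neg hA0 (not_le.1 hc)
    linarith
  linarith

lemma DW_cont (T K C' : ℝ) (N Y : ℕ) (β : ℕ → ℝ) : Continuous (DW T K C' N Y β) := by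
  unfold DW
  refine continuous_finsetSum _ fun n _ => continuous_finsetSum _ fun μ _ =>
    continuous_finsetSum _ fun ν _ => ?_
  split_ifs <;> fun_prop

lemma DW_bdd (T K C' : ℝ) (N Y : ℕ) (β : ℕ → ℝ) : ∃ B : ℝ, ∀ t, ‖DW T K C' N Y β t‖ ≤ B := by
  refine ⟨∑ n ∈ Finset.Icc 1 N, ∑ μ ∈ Finset.Icc 1 Y, ∑ ν ∈ Finset.Icc 1 Y,
    ‖((β μ * β ν / Real.sqrt (n * μ * ν) : ℝ) : ℂ)‖, fun t => ?_⟩
  unfold DW
  refine norm_sum_le_of_le _ fun n _ => norm_sum_le_of_le _ fun μ _ => norm_sum_le_of_le _ fun ν _ => ?_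
  split_ifs
  · rw [norm_mul]
    have : ‖cexp (-(I * Real.log (n * μ / ν) * t))‖ = 1 := by
      have := norm_cexp_I2 (-Real.log (n * μ / ν)) t
      rw [← this]
      congr 2
      push_cast; ring
    rw [this, mul_one]
  · rw [norm_zero]; exact norm_nonneg _

/-- the mean square of the alternating sums -/
theorem E1 {E : ℝ → ℝ} {C c0 : ℝ} (hE : KE E C c0) : ∃ C2 : ℝ, 0 < C2 ∧ ∀ K : ℝ, 8 ≤ K →
    ∃ T0 : ℝ, 8 ≤ T0 ∧ ∀ T : ℝ, T0 ≤ T →
    ∫ u in T..(2 * T), (∑ j ∈ JT T, XX T j * E ((gp j - u) / (K / Real.log T)) ^ 2) ^ 2 ≤ C2 * K * T := by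
  obtain ⟨C', hC', h1⟩ := E1pt hE
  obtain ⟨C1, hC1, h2⟩ := win (fun v => E v ^ 2) (C ^ 2) c0 hE.hc0 (hE.cont.pow 2) (fun v => sq_nonneg _)
    hE.sq_abs2 hE.low hE.ft
  obtain ⟨C4, hC4, h4⟩ := QF_bound
  obtain ⟨T3, hT3, hsz⟩ := sizes
  set A := ∫ v, E v ^ 2 with hA
  have hA0 : 0 < A := by linarith [hE.int_sq_pos, hE.hc0]
  refine ⟨2 * A ^ 2 * C1 * (C4 + 1) + 2, by positivity, fun K hK => ?_⟩
  obtain ⟨T1, hT1, h1'⟩ := h1 K hK
  obtain ⟨T2, hT2, h2'⟩ := h2 C' K hC' hK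
  obtain ⟨T5, hT5⟩ := ((tendsto_rpow_atTop (by norm_num : (0 : ℝ) < 1 / 8)).eventually_ge_atTop
    K).exists_forall_of_atTop
  refine ⟨max (max T1 T2) (max T3 T5), hT1.trans ((le_max_left _ _).trans (le_max_left _ _)),
    fun T hT => ?_⟩
  have hTT1 : T1 ≤ T := ((le_max_left _ _).trans (le_max_left _ _)).trans hT
  have hTT2 : T2 ≤ T := ((le_max_right _ _).trans (le_max_left _ _)).trans hT
  have hTT3 : T3 ≤ T := ((le_max_left _ _).trans (le_max_right _ _)).trans hT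
  have hTT5 : T5 ≤ T := ((le_max_right _ _).trans (le_max_right _ _)).trans hT
  have hT8 : 8 ≤ T := hT1.trans hTT1
  have hT0 : 0 < T := by linarith
  obtain ⟨s1, s2, s3, s4, s5, s6⟩ := hsz T hTT3
  have hKT := hT5 T hTT5
  have h1'' := h1' T hTT1
  have h2'' := h2' T (Nn T) (Yn T) (bR (Real.log T)) hTT2 (by linarith [Nn_ge T]) s6 (fun n => bR_abs _ _)
  set L := Real.log T with hLd
  have hL0 : 0 < L := by linarith
  have hexpY : Real.exp (1 / 1000 * L) ≤ Yn T := exp_le_Yn hT0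
  have hYexp : (Yn T : ℝ) ≤ Real.exp (L / 2) := by
    have e : Real.exp (L / 2) = T ^ (1 / 2 : ℝ) := by
      rw [Real.rpow_def_of_pos hT0, hLd]; ring_nf
    rw [e]
    exact s6.trans (Real.rpow_le_rpow_of_exponent_le (by linarith) (by norm_num))
  have h4' := h4 L (Yn T) s5 hexpY hYexp
  set D := DW T K C' (Nn T) (Yn T) (bR L) with hD
  have hDc : Continuous D := DW_cont _ _ _ _ _ _
  obtain ⟨B, hB⟩ := DW_bdd T K C' (Nn T) (Yn T) (bR L)
  have hB0 : 0 ≤ B := (norm_nonneg _).trans (hB 0)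
  set h := K / L with hh
  have hh0 : 0 < h := by positivity
  -- the window bound
  set R := C1 * T * ((C4 + 1) / K) with hR
  have hwin : ∀ v : ℝ, ∫ u in T..(2 * T), ‖D (u + h * v)‖ ^ 2 ≤ R := by
    intro v
    rw [intervalIntegral.integral_comp_add_right (fun t => ‖D t‖ ^ 2) (h * v)]
    have h5 := h2'' (T + h * v)
    rw [show T + h * v + T = 2 * T + h * v by ring] at h5
    refine h5.trans ?_
    rw [hR]
    refine mul_le_mul_of_nonneg_left ?_ (by positivity)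
    have k1 : L / K * |QF (Yn T) (bR L)| ≤ L / K * (C4 / L) := mul_le_mul_of_nonneg_left h4' (by positivity)
    have k2 : L / K * (C4 / L) = C4 / K := by field_simp
    have k3 : T ^ (-(1 / 8) : ℝ) ≤ 1 / K := by
      rw [Real.rpow_neg hT0.le, ← one_div]
      exact one_div_le_one_div_of_le (by linarith) hKT
    calc L / K * |QF (Yn T) (bR L)| + T ^ (-(1 / 8) : ℝ) ≤ C4 / K + 1 / K := by linarith
      _ = _ := by ring
  -- exchange
  have hsw := hE.swp (G := fun t => ‖D t‖ ^ 2) (hDc.norm.pow 2) (B := B ^ 2) (fun t => by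
    rw [Real.norm_eq_abs, abs_of_nonneg (sq_nonneg _)]
    exact pow_le_pow_left₀ (norm_nonneg _) (hB t) 2) h (U1 := T) (U2 := 2 * T) (by linarith)
  obtain ⟨w1, w2, w3⟩ := hsw
  have hQ : ∫ u in T..(2 * T), ∫ v, (E v ^ 2) • ‖D (u + h * v)‖ ^ 2 ≤ A * R := by
    rw [w3, hA, ← integral_mul_const]
    refine integral_mono w2 (hE.int_sq.mul_const _) fun v => ?_
    simp only [smul_eq_mul]
    exact mul_le_mul_of_nonneg_left (hwin v) (sq_nonneg _)
  -- pointwise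
  have hpt : ∀ u ∈ Icc T (2 * T), (∑ j ∈ JT T, XX T j * E ((gp j - u) / h) ^ 2) ^ 2 ≤
      2 * K ^ 2 * A * (∫ v, (E v ^ 2) • ‖D (u + h * v)‖ ^ 2) + 2 * (T ^ (-(1 / 4) : ℝ)) ^ 2 := by
    intro u hu
    have k1 := h1'' u hu.1 hu.2
    have k2 := cs_avg hE (f := fun v => ‖D (u + h * v)‖) (by fun_prop) (B := B) (fun v => by
      rw [abs_of_nonneg (norm_nonneg _)]; exact hB _)
    have e : ∫ v, ‖D (u + h * v)‖ * E v ^ 2 = ∫ v, (E v ^ 2) • ‖D (u + h * v)‖ :=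
      integral_congr_ae (ae_of_all _ fun v => by simp only [smul_eq_mul]; ring)
    rw [e] at k1
    set P := ∫ v, (E v ^ 2) • ‖D (u + h * v)‖
    set Q := ∫ v, (E v ^ 2) • ‖D (u + h * v)‖ ^ 2
    have k3 : (∑ j ∈ JT T, XX T j * E ((gp j - u) / h) ^ 2) ^ 2 ≤ (K * P + T ^ (-(1 / 4) : ℝ)) ^ 2 := by
      rw [← sq_abs]
      exact pow_le_pow_left₀ (abs_nonneg _) k1 2
    have k4 : K ^ 2 * P ^ 2 ≤ K ^ 2 * (A * Q) := mul_le_mul_of_nonneg_left k2 (sq_nonneg _)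
    nlinarith [sq_nonneg (K * P - T ^ (-(1 / 4) : ℝ))]
  have hc1 : Continuous fun u : ℝ => (∑ j ∈ JT T, XX T j * E ((gp j - u) / h) ^ 2) ^ 2 := by
    have := hE.cont
    fun_prop
  have h6 := intervalIntegral.integral_mono_on (by linarith : T ≤ 2 * T) (hc1.intervalIntegrable _ _)
    ((w1.const_mul (2 * K ^ 2 * A)).add (intervalIntegrable_const (c := 2 * (T ^ (-(1 / 4) : ℝ)) ^ 2)))
    hpt
  refine h6.trans ?_
  rw [intervalIntegral.integral_add (w1.const_mul _) intervalIntegrable_const,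
    intervalIntegral.integral_const_mul, intervalIntegral.integral_const]
  have k5 : 2 * K ^ 2 * A * (∫ u in T..(2 * T), ∫ v, (E v ^ 2) • ‖D (u + h * v)‖ ^ 2) ≤
      2 * K ^ 2 * A * (A * R) := mul_le_mul_of_nonneg_left hQ (by positivity)
  have k6 : 2 * K ^ 2 * A * (A * R) = 2 * A ^ 2 * C1 * (C4 + 1) * K * T := by
    rw [hR]; field_simp
  have k7 : (T ^ (-(1 / 4) : ℝ)) ^ 2 ≤ 1 := by
    have : T ^ (-(1 / 4) : ℝ) ≤ 1 := Real.rpow_le_one_of_one_le_of_nonpos (by linarith) (by norm_num)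
    exact pow_le_one₀ (Real.rpow_nonneg hT0.le _) this
  rw [smul_eq_mul]
  nlinarith

end Pool.Agent.Helper647.PT
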