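import Pool.Agent.Helper647_PT.Sz
import Pool.Agent.Helper647_PT.Cmp2
import Pool.Agent.Helper647_PT.Ar6

set_option autoImplicit false

/-! The second moment at the Gram points. -/

namespace Pool.Agent.Helper647.PT

open Complex Filter Topology MeasureTheory Set
open Pool.Agent.R304.GR (vt psi exp_vt)
open Pool.Agent.Helper647.GL (gp)

/-- zeta and the partial sum with the mollifier -/
lemma F2_near {T t : ℝ} (hT : 8 ≤ T) (h1 : T / 4 ≤ t) (h2 : t ≤ 4 * T)
    (hB : ‖Bz (Yn T) (bR (Real.log T)) t‖ ^ 2 ≤ T ^ (1 / 100 : ℝ)) :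
    ‖riemannZeta (1 / 2 + I * t) * Bz (Yn T) (bR (Real.log T)) t ^ 2 - F2 T t‖ ^ 2 ≤ 2500 := by
  have e : riemannZeta (1 / 2 + I * t) * Bz (Yn T) (bR (Real.log T)) t ^ 2 - F2 T t =
      (riemannZeta (1 / 2 + I * t) - Pz (Nn T) t) * Bz (Yn T) (bR (Real.log T)) t ^ 2 := by
    unfold F2; ring
  have hT0 : 0 < T := by linarith
  rw [e, norm_mul, norm_pow]
  have h3 := zp hT h1 h2
  have h4 : T ^ (1 / 100 : ℝ) ≤ Real.sqrt T := by
    rw [Real.sqrt_eq_rpow]
    exact Real.rpow_le_rpow_of_exponent_le (by linarith) (by norm_num)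
  have hs : 0 < Real.sqrt T := Real.sqrt_pos.2 hT0
  have h5 : ‖riemannZeta (1 / 2 + I * t) - Pz (Nn T) t‖ * ‖Bz (Yn T) (bR (Real.log T)) t‖ ^ 2 ≤ 50 := by
    calc _ ≤ 50 / Real.sqrt T * Real.sqrt T :=
          mul_le_mul h3 (hB.trans h4) (sq_nonneg _) (by positivity)
      _ = 50 := by field_simp
  calc _ ≤ (50 : ℝ) ^ 2 := pow_le_pow_left₀ (by positivity) h5 2
    _ = _ := by norm_num

/-- the mean square of `F2` -/
theorem F2_sq : ∃ C T0 : ℝ, 0 < C ∧ 8 ≤ T0 ∧ ∀ T : ℝ, T0 ≤ T →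
    ∫ t in (T / 4)..(4 * T), ‖F2 T t‖ ^ 2 ≤ C * T := by
  obtain ⟨C1, T1, hC1, hT1, h1⟩ := mean_sq
  obtain ⟨T2, hT2, h2⟩ := sizes
  refine ⟨2 * C1 + 20000, max T1 T2, by positivity, hT2.trans (le_max_right _ _), fun T hT => ?_⟩
  have hTT1 : T1 ≤ T := (le_max_left _ _).trans hT
  have hTT2 : T2 ≤ T := (le_max_right _ _).trans hT
  have hT8 : 8 ≤ T := hT2.trans hTT2
  obtain ⟨s1, s2, s3, s4, s5, s6⟩ := h2 T hTT2
  have h3 := h1 T hTT1
  have hc1 : Continuous fun t : ℝ => ‖F2 T t‖ ^ 2 := (s2.cont.norm.pow 2)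
  have hc2 : Continuous fun t : ℝ => ‖riemannZeta (1 / 2 + I * t) * Bz (Yn T) (bR (Real.log T)) t ^ 2‖ ^ 2 := by
    have hz : Continuous fun t : ℝ => riemannZeta (1 / 2 + I * t) := by
      have := zeta_half_cont
      have e : (fun t : ℝ => riemannZeta (((1 / 2 : ℝ) : ℂ) + t * I)) =
          fun t : ℝ => riemannZeta (1 / 2 + I * t) := by
        funext t
        congr 1
        push_cast; ring
      rwa [e] at this
    exact ((hz.mul ((Bz_cont _ _).pow 2)).norm.pow 2)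
  have h4 : ∫ t in (T / 4)..(4 * T), ‖F2 T t‖ ^ 2 ≤ ∫ t in (T / 4)..(4 * T),
      (2 * ‖riemannZeta (1 / 2 + I * t) * Bz (Yn T) (bR (Real.log T)) t ^ 2‖ ^ 2 + 5000) := by
    refine intervalIntegral.integral_mono_on (by linarith) (hc1.intervalIntegrable _ _)
      (((hc2.const_mul 2).add continuous_const).intervalIntegrable _ _) fun t ht => ?_
    have h5 := F2_near hT8 ht.1 ht.2 (s3 t)
    set a := riemannZeta (1 / 2 + I * t) * Bz (Yn T) (bR (Real.log T)) t ^ 2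
    have h6 : ‖F2 T t‖ ≤ ‖a‖ + ‖a - F2 T t‖ := by
      calc ‖F2 T t‖ = ‖a - (a - F2 T t)‖ := by congr 1; ring
        _ ≤ _ := norm_sub_le _ _
    have h7 : ‖F2 T t‖ ^ 2 ≤ (‖a‖ + ‖a - F2 T t‖) ^ 2 := pow_le_pow_left₀ (norm_nonneg _) h6 2
    nlinarith [sq_nonneg (‖a‖ - ‖a - F2 T t‖)]
  refine h4.trans ?_
  rw [intervalIntegral.integral_add ((hc2.const_mul 2).intervalIntegrable _ _) intervalIntegrable_const,
    intervalIntegral.integral_const_mul, intervalIntegral.integral_const, smul_eq_mul]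
  nlinarith

/-- the square sums over the progression -/
lemma sq_sum {E : ℝ → ℝ} {C c0 : ℝ} (hE : KE E C c0) {T K C' u : ℝ} (hK : 8 ≤ K)
    (hT : 1 < T) (hL : 10 * C' + 1 ≤ Real.log T) {M : ℝ}
    (hF : TP (-(101 / 100 * Real.log T)) 0 M (F2 T))
    (hC' : 0 ≤ C') (hψ1 : |psi u - Real.log T / 2| ≤ C') (hψ2 : psi u ≤ Real.log T) :
    ∑' j : ℤ, ‖F2 T (ba u + dl u * j)‖ ^ 2 * E ((ba u + dl u * j - u) / (K / Real.log T)) ^ 2 ≤
      K * ∫ v : ℝ, (E v ^ 2) • ‖F2 T (u + K / Real.log T * v)‖ ^ 2 := by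
  set L := Real.log T with hLd
  have hL0 : 0 < L := by linarith
  have hψ3 : 2 / 5 * L ≤ psi u := by
    have := (abs_le.1 hψ1).1
    linarith
  have hψ0 : 0 < psi u := by linarith
  have hpi := Real.pi_gt_three
  have hδ : 0 < dl u := by unfold dl; positivity
  have hh : 0 < K / L := by positivity
  have hpd : psi u * dl u = Real.pi := by unfold dl; field_simp
  set a := ba u with ha
  have hM := hF.nonneg
  have hG := hF.mul hF.conj
  have hS : ∀ l : ℤ, l ∉ ({-1, 0, 1} : Finset ℤ) → ∀ ω : ℝ, -(101 / 100 * L) + -0 ≤ ω →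
      ω ≤ 0 + -(-(101 / 100 * L)) → 1 / (K / L) ≤ |ω - 2 * Real.pi * l / dl u| := by
    intro l hl ω h1 h2
    rw [Finset.mem_insert, Finset.mem_insert, Finset.mem_singleton, not_or, not_or] at hl
    have e1 : 2 * Real.pi * l / dl u = 2 * psi u * l := by
      rw [← hpd]; field_simp
    rw [e1]
    have h3 : 1 / (K / L) ≤ L / 8 := by
      rw [one_div_div]
      exact div_le_div_of_nonneg_left hL0.le (by norm_num) hK
    refine h3.trans ?_
    rcases lt_or_gt_of_ne hl.2.1 with h | h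
    · have h4 : (l : ℝ) ≤ -2 := by exact_mod_cast (by omega : l ≤ -2)
      refine le_trans ?_ (le_abs_self _)
      nlinarith
    · have h4 : (2 : ℝ) ≤ l := by exact_mod_cast (by omega : 2 ≤ l)
      refine le_trans ?_ (neg_le_abs _)
      nlinarith
  have hP := hG.poisson hE a u hh hδ {-1, 0, 1} hS
  have hser : ((∑' j : ℤ, ‖F2 T (a + dl u * j)‖ ^ 2 * E ((a + dl u * j - u) / (K / L)) ^ 2 : ℝ) : ℂ) =
      ∑' j : ℤ, F2 T ((a + dl u * j : ℝ)) * (starRingEnd ℂ) (F2 T ((a + dl u * j : ℝ))) *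
        ((E ((a + dl u * j - u) / (K / L)) ^ 2 : ℝ) : ℂ) := by
    rw [Complex.ofReal_tsum]
    refine tsum_congr fun j => ?_
    rw [← sq_conj]
    push_cast
    ring
  rw [← hser] at hP
  have hnn : 0 ≤ ∑' j : ℤ, ‖F2 T (a + dl u * j)‖ ^ 2 * E ((a + dl u * j - u) / (K / L)) ^ 2 :=
    tsum_nonneg fun j => by positivity
  have e0 : ∑' j : ℤ, ‖F2 T (a + dl u * j)‖ ^ 2 * E ((a + dl u * j - u) / (K / L)) ^ 2 =
      ‖((∑' j : ℤ, ‖F2 T (a + dl u * j)‖ ^ 2 * E ((a + dl u * j - u) / (K / L)) ^ 2 : ℝ) : ℂ)‖ := by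
    rw [Complex.norm_real, Real.norm_eq_abs, abs_of_nonneg hnn]
  rw [e0, hP, norm_mul]
  set R := ∫ v : ℝ, (E v ^ 2) • ‖F2 T (u + K / L * v)‖ ^ 2 with hR
  have hR0 : 0 ≤ R := integral_nonneg fun v => by simp only [Pi.zero_apply, smul_eq_mul]; positivity
  have hcov := cov (fun v => E v ^ 2) (fun t => ‖F2 T t‖ ^ 2) hh u
  have hone : ∀ l : ℤ, ‖∫ t : ℝ, F2 T t * (starRingEnd ℂ) (F2 T t) *
      cexp (-(I * (2 * Real.pi * l / dl u) * (t - a))) * ((E ((t - u) / (K / L)) ^ 2 : ℝ) : ℂ)‖ ≤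
      K / L * R := by
    intro l
    refine (norm_integral_le_integral_norm _).trans (le_of_eq ?_)
    rw [hR, ← smul_eq_mul (K / L), ← hcov]
    refine integral_congr_ae (ae_of_all _ fun t => ?_)
    simp only
    have e1 : ‖cexp (-(I * (2 * Real.pi * l / dl u) * (t - a)))‖ = 1 := by
      have := norm_cexp_I (-(2 * Real.pi * l / dl u * (t - a)))
      rw [← this]
      congr 2
      push_cast; ring
    rw [norm_mul, norm_mul, e1, mul_one, norm_mul, RCLike.norm_conj, Complex.norm_real, Real.norm_eq_abs,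
      abs_of_nonneg (sq_nonneg _), smul_eq_mul]
    ring
  have h6 : ‖(1 : ℂ) / (dl u : ℂ)‖ = psi u / Real.pi := by
    rw [norm_div, norm_one, Complex.norm_real, Real.norm_eq_abs, abs_of_pos hδ]
    unfold dl
    rw [one_div_div]
  have h7 : ‖∑ l ∈ ({-1, 0, 1} : Finset ℤ), ∫ t : ℝ, F2 T t * (starRingEnd ℂ) (F2 T t) *
      cexp (-(I * (2 * Real.pi * l / dl u) * (t - a))) * ((E ((t - u) / (K / L)) ^ 2 : ℝ) : ℂ)‖ ≤
      3 * (K / L * R) := by
    refine (norm_sum_le _ _).trans ((Finset.sum_le_sum fun l _ => hone l).trans ?_)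
    rw [Finset.sum_const]
    have : (({-1, 0, 1} : Finset ℤ)).card = 3 := by decide
    rw [this, nsmul_eq_mul]
    norm_num
  rw [h6]
  calc psi u / Real.pi * _ ≤ psi u / Real.pi * (3 * (K / L * R)) :=
        mul_le_mul_of_nonneg_left h7 (by positivity)
    _ = (psi u / L) * (3 / Real.pi) * (K * R) := by ring
    _ ≤ 1 * 1 * (K * R) := by
        refine mul_le_mul_of_nonneg_right ?_ (by positivity)
        refine mul_le_mul ?_ ?_ (by positivity) (by norm_num)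
        · rw [div_le_one hL0]; exact hψ2
        · rw [div_le_one Real.pi_pos]; linarith
    _ = _ := by ring

/-- shifted integrals of a bounded nonnegative function -/
lemma shift_bd {G : ℝ → ℝ} (hG : Continuous G) (hG0 : ∀ t, 0 ≤ G t) {B T R U1 U2 h : ℝ}
    (hB : ∀ t, G t ≤ B) (hU1 : T / 3 ≤ U1) (hU2 : U2 ≤ 7 / 2 * T) (hU : U1 ≤ U2) (hT : 12 ≤ T) (hh0 : 0 ≤ h) (hh1 : h ≤ 1)
    (hR : ∫ t in (T / 4)..(4 * T), G t ≤ R) (hBR : 4 * T * B * (144 / T ^ 2) ^ 40 ≤ 1) (v : ℝ) :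
    ∫ u in U1..U2, G (u + h * v) ≤ (R + 1) * (1 + v ^ 2) ^ 40 := by
  have hT0 : 0 < T := by linarith
  have hB0 : 0 ≤ B := (hG0 0).trans (hB 0)
  have hR0 : 0 ≤ R := by
    refine le_trans ?_ hR
    exact intervalIntegral.integral_nonneg (by linarith) fun t _ => hG0 t
  have hv1 : 1 ≤ (1 + v ^ 2) ^ 40 := one_le_pow₀ (by nlinarith [sq_nonneg v])
  rw [intervalIntegral.integral_comp_add_right (fun t => G t) (h * v)]
  by_cases hv : |v| ≤ T / 12
  · have h1 : |h * v| ≤ T / 12 := by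
      rw [abs_mul, abs_of_nonneg hh0]
      nlinarith [abs_nonneg v]
    rw [abs_le] at h1
    have h2 : ∫ t in (U1 + h * v)..(U2 + h * v), G t ≤ ∫ t in (T / 4)..(4 * T), G t := by
      refine intervalIntegral.integral_mono_interval (by linarith) (by linarith) (by linarith)
        (ae_of_all _ fun t => hG0 t) (hG.intervalIntegrable _ _)
    nlinarith
  · push Not at hv
    have h1 : ∫ t in (U1 + h * v)..(U2 + h * v), G t ≤ ∫ t in (U1 + h * v)..(U2 + h * v), B :=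
      intervalIntegral.integral_mono_on (by linarith) (hG.intervalIntegrable _ _)
        intervalIntegrable_const fun t _ => hB t
    rw [intervalIntegral.integral_const, smul_eq_mul] at h1
    have h2 : (U2 + h * v - (U1 + h * v)) * B ≤ 4 * T * B :=
      mul_le_mul_of_nonneg_right (by linarith) hB0
    have h3 : 1 ≤ (144 / T ^ 2) * v ^ 2 := by
      have : (T / 12) ^ 2 ≤ v ^ 2 := by
        rw [← sq_abs v]
        exact pow_le_pow_left₀ (by positivity) hv.le 2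
      rw [div_mul_eq_mul_div, le_div_iff₀ (by positivity)]
      nlinarith
    have h4 : 1 ≤ (144 / T ^ 2) ^ 40 * (1 + v ^ 2) ^ 40 := by
      rw [← mul_pow]
      refine one_le_pow₀ ?_
      have : 0 ≤ 144 / T ^ 2 := by positivity
      nlinarith
    have h5 : 4 * T * B ≤ (1 + v ^ 2) ^ 40 := by
      calc 4 * T * B = 4 * T * B * 1 := by ring
        _ ≤ 4 * T * B * ((144 / T ^ 2) ^ 40 * (1 + v ^ 2) ^ 40) :=
            mul_le_mul_of_nonneg_left h4 (by positivity)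
        _ = (4 * T * B * (144 / T ^ 2) ^ 40) * (1 + v ^ 2) ^ 40 := by ring
        _ ≤ 1 * (1 + v ^ 2) ^ 40 := mul_le_mul_of_nonneg_right hBR (by positivity)
        _ = _ := one_mul _
    nlinarith

/-- the second moment at the Gram points -/
theorem E3 {E : ℝ → ℝ} {C c0 : ℝ} (hE : KE E C c0) : ∃ C3 T0 : ℝ, 0 < C3 ∧ 8 ≤ T0 ∧ ∀ T : ℝ, T0 ≤ T →
    ∑ j ∈ JT T, XX T j ^ 2 ≤ C3 * T * Real.log T := by
  obtain ⟨C1, T1, hC1, hT1, hps⟩ := psi_size
  obtain ⟨T2, hT2, hgf⟩ := gram_facts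
  obtain ⟨T3, hT3, hsz⟩ := sizes
  obtain ⟨T4, hT4, hcmp⟩ := cmp2 E C hE.cont hE.lip hE.dec
  obtain ⟨C5, T5, hC5, hT5, hF2⟩ := F2_sq
  have hev : ∀ᶠ T : ℝ in atTop, 10 * C1 + 8 ≤ Real.log T ∧ 4 * T * T ^ 2 * (144 / T ^ 2) ^ 40 ≤ 1 := by
    have a1 : ∀ᶠ T : ℝ in atTop, 10 * C1 + 8 ≤ Real.log T :=
      Real.tendsto_log_atTop.eventually_ge_atTop _
    have a2 : ∀ᶠ T : ℝ in atTop, 4 * T * T ^ 2 * (144 / T ^ 2) ^ 40 ≤ 1 := by
      filter_upwards [eventually_ge_atTop (4 * 144 ^ 40 : ℝ)] with T hT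
      have hT1 : 1 ≤ T := by
        have : (1 : ℝ) ≤ 4 * 144 ^ 40 := by norm_num
        linarith
      rw [div_pow, ← pow_mul, mul_div_assoc', div_le_one (by positivity)]
      calc 4 * T * T ^ 2 * 144 ^ 40 = (4 * 144 ^ 40) * T ^ 3 := by ring
        _ ≤ T * T ^ 3 := mul_le_mul_of_nonneg_right hT (by positivity)
        _ = T ^ 4 := by ring
        _ ≤ T ^ (2 * 40) := pow_le_pow_right₀ hT1 (by norm_num)
    filter_upwards [a1, a2] with T b1 b2
    exact ⟨b1, b2⟩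
  obtain ⟨T6, hT6⟩ := hev.exists_forall_of_atTop
  refine ⟨2 * ((16 * ((C5 + 1) * mW E) + 8) / (16 * c0)) + 10000,
    max (max (max T1 T2) (max T3 T4)) (max T5 (max T6 12)), ?_,
    hT1.trans ((le_max_left _ _).trans ((le_max_left _ _).trans (le_max_left _ _))), fun T hT => ?_⟩
  · have := hE.hc0
    have := mW_nonneg E
    positivity
  have hTT : max (max T1 T2) (max T3 T4) ≤ T := (le_max_left _ _).trans hT
  have hTT1 : T1 ≤ T := ((le_max_left _ _).trans (le_max_left _ _)).trans hTT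
  have hTT2 : T2 ≤ T := ((le_max_right _ _).trans (le_max_left _ _)).trans hTT
  have hTT3 : T3 ≤ T := ((le_max_left _ _).trans (le_max_right _ _)).trans hTT
  have hTT4 : T4 ≤ T := ((le_max_right _ _).trans (le_max_right _ _)).trans hTT
  have hTTb : max T5 (max T6 12) ≤ T := (le_max_right _ _).trans hT
  have hTT5 : T5 ≤ T := (le_max_left _ _).trans hTTb
  have hTT6 : T6 ≤ T := ((le_max_left _ _).trans (le_max_right _ _)).trans hTTb
  have hT12 : 12 ≤ T := ((le_max_right _ _).trans (le_max_right _ _)).trans hTTb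
  have hT8 : 8 ≤ T := hT1.trans hTT1
  have hT0 : 0 < T := by linarith
  obtain ⟨g1, g2⟩ := hT6 T hTT6
  obtain ⟨f1, f2, f3, f4, f5⟩ := hgf T hTT2
  obtain ⟨s1, s2, s3, s4, s5, s6⟩ := hsz T hTT3
  have hF2' := hF2 T hTT5
  set L := Real.log T with hLd
  have hL0 : 0 < L := by linarith
  have hL8 : 8 ≤ L := by linarith
  have hpi := Real.pi_gt_three
  have hpi4 := Real.pi_lt_four
  set h := 8 / L with hh
  have hh0 : 0 < h := by positivity
  have hh1 : h ≤ 1 := by rw [hh, div_le_one hL0]; exact hL8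
  have hM0 : 0 ≤ T ^ (51 / 100 : ℝ) := Real.rpow_nonneg hT0.le _
  have hN : ∀ t, ‖F2 T t‖ ≤ T ^ (51 / 100 : ℝ) := by
    intro t
    refine (s2.norm_le t).trans ?_
    exact div_le_self hM0 (by linarith)
  have hLip : ∀ t t', ‖F2 T t - F2 T t'‖ ≤ T ^ (51 / 100 : ℝ) * |t - t'| := by
    intro t t'
    refine (s2.lip (R := 2 * L) (by linarith) (by linarith) (by linarith) t t').trans (le_of_eq ?_)
    field_simp
  have hMT : T ^ (51 / 100 : ℝ) ≤ T := by
    calc T ^ (51 / 100 : ℝ) ≤ T ^ (1 : ℝ) := Real.rpow_le_rpow_of_exponent_le (by linarith) (by norm_num)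
      _ = T := Real.rpow_one T
  have hF2c : Continuous (F2 T) := s2.cont
  have hGc : Continuous fun t => ‖F2 T t‖ ^ 2 := hF2c.norm.pow 2
  -- pointwise bound
  have hpt : ∀ u ∈ Icc (T / 3) (7 / 2 * T), ∑ j ∈ JT T, ‖F2 T (gp j)‖ ^ 2 * E ((gp j - u) / h) ^ 2 ≤
      16 * (∫ v, (E v ^ 2) • ‖F2 T (u + h * v)‖ ^ 2) + 1 := by
    intro u hu
    obtain ⟨p1, p2, p3, p4⟩ := hps T u hTT1 (by linarith [hu.1]) (by linarith [hu.2])
    have hψ0 : 0 < psi u := by linarith
    have h2 := hcmp T h (dl u) (ba u) u (T ^ (51 / 100 : ℝ)) (JT T) gp (F2 T) hTT4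
      (div_le_div_of_nonneg_right (by norm_num) hL0.le) hh1
      (by unfold dl; rw [div_le_div_iff₀ hL0 hψ0]; nlinarith) (by unfold dl; rw [div_le_one hψ0]; linarith)
      hM0 hN hLip JT_card (f4 u hu.1 hu.2)
    have h3 := sq_sum hE (T := T) (K := 8) (C' := C1) (u := u) le_rfl (by linarith) (by linarith) s2 hC1.le p1 p3
    rw [← hLd, ← hh] at h3
    have h4 : (T ^ (51 / 100 : ℝ)) ^ 2 * T ^ (-(16 / 10) : ℝ) ≤ 1 := by
      rw [← Real.rpow_natCast, ← Real.rpow_mul hT0.le, ← Real.rpow_add hT0]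
      exact Real.rpow_le_one_of_one_le_of_nonpos (by linarith) (by norm_num)
    linarith
  -- exchange
  obtain ⟨w1, w2, w3⟩ := hE.swp hGc (B := (T ^ (51 / 100 : ℝ)) ^ 2) (fun t => by
    rw [Real.norm_eq_abs, abs_of_nonneg (sq_nonneg _)]
    exact pow_le_pow_left₀ (norm_nonneg _) (hN t) 2) h (U1 := T / 3) (U2 := 7 / 2 * T) (by linarith)
  have hin := shift_bd hGc (fun t => sq_nonneg _) (B := T ^ 2) (T := T) (R := C5 * T) (U1 := T / 3)
    (U2 := 7 / 2 * T) (h := h) (fun t => pow_le_pow_left₀ (norm_nonneg _) ((hN t).trans hMT) 2) le_rfl le_rfl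
    (by linarith) hT12 hh0.le hh1 hF2' g2
  have hQ : ∫ u in (T / 3)..(7 / 2 * T), ∫ v, (E v ^ 2) • ‖F2 T (u + h * v)‖ ^ 2 ≤ (C5 * T + 1) * mW E := by
    rw [w3]
    unfold mW
    rw [← integral_const_mul]
    refine integral_mono w2 (hE.int_w.const_mul _) fun v => ?_
    simp only [smul_eq_mul]
    calc E v ^ 2 * _ ≤ E v ^ 2 * ((C5 * T + 1) * (1 + v ^ 2) ^ 40) :=
          mul_le_mul_of_nonneg_left (hin v) (sq_nonneg _)
      _ = _ := by ring
  -- integrate the pointwise bound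
  have hcV : Continuous fun u : ℝ => ∑ j ∈ JT T, ‖F2 T (gp j)‖ ^ 2 * E ((gp j - u) / h) ^ 2 := by
    have := hE.cont
    fun_prop
  have h5 := intervalIntegral.integral_mono_on (by linarith : T / 3 ≤ 7 / 2 * T)
    (hcV.intervalIntegrable _ _) ((w1.const_mul 16).add (intervalIntegrable_const (c := (1 : ℝ)))) hpt
  rw [intervalIntegral.integral_add (w1.const_mul _) intervalIntegrable_const,
    intervalIntegral.integral_const_mul, intervalIntegral.integral_const, smul_eq_mul, mul_one] at h5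
  -- lower bound
  have h6 : (∑ j ∈ JT T, ‖F2 T (gp j)‖ ^ 2) * (2 * h * c0) ≤
      ∫ u in (T / 3)..(7 / 2 * T), ∑ j ∈ JT T, ‖F2 T (gp j)‖ ^ 2 * E ((gp j - u) / h) ^ 2 := by
    rw [intervalIntegral.integral_finsetSum]
    · rw [Finset.sum_mul]
      refine Finset.sum_le_sum fun j hj => ?_
      rw [intervalIntegral.integral_const_mul]
      refine mul_le_mul_of_nonneg_left ?_ (sq_nonneg _)
      unfold JT at hj
      rw [Finset.mem_filter] at hj
      have hcE : Continuous fun u : ℝ => E ((gp j - u) / h) ^ 2 := by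
        have := hE.cont
        fun_prop
      have k1 : ∫ u in (gp j - h)..(gp j + h), c0 ≤ ∫ u in (gp j - h)..(gp j + h), E ((gp j - u) / h) ^ 2 := by
        refine intervalIntegral.integral_mono_on (by linarith) intervalIntegrable_const
          (hcE.intervalIntegrable _ _) fun u hu => hE.low _ ?_
        rw [abs_div, abs_of_pos hh0, div_le_one hh0, abs_le]
        exact ⟨by linarith [hu.2], by linarith [hu.1]⟩
      have k2 : ∫ u in (gp j - h)..(gp j + h), E ((gp j - u) / h) ^ 2 ≤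
          ∫ u in (T / 3)..(7 / 2 * T), E ((gp j - u) / h) ^ 2 :=
        intervalIntegral.integral_mono_interval (by linarith [hj.2.1]) (by linarith) (by linarith [hj.2.2])
          (ae_of_all _ fun u => sq_nonneg _) (hcE.intervalIntegrable _ _)
      rw [intervalIntegral.integral_const, smul_eq_mul] at k1
      linarith
    · intro j _
      refine Continuous.intervalIntegrable ?_ _ _
      have := hE.cont
      fun_prop
  -- the sum of the squares of `F2`
  have hc0 := hE.hc0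
  have hmW := mW_nonneg E
  have h7 : (∑ j ∈ JT T, ‖F2 T (gp j)‖ ^ 2) ≤ (16 * ((C5 + 1) * mW E) + 8) / (16 * c0) * (T * L) := by
    have k1 : (∑ j ∈ JT T, ‖F2 T (gp j)‖ ^ 2) * (2 * h * c0) ≤ (16 * ((C5 + 1) * mW E) + 8) * T := by
      refine h6.trans (h5.trans ?_)
      have : (C5 * T + 1) * mW E ≤ (C5 + 1) * mW E * T := by nlinarith
      nlinarith
    have k2 : 2 * h * c0 = 16 * c0 / L := by rw [hh]; ring
    rw [k2, mul_div_assoc', div_le_iff₀ hL0] at k1
    rw [div_mul_eq_mul_div, le_div_iff₀ (by positivity)]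
    linarith
  -- from `F2` to zeta
  have h8 : ∀ j ∈ JT T, XX T j ^ 2 ≤ 2 * ‖F2 T (gp j)‖ ^ 2 + 5000 := by
    intro j hj
    have hj' := hj
    unfold JT at hj'
    rw [Finset.mem_filter] at hj'
    rw [← sq_abs, XX_abs (f1 j hj)]
    have k1 := F2_near (t := gp j) hT8 (by linarith [hj'.2.1]) (by linarith [hj'.2.2]) (s3 _)
    rw [← hLd] at k1
    set a := riemannZeta (1 / 2 + I * gp j) * Bz (Yn T) (bR L) (gp j) ^ 2
    have k2 : ‖a‖ ≤ ‖F2 T (gp j)‖ + ‖a - F2 T (gp j)‖ := by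
      calc ‖a‖ = ‖F2 T (gp j) + (a - F2 T (gp j))‖ := by congr 1; ring
        _ ≤ _ := norm_add_le _ _
    have k3 : ‖a‖ ^ 2 ≤ (‖F2 T (gp j)‖ + ‖a - F2 T (gp j)‖) ^ 2 := pow_le_pow_left₀ (norm_nonneg _) k2 2
    nlinarith [sq_nonneg (‖F2 T (gp j)‖ - ‖a - F2 T (gp j)‖)]
  refine (Finset.sum_le_sum h8).trans ?_
  rw [Finset.sum_add_distrib, ← Finset.mul_sum, Finset.sum_const, nsmul_eq_mul]
  nlinarith

end Pool.Agent.Helper647.PT
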