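import Mathlib
import Pool.Agent.Helper647_PT.Defs

set_option autoImplicit false


namespace Pool.Agent.Helper647.PT

open MeasureTheory Complex Filter Topology Set

/-- inverse square root -/
noncomputable def mom_r (n : ℕ) : ℝ := (Real.sqrt n)⁻¹

/-- exponentials -/
noncomputable def mom_ex (ω t : ℝ) : ℂ := Complex.exp ((I * (ω : ℂ)) * (t : ℂ))

theorem mom_cpow (n : ℕ) (hn : 0 < n) (t : ℝ) :
    (n : ℂ) ^ (-(1 / 2 + I * t)) = (mom_r n : ℂ) * mom_ex (-Real.log n) t := by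
  have hn' : (n : ℂ) ≠ 0 := by exact_mod_cast hn.ne'
  have hnR : (0 : ℝ) < n := by exact_mod_cast hn
  rw [Complex.cpow_def_of_ne_zero hn', ← Complex.natCast_log]
  have h1 : (mom_r n : ℂ) = Complex.exp ((-(Real.log n / 2) : ℝ) : ℂ) := by
    rw [← Complex.ofReal_exp]
    congr 1
    rw [mom_r, Real.exp_neg, Real.exp_half, Real.exp_log hnR]
  rw [h1, mom_ex, ← Complex.exp_add]
  congr 1
  push_cast
  ring

theorem mom_ex_conj (ω t : ℝ) : (starRingEnd ℂ) (mom_ex ω t) = mom_ex (-ω) t := by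
  rw [mom_ex, mom_ex, ← Complex.exp_conj]
  congr 1
  rw [map_mul, map_mul, Complex.conj_I, Complex.conj_ofReal, Complex.conj_ofReal]
  push_cast
  ring

theorem mom_ex_mul (ω ω' t : ℝ) : mom_ex ω t * mom_ex ω' t = mom_ex (ω + ω') t := by
  rw [mom_ex, mom_ex, mom_ex, ← Complex.exp_add]
  congr 1
  push_cast
  ring

theorem mom_P (N : ℕ) (t : ℝ) : Pz N t = ∑ n ∈ Finset.Icc 1 N, (mom_r n : ℂ) * mom_ex (-Real.log n) t := by
  rw [Pz]
  refine Finset.sum_congr rfl fun n hn => ?_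
  exact mom_cpow n (Finset.mem_Icc.mp hn).1 t

theorem mom_B (Y : ℕ) (β : ℕ → ℝ) (t : ℝ) :
    Bz Y β t = ∑ h ∈ Finset.Icc 1 Y, ((β h * mom_r h : ℝ) : ℂ) * mom_ex (-Real.log h) t := by
  rw [Bz]
  refine Finset.sum_congr rfl fun n hn => ?_
  rw [mom_cpow n (Finset.mem_Icc.mp hn).1 t]
  push_cast
  ring

/-- the integrand as a finite sum -/
theorem mom_expand (N Y : ℕ) (β : ℕ → ℝ) (t : ℝ) :
    (Pz N t + (starRingEnd ℂ) (Pz N t)) * Bz Y β t ^ 2 =
      ∑ n ∈ Finset.Icc 1 N, ∑ μ ∈ Finset.Icc 1 Y, ∑ ν ∈ Finset.Icc 1 Y,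
        ((mom_r n * (β μ * mom_r μ) * (β ν * mom_r ν) : ℝ) : ℂ) *
          (mom_ex (-Real.log n - Real.log μ - Real.log ν) t + mom_ex (Real.log n - Real.log μ - Real.log ν) t) := by
  rw [mom_P, mom_B, map_sum, ← Finset.sum_add_distrib, sq, Finset.sum_mul_sum, Finset.sum_mul]
  refine Finset.sum_congr rfl fun n _ => ?_
  rw [Finset.mul_sum]
  refine Finset.sum_congr rfl fun μ _ => ?_
  rw [Finset.mul_sum]
  refine Finset.sum_congr rfl fun ν _ => ?_
  rw [map_mul, mom_ex_conj, Complex.conj_ofReal, neg_neg]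
  have e1 : mom_ex (-Real.log n - Real.log μ - Real.log ν) t
      = mom_ex (-Real.log n) t * mom_ex (-Real.log μ) t * mom_ex (-Real.log ν) t := by
    rw [mom_ex_mul, mom_ex_mul]; congr 1
  have e2 : mom_ex (Real.log n - Real.log μ - Real.log ν) t
      = mom_ex (Real.log n) t * mom_ex (-Real.log μ) t * mom_ex (-Real.log ν) t := by
    rw [mom_ex_mul, mom_ex_mul]; congr 1
  rw [e1, e2]
  push_cast
  ring

theorem mom_ex_cont (ω : ℝ) : Continuous (mom_ex ω) := by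
  unfold mom_ex
  fun_prop

theorem mom_ex_int_zero (a T : ℝ) : ∫ t in a..(a + T), mom_ex 0 t = (T : ℂ) := by
  simp [mom_ex]

theorem mom_ex_int (ω a T : ℝ) (hω : ω ≠ 0) : ‖∫ t in a..(a + T), mom_ex ω t‖ ≤ 2 / |ω| := by
  unfold mom_ex
  have hc : I * (ω : ℂ) ≠ 0 := mul_ne_zero I_ne_zero (by exact_mod_cast hω)
  rw [integral_exp_mul_complex hc, norm_div]
  have hnorm : ‖I * (ω : ℂ)‖ = |ω| := by
    rw [norm_mul, Complex.norm_I, one_mul, Complex.norm_real, Real.norm_eq_abs]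
  rw [hnorm]
  apply div_le_div_of_nonneg_right _ (abs_nonneg _)
  have h1 : ∀ x : ℝ, ‖Complex.exp (I * (ω : ℂ) * (x : ℂ))‖ = 1 := by
    intro x
    have : I * (ω : ℂ) * (x : ℂ) = ((ω * x : ℝ) : ℂ) * I := by push_cast; ring
    rw [this, Complex.norm_exp_ofReal_mul_I]
  calc ‖Complex.exp (I * (ω : ℂ) * ((a + T : ℝ) : ℂ)) - Complex.exp (I * (ω : ℂ) * (a : ℂ))‖
      ≤ ‖Complex.exp (I * (ω : ℂ) * ((a + T : ℝ) : ℂ))‖ + ‖Complex.exp (I * (ω : ℂ) * (a : ℂ))‖ := norm_sub_le _ _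
    _ = 2 := by rw [h1, h1]; norm_num

/-- the integral as a finite sum -/
theorem mom_integral (N Y : ℕ) (β : ℕ → ℝ) (a T : ℝ) :
    (∫ t in a..(a + T), (Pz N t + (starRingEnd ℂ) (Pz N t)) * Bz Y β t ^ 2) =
      ∑ n ∈ Finset.Icc 1 N, ∑ μ ∈ Finset.Icc 1 Y, ∑ ν ∈ Finset.Icc 1 Y,
        ((mom_r n * (β μ * mom_r μ) * (β ν * mom_r ν) : ℝ) : ℂ) *
          ((∫ t in a..(a + T), mom_ex (-Real.log n - Real.log μ - Real.log ν) t) +
            ∫ t in a..(a + T), mom_ex (Real.log n - Real.log μ - Real.log ν) t) := by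
  simp only [mom_expand]
  have hc : ∀ n μ ν : ℕ, Continuous (fun t => ((mom_r n * (β μ * mom_r μ) * (β ν * mom_r ν) : ℝ) : ℂ) *
          (mom_ex (-Real.log n - Real.log μ - Real.log ν) t + mom_ex (Real.log n - Real.log μ - Real.log ν) t)) :=
    fun n μ ν => continuous_const.mul ((mom_ex_cont _).add (mom_ex_cont _))
  have hc2 : ∀ n μ : ℕ, Continuous (fun t => ∑ ν ∈ Finset.Icc 1 Y, ((mom_r n * (β μ * mom_r μ) * (β ν * mom_r ν) : ℝ) : ℂ) *
          (mom_ex (-Real.log n - Real.log μ - Real.log ν) t + mom_ex (Real.log n - Real.log μ - Real.log ν) t)) :=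
    fun n μ => continuous_finsetSum _ fun ν _ => hc n μ ν
  have hc3 : ∀ n : ℕ, Continuous (fun t => ∑ μ ∈ Finset.Icc 1 Y, ∑ ν ∈ Finset.Icc 1 Y,
      ((mom_r n * (β μ * mom_r μ) * (β ν * mom_r ν) : ℝ) : ℂ) *
          (mom_ex (-Real.log n - Real.log μ - Real.log ν) t + mom_ex (Real.log n - Real.log μ - Real.log ν) t)) :=
    fun n => continuous_finsetSum _ fun μ _ => hc2 n μ
  rw [intervalIntegral.integral_finsetSum (fun n _ => (hc3 n).intervalIntegrable _ _)]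
  refine Finset.sum_congr rfl fun n _ => ?_
  rw [intervalIntegral.integral_finsetSum (fun μ _ => (hc2 n μ).intervalIntegrable _ _)]
  refine Finset.sum_congr rfl fun μ _ => ?_
  rw [intervalIntegral.integral_finsetSum (fun ν _ => (hc n μ ν).intervalIntegrable _ _)]
  refine Finset.sum_congr rfl fun ν _ => ?_
  rw [intervalIntegral.integral_const_mul, intervalIntegral.integral_add ((mom_ex_cont _).intervalIntegrable _ _)
    ((mom_ex_cont _).intervalIntegrable _ _)]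

theorem mom_r_nonneg (n : ℕ) : 0 ≤ mom_r n := inv_nonneg.mpr (Real.sqrt_nonneg _)

theorem mom_r_le_one (n : ℕ) (hn : 1 ≤ n) : mom_r n ≤ 1 := by
  rw [mom_r]
  apply inv_le_one_of_one_le₀
  rw [Real.one_le_sqrt]
  exact_mod_cast hn

theorem mom_r_mul_self (n : ℕ) : mom_r n * mom_r n = (n : ℝ)⁻¹ := by
  rw [mom_r, ← mul_inv, Real.mul_self_sqrt (Nat.cast_nonneg n)]

theorem mom_r_mul (m n : ℕ) : mom_r (m * n) = mom_r m * mom_r n := by
  rw [mom_r, mom_r, mom_r, ← mul_inv, Nat.cast_mul, Real.sqrt_mul (Nat.cast_nonneg m)]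

theorem mom_r_sum (N : ℕ) : ∑ n ∈ Finset.Icc 1 N, mom_r n ≤ 2 * Real.sqrt N := by
  induction N with
  | zero => simp
  | succ N ih =>
    rw [Finset.sum_Icc_succ_top (by omega)]
    have hpos : (0 : ℝ) < ((N + 1 : ℕ) : ℝ) := by positivity
    have h1 : 0 < Real.sqrt ((N + 1 : ℕ) : ℝ) := Real.sqrt_pos.mpr hpos
    have h2 : Real.sqrt ((N + 1 : ℕ) : ℝ) ^ 2 = (N : ℝ) + 1 := by
      rw [Real.sq_sqrt hpos.le]; push_cast; ring
    have h3 : Real.sqrt (N : ℝ) ^ 2 = (N : ℝ) := Real.sq_sqrt (Nat.cast_nonneg N)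
    have h0 : 0 ≤ Real.sqrt (N : ℝ) := Real.sqrt_nonneg _
    have h4 : mom_r (N + 1) ≤ 2 * Real.sqrt ((N + 1 : ℕ) : ℝ) - 2 * Real.sqrt (N : ℝ) := by
      rw [mom_r, inv_le_iff_one_le_mul₀ h1]
      nlinarith [sq_nonneg (Real.sqrt ((N + 1 : ℕ) : ℝ) - Real.sqrt (N : ℝ))]
    linarith

/-- lower bound for the logarithm of a quotient of integers -/
theorem mom_log (n m : ℕ) (hn : 1 ≤ n) (hm : 1 ≤ m) (hne : n ≠ m) :
    1 / (2 * (m : ℝ)) ≤ |Real.log n - Real.log m| := by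
  have hnR : (0 : ℝ) < n := by exact_mod_cast hn
  have hmR : (0 : ℝ) < m := by exact_mod_cast hm
  have hm1 : (1 : ℝ) ≤ m := by exact_mod_cast hm
  rcases lt_or_gt_of_ne hne with h | h
  · -- n < m
    have h1 : (n : ℝ) + 1 ≤ m := by exact_mod_cast h
    have h2 := Real.one_sub_inv_le_log_of_pos (div_pos hmR hnR)
    rw [inv_div, Real.log_div hmR.ne' hnR.ne'] at h2
    have h3 : 1 / (2 * (m : ℝ)) ≤ 1 - n / m := by
      rw [div_le_iff₀ (by positivity)]
      have : (1 - (n : ℝ) / m) * (2 * m) = 2 * (m - n) := by field_simp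
      rw [this]; linarith
    calc 1 / (2 * (m : ℝ)) ≤ 1 - n / m := h3
      _ ≤ Real.log m - Real.log n := h2
      _ ≤ |Real.log n - Real.log m| := by rw [abs_sub_comm]; exact le_abs_self _
  · have h1 : (m : ℝ) + 1 ≤ n := by exact_mod_cast h
    have h2 := Real.one_sub_inv_le_log_of_pos (div_pos hnR hmR)
    rw [inv_div, Real.log_div hnR.ne' hmR.ne'] at h2
    have h3 : 1 / (2 * (m : ℝ)) ≤ 1 - m / n := by
      have h4 : (m : ℝ) / n ≤ m / (m + 1) := div_le_div_of_nonneg_left hmR.le (by positivity) h1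
      have h5 : 1 - (m : ℝ) / (m + 1) = 1 / (m + 1) := by field_simp; ring
      have h6 : 1 / (2 * (m : ℝ)) ≤ 1 / (m + 1) := one_div_le_one_div_of_le (by positivity) (by linarith)
      linarith
    calc 1 / (2 * (m : ℝ)) ≤ 1 - m / n := h3
      _ ≤ Real.log n - Real.log m := h2
      _ ≤ |Real.log n - Real.log m| := le_abs_self _

/-
TARGET `mom`: the first moment of `(P + conj P) B²` over an interval of length `T`.

Plain-words proof.  `P B² = ∑_{n, μ, ν} β_μ β_ν (n μ ν)^{-1/2} exp (-i t log (n μ ν))`.  Integrate term by term: the terms with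
`n μ ν = 1` give `T β_1² = T`; every other frequency is at least `log 2` in absolute value, so the others contribute at most
`∑ (n μ ν)^{-1/2} * 2 / log 2 ≤ (2 / log 2) (∑_{n≤N} n^{-1/2}) Y² ≤ (2/log 2) * 2 sqrt N * Y²`.
`conj P B² = ∑ β_μ β_ν (n μ ν)^{-1/2} exp (i t (log n - log (μ ν)))`: the terms with `n = μ ν` (note `μ ν ≤ Y² ≤ N`) give
`T ∑_{μ, ν} β_μ β_ν / (μ ν)`; for `n ≠ μ ν` one has `|log (n / (μ ν))| ≥ 1 / (2 Y²)` (if `n ≥ 2 μ ν` it is at least `log 2`,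
otherwise `|log (n/(μν))| ≥ |n - μν| / max (n, μν) ≥ 1/(2 Y²)`), so the others contribute at most
`2 * 2 Y² * (∑_{n≤N} n^{-1/2}) * Y² ≤ 8 sqrt N Y⁴`.  With `N ≤ 16 T`, `Y ≤ T^(1/500)` everything is `≤ T^(0.6)` for `T ≥ T0`.
-/
theorem mom : ∃ T0 : ℝ, 2 ≤ T0 ∧ ∀ (T : ℝ) (N Y : ℕ) (β : ℕ → ℝ), T0 ≤ T → 4 * T ≤ N → (N : ℝ) ≤ 16 * T →
    1 ≤ Y → (Y : ℝ) ≤ T ^ (1 / 500 : ℝ) → (∀ h, |β h| ≤ 1) → β 1 = 1 → ∀ a : ℝ,
    ‖(∫ t in a..(a + T), (Pz N t + (starRingEnd ℂ) (Pz N t)) * Bz Y β t ^ 2) -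
      ((T * (1 + ∑ μ ∈ Finset.Icc 1 Y, ∑ ν ∈ Finset.Icc 1 Y, β μ * β ν / (μ * ν)) : ℝ) : ℂ)‖ ≤
      T ^ (6 / 10 : ℝ) := by
  refine ⟨2 ^ 66, by norm_num, ?_⟩
  intro T N Y β hT hN1 hN2 hY1 hY2 hβ hβ1 a
  have hT1 : (1 : ℝ) ≤ T := le_trans (by norm_num) hT
  have hT0 : (0 : ℝ) < T := by linarith
  have hY0 : (1 : ℝ) ≤ Y := by exact_mod_cast hY1
  -- Y^2 ≤ N
  have hYN : Y * Y ≤ N := by
    have h1 : (Y : ℝ) * Y ≤ T ^ (1 / 500 : ℝ) * T ^ (1 / 500 : ℝ) :=
      mul_le_mul hY2 hY2 (by positivity) (by positivity)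
    have h2 : T ^ (1 / 500 : ℝ) * T ^ (1 / 500 : ℝ) ≤ T := by
      rw [← Real.rpow_add hT0]
      calc T ^ (1 / 500 + 1 / 500 : ℝ) ≤ T ^ (1 : ℝ) := Real.rpow_le_rpow_of_exponent_le hT1 (by norm_num)
        _ = T := Real.rpow_one T
    have h3 : (Y : ℝ) * Y ≤ N := by linarith
    exact_mod_cast h3
  have hN0 : 1 ≤ N := le_trans (by nlinarith) hYN
  -- the main term as a sum
  have hmain : ((T * (1 + ∑ μ ∈ Finset.Icc 1 Y, ∑ ν ∈ Finset.Icc 1 Y, β μ * β ν / (μ * ν)) : ℝ) : ℂ)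
      = ∑ n ∈ Finset.Icc 1 N, ∑ μ ∈ Finset.Icc 1 Y, ∑ ν ∈ Finset.Icc 1 Y,
        ((mom_r n * (β μ * mom_r μ) * (β ν * mom_r ν) : ℝ) : ℂ) *
          ((if n * (μ * ν) = 1 then (T : ℂ) else 0) + (if n = μ * ν then (T : ℂ) else 0)) := by
    have hA : ∑ n ∈ Finset.Icc 1 N, ∑ μ ∈ Finset.Icc 1 Y, ∑ ν ∈ Finset.Icc 1 Y,
        ((mom_r n * (β μ * mom_r μ) * (β ν * mom_r ν) : ℝ) : ℂ) * (if n * (μ * ν) = 1 then (T : ℂ) else 0) = (T : ℂ) := by
      rw [Finset.sum_eq_single 1, Finset.sum_eq_single 1, Finset.sum_eq_single 1]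
      · simp [mom_r, hβ1]
      · intro ν _ hν
        rw [if_neg (by simpa using hν), mul_zero]
      · intro h; exact absurd (Finset.mem_Icc.mpr ⟨le_refl 1, hY1⟩) h
      · intro μ _ hμ
        refine Finset.sum_eq_zero fun ν _ => ?_
        rw [if_neg, mul_zero]
        intro h
        exact hμ (Nat.eq_one_of_mul_eq_one_right (Nat.eq_one_of_mul_eq_one_left h))
      · intro h; exact absurd (Finset.mem_Icc.mpr ⟨le_refl 1, hY1⟩) h
      · intro n _ hn
        refine Finset.sum_eq_zero fun μ _ => Finset.sum_eq_zero fun ν _ => ?_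
        rw [if_neg, mul_zero]
        intro h
        exact hn (Nat.eq_one_of_mul_eq_one_right h)
      · intro h; exact absurd (Finset.mem_Icc.mpr ⟨le_refl 1, hN0⟩) h
    have hB : ∑ n ∈ Finset.Icc 1 N, ∑ μ ∈ Finset.Icc 1 Y, ∑ ν ∈ Finset.Icc 1 Y,
        ((mom_r n * (β μ * mom_r μ) * (β ν * mom_r ν) : ℝ) : ℂ) * (if n = μ * ν then (T : ℂ) else 0)
        = ((T * ∑ μ ∈ Finset.Icc 1 Y, ∑ ν ∈ Finset.Icc 1 Y, β μ * β ν / (μ * ν) : ℝ) : ℂ) := by
      rw [Finset.sum_comm]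
      rw [Finset.mul_sum, Complex.ofReal_sum]
      refine Finset.sum_congr rfl fun μ hμ => ?_
      rw [Finset.sum_comm, Finset.mul_sum, Complex.ofReal_sum]
      refine Finset.sum_congr rfl fun ν hν => ?_
      rw [Finset.sum_eq_single (μ * ν)]
      · rw [if_pos rfl, mom_r_mul]
        have h1 := mom_r_mul_self μ
        have h2 := mom_r_mul_self ν
        have h3 : mom_r μ * mom_r ν * (β μ * mom_r μ) * (β ν * mom_r ν) = β μ * β ν / (μ * ν) := by
          calc mom_r μ * mom_r ν * (β μ * mom_r μ) * (β ν * mom_r ν)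
              = (mom_r μ * mom_r μ) * (mom_r ν * mom_r ν) * (β μ * β ν) := by ring
            _ = _ := by rw [h1, h2, div_eq_mul_inv, mul_inv]; ring
        rw [h3]
        push_cast
        ring
      · intro n _ hn
        rw [if_neg hn, mul_zero]
      · intro h
        exfalso
        apply h
        rw [Finset.mem_Icc] at hμ hν ⊢
        exact ⟨Nat.one_le_iff_ne_zero.mpr (Nat.mul_ne_zero (by omega) (by omega)),
          le_trans (Nat.mul_le_mul hμ.2 hν.2) hYN⟩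
    simp only [mul_add, Finset.sum_add_distrib]
    rw [hA, hB]
    push_cast
    ring
  rw [mom_integral, hmain, ← Finset.sum_sub_distrib]
  -- termwise estimate
  have hterm : ∀ n ∈ Finset.Icc 1 N, ∀ μ ∈ Finset.Icc 1 Y, ∀ ν ∈ Finset.Icc 1 Y,
      ‖((mom_r n * (β μ * mom_r μ) * (β ν * mom_r ν) : ℝ) : ℂ) *
          ((∫ t in a..(a + T), mom_ex (-Real.log n - Real.log μ - Real.log ν) t) +
            ∫ t in a..(a + T), mom_ex (Real.log n - Real.log μ - Real.log ν) t) -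
        ((mom_r n * (β μ * mom_r μ) * (β ν * mom_r ν) : ℝ) : ℂ) *
          ((if n * (μ * ν) = 1 then (T : ℂ) else 0) + (if n = μ * ν then (T : ℂ) else 0))‖
      ≤ mom_r n * (8 * (Y : ℝ) ^ 2) := by
    intro n hn μ hμ ν hν
    rw [Finset.mem_Icc] at hn hμ hν
    have hnR : (0 : ℝ) < n := by exact_mod_cast hn.1
    have hμR : (0 : ℝ) < μ := by exact_mod_cast hμ.1
    have hνR : (0 : ℝ) < ν := by exact_mod_cast hν.1
    rw [← mul_sub, norm_mul, Complex.norm_real, Real.norm_eq_abs]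
    have hc : |mom_r n * (β μ * mom_r μ) * (β ν * mom_r ν)| ≤ mom_r n := by
      rw [abs_mul, abs_mul, abs_mul, abs_mul, abs_of_nonneg (mom_r_nonneg n), abs_of_nonneg (mom_r_nonneg μ),
        abs_of_nonneg (mom_r_nonneg ν)]
      have h1 : |β μ| * mom_r μ ≤ 1 := by
        calc |β μ| * mom_r μ ≤ 1 * 1 := mul_le_mul (hβ μ) (mom_r_le_one μ hμ.1) (mom_r_nonneg μ) zero_le_one
          _ = 1 := one_mul 1
      have h2 : |β ν| * mom_r ν ≤ 1 := by
        calc |β ν| * mom_r ν ≤ 1 * 1 := mul_le_mul (hβ ν) (mom_r_le_one ν hν.1) (mom_r_nonneg ν) zero_le_one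
          _ = 1 := one_mul 1
      have h3 : 0 ≤ |β μ| * mom_r μ := mul_nonneg (abs_nonneg _) (mom_r_nonneg μ)
      have h4 : 0 ≤ |β ν| * mom_r ν := mul_nonneg (abs_nonneg _) (mom_r_nonneg ν)
      calc mom_r n * (|β μ| * mom_r μ) * (|β ν| * mom_r ν) ≤ mom_r n * 1 * 1 := by
            apply mul_le_mul _ h2 h4 (by rw [mul_one]; exact mom_r_nonneg n)
            exact mul_le_mul_of_nonneg_left h1 (mom_r_nonneg n)
        _ = mom_r n := by ring
    have hlog1 : -Real.log n - Real.log μ - Real.log ν = -Real.log ((n * (μ * ν) : ℕ) : ℝ) := by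
      push_cast
      rw [Real.log_mul hnR.ne' (by positivity), Real.log_mul hμR.ne' hνR.ne']
      ring
    have hlog2 : Real.log n - Real.log μ - Real.log ν = Real.log n - Real.log ((μ * ν : ℕ) : ℝ) := by
      push_cast
      rw [Real.log_mul hμR.ne' hνR.ne']
      ring
    have hμν1 : 1 ≤ μ * ν := Nat.one_le_iff_ne_zero.mpr (Nat.mul_ne_zero (by omega) (by omega))
    have hE1 : ‖(∫ t in a..(a + T), mom_ex (-Real.log n - Real.log μ - Real.log ν) t)
        - (if n * (μ * ν) = 1 then (T : ℂ) else 0)‖ ≤ 4 := by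
      rw [hlog1]
      split_ifs with h
      · rw [h]
        simp only [Nat.cast_one, Real.log_one, neg_zero]
        rw [mom_ex_int_zero, sub_self, norm_zero]
        norm_num
      · rw [sub_zero]
        have h2 : 2 ≤ n * (μ * ν) := by
          have : n * (μ * ν) ≠ 0 := Nat.mul_ne_zero (by omega) (by omega)
          omega
        have h3 : Real.log 2 ≤ Real.log ((n * (μ * ν) : ℕ) : ℝ) :=
          Real.log_le_log (by norm_num) (by exact_mod_cast h2)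
        have h4 := Real.log_two_gt_d9
        have h5 : 1 / 2 ≤ |-Real.log ((n * (μ * ν) : ℕ) : ℝ)| := by
          rw [abs_neg]
          exact le_trans (by linarith) (le_abs_self _)
        refine le_trans (mom_ex_int _ _ _ (by
          intro h0
          rw [h0, abs_zero] at h5
          norm_num at h5)) ?_
        rw [div_le_iff₀ (by linarith)]
        linarith
    have hE2 : ‖(∫ t in a..(a + T), mom_ex (Real.log n - Real.log μ - Real.log ν) t)
        - (if n = μ * ν then (T : ℂ) else 0)‖ ≤ 4 * (Y : ℝ) ^ 2 := by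
      rw [hlog2]
      split_ifs with h
      · rw [h, sub_self, mom_ex_int_zero, sub_self, norm_zero]
        positivity
      · rw [sub_zero]
        have h1 := mom_log n (μ * ν) hn.1 hμν1 h
        have h2 : ((μ * ν : ℕ) : ℝ) ≤ (Y : ℝ) ^ 2 := by
          rw [sq]
          exact_mod_cast Nat.mul_le_mul hμ.2 hν.2
        have h3 : (0 : ℝ) < ((μ * ν : ℕ) : ℝ) := by exact_mod_cast hμν1
        have h4 : 1 / (2 * (Y : ℝ) ^ 2) ≤ |Real.log n - Real.log ((μ * ν : ℕ) : ℝ)| := by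
          refine le_trans (one_div_le_one_div_of_le (by positivity) ?_) h1
          linarith
        have h5 : (0 : ℝ) < 1 / (2 * (Y : ℝ) ^ 2) := by positivity
        refine le_trans (mom_ex_int _ _ _ (by
          intro h0
          rw [h0, abs_zero] at h4
          linarith)) ?_
        rw [div_le_iff₀ (by linarith)]
        calc (2 : ℝ) = 4 * (Y : ℝ) ^ 2 * (1 / (2 * (Y : ℝ) ^ 2)) := by field_simp; norm_num
          _ ≤ _ := mul_le_mul_of_nonneg_left h4 (by positivity)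
    have hsum : ‖((∫ t in a..(a + T), mom_ex (-Real.log n - Real.log μ - Real.log ν) t) +
            ∫ t in a..(a + T), mom_ex (Real.log n - Real.log μ - Real.log ν) t) -
          ((if n * (μ * ν) = 1 then (T : ℂ) else 0) + (if n = μ * ν then (T : ℂ) else 0))‖ ≤ 8 * (Y : ℝ) ^ 2 := by
      rw [add_sub_add_comm]
      refine le_trans (norm_add_le _ _) ?_
      have : (1 : ℝ) ≤ (Y : ℝ) ^ 2 := one_le_pow₀ hY0
      linarith
    exact mul_le_mul hc hsum (norm_nonneg _) (mom_r_nonneg n)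
  -- summation
  have hsum : ‖∑ n ∈ Finset.Icc 1 N, (∑ μ ∈ Finset.Icc 1 Y, ∑ ν ∈ Finset.Icc 1 Y,
        ((mom_r n * (β μ * mom_r μ) * (β ν * mom_r ν) : ℝ) : ℂ) *
          ((∫ t in a..(a + T), mom_ex (-Real.log n - Real.log μ - Real.log ν) t) +
            ∫ t in a..(a + T), mom_ex (Real.log n - Real.log μ - Real.log ν) t) -
      ∑ μ ∈ Finset.Icc 1 Y, ∑ ν ∈ Finset.Icc 1 Y,
        ((mom_r n * (β μ * mom_r μ) * (β ν * mom_r ν) : ℝ) : ℂ) *
          ((if n * (μ * ν) = 1 then (T : ℂ) else 0) + (if n = μ * ν then (T : ℂ) else 0)))‖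
      ≤ ∑ n ∈ Finset.Icc 1 N, mom_r n * (8 * (Y : ℝ) ^ 4) := by
    refine le_trans (norm_sum_le _ _) (Finset.sum_le_sum fun n hn => ?_)
    rw [← Finset.sum_sub_distrib]
    refine le_trans (norm_sum_le _ _) ?_
    have h1 : ∀ μ ∈ Finset.Icc 1 Y, ‖∑ ν ∈ Finset.Icc 1 Y,
        ((mom_r n * (β μ * mom_r μ) * (β ν * mom_r ν) : ℝ) : ℂ) *
          ((∫ t in a..(a + T), mom_ex (-Real.log n - Real.log μ - Real.log ν) t) +
            ∫ t in a..(a + T), mom_ex (Real.log n - Real.log μ - Real.log ν) t) -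
      ∑ ν ∈ Finset.Icc 1 Y,
        ((mom_r n * (β μ * mom_r μ) * (β ν * mom_r ν) : ℝ) : ℂ) *
          ((if n * (μ * ν) = 1 then (T : ℂ) else 0) + (if n = μ * ν then (T : ℂ) else 0))‖
        ≤ Y * (mom_r n * (8 * (Y : ℝ) ^ 2)) := by
      intro μ hμ
      rw [← Finset.sum_sub_distrib]
      refine le_trans (norm_sum_le _ _) ?_
      refine le_trans (Finset.sum_le_sum fun ν hν => hterm n hn μ hμ ν hν) ?_
      rw [Finset.sum_const, Nat.card_Icc, nsmul_eq_mul, Nat.add_sub_cancel]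
    refine le_trans (Finset.sum_le_sum h1) ?_
    rw [Finset.sum_const, Nat.card_Icc, nsmul_eq_mul, Nat.add_sub_cancel]
    apply le_of_eq
    ring
  refine le_trans hsum ?_
  rw [← Finset.sum_mul]
  have hr := mom_r_sum N
  have hsqrt : Real.sqrt N ≤ 4 * T ^ (1 / 2 : ℝ) := by
    have h1 : Real.sqrt N ≤ Real.sqrt (16 * T) := Real.sqrt_le_sqrt hN2
    have h2 : Real.sqrt (16 * T) = 4 * Real.sqrt T := by
      rw [Real.sqrt_mul (by norm_num)]
      congr 1
      rw [show (16 : ℝ) = 4 ^ 2 by norm_num]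
      exact Real.sqrt_sq (by norm_num)
    rw [h2] at h1
    rw [← Real.sqrt_eq_rpow]
    exact h1
  have hY4 : (Y : ℝ) ^ 4 ≤ T ^ (4 / 500 : ℝ) := by
    have h1 : (Y : ℝ) ^ 4 ≤ (T ^ (1 / 500 : ℝ)) ^ 4 := pow_le_pow_left₀ (by positivity) hY2 4
    have h2 : (T ^ (1 / 500 : ℝ)) ^ 4 = T ^ (4 / 500 : ℝ) := by
      rw [← Real.rpow_natCast, ← Real.rpow_mul hT0.le]
      norm_num
    rw [h2] at h1
    exact h1
  have hbig : (64 : ℝ) ≤ T ^ (92 / 1000 : ℝ) := by
    have h1 : ((2 : ℝ) ^ 66) ^ (92 / 1000 : ℝ) ≤ T ^ (92 / 1000 : ℝ) :=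
      Real.rpow_le_rpow (by positivity) hT (by norm_num)
    have h2 : (64 : ℝ) ≤ ((2 : ℝ) ^ 66) ^ (92 / 1000 : ℝ) := by
      rw [← Real.rpow_natCast, ← Real.rpow_mul (by norm_num)]
      calc (64 : ℝ) = 2 ^ (6 : ℝ) := by norm_num
        _ ≤ 2 ^ (((66 : ℕ) : ℝ) * (92 / 1000) : ℝ) :=
            Real.rpow_le_rpow_of_exponent_le (by norm_num) (by norm_num)
    linarith
  calc (∑ n ∈ Finset.Icc 1 N, mom_r n) * (8 * (Y : ℝ) ^ 4)
      ≤ (2 * (4 * T ^ (1 / 2 : ℝ))) * (8 * T ^ (4 / 500 : ℝ)) := by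
        apply mul_le_mul _ _ (by positivity) (by positivity)
        · linarith
        · linarith
    _ = 64 * (T ^ (1 / 2 : ℝ) * T ^ (4 / 500 : ℝ)) := by ring
    _ ≤ T ^ (92 / 1000 : ℝ) * (T ^ (1 / 2 : ℝ) * T ^ (4 / 500 : ℝ)) :=
        mul_le_mul_of_nonneg_right hbig (by positivity)
    _ = T ^ (6 / 10 : ℝ) := by
        rw [← Real.rpow_add hT0, ← Real.rpow_add hT0]
        norm_num

end Pool.Agent.Helper647.PT
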