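import Pool.Agent.Helper647_PT.Sz
import Pool.Agent.Helper647_PT.CmpA
import Pool.Agent.Helper647_PT.Mom
import Pool.Agent.Helper647_PT.Ar6

set_option autoImplicit false

/-! The first moment at the Gram points. -/

namespace Pool.Agent.Helper647.PT

open Complex Filter Topology MeasureTheory Set
open Pool.Agent.R304.GR (vt psi exp_vt)
open Pool.Agent.Helper647.GL (gp)

/-- the function whose mean is taken -/
noncomputable def GG (T t : ℝ) : ℂ :=
  (Pz (Nn T) t + (starRingEnd ℂ) (Pz (Nn T) t)) * Bz (Yn T) (bR (Real.log T)) t ^ 2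

/-- the functional equation on the line -/
lemma fe_line (t : ℝ) : cexp (I * ((2 * vt t : ℝ) : ℂ)) * riemannZeta (1 / 2 + I * t) =
    (starRingEnd ℂ) (riemannZeta (1 / 2 + I * t)) := by
  have h1 := Pool.Agent.R304.SG.Z_im t
  have h2 : (starRingEnd ℂ) (Pool.Agent.R304.SG.Z t) = Pool.Agent.R304.SG.Z t :=
    Complex.conj_eq_iff_im.2 h1
  unfold Pool.Agent.R304.SG.Z at h2
  rw [← exp_vt, map_mul, ← Complex.exp_conj] at h2
  have e1 : (starRingEnd ℂ) (I * (vt t : ℂ)) = -(I * (vt t : ℂ)) := by simp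
  rw [e1] at h2
  have e2 : cexp (I * ((2 * vt t : ℝ) : ℂ)) = cexp (I * (vt t : ℂ)) * cexp (I * (vt t : ℂ)) := by
    rw [← Complex.exp_add]; congr 1; push_cast; ring
  have e3 : cexp (I * (vt t : ℂ)) * cexp (-(I * (vt t : ℂ))) = 1 := by
    rw [← Complex.exp_add, add_neg_cancel, Complex.exp_zero]
  rw [e2, mul_assoc, ← h2, ← mul_assoc, e3, one_mul]

lemma cexp_sub_le (x y : ℝ) : ‖cexp (I * x) - cexp (I * y)‖ ≤ |x - y| := by
  have := cexp_lip 1 x y
  simpa using this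

/-- replacing the phase of the progression by the theta function -/
lemma phase_err {T t u : ℝ} (hT : 8 ≤ T) (hu1 : T ≤ u) (hu2 : u ≤ 2 * T) (hψ : psi u ≠ 0)
    (hP : ‖Pz (Nn T) t‖ ≤ T ^ (51 / 100 : ℝ)) :
    ‖Pz (Nn T) t * cexp (I * ((2 * (psi u * (t - ba u)) : ℝ) : ℂ)) - (starRingEnd ℂ) (Pz (Nn T) t)‖ ≤
      120 * T ^ (-(49 / 100) : ℝ) * (1 + (t - u) ^ 2) := by
  have hT0 : 0 < T := by linarith
  set P := Pz (Nn T) t with hPd
  have hr : 0 < T ^ (-(49 / 100) : ℝ) := Real.rpow_pos_of_pos hT0 _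
  have e1 : psi u * (t - ba u) = vt u + psi u * (t - u) := by
    unfold ba; field_simp; ring
  have e2 : T ^ (51 / 100 : ℝ) * (20 / T) = 20 * T ^ (-(49 / 100) : ℝ) := by
    have : T ^ (-(49 / 100) : ℝ) = T ^ (51 / 100 : ℝ) * T⁻¹ := by
      rw [← Real.rpow_neg_one, ← Real.rpow_add hT0]; norm_num
    rw [this]; ring
  have e3 : 100 / Real.sqrt T ≤ 100 * T ^ (-(49 / 100) : ℝ) := by
    rw [Real.sqrt_eq_rpow, div_eq_mul_inv, ← Real.rpow_neg hT0.le]
    exact mul_le_mul_of_nonneg_left (Real.rpow_le_rpow_of_exponent_le (by linarith) (by norm_num))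
      (by norm_num)
  have hcn : ‖(starRingEnd ℂ) P‖ = ‖P‖ := RCLike.norm_conj _
  by_cases ht : T / 4 ≤ t ∧ t ≤ 4 * T
  · -- the main range
    have h1 := vt_lin (T := T) (t := t) (u := u) hT ht.1 (by linarith)
    have h2 := zp hT ht.1 ht.2
    set z := riemannZeta (1 / 2 + I * t) with hz
    have h3 : ‖cexp (I * ((2 * (psi u * (t - ba u)) : ℝ) : ℂ)) - cexp (I * ((2 * vt t : ℝ) : ℂ))‖ ≤
        20 / T * (t - u) ^ 2 := by
      refine (cexp_sub_le _ _).trans ?_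
      rw [e1, show 2 * (vt u + psi u * (t - u)) - 2 * vt t = -(2 * (vt t - vt u - psi u * (t - u))) by ring,
        abs_neg, abs_mul, abs_of_pos (by norm_num : (0 : ℝ) < 2)]
      calc 2 * |vt t - vt u - psi u * (t - u)| ≤ 2 * (10 / T * (t - u) ^ 2) := by linarith
        _ = _ := by ring
    have e4 : P * cexp (I * ((2 * (psi u * (t - ba u)) : ℝ) : ℂ)) - (starRingEnd ℂ) P =
        P * (cexp (I * ((2 * (psi u * (t - ba u)) : ℝ) : ℂ)) - cexp (I * ((2 * vt t : ℝ) : ℂ))) +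
        (-(cexp (I * ((2 * vt t : ℝ) : ℂ)) * (z - P)) + (starRingEnd ℂ) (z - P)) := by
      rw [map_sub, ← fe_line]
      ring
    rw [e4]
    calc _ ≤ ‖P * (cexp (I * ((2 * (psi u * (t - ba u)) : ℝ) : ℂ)) - cexp (I * ((2 * vt t : ℝ) : ℂ)))‖ +
          (‖-(cexp (I * ((2 * vt t : ℝ) : ℂ)) * (z - P))‖ + ‖(starRingEnd ℂ) (z - P)‖) :=
          (norm_add_le _ _).trans (add_le_add le_rfl (norm_add_le _ _))
      _ = ‖P‖ * ‖cexp (I * ((2 * (psi u * (t - ba u)) : ℝ) : ℂ)) - cexp (I * ((2 * vt t : ℝ) : ℂ))‖ +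
          (‖z - P‖ + ‖z - P‖) := by
          rw [norm_mul, norm_neg, norm_mul, norm_cexp_I, one_mul, RCLike.norm_conj]
      _ ≤ T ^ (51 / 100 : ℝ) * (20 / T * (t - u) ^ 2) + (50 / Real.sqrt T + 50 / Real.sqrt T) :=
          add_le_add (mul_le_mul hP h3 (norm_nonneg _) (by positivity)) (add_le_add h2 h2)
      _ = (T ^ (51 / 100 : ℝ) * (20 / T)) * (t - u) ^ 2 + 100 / Real.sqrt T := by ring
      _ ≤ 20 * T ^ (-(49 / 100) : ℝ) * (t - u) ^ 2 + 100 * T ^ (-(49 / 100) : ℝ) := by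
          rw [e2]; linarith
      _ ≤ _ := by nlinarith [mul_nonneg hr.le (sq_nonneg (t - u))]
  · -- far away
    have h1 : T ^ 2 / 2 ≤ (t - u) ^ 2 := by
      rw [not_and_or, not_le, not_le] at ht
      rcases ht with h | h <;> nlinarith
    have h2 : ‖P * cexp (I * ((2 * (psi u * (t - ba u)) : ℝ) : ℂ)) - (starRingEnd ℂ) P‖ ≤
        2 * T ^ (51 / 100 : ℝ) := by
      refine (norm_sub_le _ _).trans ?_
      rw [norm_mul, norm_cexp_I, mul_one, hcn]
      linarith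
    refine h2.trans ?_
    have h3 : T ^ (51 / 100 : ℝ) = T * T ^ (-(49 / 100) : ℝ) := by
      have : T * T ^ (-(49 / 100) : ℝ) = T ^ (1 : ℝ) * T ^ (-(49 / 100) : ℝ) := by rw [Real.rpow_one]
      rw [this, ← Real.rpow_add hT0]; norm_num
    rw [h3]
    have h4 : 2 * T ≤ 120 * (1 + (t - u) ^ 2) := by nlinarith
    nlinarith

/-- the pointwise identity up to small errors -/
theorem E2pt {E : ℝ → ℝ} {C c0 : ℝ} (hE : KE E C c0) : ∀ K : ℝ, 8 ≤ K →
    ∃ T0 : ℝ, 8 ≤ T0 ∧ ∀ T : ℝ, T0 ≤ T → ∀ u : ℝ, T ≤ u → u ≤ 2 * T →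
    ‖(K / Real.log T) • ∫ v, (E v ^ 2) • GG T (u + K / Real.log T * v)‖ ≤
      13 / Real.log T * (∑ j ∈ JT T, |XX T j| * E ((gp j - u) / (K / Real.log T)) ^ 2) +
        T ^ (-(1 / 4) : ℝ) := by
  obtain ⟨C1, T1, hC1, hT1, hps⟩ := psi_size
  obtain ⟨T2, hT2, hgf⟩ := gram_facts
  obtain ⟨T3, hT3, hsz⟩ := sizes
  obtain ⟨T4, hT4, hcmp⟩ := cmpA E C hE.cont hE.lip hE.dec
  intro K hK
  have hev : ∀ᶠ T : ℝ in atTop, 10 * C1 + 1 ≤ Real.log T ∧ K ≤ Real.log T ∧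
      200 * C ^ 2 * K + 1 + 120 * mW E ≤ T ^ (4 / 100 : ℝ) := by
    have a1 : ∀ᶠ T : ℝ in atTop, 10 * C1 + 1 ≤ Real.log T :=
      Real.tendsto_log_atTop.eventually_ge_atTop _
    have a2 : ∀ᶠ T : ℝ in atTop, K ≤ Real.log T := Real.tendsto_log_atTop.eventually_ge_atTop _
    have a3 : ∀ᶠ T : ℝ in atTop, 200 * C ^ 2 * K + 1 + 120 * mW E ≤ T ^ (4 / 100 : ℝ) :=
      (tendsto_rpow_atTop (by norm_num)).eventually_ge_atTop _
    filter_upwards [a1, a2, a3] with T b1 b2 b3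
    exact ⟨b1, b2, b3⟩
  obtain ⟨T5, hT5⟩ := hev.exists_forall_of_atTop
  refine ⟨max (max (max T1 T2) (max T3 T4)) T5,
    hT1.trans ((le_max_left _ _).trans ((le_max_left _ _).trans (le_max_left _ _))), fun T hT u hu1 hu2 => ?_⟩
  have hTT : max (max T1 T2) (max T3 T4) ≤ T := (le_max_left _ _).trans hT
  have hTT1 : T1 ≤ T := ((le_max_left _ _).trans (le_max_left _ _)).trans hTT
  have hTT2 : T2 ≤ T := ((le_max_right _ _).trans (le_max_left _ _)).trans hTT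
  have hTT3 : T3 ≤ T := ((le_max_left _ _).trans (le_max_right _ _)).trans hTT
  have hTT4 : T4 ≤ T := ((le_max_right _ _).trans (le_max_right _ _)).trans hTT
  have hTT5 : T5 ≤ T := (le_max_right _ _).trans hT
  have hT8 : 8 ≤ T := hT1.trans hTT1
  have hT0 : 0 < T := by linarith
  obtain ⟨g1, g2, g3⟩ := hT5 T hTT5
  obtain ⟨p1, p2, p3, p4⟩ := hps T u hTT1 (by linarith) (by linarith)
  obtain ⟨f1, f2, f3, f4, f5⟩ := hgf T hTT2
  obtain ⟨s1, s2, s3, s4, s5, s6⟩ := hsz T hTT3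
  set L := Real.log T with hLd
  have hL0 : 0 < L := by linarith
  have hpi := Real.pi_gt_three
  have hpi4 := Real.pi_lt_four
  have hψ0 : 0 < psi u := by linarith
  have hψ3 : 2 / 5 * L ≤ psi u := by
    have := (abs_le.1 p1).1
    linarith
  have hδ : 0 < dl u := by unfold dl; positivity
  have hδ1 : dl u ≤ 1 := by unfold dl; rw [div_le_one hψ0]; linarith
  have hδL : dl u ≤ 13 / L := by
    unfold dl; rw [div_le_div_iff₀ hψ0 hL0]
    have := Real.pi_lt_d2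
    nlinarith
  have hpd : psi u * dl u = Real.pi := by unfold dl; field_simp
  set h := K / L with hhd
  have hh : 0 < h := by positivity
  have hh1 : h ≤ 1 := by rw [hhd, div_le_one hL0]; exact g2
  have hM0 : 0 ≤ T ^ (51 / 100 : ℝ) := Real.rpow_nonneg hT0.le _
  have hN : ∀ t, ‖F2 T t‖ ≤ T ^ (51 / 100 : ℝ) := by
    intro t
    refine (s2.norm_le t).trans ?_
    exact div_le_self hM0 (by linarith)
  have hLip : ∀ t t', ‖F2 T t - F2 T t'‖ ≤ T ^ (51 / 100 : ℝ) * |t - t'| := by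
    intro t t'
    refine (s2.lip (R := 2 * L) (by linarith) (by linarith) (by linarith) t t').trans (le_of_eq ?_)
    field_simp
  -- step two: comparison
  have h2 := hcmp T h (dl u) (ba u) u (T ^ (51 / 100 : ℝ)) (JT T) gp (fun _ => 1)
    (F2 T) hTT4 (div_le_div_of_nonneg_right (by linarith) hL0.le) hh1
    (by unfold dl; rw [div_le_div_iff₀ hL0 hψ0]; nlinarith) hδ1
    hM0 hN hLip (fun _ => by simp) JT_card (f4 u (by linarith) (by linarith)) (f5 u hu1 hu2)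
  simp only [one_mul] at h2
  -- step three: summation formula
  set a := ba u with ha
  have hS : ∀ l : ℤ, l ∉ ({-1, 0} : Finset ℤ) → ∀ ω : ℝ, -(101 / 100 * L) ≤ ω →
      ω ≤ 0 → 1 / h ≤ |ω - 2 * Real.pi * l / dl u| := by
    intro l hl ω h1 h2
    rw [Finset.mem_insert, Finset.mem_singleton, not_or] at hl
    have e1 : 2 * Real.pi * l / dl u = 2 * psi u * l := by
      rw [← hpd]; field_simp
    rw [e1]
    have h3 : 1 / h ≤ L / 8 := by
      rw [hhd, one_div_div]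
      exact div_le_div_of_nonneg_left hL0.le (by norm_num) hK
    refine h3.trans ?_
    rcases lt_or_gt_of_ne hl.2 with h | h
    · have h4 : (l : ℝ) ≤ -2 := by exact_mod_cast (by omega : l ≤ -2)
      refine le_trans ?_ (le_abs_self _)
      nlinarith
    · have h4 : (1 : ℝ) ≤ l := by exact_mod_cast (by omega : 1 ≤ l)
      refine le_trans ?_ (neg_le_abs _)
      nlinarith
  have hP := s2.poisson hE a u hh hδ {-1, 0} hS
  rw [Finset.sum_pair (by decide)] at hP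
  -- the two integrals
  have hBc := Bz_cont (Yn T) (bR L)
  have hPc := Pz_cont (Nn T)
  have hF2c : Continuous (F2 T) := s2.cont
  have i0 : ∫ t : ℝ, F2 T t * cexp (-(I * (2 * Real.pi * ((0 : ℤ) : ℂ) / dl u) * (t - a))) *
      ((E ((t - u) / h) ^ 2 : ℝ) : ℂ) = h • ∫ v, (E v ^ 2) • F2 T (u + h * v) := by
    rw [← cov (fun v => E v ^ 2) (F2 T) hh u]
    refine integral_congr_ae (ae_of_all _ fun t => ?_)
    simp only
    rw [Int.cast_zero, mul_zero, zero_div, mul_zero, zero_mul, neg_zero, Complex.exp_zero, mul_one,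
      Complex.real_smul]
    ring
  have i1 : ∫ t : ℝ, F2 T t * cexp (-(I * (2 * Real.pi * ((-1 : ℤ) : ℂ) / dl u) * (t - a))) *
      ((E ((t - u) / h) ^ 2 : ℝ) : ℂ) = h • ∫ v, (E v ^ 2) •
        (F2 T (u + h * v) * cexp (I * ((2 * (psi u * ((u + h * v) - a)) : ℝ) : ℂ))) := by
    rw [← cov (fun v => E v ^ 2) (fun t => F2 T t * cexp (I * ((2 * (psi u * (t - a)) : ℝ) : ℂ))) hh u]
    refine integral_congr_ae (ae_of_all _ fun t => ?_)
    simp only
    have e1 : cexp (-(I * (2 * Real.pi * ((-1 : ℤ) : ℂ) / dl u) * (t - a))) =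
        cexp (I * ((2 * (psi u * (t - a)) : ℝ) : ℂ)) := by
      congr 1
      have : (2 * Real.pi : ℂ) / dl u = 2 * psi u := by
        rw [← hpd]
        have hδ' : (dl u : ℂ) ≠ 0 := by exact_mod_cast hδ.ne'
        push_cast
        field_simp
      push_cast
      rw [mul_neg_one, neg_div, this]
      ring
    rw [e1, Complex.real_smul]
    ring
  rw [i0, i1] at hP
  -- bounded integrands
  have hw : ∀ v : ℝ, 1 ≤ (1 + v ^ 2) ^ 40 := fun v => one_le_pow₀ (by nlinarith [sq_nonneg v])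
  have hw1 : ∀ v : ℝ, 1 + v ^ 2 ≤ (1 + v ^ 2) ^ 40 := fun v =>
    le_self_pow₀ (by nlinarith [sq_nonneg v]) (by norm_num)
  have j0 : Integrable fun v => (E v ^ 2) • F2 T (u + h * v) :=
    hE.int_smul (by fun_prop) (B := T ^ (51 / 100 : ℝ)) fun v => by nlinarith [hN (u + h * v), hw v]
  have j1 : Integrable fun v => (E v ^ 2) •
        (F2 T (u + h * v) * cexp (I * ((2 * (psi u * ((u + h * v) - a)) : ℝ) : ℂ))) :=
    hE.int_smul (by fun_prop) (B := T ^ (51 / 100 : ℝ)) fun v => by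
      rw [norm_mul, norm_cexp_I, mul_one]
      nlinarith [hN (u + h * v), hw v]
  set Cj : ℝ → ℂ := fun t => (starRingEnd ℂ) (Pz (Nn T) t) * Bz (Yn T) (bR L) t ^ 2 with hCj
  have hCjc : Continuous Cj := by
    rw [hCj]
    exact (Complex.continuous_conj.comp hPc).mul (hBc.pow 2)
  have hCjN : ∀ t, ‖Cj t‖ = ‖F2 T t‖ := by
    intro t
    rw [hCj]
    unfold F2
    simp only
    rw [norm_mul, norm_mul, RCLike.norm_conj]
  have j2 : Integrable fun v => (E v ^ 2) • Cj (u + h * v) :=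
    hE.int_smul (by fun_prop) (B := T ^ (51 / 100 : ℝ)) fun v => by
      rw [hCjN]
      nlinarith [hN (u + h * v), hw v]
  have e5 : ∫ v, (E v ^ 2) • GG T (u + h * v) = (∫ v, (E v ^ 2) • F2 T (u + h * v)) +
      ∫ v, (E v ^ 2) • Cj (u + h * v) := by
    rw [← integral_add j0 j2]
    refine integral_congr_ae (ae_of_all _ fun v => ?_)
    simp only [← smul_add]
    congr 1
    rw [hCj]
    unfold GG F2
    rw [← hLd]
    ring
  -- the error in the phase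
  have h4 : ‖(∫ v, (E v ^ 2) • (F2 T (u + h * v) * cexp (I * ((2 * (psi u * ((u + h * v) - a)) : ℝ) : ℂ)))) -
      ∫ v, (E v ^ 2) • Cj (u + h * v)‖ ≤ 120 * T ^ (-(48 / 100) : ℝ) * mW E := by
    rw [← integral_sub j1 j2]
    simp only [← smul_sub]
    refine hE.norm_int_le fun v => ?_
    set t := u + h * v with ht
    have k1 := phase_err hT8 hu1 hu2 hψ0.ne' (s4 t)
    have e6 : F2 T t * cexp (I * ((2 * (psi u * (t - a)) : ℝ) : ℂ)) - Cj t =
        (Pz (Nn T) t * cexp (I * ((2 * (psi u * (t - ba u)) : ℝ) : ℂ)) - (starRingEnd ℂ) (Pz (Nn T) t)) *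
          Bz (Yn T) (bR L) t ^ 2 := by
      rw [hCj, ha]
      unfold F2
      rw [← hLd]
      ring
    rw [e6, norm_mul, norm_pow]
    have e7 : T ^ (-(48 / 100) : ℝ) = T ^ (-(49 / 100) : ℝ) * T ^ (1 / 100 : ℝ) := by
      rw [← Real.rpow_add hT0]; norm_num
    have k2 : (t - u) ^ 2 ≤ v ^ 2 := by
      rw [ht, show u + h * v - u = h * v by ring, mul_pow]
      have : h ^ 2 ≤ 1 := pow_le_one₀ hh.le hh1
      nlinarith [sq_nonneg v]
    have k3 : 0 < T ^ (-(49 / 100) : ℝ) := Real.rpow_pos_of_pos hT0 _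
    have k4 : 0 < T ^ (1 / 100 : ℝ) := Real.rpow_pos_of_pos hT0 _
    calc _ ≤ (120 * T ^ (-(49 / 100) : ℝ) * (1 + (t - u) ^ 2)) * T ^ (1 / 100 : ℝ) :=
          mul_le_mul k1 (s3 t) (sq_nonneg _) (by positivity)
      _ ≤ (120 * T ^ (-(49 / 100) : ℝ) * (1 + v ^ 2) ^ 40) * T ^ (1 / 100 : ℝ) := by
          refine mul_le_mul_of_nonneg_right ?_ k4.le
          refine mul_le_mul_of_nonneg_left ?_ (by positivity)
          linarith [hw1 v]
      _ = _ := by rw [e7]; ring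
  -- step one
  have h1 : ‖(∑ j ∈ JT T, riemannZeta (1 / 2 + I * gp j) * Bz (Yn T) (bR L) (gp j) ^ 2 *
        ((E ((gp j - u) / h) ^ 2 : ℝ) : ℂ)) -
      ∑ j ∈ JT T, F2 T (gp j) * ((E ((gp j - u) / h) ^ 2 : ℝ) : ℂ)‖ ≤
      50 / Real.sqrt T * T ^ (1 / 100 : ℝ) * (4 * C ^ 2 * K) := by
    rw [← Finset.sum_sub_distrib]
    refine (norm_sum_le _ _).trans ?_
    have hb : ∀ j ∈ JT T, ‖riemannZeta (1 / 2 + I * gp j) * Bz (Yn T) (bR L) (gp j) ^ 2 *
        ((E ((gp j - u) / h) ^ 2 : ℝ) : ℂ) - F2 T (gp j) * ((E ((gp j - u) / h) ^ 2 : ℝ) : ℂ)‖ ≤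
        50 / Real.sqrt T * T ^ (1 / 100 : ℝ) * E ((gp j - u) / h) ^ 2 := by
      intro j hj
      have hj' := hj
      unfold JT at hj'
      rw [Finset.mem_filter] at hj'
      have e : riemannZeta (1 / 2 + I * gp j) * Bz (Yn T) (bR L) (gp j) ^ 2 *
          ((E ((gp j - u) / h) ^ 2 : ℝ) : ℂ) - F2 T (gp j) * ((E ((gp j - u) / h) ^ 2 : ℝ) : ℂ) =
          (riemannZeta (1 / 2 + I * gp j) - Pz (Nn T) (gp j)) *
            Bz (Yn T) (bR L) (gp j) ^ 2 * ((E ((gp j - u) / h) ^ 2 : ℝ) : ℂ) := by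
        unfold F2
        rw [← hLd]
        ring
      rw [e, norm_mul, norm_mul, norm_pow, Complex.norm_real, Real.norm_eq_abs, abs_of_nonneg (sq_nonneg _)]
      refine mul_le_mul_of_nonneg_right ?_ (sq_nonneg _)
      exact mul_le_mul (zp hT8 (by linarith [hj'.2.1]) (by linarith [hj'.2.2])) (s3 _) (sq_nonneg _)
        (by positivity)
    refine (Finset.sum_le_sum hb).trans ?_
    rw [← Finset.mul_sum]
    exact mul_le_mul_of_nonneg_left (ker_sum hE hK s5 f3 u).2 (by positivity)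
  -- the sizes of the errors
  have e1 : 50 / Real.sqrt T * T ^ (1 / 100 : ℝ) * (4 * C ^ 2 * K) =
      200 * C ^ 2 * K * T ^ (-(49 / 100) : ℝ) := by
    have : T ^ (-(49 / 100) : ℝ) = T ^ (1 / 100 : ℝ) * (Real.sqrt T)⁻¹ := by
      rw [Real.sqrt_eq_rpow, ← Real.rpow_neg hT0.le, ← Real.rpow_add hT0]; norm_num
    rw [this]
    ring
  have e2 : T ^ (51 / 100 : ℝ) * T ^ (-(8 / 10) : ℝ) = T ^ (-(29 / 100) : ℝ) := by
    rw [← Real.rpow_add hT0]; norm_num
  have hmW := mW_nonneg E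
  have e3 : 200 * C ^ 2 * K * T ^ (-(49 / 100) : ℝ) + T ^ (-(29 / 100) : ℝ) +
      120 * T ^ (-(48 / 100) : ℝ) * mW E ≤ T ^ (-(1 / 4) : ℝ) := by
    have k1 : T ^ (-(49 / 100) : ℝ) ≤ T ^ (-(29 / 100) : ℝ) :=
      Real.rpow_le_rpow_of_exponent_le (by linarith) (by norm_num)
    have k1' : T ^ (-(48 / 100) : ℝ) ≤ T ^ (-(29 / 100) : ℝ) :=
      Real.rpow_le_rpow_of_exponent_le (by linarith) (by norm_num)
    have k2 : T ^ (-(1 / 4) : ℝ) = T ^ (4 / 100 : ℝ) * T ^ (-(29 / 100) : ℝ) := by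
      rw [← Real.rpow_add hT0]; norm_num
    have k3 : 0 < T ^ (-(29 / 100) : ℝ) := Real.rpow_pos_of_pos hT0 _
    rw [k2]
    have k4 := mul_le_mul_of_nonneg_left k1 (by positivity : 0 ≤ 200 * C ^ 2 * K)
    have k5 := mul_le_mul_of_nonneg_left k1' (by positivity : 0 ≤ 120 * mW E)
    have k6 := mul_le_mul_of_nonneg_right g3 k3.le
    nlinarith
  rw [e1] at h1
  rw [e2] at h2
  set Ac : ℂ := ∑ j ∈ JT T, riemannZeta (1 / 2 + I * gp j) * Bz (Yn T) (bR L) (gp j) ^ 2 *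
        ((E ((gp j - u) / h) ^ 2 : ℝ) : ℂ) with hAc
  set A1 : ℂ := ∑ j ∈ JT T, F2 T (gp j) * ((E ((gp j - u) / h) ^ 2 : ℝ) : ℂ)
  set A2 : ℂ := ∑' j : ℤ, F2 T (a + dl u * j) * ((E ((a + dl u * j - u) / h) ^ 2 : ℝ) : ℂ)
  set I1 : ℂ := ∫ v, (E v ^ 2) • (F2 T (u + h * v) * cexp (I * ((2 * (psi u * ((u + h * v) - a)) : ℝ) : ℂ)))
  set I0 : ℂ := ∫ v, (E v ^ 2) • F2 T (u + h * v)
  set I2 : ℂ := ∫ v, (E v ^ 2) • Cj (u + h * v)
  have hδc : (dl u : ℂ) ≠ 0 := by exact_mod_cast hδ.ne'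
  have e8 : h • (I0 + I2) = (dl u : ℂ) * Ac - (dl u : ℂ) * (Ac - A1) - (dl u : ℂ) * (A1 - A2) -
      (h : ℂ) * (I1 - I2) := by
    rw [Complex.real_smul]
    have : (dl u : ℂ) * A2 = (h : ℂ) * I1 + (h : ℂ) * I0 := by
      rw [hP, Complex.real_smul, Complex.real_smul]
      field_simp
    linear_combination (-1 : ℂ) * this
  have hAcn : ‖Ac‖ ≤ ∑ j ∈ JT T, |XX T j| * E ((gp j - u) / h) ^ 2 := by
    rw [hAc]
    refine (norm_sum_le _ _).trans (le_of_eq ?_)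
    refine Finset.sum_congr rfl fun j hj => ?_
    rw [norm_mul, Complex.norm_real, Real.norm_eq_abs, abs_of_nonneg (sq_nonneg _), XX_abs (f1 j hj), ← hLd]
  rw [e5, e8]
  have hdn : ‖(dl u : ℂ)‖ = dl u := by rw [Complex.norm_real, Real.norm_eq_abs, abs_of_pos hδ]
  have hhn : ‖(h : ℂ)‖ = h := by rw [Complex.norm_real, Real.norm_eq_abs, abs_of_pos hh]
  have hS0 : 0 ≤ ∑ j ∈ JT T, |XX T j| * E ((gp j - u) / h) ^ 2 :=
    Finset.sum_nonneg fun j _ => by positivity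
  calc _ ≤ ‖(dl u : ℂ) * Ac‖ + ‖(dl u : ℂ) * (Ac - A1)‖ + ‖(dl u : ℂ) * (A1 - A2)‖ + ‖(h : ℂ) * (I1 - I2)‖ :=
        (norm_sub_le _ _).trans (add_le_add ((norm_sub_le _ _).trans (add_le_add (norm_sub_le _ _) le_rfl))
          le_rfl)
    _ = dl u * ‖Ac‖ + dl u * ‖Ac - A1‖ + dl u * ‖A1 - A2‖ + h * ‖I1 - I2‖ := by
        rw [norm_mul, norm_mul, norm_mul, norm_mul, hdn, hhn]
    _ ≤ 13 / L * (∑ j ∈ JT T, |XX T j| * E ((gp j - u) / h) ^ 2) +
        1 * (200 * C ^ 2 * K * T ^ (-(49 / 100) : ℝ)) + 1 * T ^ (-(29 / 100) : ℝ) +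
        1 * (120 * T ^ (-(48 / 100) : ℝ) * mW E) := by
        refine add_le_add (add_le_add (add_le_add ?_ ?_) ?_) ?_
        · exact mul_le_mul hδL hAcn (norm_nonneg _) (by positivity)
        · exact mul_le_mul hδ1 h1 (norm_nonneg _) (by norm_num)
        · exact mul_le_mul hδ1 h2 (norm_nonneg _) (by norm_num)
        · exact mul_le_mul hh1 h4 (norm_nonneg _) (by norm_num)
    _ ≤ _ := by linarith

end Pool.Agent.Helper647.PT
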