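import Pool.Agent.Helper647_PT.Etwo

set_option autoImplicit false

/-! The first moment at the Gram points: lower bound. -/

namespace Pool.Agent.Helper647.PT

open Complex Filter Topology MeasureTheory Set
open Pool.Agent.R304.GR (vt psi exp_vt)
open Pool.Agent.Helper647.GL (gp)

/-- the lower bound for the sums of absolute values -/
theorem E2 {E : ℝ → ℝ} {C c0 : ℝ} (hE : KE E C c0) : ∃ c1 : ℝ, 0 < c1 ∧ ∀ K : ℝ, 8 ≤ K →
    ∃ T0 : ℝ, 8 ≤ T0 ∧ ∀ T : ℝ, T0 ≤ T →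
    c1 * K * T ≤ ∫ u in T..(2 * T), ∑ j ∈ JT T, |XX T j| * E ((gp j - u) / (K / Real.log T)) ^ 2 := by
  have hc0 := hE.hc0
  refine ⟨c0 / 26, by positivity, fun K hK => ?_⟩
  obtain ⟨T1, hT1, h1⟩ := E2pt hE K hK
  obtain ⟨T2, hT2, h2⟩ := mom
  obtain ⟨T3, hT3, hsz⟩ := sizes
  obtain ⟨C4, hC4, h4⟩ := r1_bound
  have hev : ∀ᶠ T : ℝ in atTop, 4 * C4 ≤ Real.log T ∧ 4 ≤ T ^ (4 / 10 : ℝ) ∧
      2 * Real.log T ≤ 8 * c0 * T ^ (1 / 4 : ℝ) := by
    have a1 : ∀ᶠ T : ℝ in atTop, 4 * C4 ≤ Real.log T :=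
      Real.tendsto_log_atTop.eventually_ge_atTop _
    have a2 : ∀ᶠ T : ℝ in atTop, (4 : ℝ) ≤ T ^ (4 / 10 : ℝ) :=
      (tendsto_rpow_atTop (by norm_num)).eventually_ge_atTop _
    have a3 : ∀ᶠ T : ℝ in atTop, 2 * Real.log T ≤ 8 * c0 * T ^ (1 / 4 : ℝ) := by
      have := (isLittleO_log_rpow_atTop (show (0 : ℝ) < 1 / 4 by norm_num)).bound
        (show (0 : ℝ) < 4 * c0 by positivity)
      filter_upwards [this, eventually_ge_atTop (1 : ℝ)] with T hT hT1
      rw [Real.norm_eq_abs, Real.norm_eq_abs, abs_of_nonneg (Real.log_nonneg hT1),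
        abs_of_nonneg (Real.rpow_nonneg (by linarith) _)] at hT
      linarith
    filter_upwards [a1, a2, a3] with T b1 b2 b3
    exact ⟨b1, b2, b3⟩
  obtain ⟨T5, hT5⟩ := hev.exists_forall_of_atTop
  refine ⟨max (max T1 T2) (max T3 T5), hT1.trans ((le_max_left _ _).trans (le_max_left _ _)),
    fun T hT => ?_⟩
  have hTT1 : T1 ≤ T := ((le_max_left _ _).trans (le_max_left _ _)).trans hT
  have hTT2 : T2 ≤ T := ((le_max_right _ _).trans (le_max_left _ _)).trans hT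
  have hTT3 : T3 ≤ T := ((le_max_left _ _).trans (le_max_right _ _)).trans hT
  have hTT5 : T5 ≤ T := ((le_max_right _ _).trans (le_max_right _ _)).trans hT
  have hT8 : 8 ≤ T := hT1.trans hTT1
  have hT0 : 0 < T := by linarith
  obtain ⟨s1, s2, s3, s4, s5, s6⟩ := hsz T hTT3
  obtain ⟨g1, g2, g3⟩ := hT5 T hTT5
  have h1' := h1 T hTT1
  have h2' := h2 T (Nn T) (Yn T) (bR (Real.log T)) hTT2 (by linarith [Nn_ge T]) (Nn_le (by linarith))
    (Yn_pos hT0) s6 (fun n => bR_abs _ _) (bR_one _)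
  have h4' := h4 (Real.log T) (Yn T) s5 (exp_le_Yn hT0)
  set L := Real.log T with hLd
  have hL0 : 0 < L := by linarith
  set r : ℝ := ∑ μ ∈ Finset.Icc 1 (Yn T), ∑ ν ∈ Finset.Icc 1 (Yn T), bR L μ * bR L ν / (μ * ν) with hr
  have hr1 : |r| ≤ 1 / 4 := by
    refine h4'.trans ?_
    rw [div_le_div_iff₀ hL0 (by norm_num)]
    linarith
  set h := K / L with hhd
  have hh : 0 < h := by positivity
  have hBc := Bz_cont (Yn T) (bR L)
  have hPc := Pz_cont (Nn T)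
  have hGc : Continuous (GG T) := by
    unfold GG
    exact (hPc.add (Complex.continuous_conj.comp hPc)).mul (hBc.pow 2)
  have hM0 : 0 ≤ T ^ (51 / 100 : ℝ) := Real.rpow_nonneg hT0.le _
  have hGb : ∀ t, ‖GG T t‖ ≤ 2 * T ^ (51 / 100 : ℝ) := by
    intro t
    have hN : ‖F2 T t‖ ≤ T ^ (51 / 100 : ℝ) := by
      refine (s2.norm_le t).trans ?_
      exact div_le_self hM0 (by linarith)
    unfold F2 at hN
    rw [norm_mul] at hN
    unfold GG
    rw [norm_mul]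
    have : ‖Pz (Nn T) t + (starRingEnd ℂ) (Pz (Nn T) t)‖ ≤ 2 * ‖Pz (Nn T) t‖ := by
      refine (norm_add_le _ _).trans ?_
      rw [RCLike.norm_conj]
      linarith
    calc _ ≤ 2 * ‖Pz (Nn T) t‖ * ‖Bz (Yn T) (bR (Real.log T)) t ^ 2‖ :=
          mul_le_mul_of_nonneg_right this (norm_nonneg _)
      _ ≤ _ := by linarith
  obtain ⟨w1, w2, w3⟩ := hE.swp hGc hGb h (U1 := T) (U2 := 2 * T) (by linarith)
  -- the inner integrals
  have hin : ∀ v : ℝ, ‖(∫ u in T..(2 * T), GG T (u + h * v)) - ((T * (1 + r) : ℝ) : ℂ)‖ ≤ T ^ (6 / 10 : ℝ) := by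
    intro v
    rw [intervalIntegral.integral_comp_add_right (fun t => GG T t) (h * v)]
    have h5 := h2' (T + h * v)
    rw [show T + h * v + T = 2 * T + h * v by ring] at h5
    exact h5
  have hAi := hE.int_sq
  set A := ∫ v, E v ^ 2 with hA
  have hA0 : 2 * c0 ≤ A := hE.int_sq_pos
  have h6 : ‖(∫ v, (E v ^ 2) • ∫ u in T..(2 * T), GG T (u + h * v)) - ((A * (T * (1 + r)) : ℝ) : ℂ)‖ ≤
      T ^ (6 / 10 : ℝ) * A := by
    have k1 : Integrable fun v : ℝ => (E v ^ 2) • ((T * (1 + r) : ℝ) : ℂ) := hAi.smul_const _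
    have k2 : ∫ v : ℝ, (E v ^ 2) • ((T * (1 + r) : ℝ) : ℂ) = ((A * (T * (1 + r)) : ℝ) : ℂ) := by
      rw [integral_smul_const, ← hA, Complex.real_smul]
      push_cast; ring
    rw [← k2, ← integral_sub w2 k1, hA, ← integral_const_mul]
    refine norm_integral_le_of_norm_le (hAi.const_mul _) (ae_of_all _ fun v => ?_)
    rw [← smul_sub, norm_smul, Real.norm_eq_abs, abs_of_nonneg (sq_nonneg _), mul_comm]
    exact mul_le_mul_of_nonneg_right (hin v) (sq_nonneg _)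
  have h7 : T * c0 ≤ ‖∫ v, (E v ^ 2) • ∫ u in T..(2 * T), GG T (u + h * v)‖ := by
    set Q := ∫ v, (E v ^ 2) • ∫ u in T..(2 * T), GG T (u + h * v)
    have k1 : ‖((A * (T * (1 + r)) : ℝ) : ℂ)‖ ≤ ‖Q‖ + T ^ (6 / 10 : ℝ) * A := by
      calc ‖((A * (T * (1 + r)) : ℝ) : ℂ)‖ = ‖Q - (Q - ((A * (T * (1 + r)) : ℝ) : ℂ))‖ := by
            congr 1; ring
        _ ≤ _ := (norm_sub_le _ _).trans (add_le_add le_rfl h6)
    have k2 : A * (T * (1 + r)) ≤ ‖((A * (T * (1 + r)) : ℝ) : ℂ)‖ := by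
      rw [Complex.norm_real]; exact le_abs_self _
    have k3 : T ^ (6 / 10 : ℝ) ≤ T / 4 := by
      have e : T = T ^ (4 / 10 : ℝ) * T ^ (6 / 10 : ℝ) := by
        rw [← Real.rpow_add hT0]; norm_num
      have h8 : 0 < T ^ (6 / 10 : ℝ) := Real.rpow_pos_of_pos hT0 _
      have h9 : 4 * T ^ (6 / 10 : ℝ) ≤ T := by
        calc 4 * T ^ (6 / 10 : ℝ) ≤ T ^ (4 / 10 : ℝ) * T ^ (6 / 10 : ℝ) :=
              mul_le_mul_of_nonneg_right g2 h8.le
          _ = T := e.symm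
      linarith
    have k4 := (abs_le.1 hr1).1
    have hA1 : 0 < A := by linarith
    have k5 : T * (3 / 4) ≤ T * (1 + r) := mul_le_mul_of_nonneg_left (by linarith) hT0.le
    have k6 : A * (T * (3 / 4)) ≤ A * (T * (1 + r)) := mul_le_mul_of_nonneg_left k5 hA1.le
    have k7 : T ^ (6 / 10 : ℝ) * A ≤ T / 4 * A := mul_le_mul_of_nonneg_right k3 hA1.le
    have k8 : 2 * c0 * (T / 2) ≤ A * (T / 2) := mul_le_mul_of_nonneg_right hA0 (by linarith)
    linarith
  -- integrate the pointwise bound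
  have hcS : Continuous fun u : ℝ => ∑ j ∈ JT T, |XX T j| * E ((gp j - u) / h) ^ 2 := by
    have := hE.cont
    fun_prop
  have hw1' : IntervalIntegrable (fun u => ‖h • ∫ v, (E v ^ 2) • GG T (u + h * v)‖) volume T (2 * T) :=
    (w1.smul h).norm
  have h8 := intervalIntegral.integral_mono_on (by linarith : T ≤ 2 * T) hw1'
    (((hcS.const_mul (13 / L)).intervalIntegrable _ _).add
      (intervalIntegrable_const (c := T ^ (-(1 / 4) : ℝ)))) (fun u hu => h1' u hu.1 hu.2)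
  rw [intervalIntegral.integral_add ((hcS.const_mul (13 / L)).intervalIntegrable _ _)
    intervalIntegrable_const, intervalIntegral.integral_const_mul, intervalIntegral.integral_const,
    smul_eq_mul] at h8
  have h9 : ‖∫ u in T..(2 * T), h • ∫ v, (E v ^ 2) • GG T (u + h * v)‖ ≤
      ∫ u in T..(2 * T), ‖h • ∫ v, (E v ^ 2) • GG T (u + h * v)‖ :=
    intervalIntegral.norm_integral_le_integral_norm (by linarith)
  rw [intervalIntegral.integral_smul, w3, norm_smul, Real.norm_eq_abs, abs_of_pos hh] at h9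
  set S := ∫ u in T..(2 * T), ∑ j ∈ JT T, |XX T j| * E ((gp j - u) / h) ^ 2 with hS
  have h10 : h * (T * c0) ≤ 13 / L * S + (2 * T - T) * T ^ (-(1 / 4) : ℝ) :=
    (mul_le_mul_of_nonneg_left h7 hh.le).trans (h9.trans h8)
  have h11 : T * T ^ (-(1 / 4) : ℝ) * (2 * L) ≤ 8 * c0 * T := by
    have e : T ^ (1 / 4 : ℝ) * T ^ (-(1 / 4) : ℝ) = 1 := by
      rw [← Real.rpow_add hT0]; norm_num
    calc T * T ^ (-(1 / 4) : ℝ) * (2 * L) ≤ T * T ^ (-(1 / 4) : ℝ) * (8 * c0 * T ^ (1 / 4 : ℝ)) :=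
          mul_le_mul_of_nonneg_left g3 (by positivity)
      _ = 8 * c0 * T * (T ^ (1 / 4 : ℝ) * T ^ (-(1 / 4) : ℝ)) := by ring
      _ = _ := by rw [e, mul_one]
  have h12 : K * (T * c0) ≤ 13 * S + T * T ^ (-(1 / 4) : ℝ) * L := by
    have k1 := mul_le_mul_of_nonneg_left h10 hL0.le
    have e1 : L * (h * (T * c0)) = K * (T * c0) := by rw [hhd]; field_simp
    have e2 : L * (13 / L * S + (2 * T - T) * T ^ (-(1 / 4) : ℝ)) = 13 * S + T * T ^ (-(1 / 4) : ℝ) * L := by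
      field_simp
      ring
    rw [e1, e2] at k1
    exact k1
  have h13 : 4 * c0 * T ≤ K * (T * c0) / 2 := by nlinarith [mul_pos hT0 hc0]
  linarith

end Pool.Agent.Helper647.PT
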