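import Mathlib

set_option autoImplicit false


namespace Pool.Agent.Helper647.PT

open MeasureTheory Complex Filter Topology Set

/-
TARGET `ker`: a band-limited kernel `φ = E²`, nonnegative, rapidly decreasing.

Plain-words proof.  Let `η : 𝓢(ℝ, ℂ)` be a real, even, nonnegative smooth bump (`ContDiffBump` at `0`, for instance
`⟨1/4, 1/2⟩`, is symmetric: `ContDiffBump.neg`/`ContDiffBump.symm`; `HasCompactSupport.toSchwartzMap`), supported in
`[-1/2, 1/2]`, positive near `0`.  Put `E v = (𝓕 η) (v / (2 π))`, that is `E v = ∫ η y * exp (-i v y) dy`; it is real because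
`η` is real and even.  `E` is (a dilate of the real part of) a Schwartz function, which gives continuity, the Lipschitz bound
(bounded derivative) and the decay `|E v| ≤ C / (1 + v²)^40`.  For `|v| ≤ 1` and `|y| ≤ 1/2` one has `cos (v y) ≥ cos (1/2) > 0`,
so `E v = ∫ η y cos (v y) dy ≥ cos (1/2) ∫ η > 0`.
For the last point: with `p = η ⋆ η` (`SchwartzMap.convolution`, `SchwartzMap.fourier_convolution`) one has
`E v ^ 2 = 𝓕 p (v / (2π))`, and `∫ 𝓕 p (v / 2π) exp (i ξ v) dv = 2π ∫ 𝓕 p (w) exp (2 π i ξ w) dw = 2π p(ξ)` by Fourier inversion,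
and `p ξ = ∫ η y η (ξ - y) dy = 0` for `|ξ| ≥ 1` (the supports are contained in `[-1/2, 1/2]`; at `|ξ| = 1` the product vanishes
almost everywhere, or take the bump supported in a smaller interval such as `[-1/3, 1/3]`).
The starting module `Pool/Agent/Helper656/CapBlock.lean` (theorem `exists_G`, lemmas `fourier_fourier`, `F0_eq`) contains
a very similar construction and may be imported or imitated.
-/

section aux

open MeasureTheory SchwartzMap

open scoped FourierTransform SchwartzMap RealInnerProductSpace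

/-- the bump -/
noncomputable def kbump : ContDiffBump (0 : ℝ) := ⟨1 / 8, 1 / 3, by norm_num, by norm_num⟩

theorem kbump_cs : HasCompactSupport (fun x : ℝ => ((kbump x : ℝ) : ℂ)) :=
  kbump.hasCompactSupport.comp_left (g := fun x : ℝ => (x : ℂ)) Complex.ofReal_zero

/-- the bump as a Schwartz function -/
noncomputable def keta : 𝓢(ℝ, ℂ) :=
  kbump_cs.toSchwartzMap (Complex.ofRealCLM.contDiff.comp kbump.contDiff)

theorem keta_apply (x : ℝ) : keta x = ((kbump x : ℝ) : ℂ) := rfl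

theorem kbump_neg (x : ℝ) : kbump (-x) = kbump x := kbump.neg x

theorem kbump_zero_of_le {x : ℝ} (h : 1 / 3 ≤ |x|) : kbump x = 0 := by
  apply kbump.zero_of_le_dist
  rw [dist_zero_right, Real.norm_eq_abs]
  exact h

theorem keta_fourier (w : ℝ) : 𝓕 keta w = ∫ y : ℝ, cexp (((-2 * Real.pi * (y * w) : ℝ) : ℂ) * I) *
    ((kbump y : ℝ) : ℂ) := by
  rw [fourier_coe, Real.fourier_eq']
  refine integral_congr_ae (Filter.Eventually.of_forall fun z => ?_)
  simp only [smul_eq_mul, keta_apply]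
  congr 3
  simp [mul_comm]

/-- the real transform -/
noncomputable def kF (w : ℝ) : ℝ := ∫ y : ℝ, Real.cos (2 * Real.pi * (y * w)) * kbump y

theorem kint_cos (w : ℝ) : Integrable fun y : ℝ => Real.cos (2 * Real.pi * (y * w)) * kbump y := by
  apply Continuous.integrable_of_hasCompactSupport
  · have := kbump.continuous
    fun_prop
  · exact kbump.hasCompactSupport.mul_left

theorem kint_sin (w : ℝ) : Integrable fun y : ℝ => Real.sin (2 * Real.pi * (y * w)) * kbump y := by
  apply Continuous.integrable_of_hasCompactSupport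
  · have := kbump.continuous
    fun_prop
  · exact kbump.hasCompactSupport.mul_left

theorem ksin_zero (w : ℝ) : ∫ y : ℝ, Real.sin (2 * Real.pi * (y * w)) * kbump y = 0 := by
  have h := integral_neg_eq_self (fun y : ℝ => Real.sin (2 * Real.pi * (y * w)) * kbump y) volume
  have h2 : ∫ y : ℝ, Real.sin (2 * Real.pi * (-y * w)) * kbump (-y) =
      - ∫ y : ℝ, Real.sin (2 * Real.pi * (y * w)) * kbump y := by
    rw [← integral_neg]
    refine integral_congr_ae (Filter.Eventually.of_forall fun z => ?_)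
    simp only
    rw [kbump_neg, show 2 * Real.pi * (-z * w) = -(2 * Real.pi * (z * w)) by ring, Real.sin_neg]
    ring
  rw [h2] at h
  linarith

theorem keta_eq (w : ℝ) : 𝓕 keta w = ((kF w : ℝ) : ℂ) := by
  rw [keta_fourier]
  have h1 : ∀ y : ℝ, cexp (((-2 * Real.pi * (y * w) : ℝ) : ℂ) * I) * ((kbump y : ℝ) : ℂ) =
      ((Real.cos (2 * Real.pi * (y * w)) * kbump y : ℝ) : ℂ) -
        ((Real.sin (2 * Real.pi * (y * w)) * kbump y : ℝ) : ℂ) * I := by
    intro y
    rw [Complex.exp_mul_I, ← Complex.ofReal_cos, ← Complex.ofReal_sin,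
      show -2 * Real.pi * (y * w) = -(2 * Real.pi * (y * w)) by ring, Real.cos_neg, Real.sin_neg]
    push_cast
    ring
  simp_rw [h1]
  rw [integral_sub, integral_mul_const, integral_complex_ofReal, integral_complex_ofReal,
    ksin_zero]
  · simp [kF]
  · exact (kint_cos w).ofReal
  · exact (kint_sin w).ofReal.mul_const I

theorem kF_decay : ∃ C : ℝ, 0 < C ∧ ∀ u : ℝ, (1 + |u|) ^ 80 * |kF u| ≤ C := by
  obtain ⟨C0, h0p, h0⟩ := (𝓕 keta).decay 0 0
  obtain ⟨C1, h1p, h1⟩ := (𝓕 keta).decay 80 0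
  simp only [norm_iteratedFDeriv_zero, pow_zero, one_mul] at h0 h1
  refine ⟨2 ^ 79 * (C0 + C1), by positivity, fun u => ?_⟩
  have e : |kF u| = ‖𝓕 keta u‖ := by rw [keta_eq, Complex.norm_real, Real.norm_eq_abs]
  have e2 : (1 + |u|) ^ 80 ≤ 2 ^ 79 * (1 + |u| ^ 80) := by
    have := add_pow_le (zero_le_one (α := ℝ)) (abs_nonneg u) 80
    simpa using this
  have h0' := h0 u
  have h1' := h1 u
  rw [Real.norm_eq_abs] at h1'
  rw [← e] at h0' h1'
  calc (1 + |u|) ^ 80 * |kF u| ≤ (2 ^ 79 * (1 + |u| ^ 80)) * |kF u| :=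
        mul_le_mul_of_nonneg_right e2 (abs_nonneg _)
    _ = 2 ^ 79 * (|kF u| + |u| ^ 80 * |kF u|) := by ring
    _ ≤ _ := mul_le_mul_of_nonneg_left (add_le_add h0' h1') (by positivity)

theorem kF_lip : ∃ C : ℝ, 0 < C ∧ ∀ v w : ℝ, |kF v - kF w| ≤ C * |v - w| := by
  obtain ⟨C1, h1p, h1⟩ := (𝓕 keta).decay 0 1
  simp only [pow_zero, one_mul, norm_iteratedFDeriv_one] at h1
  refine ⟨C1, h1p, fun v w => ?_⟩
  have h := Convex.norm_image_sub_le_of_norm_fderiv_le (𝕜 := ℝ) (f := ((𝓕 keta : 𝓢(ℝ, ℂ)) : ℝ → ℂ)) (C := C1)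
    (s := Set.univ) (fun x _ => (𝓕 keta).differentiableAt) (fun x _ => h1 x)
    convex_univ (Set.mem_univ w) (Set.mem_univ v)
  rw [keta_eq, keta_eq, ← Complex.ofReal_sub, Complex.norm_real, Real.norm_eq_abs,
    Real.norm_eq_abs] at h
  exact h

theorem kF_cont : Continuous kF := by
  have h : kF = fun w => (𝓕 keta w).re := by
    ext w; rw [keta_eq, Complex.ofReal_re]
  rw [h]
  exact Complex.continuous_re.comp (𝓕 keta).continuous

theorem kint : Integrable fun y : ℝ => kbump y :=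
  kbump.continuous.integrable_of_hasCompactSupport kbump.hasCompactSupport

theorem kF_low {v : ℝ} (hv : |v| ≤ 1) : 1 / 2 * ∫ y : ℝ, kbump y ≤ kF (v / (2 * Real.pi)) := by
  rw [← integral_const_mul]
  unfold kF
  refine integral_mono (kint.const_mul _) (kint_cos _) fun y => ?_
  simp only
  by_cases hy : 1 / 3 ≤ |y|
  · rw [kbump_zero_of_le hy]; simp
  · push Not at hy
    refine mul_le_mul_of_nonneg_right ?_ kbump.nonneg
    have e : 2 * Real.pi * (y * (v / (2 * Real.pi))) = y * v := by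
      have := Real.pi_pos
      field_simp
    rw [e]
    have h1 := Real.one_sub_sq_div_two_le_cos (x := y * v)
    have h2 : (y * v) ^ 2 ≤ 1 := by
      rw [sq_le_one_iff_abs_le_one, abs_mul]
      calc |y| * |v| ≤ 1 * 1 := by gcongr; linarith
        _ = 1 := one_mul 1
    linarith

theorem kint_pos : 0 < ∫ y : ℝ, kbump y := kbump.integral_pos

open scoped Convolution in
theorem k_inv (ξ : ℝ) (hξ : 1 ≤ |ξ|) :
    ∫ w : ℝ, ((kF w ^ 2 : ℝ) : ℂ) * cexp (((2 * Real.pi * (w * ξ) : ℝ) : ℂ) * I) = 0 := by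
  set p : 𝓢(ℝ, ℂ) := SchwartzMap.convolution (ContinuousLinearMap.mul ℂ ℂ) keta keta with hp
  have hfp : ∀ y, 𝓕 p y = (((kF y) ^ 2 : ℝ) : ℂ) := by
    intro y
    rw [hp, SchwartzMap.fourier_convolution, SchwartzMap.pairing_apply_apply, keta_eq]
    simp [pow_two]
  have h1 : 𝓕⁻ (𝓕 p) ξ = p ξ := by rw [FourierTransform.fourierInv_fourier_eq]
  have h2 : p ξ = 0 := by
    rw [hp, SchwartzMap.convolution_apply]
    unfold MeasureTheory.convolution
    rw [← integral_zero ℝ ℂ (μ := volume)]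
    refine integral_congr_ae (Filter.Eventually.of_forall fun y => ?_)
    simp only [ContinuousLinearMap.mul_apply', keta_apply]
    by_cases hy : 1 / 3 ≤ |y|
    · rw [kbump_zero_of_le hy]; simp
    · push Not at hy
      have : 1 / 3 ≤ |ξ - y| := by
        have := abs_sub_abs_le_abs_sub ξ y
        linarith
      rw [kbump_zero_of_le this]; simp
  rw [h2, fourierInv_coe, Real.fourierInv_eq'] at h1
  rw [← h1]
  refine integral_congr_ae (Filter.Eventually.of_forall fun z => ?_)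
  simp only [smul_eq_mul, hfp]
  rw [mul_comm]
  congr 3
  simp [mul_comm]

end aux

theorem ker : ∃ (E : ℝ → ℝ) (C c0 : ℝ), 0 < C ∧ 0 < c0 ∧ Continuous E ∧
    (∀ v w : ℝ, |E v - E w| ≤ C * |v - w|) ∧
    (∀ v : ℝ, |E v| ≤ C / (1 + v ^ 2) ^ 40) ∧
    (∀ v : ℝ, |v| ≤ 1 → c0 ≤ E v ^ 2) ∧
    (∀ ξ : ℝ, 1 ≤ |ξ| → ∫ v : ℝ, ((E v ^ 2 : ℝ) : ℂ) * cexp (I * ξ * v) = 0) := by
  obtain ⟨C1, hC1, hdec⟩ := kF_decay
  obtain ⟨C2, hC2, hlip⟩ := kF_lip
  have hpi := Real.pi_pos
  have hpi1 : 1 ≤ 2 * Real.pi := by have := Real.pi_gt_three; linarith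
  have h0 := kint_pos
  refine ⟨fun v => kF (v / (2 * Real.pi)), C2 + (2 * Real.pi) ^ 80 * C1,
    (1 / 2 * ∫ y : ℝ, kbump y) ^ 2, by positivity, by positivity, ?_, ?_, ?_, ?_, ?_⟩
  · exact kF_cont.comp (continuous_id.div_const _)
  · intro v w
    have h := hlip (v / (2 * Real.pi)) (w / (2 * Real.pi))
    have e : |v / (2 * Real.pi) - w / (2 * Real.pi)| ≤ |v - w| := by
      rw [← sub_div, abs_div, abs_of_pos (by positivity : 0 < 2 * Real.pi)]
      exact div_le_self (abs_nonneg _) hpi1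
    calc |kF (v / (2 * Real.pi)) - kF (w / (2 * Real.pi))| ≤ C2 * |v / (2 * Real.pi) - w / (2 * Real.pi)| := h
      _ ≤ C2 * |v - w| := by gcongr
      _ ≤ (C2 + (2 * Real.pi) ^ 80 * C1) * |v - w| := by
        refine mul_le_mul_of_nonneg_right ?_ (abs_nonneg _)
        have : 0 ≤ (2 * Real.pi) ^ 80 * C1 := by positivity
        linarith
  · intro v
    rw [le_div_iff₀ (by positivity)]
    have h := hdec (v / (2 * Real.pi))
    set u := v / (2 * Real.pi) with hu
    have hvu : v = 2 * Real.pi * u := by rw [hu]; field_simp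
    have h1 : 1 + v ^ 2 ≤ (2 * Real.pi * (1 + |u|)) ^ 2 := by
      have e1 : |v| = 2 * Real.pi * |u| := by
        rw [hvu, abs_mul, abs_of_pos (by positivity : 0 < 2 * Real.pi)]
      have e2 : v ^ 2 = (2 * Real.pi * |u|) ^ 2 := by rw [← e1, sq_abs]
      rw [e2]
      have e3 : 0 ≤ 2 * Real.pi * |u| := by positivity
      have e4 : 0 ≤ (2 * Real.pi) * (2 * Real.pi * |u|) := by positivity
      have e5 : 1 ≤ (2 * Real.pi) ^ 2 := one_le_pow₀ hpi1
      nlinarith
    have h2 : (1 + v ^ 2) ^ 40 ≤ (2 * Real.pi) ^ 80 * (1 + |u|) ^ 80 := by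
      calc (1 + v ^ 2) ^ 40 ≤ ((2 * Real.pi * (1 + |u|)) ^ 2) ^ 40 :=
            pow_le_pow_left₀ (by positivity) h1 40
        _ = _ := by rw [← pow_mul, mul_pow]
    calc |kF u| * (1 + v ^ 2) ^ 40 ≤ |kF u| * ((2 * Real.pi) ^ 80 * (1 + |u|) ^ 80) :=
          mul_le_mul_of_nonneg_left h2 (abs_nonneg _)
      _ = (2 * Real.pi) ^ 80 * ((1 + |u|) ^ 80 * |kF u|) := by ring
      _ ≤ (2 * Real.pi) ^ 80 * C1 := mul_le_mul_of_nonneg_left h (by positivity)
      _ ≤ _ := by linarith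
  · intro v hv
    exact pow_le_pow_left₀ (by positivity) (kF_low hv) 2
  · intro ξ hξ
    have h := Measure.integral_comp_div
      (fun w : ℝ => ((kF w ^ 2 : ℝ) : ℂ) * cexp (((2 * Real.pi * (w * ξ) : ℝ) : ℂ) * I))
      (2 * Real.pi)
    rw [k_inv ξ hξ, smul_zero] at h
    rw [← h]
    refine integral_congr_ae (Filter.Eventually.of_forall fun z => ?_)
    simp only
    congr 2
    have hpc : (Real.pi : ℂ) ≠ 0 := by exact_mod_cast hpi.ne'
    push_cast
    field_simp

end Pool.Agent.Helper647.PT
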