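import Pool.Agent.Helper647_PT.Eone2
import Pool.Agent.Helper647_PT.Etwo2
import Pool.Agent.Helper647_PT.Ethree
import Pool.Agent.Helper647_PT.Chn
import Pool.Agent.Helper647_PT.Asm
import Pool.Agent.Helper647_PT.Ker

set_option autoImplicit false

/-! The final step: a positive proportion of the Gram intervals contain an odd number of critical zeros. -/

namespace Pool.Agent.Helper647.PT

open Complex Filter Topology MeasureTheory Set
open Pool.Agent.R304.GR (vt psi exp_vt vt_grow vt_upper)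
open Pool.Agent.Helper647.GL (gp gp_spec cz mo)

theorem odd_T : ∃ η T0 : ℝ, 0 < η ∧ ∀ T : ℝ, T0 ≤ T → η * T * Real.log T ≤ ((OT T).card : ℝ) := by
  obtain ⟨E, C, c0, hC, hc0, k1, k2, k3, k4, k5⟩ := ker
  have hE : KE E C c0 := ⟨hC, hc0, k1, k2, k3, k4, k5⟩
  obtain ⟨c1, hc1, h1⟩ := E2 hE
  obtain ⟨C2, hC2, h2⟩ := E1 hE
  obtain ⟨C3, T3, hC3, hT3, h3⟩ := E3 hE
  obtain ⟨T4, hT4, h4⟩ := gram_facts
  obtain ⟨T5, h5⟩ := chain
  obtain ⟨K, η, hK, hη, hasm⟩ := asm (fun v => E v ^ 2) (C ^ 2) (hE.cont.pow 2) (fun v => sq_nonneg _)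
    (fun v => hE.sq_pow (by norm_num) v) c1 C2 (C3 + 2) 4 hc1 hC2 (by positivity) (by norm_num)
  obtain ⟨T1, hT1, h1'⟩ := h1 K hK
  obtain ⟨T2, hT2, h2'⟩ := h2 K hK
  obtain ⟨T6, hT6⟩ := (Real.tendsto_log_atTop.eventually_ge_atTop (max K 1)).exists_forall_of_atTop
  refine ⟨η, max (max T1 T2) (max (max T3 T4) (max T5 T6)), hη, fun T hT => ?_⟩
  have hTT1 : T1 ≤ T := ((le_max_left _ _).trans (le_max_left _ _)).trans hT
  have hTT2 : T2 ≤ T := ((le_max_right _ _).trans (le_max_left _ _)).trans hT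
  have hTT : max (max T3 T4) (max T5 T6) ≤ T := (le_max_right _ _).trans hT
  have hTT3 : T3 ≤ T := ((le_max_left _ _).trans (le_max_left _ _)).trans hTT
  have hTT4 : T4 ≤ T := ((le_max_right _ _).trans (le_max_left _ _)).trans hTT
  have hTT5 : T5 ≤ T := ((le_max_left _ _).trans (le_max_right _ _)).trans hTT
  have hTT6 : T6 ≤ T := ((le_max_right _ _).trans (le_max_right _ _)).trans hTT
  have hT8 : 8 ≤ T := hT1.trans hTT1
  have hKL := hT6 T hTT6
  have hKL1 : K ≤ Real.log T := (le_max_left _ _).trans hKL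
  have hL1 : 1 ≤ Real.log T := (le_max_right _ _).trans hKL
  obtain ⟨f1, f2, f3, f4, f5⟩ := h4 T hTT4
  have hTL : 0 ≤ T * Real.log T := by positivity
  refine hasm T (JT T) (OT T) gp (XX T) (by linarith) hKL1 (h1' T hTT1) (h2' T hTT2) ?_ ?_ ?_ ?_
  · have := h3 T hTT3
    nlinarith
  · nlinarith
  · intro u
    exact (ker_sum hE hK hL1 f3 u).1
  · intro i hi k hk hik hO
    exact h5 T hTT5 i hi k hk hik hO

/-- **a positive proportion of the Gram intervals contain an odd number of critical zeros** -/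
theorem odd_main : ∃ c : ℝ, 0 < c ∧ ∃ M0 : ℕ, ∀ M : ℕ, M0 ≤ M →
    c * M ≤ (((Finset.range M).filter (fun j => Odd (cz riemannZeta j))).card : ℝ) := by
  classical
  obtain ⟨η, T0, hη, h⟩ := odd_T
  obtain ⟨C, hC, hup⟩ := vt_upper
  obtain ⟨T1, hT1, hgr⟩ := vt_grow
  obtain ⟨n0, hn0⟩ := gp_spec (max T1 (4 * |T0| + 16))
  obtain ⟨B, hB⟩ : ∃ B : ℝ, ∀ j < n0, gp j ≤ B := by
    refine ⟨∑ j ∈ Finset.range n0, |gp j|, fun j hj => ?_⟩
    exact (le_abs_self _).trans (Finset.single_le_sum (f := fun j => |gp j|)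
      (fun i _ => abs_nonneg _) (Finset.mem_range.mpr hj))
  obtain ⟨n1, hn1⟩ := gp_spec (8 * |B| + 8)
  have hpi := Real.pi_gt_three
  refine ⟨η * Real.pi / (8 * (1 / 2 + C)), by positivity, max n0 n1, fun M hM => ?_⟩
  have hMn0 : n0 ≤ M := (le_max_left _ _).trans hM
  have hMn1 : n1 ≤ M := (le_max_right _ _).trans hM
  obtain ⟨m1, m2, m3, m4⟩ := hn0 M hMn0
  have m5 : 4 * |T0| + 16 ≤ gp M := (le_max_right _ _).trans m1
  have m6 : T1 ≤ gp M := (le_max_left _ _).trans m1
  have m7 := (hn1 M hMn1).1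
  set T := gp M / 4 with hT
  have hTT0 : T0 ≤ T := by linarith [le_abs_self T0]
  have h6 := h T hTT0
  have hg16 : 16 ≤ gp M := by linarith [abs_nonneg T0]
  -- the members of `OT T` are below `M`
  have hsub : OT T ⊆ (Finset.range M).filter (fun j => Odd (cz riemannZeta j)) := by
    intro j hj
    unfold OT JT at hj
    rw [Finset.mem_filter, Finset.mem_filter] at hj
    rw [Finset.mem_filter, Finset.mem_range]
    refine ⟨?_, hj.2⟩
    by_contra hc
    push Not at hc
    have hjn : n0 ≤ j := hMn0.trans hc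
    have h7 : (M : ℝ) * Real.pi ≤ j * Real.pi :=
      mul_le_mul_of_nonneg_right (by exact_mod_cast hc) (by linarith)
    have h8 : gp j ≤ 3 * T := hj.1.2.2
    have h9 : gp j < gp M := by rw [hT] at h8; linarith
    have h10 := hgr (gp j) (gp M) ((le_max_left _ _).trans (hn0 j hjn).1) h9.le
    rw [m3, (hn0 j hjn).2.2.1] at h10
    linarith
  have h11 : ((OT T).card : ℝ) ≤ (((Finset.range M).filter (fun j => Odd (cz riemannZeta j))).card : ℝ) := by
    exact_mod_cast Finset.card_le_card hsub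
  refine le_trans ?_ h11
  refine le_trans ?_ h6
  -- `M` against `T log T`
  have h12 := hup (gp M) (by linarith)
  rw [m3] at h12
  have hlog1 : 1 ≤ Real.log (gp M) := by
    rw [Real.le_log_iff_exp_le (by linarith)]
    linarith [Real.exp_one_lt_d9]
  have hlog4 : Real.log T = Real.log (gp M) - Real.log 4 := by
    rw [hT, Real.log_div (by linarith) (by norm_num)]
  have hlog16 : 2 * Real.log 4 ≤ Real.log (gp M) := by
    have : Real.log 16 ≤ Real.log (gp M) := Real.log_le_log (by norm_num) hg16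
    rw [show (16 : ℝ) = 4 ^ 2 by norm_num, Real.log_pow] at this
    push_cast at this
    exact this
  have h13 : (M : ℝ) * Real.pi ≤ (1 / 2 + C) * (gp M * Real.log (gp M)) := by
    have : C * gp M ≤ C * (gp M * Real.log (gp M)) := by
      refine mul_le_mul_of_nonneg_left ?_ hC.le
      nlinarith
    linarith
  have h14 : gp M * Real.log (gp M) / 8 ≤ T * Real.log T := by
    rw [hlog4, hT]
    nlinarith
  calc η * Real.pi / (8 * (1 / 2 + C)) * M = η / (8 * (1 / 2 + C)) * (M * Real.pi) := by ring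
    _ ≤ η / (8 * (1 / 2 + C)) * ((1 / 2 + C) * (gp M * Real.log (gp M))) :=
        mul_le_mul_of_nonneg_left h13 (by positivity)
    _ = η * (gp M * Real.log (gp M) / 8) := by field_simp
    _ ≤ η * (T * Real.log T) := mul_le_mul_of_nonneg_left h14 hη.le
    _ = _ := by ring

end Pool.Agent.Helper647.PT
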