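import Mathlib
import Pool.Agent.Helper647_PT.Defs

set_option autoImplicit false


namespace Pool.Agent.Helper647.PT

open MeasureTheory Complex Filter Topology Set

/-- powers of positive integers on the critical line -/
theorem onlyW_pow (m : ℕ) (hm : 1 ≤ m) (t : ℝ) :
    (m : ℂ) ^ (-(1 / 2 + I * t)) = ((1 / Real.sqrt m : ℝ) : ℂ) * cexp (-(I * Real.log m * t)) := by
  have hm0 : (0 : ℝ) < m := by exact_mod_cast hm
  have hmC : (m : ℂ) ≠ 0 := by exact_mod_cast hm0.ne'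
  have h1 : Complex.log (m : ℂ) = ((Real.log m : ℝ) : ℂ) := by
    rw [← Complex.natCast_log]
  have h2 : (1 / Real.sqrt m : ℝ) = Real.exp (-(1 / 2) * Real.log m) := by
    have h3 : Real.sqrt m = Real.exp (1 / 2 * Real.log m) := by
      rw [Real.sqrt_eq_rpow, Real.rpow_def_of_pos hm0]
      ring_nf
    rw [h3, one_div, ← Real.exp_neg]
    ring_nf
  rw [Complex.cpow_def_of_ne_zero hmC, h1, h2, Complex.ofReal_exp, ← Complex.exp_add]
  congr 1
  push_cast
  ring

/-- the weight of a frequency -/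
noncomputable def onlyW_c (β : ℕ → ℝ) (p : ℕ × ℕ × ℕ) : ℂ :=
  ((β p.2.1 * β p.2.2 / Real.sqrt (p.1 * p.2.1 * p.2.2) : ℝ) : ℂ)

/-- the frequency -/
noncomputable def onlyW_l (p : ℕ × ℕ × ℕ) : ℝ := Real.log (p.1 * p.2.1 / p.2.2)

theorem onlyW_expand (N Y : ℕ) (β : ℕ → ℝ) (t : ℝ) :
    Pz N t * ((‖Bz Y β t‖ ^ 2 : ℝ) : ℂ)
      = ∑ p ∈ Finset.Icc 1 N ×ˢ (Finset.Icc 1 Y ×ˢ Finset.Icc 1 Y),
        onlyW_c β p * cexp (-(I * onlyW_l p * t)) := by
  have h1 : ((‖Bz Y β t‖ ^ 2 : ℝ) : ℂ) = Bz Y β t * (starRingEnd ℂ) (Bz Y β t) := by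
    rw [Complex.mul_conj, Complex.normSq_eq_norm_sq]
  rw [h1, Finset.sum_product]
  simp_rw [Finset.sum_product]
  unfold Pz Bz
  rw [map_sum, Finset.sum_mul_sum, Finset.sum_mul]
  refine Finset.sum_congr rfl fun n hn => ?_
  rw [Finset.mul_sum]
  refine Finset.sum_congr rfl fun μ hμ => ?_
  rw [Finset.mul_sum]
  refine Finset.sum_congr rfl fun ν hν => ?_
  have hn1 := (Finset.mem_Icc.mp hn).1
  have hμ1 := (Finset.mem_Icc.mp hμ).1
  have hν1 := (Finset.mem_Icc.mp hν).1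
  have hn0 : (0 : ℝ) < n := by exact_mod_cast hn1
  have hμ0 : (0 : ℝ) < μ := by exact_mod_cast hμ1
  have hν0 : (0 : ℝ) < ν := by exact_mod_cast hν1
  rw [onlyW_pow n hn1, onlyW_pow μ hμ1, onlyW_pow ν hν1]
  rw [map_mul, map_mul, Complex.conj_ofReal, Complex.conj_ofReal, ← Complex.exp_conj]
  have h2 : (starRingEnd ℂ) (-(I * (Real.log ν : ℂ) * (t : ℂ))) = I * Real.log ν * t := by
    rw [map_neg, map_mul, map_mul, Complex.conj_I, Complex.conj_ofReal, Complex.conj_ofReal]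
    ring
  rw [h2]
  unfold onlyW_c onlyW_l
  simp only
  have h3 : Real.log (n * μ / ν) = Real.log n + Real.log μ - Real.log ν := by
    rw [Real.log_div (by positivity) (by positivity), Real.log_mul (by positivity) (by positivity)]
  have h4 : Real.sqrt (n * μ * ν) = Real.sqrt n * Real.sqrt μ * Real.sqrt ν := by
    rw [Real.sqrt_mul (by positivity), Real.sqrt_mul (by positivity)]
  have h5 : cexp (-(I * ((Real.log (n * μ / ν) : ℝ) : ℂ) * t))
      = cexp (-(I * Real.log n * t)) * cexp (-(I * Real.log μ * t)) * cexp (I * Real.log ν * t) := by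
    rw [h3, ← Complex.exp_add, ← Complex.exp_add]
    congr 1
    push_cast
    ring
  rw [h5, h4]
  have e1 : ((1 / Real.sqrt n : ℝ) : ℂ) * ((1 / Real.sqrt μ : ℝ) : ℂ) * ((1 / Real.sqrt ν : ℝ) : ℂ) * (β μ * β ν)
      = ((β μ * β ν / (Real.sqrt n * Real.sqrt μ * Real.sqrt ν) : ℝ) : ℂ) := by
    push_cast
    field_simp
  rw [← e1]
  ring

theorem onlyW_DW (T K C' : ℝ) (N Y : ℕ) (β : ℕ → ℝ) (t : ℝ) :
    DW T K C' N Y β t = ∑ p ∈ Finset.Icc 1 N ×ˢ (Finset.Icc 1 Y ×ˢ Finset.Icc 1 Y),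
        if |onlyW_l p - Real.log T / 2| ≤ Real.log T / K + C' then
          onlyW_c β p * cexp (-(I * onlyW_l p * t)) else 0 := by
  rw [Finset.sum_product]
  simp_rw [Finset.sum_product]
  rfl

theorem onlyW (φ : ℝ → ℝ) (C : ℝ) (hc : Continuous φ) (h0 : ∀ v : ℝ, 0 ≤ φ v)
    (hd : ∀ v : ℝ, φ v ≤ C / (1 + v ^ 2) ^ 2)
    (hz : ∀ ξ : ℝ, 1 ≤ |ξ| → ∫ v : ℝ, ((φ v : ℝ) : ℂ) * cexp (I * ξ * v) = 0)
    (T K C' θ₁ u : ℝ) (N Y : ℕ) (β : ℕ → ℝ) (hT : 1 < T) (hK : 0 < K)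
    (hθ : |θ₁ - Real.log T / 2| ≤ C') :
    ‖∫ t : ℝ, cexp (I * θ₁ * (t - u)) * (Pz N t * ((‖Bz Y β t‖ ^ 2 : ℝ) : ℂ)) *
        ((φ ((t - u) / (K / Real.log T)) : ℝ) : ℂ)‖ ≤
      K / Real.log T * ∫ v : ℝ, ‖DW T K C' N Y β (u + K / Real.log T * v)‖ * φ v := by
  classical
  have hL : 0 < Real.log T := Real.log_pos hT
  set L := Real.log T with hLdef
  set h : ℝ := K / L with hh
  have hh0 : 0 < h := div_pos hK hL
  -- integrability
  have hC : 0 ≤ C := by
    have h1 := (h0 0).trans (hd 0)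
    simpa using h1
  have hφi : Integrable φ := by
    refine Integrable.mono' (integrable_inv_one_add_sq.const_mul C) hc.aestronglyMeasurable ?_
    filter_upwards with v
    rw [Real.norm_eq_abs, abs_of_nonneg (h0 v)]
    refine (hd v).trans ?_
    rw [div_eq_mul_inv]
    apply mul_le_mul_of_nonneg_left _ hC
    apply inv_anti₀ (by positivity)
    nlinarith [sq_nonneg v, sq_nonneg (v ^ 2)]
  have hint : ∀ g : ℝ → ℂ, Continuous g → (∃ M : ℝ, ∀ v, ‖g v‖ ≤ M) →
      Integrable (fun v : ℝ => g v * ((φ v : ℝ) : ℂ)) := by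
    rintro g hg ⟨M, hM⟩
    refine Integrable.mono' (hφi.const_mul M) ((hg.mul (Complex.continuous_ofReal.comp hc)).aestronglyMeasurable) ?_
    filter_upwards with v
    rw [norm_mul, Complex.norm_real, Real.norm_eq_abs, abs_of_nonneg (h0 v)]
    exact mul_le_mul_of_nonneg_right (hM v) (h0 v)
  set S := Finset.Icc 1 N ×ˢ (Finset.Icc 1 Y ×ˢ Finset.Icc 1 Y) with hS
  have hnorm : ∀ (a : ℝ), ‖cexp (I * a)‖ = 1 := by
    intro a
    rw [mul_comm]
    exact Complex.norm_exp_ofReal_mul_I a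
  -- change of variables
  have hcv : ∫ t : ℝ, cexp (I * θ₁ * (t - u)) * (Pz N t * ((‖Bz Y β t‖ ^ 2 : ℝ) : ℂ)) *
        ((φ ((t - u) / h) : ℝ) : ℂ)
      = h * ∫ v : ℝ, (cexp (I * θ₁ * (h * v)) * ∑ p ∈ S, onlyW_c β p * cexp (-(I * onlyW_l p * (u + h * v : ℝ))))
        * ((φ v : ℝ) : ℂ) := by
    set G : ℝ → ℂ := fun t => cexp (I * θ₁ * (t - u)) * (Pz N t * ((‖Bz Y β t‖ ^ 2 : ℝ) : ℂ)) *
        ((φ ((t - u) / h) : ℝ) : ℂ) with hG
    have h1 : ∫ t, G t = ∫ s, G (u + s) := (integral_add_left_eq_self G u).symm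
    have h2 := Measure.integral_comp_mul_left (fun s => G (u + s)) h
    have h3 : ∫ s, G (u + s) = h * ∫ v, G (u + h * v) := by
      rw [h2, abs_of_pos (inv_pos.mpr hh0), Complex.real_smul, ← mul_assoc]
      push_cast
      rw [mul_inv_cancel₀ (by exact_mod_cast hh0.ne'), one_mul]
    rw [h1, h3]
    congr 2
    funext v
    rw [hG]
    simp only
    rw [onlyW_expand]
    have h4 : (u + h * v - u) / h = v := by field_simp; ring
    rw [h4]
    congr 2
    congr 1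
    push_cast
    ring
  rw [hcv, norm_mul, Complex.norm_real, Real.norm_eq_abs, abs_of_pos hh0]
  apply mul_le_mul_of_nonneg_left _ hh0.le
  -- removal of the frequencies off the window
  have hterm : ∀ p : ℕ × ℕ × ℕ,
      ∫ v : ℝ, cexp (I * θ₁ * (h * v)) * (onlyW_c β p * cexp (-(I * onlyW_l p * (u + h * v : ℝ)))) * ((φ v : ℝ) : ℂ)
      = ∫ v : ℝ, cexp (I * θ₁ * (h * v)) * (if |onlyW_l p - L / 2| ≤ L / K + C' then
          onlyW_c β p * cexp (-(I * onlyW_l p * (u + h * v : ℝ))) else 0) * ((φ v : ℝ) : ℂ) := by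
    intro p
    by_cases hp : |onlyW_l p - L / 2| ≤ L / K + C'
    · simp only [if_pos hp]
    · simp only [if_neg hp, mul_zero, zero_mul, integral_zero]
      push Not at hp
      have h1 : 1 ≤ |h * (θ₁ - onlyW_l p)| := by
        rw [abs_mul, abs_of_pos hh0]
        have h2 : L / K ≤ |θ₁ - onlyW_l p| := by
          have h3 : |onlyW_l p - L / 2| ≤ |θ₁ - onlyW_l p| + |θ₁ - L / 2| := by
            have h4 : onlyW_l p - L / 2 = -(θ₁ - onlyW_l p) + (θ₁ - L / 2) := by ring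
            rw [h4]
            refine (abs_add_le _ _).trans ?_
            rw [abs_neg]
          linarith
        calc (1 : ℝ) = h * (L / K) := by
              rw [hh]
              field_simp
          _ ≤ h * |θ₁ - onlyW_l p| := mul_le_mul_of_nonneg_left h2 hh0.le
      have h5 := hz _ h1
      have h6 : ∀ v : ℝ, cexp (I * θ₁ * (h * v)) * (onlyW_c β p * cexp (-(I * onlyW_l p * (u + h * v : ℝ)))) * ((φ v : ℝ) : ℂ)
          = (onlyW_c β p * cexp (-(I * onlyW_l p * u))) *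
            (((φ v : ℝ) : ℂ) * cexp (I * ((h * (θ₁ - onlyW_l p) : ℝ) : ℂ) * v)) := by
        intro v
        have h7 : cexp (I * θ₁ * (h * v)) * cexp (-(I * onlyW_l p * (u + h * v : ℝ)))
            = cexp (-(I * onlyW_l p * u)) * cexp (I * ((h * (θ₁ - onlyW_l p) : ℝ) : ℂ) * v) := by
          rw [← Complex.exp_add, ← Complex.exp_add]
          congr 1
          push_cast
          ring
        calc _ = onlyW_c β p * (cexp (I * θ₁ * (h * v)) * cexp (-(I * onlyW_l p * (u + h * v : ℝ)))) * ((φ v : ℝ) : ℂ) := by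
              ring
          _ = _ := by
              rw [h7]
              ring
      simp_rw [h6]
      rw [integral_const_mul, h5, mul_zero]
  have hbd : ∀ (p : ℕ × ℕ × ℕ) (w : Prop) [Decidable w], Integrable (fun v : ℝ =>
      cexp (I * θ₁ * (h * v)) * (if w then onlyW_c β p * cexp (-(I * onlyW_l p * (u + h * v : ℝ))) else 0)
        * ((φ v : ℝ) : ℂ)) := by
    intro p w _
    by_cases hw : w
    · simp only [if_pos hw]
      apply hint
      · fun_prop
      · refine ⟨‖onlyW_c β p‖, fun v => ?_⟩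
        rw [norm_mul, norm_mul]
        have e1 : I * θ₁ * (h * v) = I * ((θ₁ * (h * v) : ℝ) : ℂ) := by push_cast; ring
        have e2 : -(I * onlyW_l p * (u + h * v : ℝ)) = I * ((-(onlyW_l p * (u + h * v)) : ℝ) : ℂ) := by
          push_cast; ring
        rw [e1, e2, hnorm, hnorm, one_mul, mul_one]
    · simp only [if_neg hw, mul_zero, zero_mul]
      exact integrable_zero _ _ _
  have hsum : ∫ v : ℝ, (cexp (I * θ₁ * (h * v)) * ∑ p ∈ S, onlyW_c β p * cexp (-(I * onlyW_l p * (u + h * v : ℝ))))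
        * ((φ v : ℝ) : ℂ)
      = ∫ v : ℝ, (cexp (I * θ₁ * (h * v)) * DW T K C' N Y β (u + h * v)) * ((φ v : ℝ) : ℂ) := by
    have e1 : ∀ v : ℝ, (cexp (I * θ₁ * (h * v)) * ∑ p ∈ S, onlyW_c β p * cexp (-(I * onlyW_l p * (u + h * v : ℝ))))
        * ((φ v : ℝ) : ℂ)
        = ∑ p ∈ S, cexp (I * θ₁ * (h * v)) * (onlyW_c β p * cexp (-(I * onlyW_l p * (u + h * v : ℝ)))) * ((φ v : ℝ) : ℂ) := by
      intro v
      rw [Finset.mul_sum, Finset.sum_mul]
    have e2 : ∀ v : ℝ, (cexp (I * θ₁ * (h * v)) * DW T K C' N Y β (u + h * v)) * ((φ v : ℝ) : ℂ)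
        = ∑ p ∈ S, cexp (I * θ₁ * (h * v)) * (if |onlyW_l p - L / 2| ≤ L / K + C' then
          onlyW_c β p * cexp (-(I * onlyW_l p * (u + h * v : ℝ))) else 0) * ((φ v : ℝ) : ℂ) := by
      intro v
      rw [onlyW_DW, Finset.mul_sum, Finset.sum_mul]
    simp_rw [e1, e2]
    rw [integral_finsetSum _ (fun p _ => by simpa using hbd p True), integral_finsetSum _ (fun p _ => hbd p _)]
    exact Finset.sum_congr rfl fun p _ => hterm p
  rw [hsum]
  refine (norm_integral_le_integral_norm _).trans (le_of_eq ?_)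
  congr 1
  funext v
  have e1 : I * θ₁ * (h * v) = I * ((θ₁ * (h * v) : ℝ) : ℂ) := by push_cast; ring
  rw [norm_mul, norm_mul, e1, hnorm, one_mul, Complex.norm_real, Real.norm_eq_abs, abs_of_nonneg (h0 v)]

end Pool.Agent.Helper647.PT
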