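import Mathlib

set_option autoImplicit false


namespace Pool.Agent.Helper647.PT

open MeasureTheory Complex Filter Topology Set

theorem poi_decay (φ : ℝ → ℝ) (C : ℝ) (hd : ∀ v : ℝ, |φ v| ≤ C / (1 + v ^ 2) ^ 2)
    (h δ a u ω : ℝ) (hh : 0 < h) (hδ : 0 < δ) :
    (fun x : ℝ => cexp (I * ω * (a + δ * x)) * ((φ ((a + δ * x - u) / h) : ℝ) : ℂ))
      =O[cocompact ℝ] fun x : ℝ => |x| ^ (-2 : ℝ) := by
  have hC : 0 ≤ C := by
    have h0 := (abs_nonneg _).trans (hd 0)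
    norm_num at h0
    exact h0
  refine Asymptotics.IsBigO.of_bound (C * ((2 * h ^ 2 + 2 * (u - a) ^ 2) / δ ^ 2)) ?_
  filter_upwards [(isCompact_singleton (x := (0 : ℝ))).compl_mem_cocompact] with x hx
  have hx0 : x ≠ 0 := hx
  have e1 : ‖cexp (I * ω * (a + δ * x))‖ = 1 := by
    have : I * ω * (a + δ * x) = ((ω * (a + δ * x) : ℝ) : ℂ) * I := by push_cast; ring
    rw [this, Complex.norm_exp_ofReal_mul_I]
  rw [norm_mul, e1, one_mul, Complex.norm_real, Real.norm_eq_abs, Real.norm_eq_abs,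
    Real.rpow_neg (abs_nonneg x), Real.rpow_two, sq_abs, abs_of_nonneg (by positivity : (0 : ℝ) ≤ (x ^ 2)⁻¹)]
  set v := (a + δ * x - u) / h with hv
  have hxv : δ * x = h * v + (u - a) := by
    rw [hv]; field_simp; ring
  have h1 : δ ^ 2 * x ^ 2 ≤ (2 * h ^ 2 + 2 * (u - a) ^ 2) * (1 + v ^ 2) := by
    have : δ ^ 2 * x ^ 2 = (h * v + (u - a)) ^ 2 := by rw [← hxv]; ring
    rw [this]
    nlinarith [sq_nonneg (h * v - (u - a)), sq_nonneg (v * (u - a)), sq_nonneg h, sq_nonneg (u - a)]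
  have h2 : |φ v| ≤ C / (1 + v ^ 2) := by
    refine (hd v).trans ?_
    apply div_le_div_of_nonneg_left hC (by positivity)
    nlinarith [sq_nonneg v, sq_nonneg (v ^ 2)]
  refine h2.trans ?_
  have hx2 : 0 < x ^ 2 := by positivity
  have hvp : 0 < 1 + v ^ 2 := by positivity
  have hδ2 : 0 < δ ^ 2 := by positivity
  rw [mul_assoc, div_eq_mul_inv C]
  apply mul_le_mul_of_nonneg_left _ hC
  rw [← div_eq_mul_inv, div_div, ← one_div, div_le_div_iff₀ hvp (by positivity), one_mul]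
  exact h1

theorem poi (φ : ℝ → ℝ) (C : ℝ) (hc : Continuous φ) (hd : ∀ v : ℝ, |φ v| ≤ C / (1 + v ^ 2) ^ 2)
    (hz : ∀ ξ : ℝ, 1 ≤ |ξ| → ∫ v : ℝ, ((φ v : ℝ) : ℂ) * cexp (I * ξ * v) = 0)
    (h δ a u ω : ℝ) (hh : 0 < h) (hδ : 0 < δ) (S : Finset ℤ)
    (hS : ∀ l : ℤ, l ∉ S → 1 / h ≤ |ω - 2 * Real.pi * l / δ|) :
    ∑' j : ℤ, cexp (I * ω * (a + δ * j)) * ((φ ((a + δ * j - u) / h) : ℝ) : ℂ) =
      (1 / δ) * ∑ l ∈ S, ∫ t : ℝ, cexp (I * ω * t) * cexp (-(I * (2 * Real.pi * l / δ) * (t - a))) *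
        ((φ ((t - u) / h) : ℝ) : ℂ) := by
  have hδ' : (δ : ℂ) ≠ 0 := by exact_mod_cast hδ.ne'
  -- the function
  obtain ⟨f, hf⟩ : ∃ f : ℝ → ℂ, f = fun x : ℝ =>
    cexp (I * ω * (a + δ * x)) * ((φ ((a + δ * x - u) / h) : ℝ) : ℂ) := ⟨_, rfl⟩
  obtain ⟨g, hg⟩ : ∃ g : ℤ → ℝ → ℂ, g = fun (l : ℤ) (t : ℝ) =>
    cexp (I * ω * t) * cexp (-(I * (2 * Real.pi * l / δ) * (t - a))) *
        ((φ ((t - u) / h) : ℝ) : ℂ) := ⟨_, rfl⟩
  have hcf : Continuous f := by
    rw [hf]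
    refine Continuous.mul (Complex.continuous_exp.comp ?_) (Complex.continuous_ofReal.comp (hc.comp ?_))
    · fun_prop
    · fun_prop
  have hdf : f =O[cocompact ℝ] fun x : ℝ => |x| ^ (-2 : ℝ) := by
    rw [hf]
    exact poi_decay φ C hd h δ a u ω hh hδ
  -- the Fourier transform at integers
  have hF : ∀ l : ℤ, FourierTransform.fourier f (l : ℝ) = (1 / δ) * ∫ t : ℝ, g l t := by
    intro l
    have h1 : ∀ x : ℝ, cexp (((-2 * Real.pi * x * l : ℝ) : ℂ) * I) • f x = g l (a + δ * x) := by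
      intro x
      rw [hf, hg]
      simp only [smul_eq_mul]
      have e2 : cexp (((-2 * Real.pi * x * l : ℝ) : ℂ) * I) =
          cexp (-(I * (2 * Real.pi * l / δ) * (((a + δ * x : ℝ) : ℂ) - a))) := by
        congr 1
        push_cast
        field_simp
        ring
      rw [e2]
      push_cast
      ring
    rw [Real.fourier_real_eq_integral_exp_smul]
    rw [integral_congr_ae (Eventually.of_forall h1)]
    have h2 : ∫ x : ℝ, g l (a + δ * x) = |δ⁻¹| • ∫ y : ℝ, g l (a + y) :=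
      Measure.integral_comp_mul_left (fun y => g l (a + y)) δ
    rw [h2, integral_add_left_eq_self (fun y => g l y) a, abs_of_pos (inv_pos.2 hδ),
      Complex.real_smul]
    push_cast
    rw [one_div]
  have hF0 : ∀ l : ℤ, l ∉ S → ∫ t : ℝ, g l t = 0 := by
    intro l hl
    have h3 := hS l hl
    obtain ⟨ξ, hξ⟩ : ∃ ξ : ℝ, ξ = h * (ω - 2 * Real.pi * l / δ) := ⟨_, rfl⟩
    have h4 : 1 ≤ |ξ| := by
      rw [hξ, abs_mul, abs_of_pos hh]
      have := mul_le_mul_of_nonneg_left h3 hh.le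
      rwa [mul_one_div_cancel hh.ne'] at this
    have h5 : ∫ y : ℝ, g l (u + y) = ∫ t : ℝ, g l t := integral_add_left_eq_self (fun y => g l y) u
    have h6 : ∫ x : ℝ, g l (u + h * x) = |h⁻¹| • ∫ y : ℝ, g l (u + y) :=
      Measure.integral_comp_mul_left (fun y => g l (u + y)) h
    have h7 : ∀ x : ℝ, g l (u + h * x) = (cexp (I * ω * u) * cexp (-(I * (2 * Real.pi * l / δ) * (u - a)))) *
        (((φ x : ℝ) : ℂ) * cexp (I * ξ * x)) := by
      intro x
      rw [hg]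
      simp only
      have e3 : (u + h * x - u) / h = x := by field_simp; ring
      have e4 : cexp (I * ω * ((u + h * x : ℝ) : ℂ)) = cexp (I * ω * u) * cexp (I * ω * (h * x)) := by
        rw [← Complex.exp_add]; congr 1; push_cast; ring
      have e5 : cexp (-(I * (2 * Real.pi * l / δ) * (((u + h * x : ℝ) : ℂ) - a))) =
          cexp (-(I * (2 * Real.pi * l / δ) * (u - a))) * cexp (-(I * (2 * Real.pi * l / δ) * (h * x))) := by
        rw [← Complex.exp_add]; congr 1; push_cast; ring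
      have e6 : cexp (I * ξ * x) = cexp (I * ω * (h * x)) * cexp (-(I * (2 * Real.pi * l / δ) * (h * x))) := by
        rw [← Complex.exp_add, hξ]; congr 1; push_cast; ring
      rw [e3, e4, e5, e6]
      ring
    have h8 : ∫ x : ℝ, g l (u + h * x) = 0 := by
      rw [integral_congr_ae (Eventually.of_forall h7), integral_const_mul, hz ξ h4, mul_zero]
    rw [h8, h5] at h6
    rcases smul_eq_zero.1 h6.symm with h9 | h9
    · exact absurd h9 (abs_pos.2 (inv_ne_zero hh.ne')).ne'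
    · exact h9
  have hFz : ∀ l : ℤ, l ∉ S → FourierTransform.fourier f (l : ℝ) = 0 := by
    intro l hl
    rw [hF l, hF0 l hl, mul_zero]
  have hsum : Summable fun n : ℤ => FourierTransform.fourier f (n : ℝ) :=
    summable_of_ne_finset_zero (s := S) hFz
  have key := Real.tsum_eq_tsum_fourier_of_rpow_decay_of_summable hcf one_lt_two hdf hsum 0
  have hl : ∑' j : ℤ, cexp (I * ω * (a + δ * j)) * ((φ ((a + δ * j - u) / h) : ℝ) : ℂ) =
      ∑' n : ℤ, f (0 + n) := by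
    refine tsum_congr fun n => ?_
    rw [hf, zero_add]
    simp only [Complex.ofReal_intCast]
  rw [hl, key, tsum_eq_sum (s := S) (fun n hn => by rw [hFz n hn, zero_mul]), Finset.mul_sum]
  refine Finset.sum_congr rfl fun n _ => ?_
  rw [hF n, hg]
  simp

end Pool.Agent.Helper647.PT
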