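import Mathlib

set_option autoImplicit false


namespace Pool.Agent.Helper647.PT

open Filter Topology Set

/-
TARGET `spc`: sums over separated points.

Plain-words proof.  Fix `u`.  If `J` is empty the claim is clear.  Otherwise choose `j₀ ∈ J` minimising `|g j - u|`.  For `j ∈ J`
`c |j - j₀| ≤ |g j - g j₀| ≤ 2 |g j - u|`, so `1/(1+((g j-u)/h)²) ≤ 1/(1+(c (j-j₀)/(2h))²)`, and the sum over `j ∈ J` is at most
`1 + 2 ∑_{m≥1} 1/(1+(b m)²)`, `b = c/(2h)`.  Finally `1/(1+(b m)²) ≤ (1/b)(arctan (b m) - arctan (b (m-1)))` (the derivative of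
`arctan` is decreasing on `[0,∞)`), so the sum over `m ≥ 1` is at most `π/(2b) = π h/c`.  Total `≤ 1 + 2 π h/c ≤ 1 + 8 h/c`.
(Proved here with `1/(1+x²) ≤ 2/(1+x)²` and telescoping instead of `arctan`.)
-/

theorem spc_aux1 (b : ℝ) (hb : 0 < b) (K : ℕ) :
    ∑ m ∈ Finset.range K, 1 / (1 + (b * ((m : ℝ) + 1)) ^ 2) ≤ (2 / b) * (1 - 1 / (1 + b * K)) := by
  induction K with
  | zero => simp
  | succ K ih =>
    rw [Finset.sum_range_succ]
    have h1 : 0 < 1 + b * (K : ℝ) := by positivity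
    have h2 : 0 < 1 + b * ((K : ℝ) + 1) := by positivity
    have key : 1 / (1 + (b * ((K : ℝ) + 1)) ^ 2) ≤
        (2 / b) * (1 / (1 + b * K) - 1 / (1 + b * ((K : ℝ) + 1))) := by
      have e : (2 / b) * (1 / (1 + b * K) - 1 / (1 + b * ((K : ℝ) + 1))) =
          2 / ((1 + b * K) * (1 + b * ((K : ℝ) + 1))) := by
        field_simp
        ring
      rw [e, div_le_div_iff₀ (by positivity) (by positivity)]
      have hx : 0 ≤ b * (K : ℝ) := by positivity
      nlinarith [sq_nonneg (b * ((K : ℝ) + 1) - 1), mul_nonneg hx hb.le, mul_nonneg hx hx]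
    push_cast
    have e2 : (2 / b) * (1 - 1 / (1 + b * ((K : ℝ) + 1))) =
        (2 / b) * (1 - 1 / (1 + b * K)) + (2 / b) * (1 / (1 + b * K) - 1 / (1 + b * ((K : ℝ) + 1))) := by
      ring
    rw [e2]
    exact add_le_add ih key

theorem spc_aux2 (b : ℝ) (hb : 0 < b) (S : Finset ℕ) :
    ∑ m ∈ S, 1 / (1 + (b * ((m : ℝ) + 1)) ^ 2) ≤ 2 / b := by
  have h1 : S ⊆ Finset.range (S.sup id + 1) := by
    intro m hm
    rw [Finset.mem_range]
    have := Finset.le_sup (f := id) hm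
    simp at this
    omega
  calc ∑ m ∈ S, 1 / (1 + (b * ((m : ℝ) + 1)) ^ 2)
      ≤ ∑ m ∈ Finset.range (S.sup id + 1), 1 / (1 + (b * ((m : ℝ) + 1)) ^ 2) :=
        Finset.sum_le_sum_of_subset_of_nonneg h1 (fun m _ _ => by positivity)
    _ ≤ (2 / b) * (1 - 1 / (1 + b * ((S.sup id + 1 : ℕ) : ℝ))) := spc_aux1 b hb _
    _ ≤ (2 / b) * 1 := by
        apply mul_le_mul_of_nonneg_left _ (by positivity)
        have : 0 ≤ 1 / (1 + b * ((S.sup id + 1 : ℕ) : ℝ)) := by positivity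
        linarith
    _ = 2 / b := mul_one _

theorem spc (J : Finset ℕ) (g : ℕ → ℝ) (c h u : ℝ) (hc : 0 < c) (hh : 0 < h)
    (hs : ∀ i ∈ J, ∀ j ∈ J, c * |(j : ℝ) - i| ≤ |g j - g i|) :
    ∑ j ∈ J, 1 / (1 + ((g j - u) / h) ^ 2) ≤ 1 + 8 * h / c := by
  rcases J.eq_empty_or_nonempty with rfl | hne
  · simp
    positivity
  obtain ⟨j₀, hj₀, hmin⟩ := Finset.exists_min_image J (fun j => |g j - u|) hne
  set b : ℝ := c / (2 * h) with hb
  have hbpos : 0 < b := by positivity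
  have hterm : ∀ j ∈ J, 1 / (1 + ((g j - u) / h) ^ 2) ≤ 1 / (1 + (b * ((j : ℝ) - j₀)) ^ 2) := by
    intro j hj
    have h1 := hs j₀ hj₀ j hj
    have h2 : |g j - g j₀| ≤ |g j - u| + |g j₀ - u| := by
      have : g j - g j₀ = (g j - u) - (g j₀ - u) := by ring
      rw [this]
      exact abs_sub _ _
    have h3 := hmin j hj
    have h4 : c * |(j : ℝ) - j₀| ≤ 2 * |g j - u| := by linarith
    have h5 : |b * ((j : ℝ) - j₀)| ≤ |(g j - u) / h| := by
      have e1 : |b * ((j : ℝ) - j₀)| = c * |(j : ℝ) - j₀| / (2 * h) := by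
        rw [abs_mul, abs_of_pos hbpos, hb, div_mul_eq_mul_div]
      have e2 : |(g j - u) / h| = |g j - u| / h := by
        rw [abs_div, abs_of_pos hh]
      rw [e1, e2, div_le_div_iff₀ (by positivity) hh]
      nlinarith
    have h6 : (b * ((j : ℝ) - j₀)) ^ 2 ≤ ((g j - u) / h) ^ 2 := sq_le_sq.mpr h5
    apply one_div_le_one_div_of_le (by positivity)
    linarith
  refine (Finset.sum_le_sum hterm).trans ?_
  rw [← Finset.add_sum_erase J _ hj₀]
  have e0 : 1 / (1 + (b * ((j₀ : ℝ) - j₀)) ^ 2) = 1 := by simp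
  rw [e0, ← Finset.sum_filter_add_sum_filter_not (J.erase j₀) (fun j => j₀ < j)]
  have hA : ∑ j ∈ (J.erase j₀).filter (fun j => j₀ < j), 1 / (1 + (b * ((j : ℝ) - j₀)) ^ 2) ≤
      2 / b := by
    have hinj : Set.InjOn (fun j => j - j₀ - 1) ((J.erase j₀).filter (fun j => j₀ < j) : Set ℕ) := by
      intro x hx y hy hxy
      simp only [Finset.coe_filter, Set.mem_ofPred_eq] at hx hy
      simp only at hxy
      omega
    have h1 := Finset.sum_image (s := (J.erase j₀).filter (fun j => j₀ < j))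
      (f := fun m : ℕ => 1 / (1 + (b * ((m : ℝ) + 1)) ^ 2)) (g := fun j => j - j₀ - 1) hinj
    have h2 := spc_aux2 b hbpos (((J.erase j₀).filter (fun j => j₀ < j)).image (fun j => j - j₀ - 1))
    rw [h1] at h2
    refine le_trans (le_of_eq (Finset.sum_congr rfl ?_)) h2
    intro j hj
    rw [Finset.mem_filter] at hj
    have h3 : ((j - j₀ - 1 : ℕ) : ℝ) + 1 = (j : ℝ) - j₀ := by
      rw [Nat.cast_sub (by omega), Nat.cast_sub (by omega)]
      push_cast
      ring
    rw [h3]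
  have hB : ∑ j ∈ (J.erase j₀).filter (fun j => ¬ j₀ < j), 1 / (1 + (b * ((j : ℝ) - j₀)) ^ 2) ≤
      2 / b := by
    have hinj : Set.InjOn (fun j => j₀ - j - 1)
        ((J.erase j₀).filter (fun j => ¬ j₀ < j) : Set ℕ) := by
      intro x hx y hy hxy
      simp only [Finset.coe_filter, Set.mem_ofPred_eq, Finset.mem_erase] at hx hy
      simp only at hxy
      omega
    have h1 := Finset.sum_image (s := (J.erase j₀).filter (fun j => ¬ j₀ < j))
      (f := fun m : ℕ => 1 / (1 + (b * ((m : ℝ) + 1)) ^ 2)) (g := fun j => j₀ - j - 1) hinj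
    have h2 := spc_aux2 b hbpos
      (((J.erase j₀).filter (fun j => ¬ j₀ < j)).image (fun j => j₀ - j - 1))
    rw [h1] at h2
    refine le_trans (le_of_eq (Finset.sum_congr rfl ?_)) h2
    intro j hj
    rw [Finset.mem_filter, Finset.mem_erase] at hj
    have h3 : ((j₀ - j - 1 : ℕ) : ℝ) + 1 = (j₀ : ℝ) - j := by
      rw [Nat.cast_sub (by omega), Nat.cast_sub (by omega)]
      push_cast
      ring
    rw [h3]
    have : (b * ((j : ℝ) - j₀)) ^ 2 = (b * ((j₀ : ℝ) - j)) ^ 2 := by ring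
    rw [this]
  have h7 : 2 / b = 4 * h / c := by
    rw [hb]
    field_simp
    ring
  rw [h7] at hA hB
  have h8 : 8 * h / c = 4 * h / c + 4 * h / c := by ring
  rw [h8]
  linarith

end Pool.Agent.Helper647.PT
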