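import Pool.Agent.Helper647_PT.Defs
import Pool.Agent.Helper647_GL.Gram
import Pool.Agent.TH949.RES.Tri

set_option autoImplicit false

/-! Gram points near `u` against an arithmetic progression. -/

namespace Pool.Agent.Helper647.PT

open Complex Filter Topology MeasureTheory Set
open Pool.Agent.R304.GR (vt psi vt_deriv vt_cont psi_cont psi_bound vt_upper exp_vt vt_grow)
open Pool.Agent.Helper647.GL (gp gp_spec)
open Pool.Agent.TH949.RES (Tg Tg_near psi_deriv0)

/-- the second derivative of the theta function -/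
lemma psi_hasDeriv {u : ℝ} (hu : 2 ≤ u) : ∃ d : ℝ, |d| ≤ 5 / 2 / u ∧ HasDerivAt psi d u := by
  set w : ℂ := 1 / 4 + I * u / 2 with hw
  have hre : w.re = 1 / 4 := by rw [hw]; simp
  have him : w.im = u / 2 := by rw [hw]; simp
  have habs : |w.im| = u / 2 := by rw [him, abs_of_pos (by linarith)]
  have h1 := psi_deriv0 (z := w) (by rw [hre]; norm_num) (by rw [habs]; linarith)
  have h2 : HasDerivAt (fun t : ℝ => (1 / 4 + I * t / 2 : ℂ)) (I / 2) u := by
    have h3 : HasDerivAt (fun z : ℂ => (1 / 4 + I * z / 2 : ℂ)) (I / 2) (u : ℂ) := by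
      have := ((hasDerivAt_id (u : ℂ)).const_mul I).div_const 2 |>.const_add (1 / 4 : ℂ)
      simpa using this
    exact h3.comp_ofReal
  have h3 : HasDerivAt (fun t : ℝ => logDeriv Gamma (1 / 4 + I * t / 2)) (Tg w * (I / 2)) u :=
    HasDerivAt.comp (h₂ := logDeriv Gamma) (h := fun t : ℝ => (1 / 4 + I * t / 2 : ℂ)) u h1 h2
  have h4 : HasDerivAt (fun t : ℝ => (logDeriv Gamma (1 / 4 + I * t / 2)).re) (Tg w * (I / 2)).re u := by
    exact (Complex.reCLM.hasFDerivAt.comp_hasDerivAt u h3)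
  refine ⟨(Tg w * (I / 2)).re / 2, ?_, ?_⟩
  · have h5 := Tg_near (z := w) (k := 0) (by rw [hre]; norm_num) (by rw [habs]; linarith)
    rw [habs] at h5
    have h6 : ‖Tg w‖ ≤ 2 / u + 4 / (u / 2) ^ 2 := by
      have h7 : ‖(1 : ℂ) / w‖ ≤ 2 / u := by
        rw [norm_div, norm_one]
        have : u / 2 ≤ ‖w‖ := by rw [← habs]; exact Complex.abs_im_le_norm w
        calc 1 / ‖w‖ ≤ 1 / (u / 2) := one_div_le_one_div_of_le (by linarith) this
          _ = 2 / u := by field_simp
      calc ‖Tg w‖ = ‖(Tg w - 1 / w) + 1 / w‖ := by rw [sub_add_cancel]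
        _ ≤ ‖Tg w - 1 / w‖ + ‖1 / w‖ := norm_add_le _ _
        _ ≤ ((0 : ℕ) + 4) / (u / 2) ^ 2 + 2 / u := add_le_add h5 h7
        _ = _ := by push_cast; ring
    have h8 : |(Tg w * (I / 2)).re| ≤ ‖Tg w‖ / 2 := by
      refine (Complex.abs_re_le_norm _).trans ?_
      rw [norm_mul, norm_div, Complex.norm_I]
      have : ‖(2 : ℂ)‖ = 2 := by norm_num
      rw [this]
      exact le_of_eq (by ring)
    have hu0 : 0 < u := by linarith
    have h9 : 4 / (u / 2) ^ 2 ≤ 8 / u := by
      rw [div_le_div_iff₀ (by positivity) hu0]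
      nlinarith
    rw [abs_div, abs_of_pos (by norm_num : (0 : ℝ) < 2)]
    calc |(Tg w * (I / 2)).re| / 2 ≤ ((2 / u + 8 / u) / 2) / 2 := by linarith
      _ = _ := by ring
  · have h5 := (h4.div_const 2).sub_const (Real.log Real.pi / 2)
    have e : psi = fun t : ℝ => (logDeriv Gamma (1 / 4 + I * t / 2)).re / 2 - Real.log Real.pi / 2 := by
      funext t
      unfold psi
      rw [logDeriv_apply]
    rw [e]
    exact h5

/-- the derivative of theta varies slowly -/
lemma psi_lip {T t u : ℝ} (hT : 8 ≤ T) (ht : T / 4 ≤ t) (hu : T / 4 ≤ u) :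
    |psi t - psi u| ≤ 10 / T * |t - u| := by
  have key : ∀ x y : ℝ, T / 4 ≤ x → x ≤ y → |psi y - psi x| ≤ 10 / T * (y - x) := by
    intro x y hx hxy
    rcases eq_or_lt_of_le hxy with rfl | hlt
    · simp
    · choose! d hd1 hd2 using fun (u : ℝ) (hu : 2 ≤ u) => psi_hasDeriv hu
      obtain ⟨c, hc, hc'⟩ := exists_hasDerivAt_eq_slope psi d hlt psi_cont.continuousOn
        (fun v hv => hd2 v (by linarith [hv.1]))
      have h1 : psi y - psi x = d c * (y - x) := by
        rw [hc']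
        have : y - x ≠ 0 := by linarith
        field_simp
      rw [h1, abs_mul, abs_of_pos (by linarith : 0 < y - x)]
      refine mul_le_mul_of_nonneg_right ?_ (by linarith)
      have hcT : T / 4 ≤ c := by linarith [hc.1]
      refine (hd1 c (by linarith)).trans ?_
      rw [div_le_div_iff₀ (by linarith) (by linarith)]
      linarith
  rcases le_total u t with h | h
  · have := key u t hu h
    rwa [abs_of_nonneg (by linarith : 0 ≤ t - u)]
  · have := key t u ht h
    rw [abs_sub_comm, abs_sub_comm t u, abs_of_nonneg (by linarith : 0 ≤ u - t)]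
    exact this

/-- linearisation -/
theorem vt_lin {T t u : ℝ} (hT : 8 ≤ T) (ht : T / 4 ≤ t) (hu : T / 4 ≤ u) :
    |vt t - vt u - psi u * (t - u)| ≤ 10 / T * (t - u) ^ 2 := by
  rcases eq_or_ne t u with rfl | hne
  · simp
  -- the auxiliary function
  set D : ℝ → ℝ := fun s => vt s - psi u * s with hD
  have hDd : ∀ s, HasDerivAt D (psi s - psi u) s := by
    intro s
    have h1 := (vt_deriv s).sub ((hasDerivAt_id s).const_mul (psi u))
    rw [mul_one] at h1
    exact h1
  have hDc : Continuous D := continuous_iff_continuousAt.mpr fun s => (hDd s).continuousAt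
  have key : ∀ x y : ℝ, x < y → T / 4 ≤ x → (x = u ∨ y = u) → |D y - D x| ≤ 10 / T * (y - x) ^ 2 := by
    intro x y hxy hx hor
    obtain ⟨c, hc, hc'⟩ := exists_hasDerivAt_eq_slope D (fun s => psi s - psi u) hxy hDc.continuousOn
      (fun v _ => hDd v)
    have h1 : D y - D x = (psi c - psi u) * (y - x) := by
      rw [hc']
      have : y - x ≠ 0 := by linarith
      field_simp
    have h2 := psi_lip hT (t := c) (u := u) (by linarith [hc.1]) hu
    have h3 : |c - u| ≤ y - x := by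
      rw [abs_le]
      rcases hor with rfl | rfl
      · constructor <;> linarith [hc.1, hc.2]
      · constructor <;> linarith [hc.1, hc.2]
    rw [h1, abs_mul, abs_of_pos (by linarith : 0 < y - x)]
    have hT0 : 0 ≤ 10 / T := by positivity
    calc |psi c - psi u| * (y - x) ≤ (10 / T * (y - x)) * (y - x) := by
          refine mul_le_mul_of_nonneg_right (h2.trans ?_) (by linarith)
          exact mul_le_mul_of_nonneg_left h3 hT0
      _ = _ := by ring
  have e1 : vt t - vt u - psi u * (t - u) = D t - D u := by simp only [hD]; ring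
  rw [e1]
  rcases lt_or_gt_of_ne hne with h | h
  · have := key t u h ht (Or.inr rfl)
    rw [abs_sub_comm, show (t - u) ^ 2 = (u - t) ^ 2 by ring]
    exact this
  · exact key u t h hu (Or.inl rfl)

/-- the size of the derivative of theta -/
theorem psi_size : ∃ C T0 : ℝ, 0 < C ∧ 8 ≤ T0 ∧ ∀ T u : ℝ, T0 ≤ T → T / 4 ≤ u → u ≤ 4 * T →
    |psi u - Real.log T / 2| ≤ C ∧ Real.log T / 4 ≤ psi u ∧ psi u ≤ Real.log T ∧ 4 ≤ psi u := by
  obtain ⟨C, hC, h⟩ := psi_bound
  set C' := C + Real.log 4 with hC'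
  have hl4 : 0 < Real.log 4 := Real.log_pos (by norm_num)
  obtain ⟨A, hA⟩ := (Real.tendsto_log_atTop.eventually_ge_atTop (4 * C' + 20)).exists_forall_of_atTop
  refine ⟨C', max 8 A, by positivity, le_max_left _ _, fun T u hT h1 h2 => ?_⟩
  have hT8 : 8 ≤ T := (le_max_left _ _).trans hT
  have hLT := hA T ((le_max_right _ _).trans hT)
  have h3 := h u (by linarith)
  have h4 : |Real.log u - Real.log T| ≤ Real.log 4 := by
    rw [abs_le]
    constructor
    · have : Real.log (T / 4) ≤ Real.log u := Real.log_le_log (by linarith) h1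
      rw [Real.log_div (by linarith) (by norm_num)] at this
      linarith
    · have : Real.log u ≤ Real.log (4 * T) := Real.log_le_log (by linarith) h2
      rw [Real.log_mul (by norm_num) (by linarith)] at this
      linarith
  have h5 : |psi u - Real.log T / 2| ≤ C' := by
    rw [abs_le] at h3 h4 ⊢
    constructor <;> linarith [h3.1, h3.2, h4.1, h4.2]
  refine ⟨h5, ?_, ?_, ?_⟩ <;> rw [abs_le] at h5 <;> linarith [h5.1, h5.2]

/-- the Gram points in `[T/2, 3T]` -/
noncomputable def JT (T : ℝ) : Finset ℕ :=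
  (Finset.range ⌊T ^ 2⌋₊).filter (fun j => T / 2 ≤ gp j ∧ gp j ≤ 3 * T)

lemma JT_card {T : ℝ} : ((JT T).card : ℝ) ≤ T ^ 2 := by
  have h1 : (JT T).card ≤ ⌊T ^ 2⌋₊ := by
    unfold JT
    refine (Finset.card_filter_le _ _).trans ?_
    rw [Finset.card_range]
  calc ((JT T).card : ℝ) ≤ (⌊T ^ 2⌋₊ : ℝ) := by exact_mod_cast h1
    _ ≤ T ^ 2 := Nat.floor_le (sq_nonneg T)

/-- the step of the progression -/
noncomputable def dl (u : ℝ) : ℝ := Real.pi / psi u

/-- the base point of the progression -/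
noncomputable def ba (u : ℝ) : ℝ := u - vt u / psi u

/-- the facts about the Gram points -/
theorem gram_facts : ∃ T0 : ℝ, 8 ≤ T0 ∧ ∀ T : ℝ, T0 ≤ T →
    (∀ j ∈ JT T, vt (gp j) = j * Real.pi) ∧
    ((JT T).card : ℝ) ≤ 2 * T * Real.log T ∧
    (∀ i ∈ JT T, ∀ j ∈ JT T, 3 / Real.log T * |(j : ℝ) - i| ≤ |gp j - gp i|) ∧
    (∀ u : ℝ, T / 3 ≤ u → u ≤ 7 / 2 * T → ∀ j ∈ JT T, |gp j - u| ≤ T ^ (1 / 20 : ℝ) →
      |ba u + dl u * j - gp j| ≤ T ^ (-(89 / 100) : ℝ)) ∧
    (∀ u : ℝ, T ≤ u → u ≤ 2 * T → ∀ j : ℤ, |ba u + dl u * j - u| ≤ T ^ (1 / 20 : ℝ) / 2 →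
      ∃ n ∈ JT T, (n : ℤ) = j ∧ |gp n - u| ≤ T ^ (1 / 20 : ℝ)) := by
  obtain ⟨C1, T1, hC1, hT1, hps⟩ := psi_size
  obtain ⟨C2, hC2, hup⟩ := vt_upper
  obtain ⟨T2, hT2, hgr⟩ := vt_grow
  obtain ⟨n0, hn0⟩ := gp_spec T2
  -- bound for the first Gram points
  obtain ⟨B, hB⟩ : ∃ B : ℝ, ∀ j < n0, gp j ≤ B := by
    refine ⟨∑ j ∈ Finset.range n0, |gp j|, fun j hj => ?_⟩
    exact (le_abs_self _).trans (Finset.single_le_sum (f := fun j => |gp j|)
      (fun i _ => abs_nonneg _) (Finset.mem_range.mpr hj))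
  -- growth conditions
  have hev : ∀ᶠ T : ℝ in atTop, 3 * T * Real.log (3 * T) / 2 + C2 * (3 * T) < T ^ 2 - 1 ∧
      3 * T * Real.log (3 * T) / 2 + C2 * (3 * T) ≤ 5 * T * Real.log T ∧
      10 / T * (T ^ (1 / 20 : ℝ)) ^ 2 ≤ T ^ (-(89 / 100) : ℝ) ∧ 1 ≤ T ^ (1 / 20 : ℝ) ∧
      T ^ (1 / 20 : ℝ) ≤ T / 12 ∧ 1 ≤ T ∧ 1 ≤ T * Real.log T := by
    have a1 : ∀ᶠ T : ℝ in atTop, Real.log T ≤ T / 100 := by
      have := Real.isLittleO_log_id_atTop.bound (show (0 : ℝ) < 1 / 100 by norm_num)
      filter_upwards [this, eventually_ge_atTop (1 : ℝ)] with T hT hT1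
      rw [Real.norm_eq_abs, Real.norm_eq_abs, id_eq, abs_of_nonneg (Real.log_nonneg hT1),
        abs_of_nonneg (by linarith : (0 : ℝ) ≤ T)] at hT
      linarith
    have a2 : ∀ᶠ T : ℝ in atTop, 2 * Real.log 3 + 3 * C2 + 10 ≤ Real.log T / 2 :=
      by
        filter_upwards [Real.tendsto_log_atTop.eventually_ge_atTop (2 * (2 * Real.log 3 + 3 * C2 + 10))]
          with T hT
        linarith
    have a3 : ∀ᶠ T : ℝ in atTop, (10 : ℝ) ≤ T ^ (1 / 100 : ℝ) :=
      (tendsto_rpow_atTop (by norm_num)).eventually_ge_atTop 10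
    have a4 : ∀ᶠ T : ℝ in atTop, (12 : ℝ) ≤ T ^ (19 / 20 : ℝ) :=
      (tendsto_rpow_atTop (by norm_num)).eventually_ge_atTop 12
    filter_upwards [a1, a2, a3, a4, eventually_ge_atTop (100 : ℝ)] with T b1 b2 b3 b4 b5
    have hT0 : 0 < T := by linarith
    have hl3 : Real.log (3 * T) = Real.log 3 + Real.log T := Real.log_mul (by norm_num) hT0.ne'
    have hlog3 : 0 < Real.log 3 := Real.log_pos (by norm_num)
    refine ⟨?_, ?_, ?_, ?_, ?_, by linarith, ?_⟩
    · rw [hl3]
      nlinarith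
    · rw [hl3]
      nlinarith
    · have e1 : 10 / T * (T ^ (1 / 20 : ℝ)) ^ 2 = 10 * T ^ (-(9 / 10) : ℝ) := by
        rw [← Real.rpow_natCast, ← Real.rpow_mul hT0.le]
        have : T ^ (-(9 / 10) : ℝ) = T ^ (1 / 20 * ((2 : ℕ) : ℝ)) * T⁻¹ := by
          rw [← Real.rpow_neg_one, ← Real.rpow_add hT0]; norm_num
        rw [this]; ring
      have e2 : T ^ (-(89 / 100) : ℝ) = T ^ (1 / 100 : ℝ) * T ^ (-(9 / 10) : ℝ) := by
        rw [← Real.rpow_add hT0]; norm_num
      rw [e1, e2]
      exact mul_le_mul_of_nonneg_right b3 (Real.rpow_nonneg hT0.le _)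
    · exact Real.one_le_rpow (by linarith) (by norm_num)
    · have e3 : T = T ^ (19 / 20 : ℝ) * T ^ (1 / 20 : ℝ) := by
        rw [← Real.rpow_add hT0]; norm_num
      have h5 : 0 < T ^ (1 / 20 : ℝ) := Real.rpow_pos_of_pos hT0 _
      have h6 : 12 * T ^ (1 / 20 : ℝ) ≤ T := by
        calc 12 * T ^ (1 / 20 : ℝ) ≤ T ^ (19 / 20 : ℝ) * T ^ (1 / 20 : ℝ) :=
              mul_le_mul_of_nonneg_right b4 h5.le
          _ = T := e3.symm
      linarith
    · have : 0 < Real.log T := by linarith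
      nlinarith
  obtain ⟨T3, hT3⟩ := hev.exists_forall_of_atTop
  refine ⟨max (max T1 T3) (max (max (2 * B + 8) (2 * |gp n0| + 8)) (4 * T2 + 100)), ?_, fun T hT => ?_⟩
  · exact hT1.trans ((le_max_left _ _).trans (le_max_left _ _))
  have hTT1 : T1 ≤ T := (le_max_left _ _).trans ((le_max_left _ _).trans hT)
  have hTT3 : T3 ≤ T := (le_max_right _ _).trans ((le_max_left _ _).trans hT)
  have hTB : 2 * B + 8 ≤ T :=
    (le_max_left _ _).trans ((le_max_left _ _).trans ((le_max_right _ _).trans hT))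
  have hTn0 : 2 * |gp n0| + 8 ≤ T :=
    (le_max_right _ _).trans ((le_max_left _ _).trans ((le_max_right _ _).trans hT))
  have hTT2 : 4 * T2 + 100 ≤ T := (le_max_right _ _).trans ((le_max_right _ _).trans hT)
  have hT8 : 8 ≤ T := hT1.trans hTT1
  obtain ⟨g1, g2, g3, g4, g5, g6, g7⟩ := hT3 T hTT3
  have hpi := Real.pi_gt_three
  have hpi4 := Real.pi_lt_four
  -- members of JT
  have hmem : ∀ j ∈ JT T, n0 ≤ j ∧ T / 2 ≤ gp j ∧ gp j ≤ 3 * T := by
    intro j hj
    unfold JT at hj
    rw [Finset.mem_filter] at hj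
    refine ⟨?_, hj.2.1, hj.2.2⟩
    by_contra hc
    have := hB j (not_le.mp hc)
    linarith [hj.2.1]
  have hvt : ∀ j ∈ JT T, vt (gp j) = j * Real.pi := fun j hj => (hn0 j (hmem j hj).1).2.2.1
  refine ⟨hvt, ?_, ?_, ?_, ?_⟩
  · -- cardinality
    have h1 : ∀ j ∈ JT T, (j : ℝ) ≤ 5 / 3 * T * Real.log T := by
      intro j hj
      obtain ⟨-, h2, h3⟩ := hmem j hj
      have h4 := hup (gp j) (by linarith)
      have h5 : vt (gp j) ≤ vt (3 * T) := by
        have := hgr (gp j) (3 * T) (by linarith) h3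
        linarith
      have h6 := hup (3 * T) (by linarith)
      rw [hvt j hj] at h5
      have h7 : (j : ℝ) * 3 ≤ j * Real.pi := mul_le_mul_of_nonneg_left hpi.le (Nat.cast_nonneg _)
      linarith
    have h2 : JT T ⊆ Finset.range (⌊5 / 3 * T * Real.log T⌋₊ + 1) := by
      intro j hj
      rw [Finset.mem_range]
      have := Nat.le_floor (h1 j hj)
      omega
    have h3 := Finset.card_le_card h2
    rw [Finset.card_range] at h3
    have h4 : (⌊5 / 3 * T * Real.log T⌋₊ : ℝ) ≤ 5 / 3 * T * Real.log T :=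
      Nat.floor_le (by nlinarith)
    have hbig : 3 ≤ T * Real.log T := by
      have h8 : 4 ≤ psi T := (hps T T hTT1 (by linarith) (by linarith)).2.2.2
      have h9 : psi T ≤ Real.log T := (hps T T hTT1 (by linarith) (by linarith)).2.2.1
      nlinarith
    calc ((JT T).card : ℝ) ≤ ((⌊5 / 3 * T * Real.log T⌋₊ + 1 : ℕ) : ℝ) := by exact_mod_cast h3
      _ ≤ 5 / 3 * T * Real.log T + 1 := by push_cast; linarith
      _ ≤ _ := by linarith
  · -- separation
    have key : ∀ x y : ℝ, T / 2 ≤ x → x ≤ y → y ≤ 3 * T → vt y - vt x ≤ Real.log T * (y - x) := by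
      intro x y hx hxy hy
      rcases eq_or_lt_of_le hxy with rfl | hlt
      · simp
      · obtain ⟨c, hc, hc'⟩ := exists_hasDerivAt_eq_slope vt psi hlt vt_cont.continuousOn
          (fun u _ => vt_deriv u)
        have h1 : vt y - vt x = psi c * (y - x) := by
          rw [hc']
          have : y - x ≠ 0 := by linarith
          field_simp
        rw [h1]
        exact mul_le_mul_of_nonneg_right (hps T c hTT1 (by linarith [hc.1]) (by linarith [hc.2])).2.2.1
          (by linarith)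
    have hlog0 : 0 < Real.log T := by
      have := (hps T T hTT1 (by linarith) (by linarith)).2.2
      linarith [this.1, this.2]
    intro i hi j hj
    obtain ⟨-, i2, i3⟩ := hmem i hi
    obtain ⟨-, j2, j3⟩ := hmem j hj
    rw [div_mul_eq_mul_div, div_le_iff₀ hlog0]
    rcases le_total (gp i) (gp j) with h | h
    · have h1 := key _ _ i2 h j3
      rw [hvt j hj, hvt i hi] at h1
      have h2 : |(j : ℝ) - i| * Real.pi = |(j : ℝ) * Real.pi - i * Real.pi| := by
        rw [← sub_mul, abs_mul, abs_of_pos (by linarith : 0 < Real.pi)]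
      have h3 : 0 ≤ (j : ℝ) * Real.pi - i * Real.pi := by
        rw [← hvt j hj, ← hvt i hi]
        have := hgr (gp i) (gp j) (by linarith) h
        linarith
      rw [abs_of_nonneg h3] at h2
      rw [abs_of_nonneg (by linarith : 0 ≤ gp j - gp i)]
      have h4 : 3 * |(j : ℝ) - i| ≤ |(j : ℝ) - i| * Real.pi := by
        rw [mul_comm]; exact mul_le_mul_of_nonneg_left hpi.le (abs_nonneg _)
      linarith
    · have h1 := key _ _ j2 h i3
      rw [hvt j hj, hvt i hi] at h1
      have h2 : |(j : ℝ) - i| * Real.pi = |(i : ℝ) * Real.pi - j * Real.pi| := by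
        rw [← sub_mul, abs_mul, abs_of_pos (by linarith : 0 < Real.pi), abs_sub_comm]
      have h3 : 0 ≤ (i : ℝ) * Real.pi - j * Real.pi := by
        rw [← hvt j hj, ← hvt i hi]
        have := hgr (gp j) (gp i) (by linarith) h
        linarith
      rw [abs_of_nonneg h3] at h2
      rw [abs_sub_comm (gp j), abs_of_nonneg (by linarith : 0 ≤ gp i - gp j)]
      have h4 : 3 * |(j : ℝ) - i| ≤ |(j : ℝ) - i| * Real.pi := by
        rw [mul_comm]; exact mul_le_mul_of_nonneg_left hpi.le (abs_nonneg _)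
      linarith
  · -- near points
    intro u hu1 hu2 j hj hju
    have hψ := (hps T u hTT1 (by linarith) (by linarith)).2.2.2
    have hψ0 : psi u ≠ 0 := by linarith
    obtain ⟨-, j2, j3⟩ := hmem j hj
    have h1 := vt_lin (t := gp j) (u := u) hT8 (by linarith) (by linarith)
    have e : ba u + dl u * j - gp j = (vt (gp j) - vt u - psi u * (gp j - u)) / psi u := by
      rw [hvt j hj]
      unfold ba dl
      field_simp
      ring
    rw [e, abs_div, abs_of_pos (by linarith : 0 < psi u)]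
    have h2 : (gp j - u) ^ 2 ≤ (T ^ (1 / 20 : ℝ)) ^ 2 := by
      rw [← sq_abs]
      exact pow_le_pow_left₀ (abs_nonneg _) hju 2
    calc |vt (gp j) - vt u - psi u * (gp j - u)| / psi u
        ≤ |vt (gp j) - vt u - psi u * (gp j - u)| := div_le_self (abs_nonneg _) (by linarith)
      _ ≤ 10 / T * (T ^ (1 / 20 : ℝ)) ^ 2 := h1.trans (mul_le_mul_of_nonneg_left h2 (by positivity))
      _ ≤ _ := g3
  · -- points of the progression
    intro u hu1 hu2 j hju
    set ρ := T ^ (1 / 20 : ℝ) with hρ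
    have hψ := (hps T u hTT1 (by linarith) (by linarith)).2.2.2
    have hψ0 : psi u ≠ 0 := by linarith
    have hx : ba u + dl u * j - u = (j * Real.pi - vt u) / psi u := by
      unfold ba dl
      field_simp
      ring
    have h1 : |j * Real.pi - vt u| ≤ psi u * (ρ / 2) := by
      rw [hx, abs_div, abs_of_pos (by linarith : 0 < psi u), div_le_iff₀ (by linarith)] at hju
      linarith
    have hρT : 10 / T * ρ ^ 2 ≤ 1 := by
      refine g3.trans ?_
      exact Real.rpow_le_one_of_one_le_of_nonpos (by linarith) (by norm_num)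
    have h2 := vt_lin (t := u + ρ) (u := u) hT8 (by linarith) (by linarith)
    have h3 := vt_lin (t := u - ρ) (u := u) hT8 (by linarith) (by linarith)
    rw [show u + ρ - u = ρ by ring] at h2
    rw [show u - ρ - u = -ρ by ring, neg_sq] at h3
    rw [abs_le] at h1 h2 h3
    have h4 : vt (u - ρ) ≤ j * Real.pi := by nlinarith
    have h5 : j * Real.pi ≤ vt (u + ρ) := by nlinarith
    obtain ⟨t, ht, hvt'⟩ := intermediate_value_Icc (by linarith : u - ρ ≤ u + ρ) vt_cont.continuousOn
      ⟨h4, h5⟩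
    have ht1 : u - ρ ≤ t := ht.1
    have ht2 : t ≤ u + ρ := ht.2
    have htu : |t - u| ≤ ρ := by rw [abs_le]; constructor <;> linarith
    have hgn : gp n0 < t := by linarith [le_abs_self (gp n0)]
    have h6 := hgr (gp n0) t (hn0 n0 le_rfl).1 hgn.le
    rw [hvt', (hn0 n0 le_rfl).2.2.1] at h6
    have hbig : (n0 : ℝ) < j := by
      by_contra hc
      have hc' : (j : ℝ) ≤ n0 := not_lt.mp hc
      have : (j : ℝ) * Real.pi ≤ n0 * Real.pi := mul_le_mul_of_nonneg_right hc' (by linarith)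
      linarith
    have hbig' : (n0 : ℤ) < j := by exact_mod_cast hbig
    obtain ⟨n, rfl⟩ := Int.eq_ofNat_of_zero_le (by omega : 0 ≤ j)
    have hn : n0 ≤ n := by omega
    push_cast at hvt'
    have htn : t = gp n := (hn0 n hn).2.2.2 t (by linarith) hvt'
    refine ⟨n, ?_, rfl, ?_⟩
    · unfold JT
      rw [Finset.mem_filter, Finset.mem_range]
      refine ⟨?_, by rw [← htn]; linarith, by rw [← htn]; linarith⟩
      have k1 : vt t ≤ vt (3 * T) := by
        have := hgr t (3 * T) (by linarith) (by linarith)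
        linarith
      have k2 := hup (3 * T) (by linarith)
      have k3 : (n : ℝ) ≤ n * Real.pi := by
        nlinarith [Nat.cast_nonneg (α := ℝ) n]
      have k4 : ((n + 1 : ℕ) : ℝ) ≤ T ^ 2 := by push_cast; linarith
      have := Nat.le_floor k4
      omega
    · rw [← htn]; exact htu

end Pool.Agent.Helper647.PT
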