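import Pool.Agent.Helper647_PT.Tp
import Pool.Agent.Helper647_PT.Th1
import Pool.Agent.Helper647_PT.Spc
import Pool.Agent.TH321.GF.AQ

set_option autoImplicit false

/-! Sizes; zeta against its partial sum; the Gram-point data. -/

namespace Pool.Agent.Helper647.PT

open Complex Filter Topology MeasureTheory Set
open Pool.Agent.R304.GR (vt psi exp_vt)
open Pool.Agent.Helper647.GL (gp)

/-- `Pz |Bz|²` -/
noncomputable def F1 (T t : ℝ) : ℂ :=
  Pz (Nn T) t * ((‖Bz (Yn T) (bR (Real.log T)) t‖ ^ 2 : ℝ) : ℂ)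

/-- `Pz Bz²` -/
noncomputable def F2 (T t : ℝ) : ℂ := Pz (Nn T) t * Bz (Yn T) (bR (Real.log T)) t ^ 2

lemma sq_conj (z : ℂ) : ((‖z‖ ^ 2 : ℝ) : ℂ) = z * (starRingEnd ℂ) z := by
  rw [Complex.mul_conj, Complex.normSq_eq_norm_sq]

theorem sizes : ∃ T0 : ℝ, 8 ≤ T0 ∧ ∀ T : ℝ, T0 ≤ T →
    TP (-(101 / 100 * Real.log T)) (1 / 100 * Real.log T) (T ^ (51 / 100 : ℝ) / (2 * Real.log T)) (F1 T) ∧
    TP (-(101 / 100 * Real.log T)) 0 (T ^ (51 / 100 : ℝ) / (2 * Real.log T)) (F2 T) ∧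
    (∀ t, ‖Bz (Yn T) (bR (Real.log T)) t‖ ^ 2 ≤ T ^ (1 / 100 : ℝ)) ∧
    (∀ t, ‖Pz (Nn T) t‖ ≤ T ^ (51 / 100 : ℝ)) ∧ 1 ≤ Real.log T ∧
    (Yn T : ℝ) ≤ T ^ (1 / 500 : ℝ) := by
  obtain ⟨T1, hT1, hY⟩ := Yn_le
  have hev : ∀ᶠ T : ℝ in atTop, 64 * Real.log T ≤ T ^ (8 / 1000 : ℝ) ∧ Real.log 16 ≤ 5 / 1000 * Real.log T ∧
      4 ≤ T ^ (8 / 1000 : ℝ) ∧ 1 ≤ Real.log T := by
    have a1 : ∀ᶠ T : ℝ in atTop, 64 * Real.log T ≤ T ^ (8 / 1000 : ℝ) := by
      have := (isLittleO_log_rpow_atTop (show (0 : ℝ) < 8 / 1000 by norm_num)).bound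
        (show (0 : ℝ) < 1 / 64 by norm_num)
      filter_upwards [this, eventually_ge_atTop (1 : ℝ)] with T hT hT1
      rw [Real.norm_eq_abs, Real.norm_eq_abs, abs_of_nonneg (Real.log_nonneg hT1),
        abs_of_nonneg (Real.rpow_nonneg (by linarith) _)] at hT
      linarith
    have a2 : ∀ᶠ T : ℝ in atTop, 1000 * Real.log 16 ≤ Real.log T :=
      Real.tendsto_log_atTop.eventually_ge_atTop _
    have a3 : ∀ᶠ T : ℝ in atTop, (4 : ℝ) ≤ T ^ (8 / 1000 : ℝ) :=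
      (tendsto_rpow_atTop (by norm_num)).eventually_ge_atTop _
    have a4 : ∀ᶠ T : ℝ in atTop, (1 : ℝ) ≤ Real.log T :=
      Real.tendsto_log_atTop.eventually_ge_atTop _
    filter_upwards [a1, a2, a3, a4] with T b1 b2 b3 b4
    have : 0 ≤ Real.log 16 := Real.log_nonneg (by norm_num)
    exact ⟨b1, by linarith, b3, b4⟩
  obtain ⟨T2, hT2⟩ := hev.exists_forall_of_atTop
  refine ⟨max (max T1 T2) 8, le_max_right _ _, fun T hT => ?_⟩
  have hTT1 : T1 ≤ T := (le_max_left _ _).trans ((le_max_left _ _).trans hT)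
  have hTT2 : T2 ≤ T := (le_max_right _ _).trans ((le_max_left _ _).trans hT)
  have hT8 : 8 ≤ T := (le_max_right _ _).trans hT
  have hT0 : 0 < T := by linarith
  obtain ⟨g1, g2, g3, g4⟩ := hT2 T hTT2
  have hYT := hY T hTT1
  have hY1 : 1 ≤ Yn T := Yn_pos hT0
  have hY1' : (1 : ℝ) ≤ Yn T := by exact_mod_cast hY1
  have hN16 := Nn_le (T := T) (by linarith)
  have hN8 := Nn_ge T
  have hN1 : (1 : ℝ) ≤ Nn T := by linarith
  set β := bR (Real.log T) with hβ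
  have hβ1 : ∀ n, |β n| ≤ 1 := fun n => bR_abs _ _
  have hP := TP.pz (Nn T)
  have hB := TP.bz (Yn T) β hβ1
  -- logarithms
  have l1 : Real.log (Nn T) ≤ Real.log 16 + Real.log T := by
    rw [← Real.log_mul (by norm_num) hT0.ne']
    exact Real.log_le_log (by linarith) hN16
  have l2 : Real.log (Yn T) ≤ 1 / 500 * Real.log T := by
    have := Real.log_le_log (by linarith) hYT
    rwa [Real.log_rpow hT0] at this
  have l3 : 0 ≤ Real.log (Yn T) := Real.log_nonneg hY1'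
  -- sizes
  have s1 : Real.sqrt (Nn T) ≤ 4 * T ^ (1 / 2 : ℝ) := by
    rw [← Real.sqrt_eq_rpow]
    calc Real.sqrt (Nn T) ≤ Real.sqrt (16 * T) := Real.sqrt_le_sqrt hN16
      _ = 4 * Real.sqrt T := by
          rw [Real.sqrt_mul (by norm_num), show (16 : ℝ) = 4 ^ 2 by norm_num, Real.sqrt_sq (by norm_num)]
  have s2 : Real.sqrt (Yn T) * Real.sqrt (Yn T) ≤ T ^ (1 / 500 : ℝ) := by
    rw [Real.mul_self_sqrt (by linarith)]; exact hYT
  have hr0 : 0 < T ^ (1 / 2 : ℝ) := Real.rpow_pos_of_pos hT0 _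
  have hr1 : 0 < T ^ (1 / 500 : ℝ) := Real.rpow_pos_of_pos hT0 _
  have s3 : 2 * Real.sqrt (Nn T) * (2 * Real.sqrt (Yn T) * (2 * Real.sqrt (Yn T))) ≤
      T ^ (51 / 100 : ℝ) / (2 * Real.log T) := by
    rw [le_div_iff₀ (by linarith)]
    have e : T ^ (51 / 100 : ℝ) = T ^ (1 / 2 : ℝ) * T ^ (1 / 500 : ℝ) * T ^ (8 / 1000 : ℝ) := by
      rw [← Real.rpow_add hT0, ← Real.rpow_add hT0]; norm_num
    rw [e]
    calc 2 * Real.sqrt (Nn T) * (2 * Real.sqrt (Yn T) * (2 * Real.sqrt (Yn T))) * (2 * Real.log T)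
        = 8 * Real.sqrt (Nn T) * (Real.sqrt (Yn T) * Real.sqrt (Yn T)) * (2 * Real.log T) := by ring
      _ ≤ 8 * (4 * T ^ (1 / 2 : ℝ)) * (T ^ (1 / 500 : ℝ)) * (2 * Real.log T) := by
          refine mul_le_mul_of_nonneg_right ?_ (by linarith)
          refine mul_le_mul (by linarith) s2 (by positivity) (by positivity)
      _ = T ^ (1 / 2 : ℝ) * T ^ (1 / 500 : ℝ) * (64 * Real.log T) := by ring
      _ ≤ _ := mul_le_mul_of_nonneg_left g1 (by positivity)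
  refine ⟨?_, ?_, ?_, ?_, g4, hYT⟩
  · have h1 := hP.mul (hB.mul hB.conj)
    have e : (fun t => Pz (Nn T) t * (Bz (Yn T) β t * (starRingEnd ℂ) (Bz (Yn T) β t))) = F1 T := by
      funext t
      unfold F1
      rw [sq_conj]
    rw [e] at h1
    refine h1.mono ?_ ?_ s3
    · linarith
    · linarith
  · have h1 := hP.mul (hB.mul hB)
    have e : (fun t => Pz (Nn T) t * (Bz (Yn T) β t * Bz (Yn T) β t)) = F2 T := by
      funext t
      unfold F2
      rw [sq]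
    rw [e] at h1
    refine h1.mono ?_ ?_ s3
    · linarith
    · linarith
  · intro t
    have h1 := hB.norm_le t
    calc ‖Bz (Yn T) β t‖ ^ 2 ≤ (2 * Real.sqrt (Yn T)) ^ 2 := pow_le_pow_left₀ (norm_nonneg _) h1 2
      _ = 4 * (Real.sqrt (Yn T) * Real.sqrt (Yn T)) := by ring
      _ ≤ T ^ (8 / 1000 : ℝ) * T ^ (1 / 500 : ℝ) := mul_le_mul g3 s2 (by positivity) (by positivity)
      _ = _ := by rw [← Real.rpow_add hT0]; norm_num
  · intro t
    have h1 := hP.norm_le t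
    have e : T ^ (51 / 100 : ℝ) = T ^ (1 / 2 : ℝ) * (T ^ (1 / 500 : ℝ) * T ^ (8 / 1000 : ℝ)) := by
      rw [← Real.rpow_add hT0, ← Real.rpow_add hT0]; norm_num
    have h2 : 1 ≤ T ^ (1 / 500 : ℝ) := Real.one_le_rpow (by linarith) (by norm_num)
    have h3 : 8 ≤ T ^ (8 / 1000 : ℝ) := by linarith
    rw [e]
    nlinarith [mul_le_mul h2 h3 (by norm_num) (by linarith)]

/-- zeta against its partial sum -/
theorem zp {T t : ℝ} (hT : 8 ≤ T) (h1 : T / 4 ≤ t) (h2 : t ≤ 4 * T) :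
    ‖riemannZeta (1 / 2 + I * t) - Pz (Nn T) t‖ ≤ 50 / Real.sqrt T := by
  have hN16 := Nn_le (T := T) (by linarith)
  have hN8 := Nn_ge T
  have hN1 : 1 ≤ Nn T := by
    have : (1 : ℝ) ≤ Nn T := by linarith
    exact_mod_cast this
  have h3 := Pool.Agent.TH321.GF.AQ_pw t (Nn T) hN1 (by linarith) (by linarith)
  have e : Pool.Agent.TH612.GS.z t - Pool.Agent.TH612.GS.PN (Nn T) t =
      riemannZeta (1 / 2 + I * t) - Pz (Nn T) t := rfl
  rw [e] at h3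
  refine h3.trans ?_
  have hs : 0 < Real.sqrt T := Real.sqrt_pos.2 (by linarith)
  have hss : Real.sqrt T * Real.sqrt T = T := Real.mul_self_sqrt (by linarith)
  have s1 : Real.sqrt (Nn T) ≤ 4 * Real.sqrt T := by
    calc Real.sqrt (Nn T) ≤ Real.sqrt (16 * T) := Real.sqrt_le_sqrt hN16
      _ = 4 * Real.sqrt T := by
          rw [Real.sqrt_mul (by norm_num), show (16 : ℝ) = 4 ^ 2 by norm_num, Real.sqrt_sq (by norm_num)]
  have s2 : Real.sqrt T ≤ Real.sqrt (Nn T) := Real.sqrt_le_sqrt (by linarith)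
  have a1 : 3 * Real.sqrt (Nn T) / (1 + t) ≤ 48 / Real.sqrt T := by
    rw [div_le_div_iff₀ (by linarith) hs]
    nlinarith
  have a2 : 3 / (2 * Real.sqrt (Nn T)) ≤ 2 / Real.sqrt T := by
    rw [div_le_div_iff₀ (by linarith) hs]
    nlinarith
  calc 3 * Real.sqrt (Nn T) / (1 + t) + 3 / (2 * Real.sqrt (Nn T)) ≤ 48 / Real.sqrt T + 2 / Real.sqrt T :=
        add_le_add a1 a2
    _ = _ := by ring

/-- the weighted values of zeta at the Gram points -/
noncomputable def XX (T : ℝ) (j : ℕ) : ℝ :=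
  (-1) ^ j * (riemannZeta (1 / 2 + I * gp j)).re * ‖Bz (Yn T) (bR (Real.log T)) (gp j)‖ ^ 2

/-- the phase at a Gram point -/
lemma gram_phase {j : ℕ} (h : vt (gp j) = j * Real.pi) : cexp (I * (vt (gp j) : ℂ)) = (-1) ^ j := by
  rw [h]
  have : I * ((j * Real.pi : ℝ) : ℂ) = j * (Real.pi * I) := by push_cast; ring
  rw [this, Complex.exp_nat_mul, Complex.exp_pi_mul_I]

/-- zeta is real at a Gram point -/
lemma gram_real {j : ℕ} (h : vt (gp j) = j * Real.pi) :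
    riemannZeta (1 / 2 + I * gp j) = ((riemannZeta (1 / 2 + I * gp j)).re : ℂ) ∧
    (Pool.Agent.R304.SG.Z (gp j)).re = (-1) ^ j * (riemannZeta (1 / 2 + I * gp j)).re := by
  have h1 := Pool.Agent.R304.SG.Z_im (gp j)
  have h2 : Pool.Agent.R304.SG.Z (gp j) = (-1) ^ j * riemannZeta (1 / 2 + I * gp j) := by
    unfold Pool.Agent.R304.SG.Z
    rw [← exp_vt, gram_phase h]
  have h3 : ((-1 : ℂ)) ^ j = (((-1 : ℝ) ^ j : ℝ) : ℂ) := by push_cast; rfl
  rw [h2, h3, Complex.im_ofReal_mul] at h1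
  have h4 : (riemannZeta (1 / 2 + I * gp j)).im = 0 := by
    rcases mul_eq_zero.1 h1 with h | h
    · exfalso
      exact pow_ne_zero j (by norm_num : (-1 : ℝ) ≠ 0) h
    · exact h
  constructor
  · apply Complex.ext
    · simp
    · rw [Complex.ofReal_im]; exact h4
  · rw [h2, h3, Complex.re_ofReal_mul]

lemma XX_eq {T : ℝ} {j : ℕ} (h : vt (gp j) = j * Real.pi) :
    ((XX T j : ℝ) : ℂ) = (-1) ^ j * (riemannZeta (1 / 2 + I * gp j) *
      ((‖Bz (Yn T) (bR (Real.log T)) (gp j)‖ ^ 2 : ℝ) : ℂ)) := by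
  rw [(gram_real h).1]
  unfold XX
  push_cast
  ring

lemma XX_abs {T : ℝ} {j : ℕ} (h : vt (gp j) = j * Real.pi) :
    |XX T j| = ‖riemannZeta (1 / 2 + I * gp j) * Bz (Yn T) (bR (Real.log T)) (gp j) ^ 2‖ := by
  rw [← Real.norm_eq_abs, ← Complex.norm_real, XX_eq h, norm_mul, norm_mul, norm_mul, norm_pow, norm_neg,
    norm_one, one_pow, one_mul, Complex.norm_real, norm_pow, norm_pow, norm_norm]

/-- the sum of the kernel over the Gram points -/
lemma ker_sum {E : ℝ → ℝ} {C c0 : ℝ} (hE : KE E C c0) {T K : ℝ} (hK : 8 ≤ K) (hL : 1 ≤ Real.log T)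
    (hs : ∀ i ∈ JT T, ∀ j ∈ JT T, 3 / Real.log T * |(j : ℝ) - i| ≤ |gp j - gp i|) (u : ℝ) :
    ∑ j ∈ JT T, 1 / (1 + ((gp j - u) / (K / Real.log T)) ^ 2) ≤ 4 * K ∧
    ∑ j ∈ JT T, E ((gp j - u) / (K / Real.log T)) ^ 2 ≤ 4 * C ^ 2 * K := by
  have hL0 : 0 < Real.log T := by linarith
  have h1 := spc (JT T) gp (3 / Real.log T) (K / Real.log T) u (by positivity) (by positivity) hs
  have h2 : 1 + 8 * (K / Real.log T) / (3 / Real.log T) ≤ 4 * K := by
    have : 8 * (K / Real.log T) / (3 / Real.log T) = 8 / 3 * K := by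
      field_simp
    rw [this]
    linarith
  have h3 := h1.trans h2
  refine ⟨h3, ?_⟩
  have h4 : ∀ j ∈ JT T, E ((gp j - u) / (K / Real.log T)) ^ 2 ≤
      C ^ 2 * (1 / (1 + ((gp j - u) / (K / Real.log T)) ^ 2)) := by
    intro j _
    have := hE.sq_pow (k := 1) (by norm_num) ((gp j - u) / (K / Real.log T))
    rw [pow_one] at this
    refine this.trans (le_of_eq ?_)
    ring
  refine (Finset.sum_le_sum h4).trans ?_
  rw [← Finset.mul_sum]
  calc C ^ 2 * _ ≤ C ^ 2 * (4 * K) := mul_le_mul_of_nonneg_left h3 (sq_nonneg _)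
    _ = _ := by ring

end Pool.Agent.Helper647.PT
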