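import Pool.Agent.Helper647_PT.Defs
import Pool.Agent.Helper647_PT.Poi
import Pool.Agent.Helper647_PT.OnlyW
import Pool.Agent.Helper647_PT.Cmp2

set_option autoImplicit false

/-! Finite sums of exponentials and the summation formula for them. -/

namespace Pool.Agent.Helper647.PT

open Complex Filter Topology MeasureTheory Set

/-- the properties of the kernel -/
structure KE (E : ℝ → ℝ) (C c0 : ℝ) : Prop where
  hC : 0 < C
  hc0 : 0 < c0
  cont : Continuous E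
  lip : ∀ v w : ℝ, |E v - E w| ≤ C * |v - w|
  dec : ∀ v : ℝ, |E v| ≤ C / (1 + v ^ 2) ^ 40
  low : ∀ v : ℝ, |v| ≤ 1 → c0 ≤ E v ^ 2
  ft : ∀ ξ : ℝ, 1 ≤ |ξ| → ∫ v : ℝ, ((E v ^ 2 : ℝ) : ℂ) * cexp (I * ξ * v) = 0

section kernel

variable {E : ℝ → ℝ} {C c0 : ℝ}

lemma KE.sq_le (hE : KE E C c0) (v : ℝ) : E v ^ 2 ≤ C ^ 2 / (1 + v ^ 2) ^ 80 := by
  have h1 : |E v| ^ 2 ≤ (C / (1 + v ^ 2) ^ 40) ^ 2 := pow_le_pow_left₀ (abs_nonneg _) (hE.dec v) 2
  rw [sq_abs, div_pow, ← pow_mul] at h1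
  exact h1

lemma KE.sq_pow (hE : KE E C c0) {k : ℕ} (hk : k ≤ 80) (v : ℝ) : E v ^ 2 ≤ C ^ 2 / (1 + v ^ 2) ^ k := by
  refine (hE.sq_le v).trans ?_
  apply div_le_div_of_nonneg_left (sq_nonneg _) (by positivity)
  exact pow_le_pow_right₀ (by nlinarith [sq_nonneg v]) hk

lemma KE.sq_abs2 (hE : KE E C c0) (v : ℝ) : |E v ^ 2| ≤ C ^ 2 / (1 + v ^ 2) ^ 2 := by
  rw [abs_of_nonneg (sq_nonneg _)]
  exact hE.sq_pow (by norm_num) v

/-- the weighted kernel is integrable -/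
lemma KE.int_w (hE : KE E C c0) : Integrable fun v : ℝ => (1 + v ^ 2) ^ 40 * E v ^ 2 := by
  refine Integrable.mono' (integrable_inv_one_add_sq.const_mul (C ^ 2)) ?_ (ae_of_all _ fun v => ?_)
  · exact ((by fun_prop : Continuous fun v : ℝ => (1 + v ^ 2) ^ 40).mul (hE.cont.pow 2)).aestronglyMeasurable
  · have h0 : (0 : ℝ) < 1 + v ^ 2 := by positivity
    rw [Real.norm_eq_abs, abs_of_nonneg (by positivity)]
    have h1 := hE.sq_pow (k := 41) (by norm_num) v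
    calc (1 + v ^ 2) ^ 40 * E v ^ 2 ≤ (1 + v ^ 2) ^ 40 * (C ^ 2 / (1 + v ^ 2) ^ 41) :=
          mul_le_mul_of_nonneg_left h1 (by positivity)
      _ = C ^ 2 * (1 + v ^ 2)⁻¹ := by field_simp

/-- the weighted mass -/
noncomputable def mW (E : ℝ → ℝ) : ℝ := ∫ v : ℝ, (1 + v ^ 2) ^ 40 * E v ^ 2

lemma mW_nonneg (E : ℝ → ℝ) : 0 ≤ mW E := integral_nonneg fun v => by positivity

lemma KE.int_sq (hE : KE E C c0) : Integrable fun v : ℝ => E v ^ 2 := by
  refine Integrable.mono' hE.int_w (hE.cont.pow 2).aestronglyMeasurable (ae_of_all _ fun v => ?_)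
  rw [Real.norm_eq_abs, abs_of_nonneg (sq_nonneg _)]
  have : 1 ≤ (1 + v ^ 2) ^ 40 := one_le_pow₀ (by nlinarith [sq_nonneg v])
  nlinarith [sq_nonneg (E v)]

lemma KE.int_sq_le (hE : KE E C c0) : ∫ v, E v ^ 2 ≤ mW E := by
  unfold mW
  refine integral_mono hE.int_sq hE.int_w fun v => ?_
  have : 1 ≤ (1 + v ^ 2) ^ 40 := one_le_pow₀ (by nlinarith [sq_nonneg v])
  simp only
  nlinarith [sq_nonneg (E v)]

/-- the mass of the kernel is positive -/
lemma KE.int_sq_pos (hE : KE E C c0) : 2 * c0 ≤ ∫ v, E v ^ 2 := by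
  have h1 : ∫ v in (-1 : ℝ)..1, E v ^ 2 ≤ ∫ v, E v ^ 2 := by
    rw [intervalIntegral.integral_of_le (by norm_num)]
    exact setIntegral_le_integral hE.int_sq (ae_of_all _ fun v => sq_nonneg _)
  have h2 : ∫ v in (-1 : ℝ)..1, c0 ≤ ∫ v in (-1 : ℝ)..1, E v ^ 2 := by
    refine intervalIntegral.integral_mono_on (by norm_num) (by simp)
      ((hE.cont.pow 2).intervalIntegrable _ _) fun v hv => ?_
    exact hE.low v (abs_le.2 ⟨hv.1, hv.2⟩)
  rw [intervalIntegral.integral_const] at h2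
  norm_num at h2
  linarith

variable {V : Type*} [NormedAddCommGroup V] [NormedSpace ℝ V]

lemma KE.int_smul (hE : KE E C c0) {f : ℝ → V} (hf : Continuous f) {B : ℝ}
    (hB : ∀ v, ‖f v‖ ≤ B * (1 + v ^ 2) ^ 40) : Integrable fun v => (E v ^ 2) • f v := by
  refine Integrable.mono' (hE.int_w.const_mul B) ((hE.cont.pow 2).smul hf).aestronglyMeasurable
    (ae_of_all _ fun v => ?_)
  rw [norm_smul, Real.norm_eq_abs, abs_of_nonneg (sq_nonneg _)]
  nlinarith [hB v, sq_nonneg (E v)]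

lemma KE.norm_int_le (hE : KE E C c0) {f : ℝ → V} {B : ℝ}
    (hB : ∀ v, ‖f v‖ ≤ B * (1 + v ^ 2) ^ 40) : ‖∫ v, (E v ^ 2) • f v‖ ≤ B * mW E := by
  unfold mW
  rw [← integral_const_mul]
  refine norm_integral_le_of_norm_le (hE.int_w.const_mul B) (ae_of_all _ fun v => ?_)
  rw [norm_smul, Real.norm_eq_abs, abs_of_nonneg (sq_nonneg _)]
  nlinarith [hB v, sq_nonneg (E v)]

/-- change of variables -/
lemma cov (φ : ℝ → ℝ) (f : ℝ → V) {h : ℝ} (hh : 0 < h) (u : ℝ) :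
    ∫ t, φ ((t - u) / h) • f t = h • ∫ v, φ v • f (u + h * v) := by
  have h1 : ∀ t : ℝ, φ ((t - u) / h) • f t = (fun y : ℝ => φ (y / h) • f (u + h * (y / h))) (t - u) := by
    intro t
    simp only
    congr 2
    field_simp
    ring
  simp_rw [h1]
  rw [integral_sub_right_eq_self (fun y : ℝ => φ (y / h) • f (u + h * (y / h))) u]
  rw [Measure.integral_comp_div (fun v : ℝ => φ v • f (u + h * v)) h, abs_of_pos hh]

/-- integrability on the product -/
lemma KE.int_prod (hE : KE E C c0) {G : ℝ → V} (hG : Continuous G) {B : ℝ} (hB : ∀ t, ‖G t‖ ≤ B)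
    (h U1 U2 : ℝ) : Integrable (Function.uncurry fun u v : ℝ => (E v ^ 2) • G (u + h * v))
      ((volume.restrict (Ioc U1 U2)).prod volume) := by
  have h1 : Integrable (fun p : ℝ × ℝ => (B : ℝ) * (E p.2 ^ 2))
      ((volume.restrict (Ioc U1 U2)).prod volume) :=
    Integrable.mul_prod (f := fun _ : ℝ => B) (g := fun v : ℝ => E v ^ 2)
      (integrable_const B) hE.int_sq
  refine Integrable.mono' h1 ?_ (ae_of_all _ fun p => ?_)
  · have hc : Continuous (Function.uncurry fun u v : ℝ => (E v ^ 2) • G (u + h * v)) := by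
      have : Continuous fun p : ℝ × ℝ => (E p.2 ^ 2) • G (p.1 + h * p.2) :=
        ((hE.cont.comp continuous_snd).pow 2).smul
          (hG.comp (continuous_fst.add (continuous_const.mul continuous_snd)))
      exact this
    exact hc.aestronglyMeasurable
  · simp only [Function.uncurry]
    rw [norm_smul, Real.norm_eq_abs, abs_of_nonneg (sq_nonneg _)]
    nlinarith [hB (p.1 + h * p.2), sq_nonneg (E p.2)]

/-- exchange of integrations -/
lemma KE.swp [CompleteSpace V] (hE : KE E C c0) {G : ℝ → V} (hG : Continuous G) {B : ℝ} (hB : ∀ t, ‖G t‖ ≤ B)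
    (h : ℝ) {U1 U2 : ℝ} (hU : U1 ≤ U2) :
    IntervalIntegrable (fun u => ∫ v, (E v ^ 2) • G (u + h * v)) volume U1 U2 ∧
    Integrable (fun v => (E v ^ 2) • ∫ u in U1..U2, G (u + h * v)) ∧
    ∫ u in U1..U2, ∫ v, (E v ^ 2) • G (u + h * v) =
      ∫ v, (E v ^ 2) • ∫ u in U1..U2, G (u + h * v) := by
  have h1 := hE.int_prod hG hB h U1 U2
  have e : ∀ v : ℝ, (E v ^ 2) • ∫ u in U1..U2, G (u + h * v) =
      ∫ u in Ioc U1 U2, (E v ^ 2) • G (u + h * v) := by
    intro v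
    rw [intervalIntegral.integral_of_le hU, integral_smul]
  refine ⟨?_, ?_, ?_⟩
  · rw [intervalIntegrable_iff_integrableOn_Ioc_of_le hU]
    exact h1.integral_prod_left
  · simp_rw [e]
    exact h1.integral_prod_right
  · simp_rw [e]
    rw [intervalIntegral.integral_of_le hU]
    exact integral_integral_swap h1

end kernel

/-- `F` is a finite sum of exponentials with frequencies in `[lo, hi]` and coefficient sum at most `M` -/
def TP (lo hi M : ℝ) (F : ℝ → ℂ) : Prop :=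
  ∃ (ι : Type) (s : Finset ι) (c : ι → ℂ) (w : ι → ℝ), (∀ i ∈ s, lo ≤ w i ∧ w i ≤ hi) ∧
    ∑ i ∈ s, ‖c i‖ ≤ M ∧ ∀ t : ℝ, F t = ∑ i ∈ s, c i * cexp (I * w i * t)

lemma norm_cexp_I (x : ℝ) : ‖cexp (I * x)‖ = 1 := by
  rw [mul_comm]; exact Complex.norm_exp_ofReal_mul_I x

lemma norm_cexp_I2 (w t : ℝ) : ‖cexp (I * w * t)‖ = 1 := by
  have := norm_cexp_I (w * t)
  rw [Complex.ofReal_mul, ← mul_assoc] at this
  exact this

lemma cexp_lip (w t t' : ℝ) : ‖cexp (I * w * t) - cexp (I * w * t')‖ ≤ |w| * |t - t'| := by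
  have e : cexp (I * w * t) - cexp (I * w * t') =
      cexp (I * w * t') * (cexp (I * ((w * (t - t') : ℝ) : ℂ)) - 1) := by
    rw [mul_sub, ← Complex.exp_add, mul_one]
    congr 2
    push_cast; ring
  rw [e, norm_mul, norm_cexp_I2, one_mul, ← abs_mul]
  exact Real.norm_exp_I_mul_ofReal_sub_one_le

namespace TP

variable {lo hi M : ℝ} {F : ℝ → ℂ}

lemma mono (hF : TP lo hi M F) {lo' hi' M' : ℝ} (h1 : lo' ≤ lo) (h2 : hi ≤ hi') (h3 : M ≤ M') :
    TP lo' hi' M' F := by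
  obtain ⟨ι, s, c, w, a1, a2, a3⟩ := hF
  exact ⟨ι, s, c, w, fun i hi => ⟨h1.trans (a1 i hi).1, (a1 i hi).2.trans h2⟩, a2.trans h3, a3⟩

lemma nonneg (hF : TP lo hi M F) : 0 ≤ M := by
  obtain ⟨ι, s, c, w, a1, a2, a3⟩ := hF
  exact (Finset.sum_nonneg fun i _ => norm_nonneg _).trans a2

lemma norm_le (hF : TP lo hi M F) (t : ℝ) : ‖F t‖ ≤ M := by
  obtain ⟨ι, s, c, w, a1, a2, a3⟩ := hF
  rw [a3]
  refine (norm_sum_le _ _).trans (le_trans (le_of_eq ?_) a2)
  refine Finset.sum_congr rfl fun i _ => ?_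
  rw [norm_mul, norm_cexp_I2, mul_one]

lemma cont (hF : TP lo hi M F) : Continuous F := by
  obtain ⟨ι, s, c, w, a1, a2, a3⟩ := hF
  have : F = fun t : ℝ => ∑ i ∈ s, c i * cexp (I * w i * t) := funext a3
  rw [this]
  fun_prop

lemma lip (hF : TP lo hi M F) {R : ℝ} (hR : 0 ≤ R) (h1 : -R ≤ lo) (h2 : hi ≤ R) (t t' : ℝ) :
    ‖F t - F t'‖ ≤ R * M * |t - t'| := by
  have hM := hF.nonneg
  obtain ⟨ι, s, c, w, a1, a2, a3⟩ := hF
  rw [a3, a3, ← Finset.sum_sub_distrib]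
  refine (norm_sum_le _ _).trans ?_
  have hb : ∀ i ∈ s, ‖c i * cexp (I * w i * t) - c i * cexp (I * w i * t')‖ ≤ ‖c i‖ * (R * |t - t'|) := by
    intro i hi
    rw [← mul_sub, norm_mul]
    refine mul_le_mul_of_nonneg_left ((cexp_lip _ _ _).trans ?_) (norm_nonneg _)
    refine mul_le_mul_of_nonneg_right ?_ (abs_nonneg _)
    exact abs_le.2 ⟨h1.trans (a1 i hi).1, (a1 i hi).2.trans h2⟩
  refine (Finset.sum_le_sum hb).trans ?_
  rw [← Finset.sum_mul]
  calc (∑ i ∈ s, ‖c i‖) * (R * |t - t'|) ≤ M * (R * |t - t'|) :=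
        mul_le_mul_of_nonneg_right a2 (by positivity)
    _ = _ := by ring

lemma mul (hF : TP lo hi M F) {lo' hi' M' : ℝ} {G : ℝ → ℂ} (hG : TP lo' hi' M' G) :
    TP (lo + lo') (hi + hi') (M * M') (fun t => F t * G t) := by
  have hM := hF.nonneg
  obtain ⟨ι, s, c, w, a1, a2, a3⟩ := hF
  obtain ⟨ι', s', c', w', b1, b2, b3⟩ := hG
  refine ⟨ι × ι', s ×ˢ s', fun p => c p.1 * c' p.2, fun p => w p.1 + w' p.2, ?_, ?_, ?_⟩
  · intro p hp
    rw [Finset.mem_product] at hp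
    exact ⟨add_le_add (a1 _ hp.1).1 (b1 _ hp.2).1, add_le_add (a1 _ hp.1).2 (b1 _ hp.2).2⟩
  · rw [Finset.sum_product]
    simp only [norm_mul]
    simp_rw [← Finset.mul_sum]
    rw [← Finset.sum_mul]
    exact mul_le_mul a2 b2 (Finset.sum_nonneg fun i _ => norm_nonneg _) hM
  · intro t
    simp only
    rw [a3, b3, Finset.sum_product, Finset.sum_mul_sum]
    refine Finset.sum_congr rfl fun i _ => Finset.sum_congr rfl fun j _ => ?_
    rw [mul_mul_mul_comm, ← Complex.exp_add]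
    congr 2
    push_cast; ring

lemma conj (hF : TP lo hi M F) : TP (-hi) (-lo) M (fun t => (starRingEnd ℂ) (F t)) := by
  obtain ⟨ι, s, c, w, a1, a2, a3⟩ := hF
  refine ⟨ι, s, fun i => (starRingEnd ℂ) (c i), fun i => -w i, ?_, ?_, ?_⟩
  · intro i hi
    exact ⟨neg_le_neg (a1 i hi).2, neg_le_neg (a1 i hi).1⟩
  · simpa using a2
  · intro t
    simp only
    rw [a3, map_sum]
    refine Finset.sum_congr rfl fun i _ => ?_
    rw [map_mul, ← Complex.exp_conj]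
    congr 2
    simp

/-- one exponential -/
lemma expo (w : ℝ) (c : ℂ) : TP w w ‖c‖ (fun t => c * cexp (I * w * t)) :=
  ⟨Unit, {()}, fun _ => c, fun _ => w, fun _ _ => ⟨le_rfl, le_rfl⟩, by simp, fun t => by simp⟩

lemma dir (N : ℕ) (b : ℕ → ℝ) (hb : ∀ n, |b n| ≤ 1) :
    TP (-Real.log N) 0 (2 * Real.sqrt N)
      (fun t => ∑ n ∈ Finset.Icc 1 N, ((b n : ℝ) : ℂ) * (n : ℂ) ^ (-(1 / 2 + I * t))) := by
  refine ⟨ℕ, Finset.Icc 1 N, fun n => ((b n / Real.sqrt n : ℝ) : ℂ), fun n => -Real.log n, ?_, ?_, ?_⟩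
  · intro n hn
    rw [Finset.mem_Icc] at hn
    have h1 : (1 : ℝ) ≤ n := by exact_mod_cast hn.1
    have h2 : (n : ℝ) ≤ N := by exact_mod_cast hn.2
    exact ⟨neg_le_neg (Real.log_le_log (by linarith) h2), by linarith [Real.log_nonneg h1]⟩
  · have h1 : ∀ n ∈ Finset.Icc 1 N, ‖((b n / Real.sqrt n : ℝ) : ℂ)‖ ≤
        2 * (Real.sqrt n - Real.sqrt ((n - 1 : ℕ) : ℝ)) := by
      intro n hn
      rw [Finset.mem_Icc] at hn
      have h1 : (1 : ℝ) ≤ n := by exact_mod_cast hn.1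
      have hs : 0 < Real.sqrt n := Real.sqrt_pos.2 (by linarith)
      rw [Complex.norm_real, Real.norm_eq_abs, abs_div, abs_of_pos hs]
      have h2 : |b n| / Real.sqrt n ≤ 1 / Real.sqrt n := div_le_div_of_nonneg_right (hb n) hs.le
      refine h2.trans ?_
      have h3 : ((n - 1 : ℕ) : ℝ) = n - 1 := by
        rw [Nat.cast_sub hn.1]; simp
      rw [h3]
      have h4 : Real.sqrt (n - 1) ≤ Real.sqrt n := Real.sqrt_le_sqrt (by linarith)
      have h5 : Real.sqrt n ^ 2 = n := Real.sq_sqrt (by linarith)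
      have h6 : Real.sqrt (n - 1) ^ 2 = n - 1 := Real.sq_sqrt (by linarith)
      have h7 : 0 ≤ Real.sqrt ((n : ℝ) - 1) := Real.sqrt_nonneg _
      rw [div_le_iff₀ hs]
      nlinarith
    refine (Finset.sum_le_sum h1).trans ?_
    rw [← Finset.mul_sum]
    have h2 : ∀ N : ℕ, ∑ n ∈ Finset.Icc 1 N, (Real.sqrt n - Real.sqrt ((n - 1 : ℕ) : ℝ)) = Real.sqrt N := by
      intro N
      induction N with
      | zero => simp
      | succ N ih =>
        rw [Finset.sum_Icc_succ_top (by omega), ih]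
        simp
    rw [h2]
  · intro t
    refine Finset.sum_congr rfl fun n hn => ?_
    rw [Finset.mem_Icc] at hn
    rw [onlyW_pow n hn.1]
    push_cast
    have : cexp (-(I * (Real.log n : ℂ) * t)) = cexp (I * (-(Real.log n : ℂ)) * t) := by
      congr 1; ring
    rw [Complex.natCast_log] at *
    rw [this]
    ring

lemma pz (N : ℕ) : TP (-Real.log N) 0 (2 * Real.sqrt N) (Pz N) := by
  have h := dir N (fun _ => 1) (fun _ => by norm_num)
  have : (fun t : ℝ => ∑ n ∈ Finset.Icc 1 N, (((fun _ : ℕ => (1 : ℝ)) n : ℝ) : ℂ) *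
      (n : ℂ) ^ (-(1 / 2 + I * t))) = Pz N := by
    funext t
    unfold Pz
    refine Finset.sum_congr rfl fun n _ => ?_
    simp
  rw [this] at h
  exact h

lemma bz (Y : ℕ) (β : ℕ → ℝ) (hβ : ∀ n, |β n| ≤ 1) :
    TP (-Real.log Y) 0 (2 * Real.sqrt Y) (Bz Y β) := dir Y β hβ

/-- the summation formula -/
theorem poisson (hF : TP lo hi M F) {E : ℝ → ℝ} {C c0 : ℝ} (hE : KE E C c0) {h δ : ℝ} (a u : ℝ)
    (hh : 0 < h) (hδ : 0 < δ) (S : Finset ℤ)
    (hS : ∀ l : ℤ, l ∉ S → ∀ ω : ℝ, lo ≤ ω → ω ≤ hi → 1 / h ≤ |ω - 2 * Real.pi * l / δ|) :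
    ∑' j : ℤ, F (a + δ * j) * ((E ((a + δ * j - u) / h) ^ 2 : ℝ) : ℂ) =
      (1 / δ) * ∑ l ∈ S, ∫ t : ℝ, F t * cexp (-(I * (2 * Real.pi * l / δ) * (t - a))) *
        ((E ((t - u) / h) ^ 2 : ℝ) : ℂ) := by
  obtain ⟨ι, s, c, w, a1, a2, a3⟩ := hF
  have hφi : Integrable fun t : ℝ => E ((t - u) / h) ^ 2 := by
    exact (hE.int_sq.comp_div hh.ne').comp_sub_right u
  have hφc : Continuous fun t : ℝ => E ((t - u) / h) ^ 2 := by
    have := hE.cont
    fun_prop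
  -- series
  have hsum : ∀ i ∈ s, Summable fun j : ℤ => c i * (cexp (I * w i * (a + δ * j)) *
      ((E ((a + δ * j - u) / h) ^ 2 : ℝ) : ℂ)) := by
    intro i _
    refine Summable.mul_left _ ?_
    have hs := (Cmp2Aux.summ (δ / h) ((a - u) / h) (by positivity)).mul_left (C ^ 2)
    refine Summable.of_norm_bounded hs fun j => ?_
    have e1 : ‖cexp (I * w i * (a + δ * j))‖ = 1 := by
      have := norm_cexp_I2 (w i) (a + δ * j)
      push_cast at this
      exact this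
    rw [norm_mul, e1, one_mul, Complex.norm_real, Real.norm_eq_abs, abs_of_nonneg (sq_nonneg _)]
    have e : (a + δ * j - u) / h = δ / h * j + (a - u) / h := by ring
    rw [e]
    have := hE.sq_pow (k := 1) (by norm_num) (δ / h * j + (a - u) / h)
    rw [pow_one] at this
    refine this.trans (le_of_eq ?_)
    ring
  have e2 : ∑' j : ℤ, F (a + δ * j) * ((E ((a + δ * j - u) / h) ^ 2 : ℝ) : ℂ) =
      ∑ i ∈ s, c i * ∑' j : ℤ, cexp (I * w i * (a + δ * j)) *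
        ((E ((a + δ * j - u) / h) ^ 2 : ℝ) : ℂ) := by
    rw [show (∑ i ∈ s, c i * ∑' j : ℤ, cexp (I * w i * (a + δ * j)) *
        ((E ((a + δ * j - u) / h) ^ 2 : ℝ) : ℂ)) = ∑ i ∈ s, ∑' j : ℤ, c i * (cexp (I * w i * (a + δ * j)) *
        ((E ((a + δ * j - u) / h) ^ 2 : ℝ) : ℂ)) from
      Finset.sum_congr rfl fun i _ => tsum_mul_left.symm]
    rw [← Summable.tsum_finsetSum hsum]
    refine tsum_congr fun j => ?_
    rw [a3, Finset.sum_mul]
    refine Finset.sum_congr rfl fun i _ => ?_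
    push_cast
    ring
  rw [e2]
  have e3 : ∀ i ∈ s, ∑' j : ℤ, cexp (I * w i * (a + δ * j)) *
      ((E ((a + δ * j - u) / h) ^ 2 : ℝ) : ℂ) =
      (1 / δ) * ∑ l ∈ S, ∫ t : ℝ, cexp (I * w i * t) * cexp (-(I * (2 * Real.pi * l / δ) * (t - a))) *
        ((E ((t - u) / h) ^ 2 : ℝ) : ℂ) := fun i hi =>
    poi (fun v => E v ^ 2) (C ^ 2) (hE.cont.pow 2) hE.sq_abs2 hE.ft h δ a u (w i) hh hδ S
      (fun l hl => hS l hl (w i) (a1 i hi).1 (a1 i hi).2)
  rw [Finset.sum_congr rfl fun i hi => by rw [e3 i hi]]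
  have hint : ∀ (i : ι) (l : ℤ), Integrable fun t : ℝ => c i * (cexp (I * w i * t) *
      cexp (-(I * (2 * Real.pi * l / δ) * (t - a))) * ((E ((t - u) / h) ^ 2 : ℝ) : ℂ)) := by
    intro i l
    refine Integrable.const_mul ?_ _
    refine Integrable.mono' hφi ?_ (ae_of_all _ fun t => ?_)
    · have := hφc
      exact (by fun_prop : Continuous fun t : ℝ => cexp (I * w i * t) *
        cexp (-(I * (2 * Real.pi * l / δ) * (t - a))) * ((E ((t - u) / h) ^ 2 : ℝ) : ℂ)).aestronglyMeasurable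
    · have e1 : ‖cexp (-(I * (2 * Real.pi * l / δ) * (t - a)))‖ = 1 := by
        have := norm_cexp_I (-(2 * Real.pi * l / δ * (t - a)))
        rw [← this]
        congr 2
        push_cast; ring
      rw [norm_mul, norm_mul, norm_cexp_I2, e1, one_mul, one_mul, Complex.norm_real, Real.norm_eq_abs,
        abs_of_nonneg (sq_nonneg _)]
  rw [show (∑ i ∈ s, c i * ((1 / (δ : ℂ)) * ∑ l ∈ S, ∫ t : ℝ, cexp (I * w i * t) *
      cexp (-(I * (2 * Real.pi * l / δ) * (t - a))) * ((E ((t - u) / h) ^ 2 : ℝ) : ℂ))) =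
      (1 / (δ : ℂ)) * ∑ i ∈ s, ∑ l ∈ S, ∫ t : ℝ, c i * (cexp (I * w i * t) *
      cexp (-(I * (2 * Real.pi * l / δ) * (t - a))) * ((E ((t - u) / h) ^ 2 : ℝ) : ℂ)) from by
    rw [Finset.mul_sum]
    refine Finset.sum_congr rfl fun i _ => ?_
    simp_rw [integral_const_mul]
    rw [← Finset.mul_sum]
    ring]
  rw [Finset.sum_comm]
  congr 1
  refine Finset.sum_congr rfl fun l _ => ?_
  rw [← integral_finsetSum _ fun i _ => hint i l]
  refine integral_congr_ae (ae_of_all _ fun t => ?_)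
  simp only
  rw [a3, Finset.sum_mul, Finset.sum_mul]
  refine Finset.sum_congr rfl fun i _ => ?_
  ring

end TP

end Pool.Agent.Helper647.PT
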